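import Mathlib

/-!
Basic definitions for the greedy random walk (GRW) with the uniform rule, and
the parity invariant on graphs all of whose degrees are even.
-/

open MeasureTheory Finset
open scoped ENNReal

namespace Pool.Agent.H575R3.GRW

variable {V : Type*} [DecidableEq V]

/-- The set of edges crossed by the sequence `x` up to time `t`. -/
def crossed (x : ℕ → V) (t : ℕ) : Finset (Sym2 V) :=
  (Finset.range t).image (fun s => s(x s, x (s + 1)))

/-- The neighbours `w` of the position `x t` such that the edge from `x t` to `w` has not been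
crossed up to time `t`. -/
def fresh (G : SimpleGraph V) [G.LocallyFinite] (x : ℕ → V) (t : ℕ) : Finset V :=
  (G.neighborFinset (x t)).filter (fun w => s(x t, w) ∉ crossed x t)

/-- The conditional probability that the greedy random walk moves to `y` at time `t + 1`, given
that its positions up to time `t` are `x 0, ..., x t`. -/
noncomputable def stepProb (G : SimpleGraph V) [G.LocallyFinite] (x : ℕ → V) (t : ℕ) (y : V) :
    ℝ≥0∞ :=
  if (fresh G x t).Nonempty then
    (if y ∈ fresh G x t then ((fresh G x t).card : ℝ≥0∞)⁻¹ else 0)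
  else
    (if y ∈ G.neighborFinset (x t) then ((G.neighborFinset (x t)).card : ℝ≥0∞)⁻¹ else 0)

/-- `IsGRW G o P X` says that under the probability measure `P` the process `X` is the greedy
random walk (uniform rule) on `G` started at `o`. -/
structure IsGRW {Ω : Type*} [MeasurableSpace Ω] (G : SimpleGraph V) [G.LocallyFinite] (o : V)
    (P : Measure Ω) (X : ℕ → Ω → V) : Prop where
  prob : P Set.univ = 1
  meas : ∀ t v, MeasurableSet {ω | X t ω = v}
  start : P {ω | X 0 ω = o} = 1
  trans : ∀ (t : ℕ) (x : ℕ → V) (y : V),
    P {ω | (∀ s ≤ t, X s ω = x s) ∧ X (t + 1) ω = y} =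
      P {ω | ∀ s ≤ t, X s ω = x s} * stepProb G x t y

section basic

variable (G : SimpleGraph V) [G.LocallyFinite]

lemma crossed_zero (x : ℕ → V) : crossed x 0 = ∅ := by simp [crossed]

lemma crossed_succ (x : ℕ → V) (t : ℕ) :
    crossed x (t + 1) = insert s(x t, x (t + 1)) (crossed x t) := by
  simp [crossed, Finset.range_add_one, Finset.image_insert]

lemma crossed_mono (x : ℕ → V) {s t : ℕ} (h : s ≤ t) : crossed x s ⊆ crossed x t := by
  unfold crossed
  exact Finset.image_subset_image (by
    intro a ha
    simp only [Finset.mem_range] at *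
    omega)

lemma crossed_congr {x y : ℕ → V} {t : ℕ} (h : ∀ s ≤ t, x s = y s) :
    crossed x t = crossed y t := by
  unfold crossed
  apply Finset.image_congr
  intro s hs
  have hs' : s < t := by simpa using hs
  simp only
  rw [h s (by omega), h (s + 1) (by omega)]

lemma fresh_congr {x y : ℕ → V} {t : ℕ} (h : ∀ s ≤ t, x s = y s) :
    fresh G x t = fresh G y t := by
  unfold fresh
  rw [crossed_congr h]
  congr 1
  · rw [h t le_rfl]
  · rw [h t le_rfl]

lemma stepProb_congr {x y : ℕ → V} {t : ℕ} (h : ∀ s ≤ t, x s = y s) (z : V) :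
    stepProb G x t z = stepProb G y t z := by
  unfold stepProb
  have h1 := fresh_congr G h
  have h2 : G.neighborFinset (x t) = G.neighborFinset (y t) := by rw [h t le_rfl]
  rw [h1, h2]

/-- A sequence is valid when every step has positive conditional probability. -/
def Valid (x : ℕ → V) : Prop := ∀ t, stepProb G x t (x (t + 1)) ≠ 0

variable {G}

lemma Valid.fresh_mem {x : ℕ → V} (h : Valid G x) {t : ℕ} (hf : (fresh G x t).Nonempty) :
    x (t + 1) ∈ fresh G x t := by
  have := h t
  unfold stepProb at this
  rw [if_pos hf] at this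
  by_contra hc
  rw [if_neg hc] at this
  exact this rfl

lemma Valid.adj {x : ℕ → V} (h : Valid G x) (t : ℕ) : G.Adj (x t) (x (t + 1)) := by
  by_cases hf : (fresh G x t).Nonempty
  · have := h.fresh_mem hf
    unfold fresh at this
    simp only [Finset.mem_filter, SimpleGraph.mem_neighborFinset] at this
    exact this.1
  · have := h t
    unfold stepProb at this
    rw [if_neg hf] at this
    by_contra hc
    rw [if_neg (by simpa using hc)] at this
    exact this rfl

/-- number of crossed edges at `v` up to time `t` -/
def udeg (G : SimpleGraph V) [G.LocallyFinite] (x : ℕ → V) (t : ℕ) (v : V) : ℕ :=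
  ((G.neighborFinset v).filter (fun w => s(v, w) ∈ crossed x t)).card

/-- the base point of the current trail: it is reset at every step that follows a moment at
which all edges at the current position were crossed already -/
def base (G : SimpleGraph V) [G.LocallyFinite] (x : ℕ → V) : ℕ → V
  | 0 => x 0
  | t + 1 => if (fresh G x t).Nonempty then base G x t else x (t + 1)

lemma base_succ_fresh {x : ℕ → V} {t : ℕ} (hf : (fresh G x t).Nonempty) :
    base G x (t + 1) = base G x t := by
  simp [base, hf]

lemma base_succ_stuck {x : ℕ → V} {t : ℕ} (hf : ¬ (fresh G x t).Nonempty) :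
    base G x (t + 1) = x (t + 1) := by
  simp [base, hf]

lemma udeg_insert {x : ℕ → V} {t : ℕ} (hadj : G.Adj (x t) (x (t + 1)))
    (hnew : s(x t, x (t + 1)) ∉ crossed x t) (v : V) :
    udeg G x (t + 1) v = udeg G x t v + (if v = x t then 1 else 0) +
      (if v = x (t + 1) then 1 else 0) := by
  unfold udeg
  rw [crossed_succ]
  have hne : x t ≠ x (t + 1) := hadj.ne
  have hsplit : (G.neighborFinset v).filter (fun w => s(v, w) ∈ insert s(x t, x (t + 1)) (crossed x t))
      = (G.neighborFinset v).filter (fun w => s(v, w) ∈ crossed x t) ∪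
        (G.neighborFinset v).filter (fun w => s(v, w) = s(x t, x (t + 1))) := by
    ext w
    simp only [Finset.mem_filter, Finset.mem_insert, Finset.mem_union]
    tauto
  have hdisj : Disjoint ((G.neighborFinset v).filter (fun w => s(v, w) ∈ crossed x t))
      ((G.neighborFinset v).filter (fun w => s(v, w) = s(x t, x (t + 1)))) := by
    rw [Finset.disjoint_left]
    intro w h1 h2
    simp only [Finset.mem_filter] at h1 h2
    rw [h2.2] at h1
    exact hnew h1.2
  rw [hsplit, Finset.card_union_of_disjoint hdisj]
  have hcard : ((G.neighborFinset v).filter (fun w => s(v, w) = s(x t, x (t + 1)))).card =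
      (if v = x t then 1 else 0) + (if v = x (t + 1) then 1 else 0) := by
    by_cases h1 : v = x t
    · have h2 : v ≠ x (t + 1) := by rw [h1]; exact hne
      rw [if_pos h1, if_neg h2]
      have : (G.neighborFinset v).filter (fun w => s(v, w) = s(x t, x (t + 1))) = {x (t + 1)} := by
        ext w
        simp only [Finset.mem_filter, SimpleGraph.mem_neighborFinset, Sym2.eq_iff,
          Finset.mem_singleton]
        constructor
        · rintro ⟨_, (⟨_, h⟩ | ⟨h, _⟩)⟩
          · exact h
          · exact absurd h h2
        · intro h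
          subst h
          exact ⟨by rw [h1]; exact hadj, Or.inl ⟨h1, rfl⟩⟩
      rw [this]
      simp
    · by_cases h2 : v = x (t + 1)
      · rw [if_neg h1, if_pos h2]
        have : (G.neighborFinset v).filter (fun w => s(v, w) = s(x t, x (t + 1))) = {x t} := by
          ext w
          simp only [Finset.mem_filter, SimpleGraph.mem_neighborFinset, Sym2.eq_iff,
            Finset.mem_singleton]
          constructor
          · rintro ⟨_, (⟨h, _⟩ | ⟨_, h⟩)⟩
            · exact absurd h h1
            · exact h
          · intro h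
            subst h
            exact ⟨by rw [h2]; exact hadj.symm, Or.inr ⟨h2, rfl⟩⟩
        rw [this]
        simp
      · rw [if_neg h1, if_neg h2]
        rw [add_zero, Finset.card_eq_zero]
        rw [Finset.filter_eq_empty_iff]
        intro w _ hw
        rw [Sym2.eq_iff] at hw
        rcases hw with ⟨h, _⟩ | ⟨h, _⟩
        · exact h1 h
        · exact h2 h
  rw [hcard]
  ring

lemma udeg_fresh_add (x : ℕ → V) (t : ℕ) :
    udeg G x t (x t) + (fresh G x t).card = (G.neighborFinset (x t)).card := by
  unfold udeg fresh
  exact Finset.card_filter_add_card_filter_not _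

/-- The parity invariant. -/
theorem parity (heven : ∀ v, Even (G.neighborFinset v).card) {x : ℕ → V} (hx : Valid G x) (t : ℕ) :
    ∀ v, udeg G x t v % 2 = ((if v = base G x t then 1 else 0) + (if v = x t then 1 else 0)) % 2 := by
  induction t with
  | zero =>
    intro v
    unfold udeg
    rw [crossed_zero]
    simp only [base]
    by_cases h : v = x 0 <;> simp [h]
  | succ t ih =>
    intro v
    by_cases hf : (fresh G x t).Nonempty
    · have hmem := hx.fresh_mem hf
      have hnew : s(x t, x (t + 1)) ∉ crossed x t := by
        unfold fresh at hmem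
        exact (Finset.mem_filter.mp hmem).2
      rw [udeg_insert (hx.adj t) hnew v]
      have hb : base G x (t + 1) = base G x t := by
        simp [base, hf]
      rw [hb]
      have := ih v
      split_ifs at * <;> omega
    · have hempty : fresh G x t = ∅ := Finset.not_nonempty_iff_eq_empty.mp hf
      have hb : base G x (t + 1) = x (t + 1) := by
        simp [base, hf]
      have hcard := udeg_fresh_add (G := G) x t
      rw [hempty, Finset.card_empty, add_zero] at hcard
      have hev : Even (udeg G x t (x t)) := by rw [hcard]; exact heven _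
      have hxb : x t = base G x t := by
        by_contra hne
        have := ih (x t)
        rw [if_neg hne, if_pos rfl] at this
        rw [Nat.even_iff] at hev
        omega
      have hused : s(x t, x (t + 1)) ∈ crossed x t := by
        by_contra hc
        have : x (t + 1) ∈ fresh G x t := by
          unfold fresh
          simp only [Finset.mem_filter, SimpleGraph.mem_neighborFinset]
          exact ⟨hx.adj t, hc⟩
        rw [hempty] at this
        simp at this
      have hcr : crossed x (t + 1) = crossed x t := by
        rw [crossed_succ, Finset.insert_eq_of_mem hused]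
      have hu : udeg G x (t + 1) v = udeg G x t v := by
        unfold udeg
        rw [hcr]
      rw [hu, hb, ih v, ← hxb]
      split_ifs <;> rfl

/-- On an even graph, the walk can only be stuck at its base point. -/
theorem eq_base_of_stuck (heven : ∀ v, Even (G.neighborFinset v).card) {x : ℕ → V}
    (hx : Valid G x) {t : ℕ} (hf : ¬ (fresh G x t).Nonempty) : x t = base G x t := by
  have hempty : fresh G x t = ∅ := Finset.not_nonempty_iff_eq_empty.mp hf
  have hcard := udeg_fresh_add (G := G) x t
  rw [hempty, Finset.card_empty, add_zero] at hcard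
  have hev : Even (udeg G x t (x t)) := by rw [hcard]; exact heven _
  by_contra hne
  have := parity heven hx t (x t)
  rw [if_neg hne, if_pos rfl] at this
  rw [Nat.even_iff] at hev
  omega

end basic

section ae

variable {Ω : Type*} [MeasurableSpace Ω] {G : SimpleGraph V} [G.LocallyFinite] {o : V}
  {P : Measure Ω} {X : ℕ → Ω → V}

lemma IsGRW.ae_start (h : IsGRW G o P X) : ∀ᵐ ω ∂P, X 0 ω = o := by
  have : IsProbabilityMeasure P := ⟨h.prob⟩
  exact (mem_ae_iff_prob_eq_one (h.meas 0 o)).mpr h.start

lemma IsGRW.ae_valid [Countable V] (h : IsGRW G o P X) :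
    ∀ᵐ ω ∂P, Valid G (fun s => X s ω) := by
  unfold Valid
  rw [ae_all_iff]
  intro t
  have hcover : {ω | ¬ (stepProb G (fun s => X s ω) t (X (t + 1) ω) ≠ 0)} ⊆
      ⋃ (p : {p : (Fin (t + 1) → V) × V // stepProb G
        (fun s => if hs : s < t + 1 then p.1 ⟨s, hs⟩ else p.1 0) t p.2 = 0}),
        {ω | (∀ s ≤ t, X s ω = (if hs : s < t + 1 then p.1.1 ⟨s, hs⟩ else p.1.1 0)) ∧
          X (t + 1) ω = p.1.2} := by
    intro ω hω
    simp only [ne_eq, not_not, Set.mem_ofPred_eq] at hω
    have hc : stepProb G (fun s => if hs : s < t + 1 then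
        (fun i : Fin (t + 1) => X i ω) ⟨s, hs⟩ else (fun i : Fin (t + 1) => X i ω) 0) t
        (X (t + 1) ω) = 0 := by
      rw [← hω]
      apply stepProb_congr
      intro s hs
      simp only [dif_pos (show s < t + 1 by omega)]
    refine Set.mem_iUnion.mpr ⟨⟨(fun i : Fin (t + 1) => X i ω, X (t + 1) ω), hc⟩, ?_⟩
    simp only [Set.mem_ofPred_eq]
    refine ⟨fun s hs => ?_, trivial⟩
    rw [dif_pos (show s < t + 1 by omega)]
  rw [ae_iff]
  refine measure_mono_null hcover ?_
  rw [measure_iUnion_null_iff]
  rintro ⟨⟨p, y⟩, hp⟩
  have := h.trans t (fun s => if hs : s < t + 1 then p ⟨s, hs⟩ else p 0) y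
  rw [this, hp, mul_zero]

/-- The probability of a cylinder. -/
lemma IsGRW.cyl_succ (h : IsGRW G o P X) (x : ℕ → V) (t : ℕ) :
    P {ω | ∀ s ≤ t + 1, X s ω = x s} =
      P {ω | ∀ s ≤ t, X s ω = x s} * stepProb G x t (x (t + 1)) := by
  rw [← h.trans t x (x (t + 1))]
  congr 1
  ext ω
  simp only [Set.mem_ofPred_eq]
  constructor
  · intro hh
    exact ⟨fun s hs => hh s (by omega), hh (t + 1) le_rfl⟩
  · rintro ⟨h1, h2⟩ s hs
    rcases Nat.lt_or_ge s (t + 1) with h3 | h3
    · exact h1 s (by omega)
    · have : s = t + 1 := by omega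
      subst this
      exact h2

lemma IsGRW.cyl_zero (h : IsGRW G o P X) (x : ℕ → V) (hx : x 0 = o) :
    P {ω | ∀ s ≤ 0, X s ω = x s} = 1 := by
  rw [← h.start]
  congr 1
  ext ω
  simp only [Set.mem_ofPred_eq, Nat.le_zero_eq, forall_eq, hx]

lemma IsGRW.cyl_pos (h : IsGRW G o P X) (x : ℕ → V) (hx : x 0 = o) (t : ℕ)
    (hpos : ∀ s < t, stepProb G x s (x (s + 1)) ≠ 0) :
    P {ω | ∀ s ≤ t, X s ω = x s} ≠ 0 := by
  induction t with
  | zero => rw [h.cyl_zero x hx]; exact one_ne_zero
  | succ t ih =>
    rw [h.cyl_succ]
    exact mul_ne_zero (ih (fun s hs => hpos s (by omega))) (hpos t (by omega))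

lemma IsGRW.measurableSet_cyl (h : IsGRW G o P X) (x : ℕ → V) (t : ℕ) :
    MeasurableSet {ω | ∀ s ≤ t, X s ω = x s} := by
  have : {ω | ∀ s ≤ t, X s ω = x s} = ⋂ s, ⋂ (_ : s ≤ t), {ω | X s ω = x s} := by
    ext ω; simp
  rw [this]
  exact MeasurableSet.iInter fun s => MeasurableSet.iInter fun _ => h.meas s _

end ae

end Pool.Agent.H575R3.GRW
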