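import Mathlib
import Pool.Agent.H575R3.GRWBase

/-!
One-step formula for expectations of the greedy random walk.
-/

open MeasureTheory Finset
open scoped ENNReal

namespace Pool.Agent.H575R3.GRW

variable {V : Type*}

/-- extension of a finite path to a sequence -/
def ext (n : ℕ) (p : Fin (n + 1) → V) : ℕ → V := fun s => if h : s < n + 1 then p ⟨s, h⟩ else p 0

/-- a function of sequences that depends on the coordinates up to `n` only -/
def DepLE {α : Type*} (n : ℕ) (F : (ℕ → V) → α) : Prop :=
  ∀ x y : ℕ → V, (∀ s ≤ n, x s = y s) → F x = F y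

lemma ext_restrict (n : ℕ) (x : ℕ → V) : ∀ s ≤ n, ext n (fun i : Fin (n + 1) => x i) s = x s := by
  intro s hs
  unfold ext
  rw [dif_pos (by omega)]

lemma ext_inj {n : ℕ} {p q : Fin (n + 1) → V} (h : ∀ s ≤ n, ext n p s = ext n q s) : p = q := by
  funext i
  have := h i (by omega)
  unfold ext at this
  rw [dif_pos (by omega), dif_pos (by omega)] at this
  exact this

variable [DecidableEq V] {Ω : Type*} [MeasurableSpace Ω] {G : SimpleGraph V} [G.LocallyFinite]
  {o : V} {P : Measure Ω} {X : ℕ → Ω → V}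

lemma IsGRW.measurableSet_cyl' (h : IsGRW G o P X) (x : ℕ → V) (t : ℕ) (y : V) :
    MeasurableSet {ω | (∀ s ≤ t, X s ω = x s) ∧ X (t + 1) ω = y} :=
  (h.measurableSet_cyl x t).inter (h.meas (t + 1) y)

lemma IsGRW.lintegral_eq_tsum [Countable V] (h : IsGRW G o P X) (n : ℕ) (F : (ℕ → V) → ℝ≥0∞)
    (hF : DepLE n F) :
    ∫⁻ ω, F (fun s => X s ω) ∂P =
      ∑' p : Fin (n + 1) → V, P {ω | ∀ s ≤ n, X s ω = ext n p s} * F (ext n p) := by
  have hU : (⋃ p : Fin (n + 1) → V, {ω | ∀ s ≤ n, X s ω = ext n p s}) = Set.univ := by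
    rw [Set.eq_univ_iff_forall]
    intro ω
    refine Set.mem_iUnion.mpr ⟨fun i => X i ω, ?_⟩
    intro s hs
    exact (ext_restrict n (fun s => X s ω) s hs).symm
  have hdisj : Pairwise (Function.onFun Disjoint
      (fun p : Fin (n + 1) → V => {ω | ∀ s ≤ n, X s ω = ext n p s})) := by
    intro p q hpq
    rw [Function.onFun, Set.disjoint_left]
    intro ω h1 h2
    apply hpq
    apply ext_inj
    intro s hs
    rw [← h1 s hs, ← h2 s hs]
  rw [← setLIntegral_univ, ← hU, lintegral_iUnion (fun p => h.measurableSet_cyl _ _) hdisj]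
  congr 1
  funext p
  rw [setLIntegral_congr_fun (g := fun _ => F (ext n p)) (h.measurableSet_cyl _ _)
    (fun ω hω => hF _ _ (fun s hs => hω s hs))]
  rw [setLIntegral_const, mul_comm]

lemma IsGRW.lintegral_step [Countable V] (h : IsGRW G o P X) (t : ℕ) (F : (ℕ → V) → ℝ≥0∞)
    (hF : DepLE (t + 1) F) :
    ∫⁻ ω, F (fun s => X s ω) ∂P =
      ∫⁻ ω, ∑' y, stepProb G (fun s => X s ω) t y *
        F (Function.update (fun s => X s ω) (t + 1) y) ∂P := by
  have hU : (⋃ p : (Fin (t + 1) → V) × V,
      {ω | (∀ s ≤ t, X s ω = ext t p.1 s) ∧ X (t + 1) ω = p.2}) = Set.univ := by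
    rw [Set.eq_univ_iff_forall]
    intro ω
    refine Set.mem_iUnion.mpr ⟨(fun i => X i ω, X (t + 1) ω), ?_, rfl⟩
    intro s hs
    exact (ext_restrict t (fun s => X s ω) s hs).symm
  have hdisj : Pairwise (Function.onFun Disjoint
      (fun p : (Fin (t + 1) → V) × V =>
        {ω | (∀ s ≤ t, X s ω = ext t p.1 s) ∧ X (t + 1) ω = p.2})) := by
    intro p q hpq
    rw [Function.onFun, Set.disjoint_left]
    rintro ω ⟨h1, h1'⟩ ⟨h2, h2'⟩
    apply hpq
    apply Prod.ext
    · apply ext_inj
      intro s hs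
      rw [← h1 s hs, ← h2 s hs]
    · rw [← h1', ← h2']
  have hR := h.lintegral_eq_tsum t
    (fun x => ∑' y, stepProb G x t y * F (Function.update x (t + 1) y)) (by
      intro x y hxy
      refine tsum_congr (fun z => ?_)
      rw [stepProb_congr G hxy]
      congr 1
      apply hF
      intro s hs
      by_cases h1 : s = t + 1
      · subst h1; simp
      · rw [Function.update_of_ne h1, Function.update_of_ne h1]
        exact hxy s (by omega))
  rw [hR]
  rw [← setLIntegral_univ, ← hU, lintegral_iUnion (fun p => h.measurableSet_cyl' _ _ _) hdisj]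
  rw [ENNReal.tsum_prod']
  congr 1
  funext p
  rw [← ENNReal.tsum_mul_left]
  congr 1
  funext y
  rw [setLIntegral_congr_fun (g := fun _ => F (Function.update (ext t p) (t + 1) y))
    (h.measurableSet_cyl' _ _ _) (fun ω hω => ?_)]
  · rw [setLIntegral_const, h.trans]
    ring
  · apply hF
    intro s hs
    by_cases h1 : s = t + 1
    · subst h1
      simp only [Function.update_self]
      exact hω.2
    · rw [Function.update_of_ne h1]
      exact hω.1 s (by omega)

/-- A function depending on finitely many coordinates is measurable. -/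
lemma IsGRW.measurable_dep [Countable V] (h : IsGRW G o P X) (n : ℕ) {α : Type*}
    [MeasurableSpace α] (F : (ℕ → V) → α) (hF : DepLE n F) :
    Measurable (fun ω => F (fun s => X s ω)) := by
  intro S _
  have : (fun ω => F (fun s => X s ω)) ⁻¹' S =
      ⋃ p : {p : Fin (n + 1) → V // F (ext n p) ∈ S}, {ω | ∀ s ≤ n, X s ω = ext n p.1 s} := by
    ext ω
    simp only [Set.mem_preimage, Set.mem_iUnion, Set.mem_ofPred_eq]
    constructor
    · intro hω
      refine ⟨⟨fun i => X i ω, ?_⟩, ?_⟩
      · have : F (ext n (fun i : Fin (n + 1) => X i ω)) = F (fun s => X s ω) :=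
          hF _ _ (ext_restrict n (fun s => X s ω))
        rw [this]
        exact hω
      · intro s hs
        exact (ext_restrict n (fun s => X s ω) s hs).symm
    · rintro ⟨⟨p, hp⟩, hω⟩
      rw [hF (fun s => X s ω) (ext n p) hω]
      exact hp
  rw [this]
  exact MeasurableSet.iUnion fun p => h.measurableSet_cyl _ _

lemma IsGRW.measurableSet_dep [Countable V] (h : IsGRW G o P X) (n : ℕ)
    (D : (ℕ → V) → Prop) (hD : DepLE n D) :
    MeasurableSet {ω | D (fun s => X s ω)} := by
  have : {ω | D (fun s => X s ω)} =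
      ⋃ p : {p : Fin (n + 1) → V // D (ext n p)}, {ω | ∀ s ≤ n, X s ω = ext n p.1 s} := by
    ext ω
    simp only [Set.mem_iUnion, Set.mem_ofPred_eq]
    constructor
    · intro hω
      refine ⟨⟨fun i => X i ω, ?_⟩, ?_⟩
      · rw [hD _ _ (ext_restrict n (fun s => X s ω))]
        exact hω
      · intro s hs
        exact (ext_restrict n (fun s => X s ω) s hs).symm
    · rintro ⟨⟨p, hp⟩, hω⟩
      rw [hD (fun s => X s ω) (ext n p) hω]
      exact hp
  rw [this]
  exact MeasurableSet.iUnion fun p => h.measurableSet_cyl _ _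

/-- Supermartingale step. -/
lemma IsGRW.lintegral_step_le [Countable V] (h : IsGRW G o P X) (t : ℕ) (F F' : (ℕ → V) → ℝ≥0∞)
    (hF : DepLE (t + 1) F)
    (hstep : ∀ x, Valid G x → x 0 = o →
      ∑' y, stepProb G x t y * F (Function.update x (t + 1) y) ≤ F' x) :
    ∫⁻ ω, F (fun s => X s ω) ∂P ≤ ∫⁻ ω, F' (fun s => X s ω) ∂P := by
  rw [h.lintegral_step t F hF]
  apply lintegral_mono_ae
  filter_upwards [h.ae_valid, h.ae_start] with ω h1 h2
  exact hstep _ h1 h2

lemma base_congr (G : SimpleGraph V) [G.LocallyFinite] {x y : ℕ → V} {t : ℕ}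
    (h : ∀ s ≤ t, x s = y s) : base G x t = base G y t := by
  induction t with
  | zero => exact h 0 le_rfl
  | succ t ih =>
    have hf : fresh G x t = fresh G y t := fresh_congr G (fun s hs => h s (by omega))
    simp only [base]
    rw [hf, ih (fun s hs => h s (by omega)), h (t + 1) le_rfl]

/-- In the stuck case the one-step sum is an average over the neighbours. -/
lemma tsum_step_stuck {x : ℕ → V} {t : ℕ} (hs : ¬ (fresh G x t).Nonempty) (F : V → ℝ≥0∞) :
    ∑' y, stepProb G x t y * F y =
      ∑ y ∈ G.neighborFinset (x t), ((G.neighborFinset (x t)).card : ℝ≥0∞)⁻¹ * F y := by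
  rw [tsum_eq_sum (s := G.neighborFinset (x t))]
  · apply Finset.sum_congr rfl
    intro y hy
    unfold stepProb
    rw [if_neg hs, if_pos hy]
  · intro y hy
    unfold stepProb
    rw [if_neg hs, if_neg hy, zero_mul]

lemma tsum_step_fresh {x : ℕ → V} {t : ℕ} (hs : (fresh G x t).Nonempty) (F : V → ℝ≥0∞) :
    ∑' y, stepProb G x t y * F y =
      ∑ y ∈ fresh G x t, ((fresh G x t).card : ℝ≥0∞)⁻¹ * F y := by
  rw [tsum_eq_sum (s := fresh G x t)]
  · apply Finset.sum_congr rfl
    intro y hy
    unfold stepProb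
    rw [if_pos hs, if_pos hy]
  · intro y hy
    unfold stepProb
    rw [if_pos hs, if_neg hy, zero_mul]

/-- In the fresh case a bound valid for all fresh targets passes to the sum. -/
lemma tsum_step_fresh_le {x : ℕ → V} {t : ℕ} (hs : (fresh G x t).Nonempty) (F : V → ℝ≥0∞)
    (c : ℝ≥0∞) (hc : ∀ y ∈ fresh G x t, F y ≤ c) :
    ∑' y, stepProb G x t y * F y ≤ c := by
  rw [tsum_step_fresh hs]
  calc ∑ y ∈ fresh G x t, ((fresh G x t).card : ℝ≥0∞)⁻¹ * F y
      ≤ ∑ y ∈ fresh G x t, ((fresh G x t).card : ℝ≥0∞)⁻¹ * c := by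
        apply Finset.sum_le_sum
        intro y hy
        gcongr
        exact hc y hy
    _ = c := by
        rw [Finset.sum_const, nsmul_eq_mul, ← mul_assoc, ENNReal.mul_inv_cancel, one_mul]
        · exact_mod_cast (Finset.card_pos.mpr hs).ne'
        · exact ENNReal.natCast_ne_top _

end Pool.Agent.H575R3.GRW
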