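import Mathlib
import Pool.Agent.H575R3.GRWBase
import Pool.Agent.H575R3.GRWStep

/-!
Simple random walk hitting probabilities and the transient case.
-/

open MeasureTheory Finset Filter
open scoped ENNReal Topology

namespace Pool.Agent.H575R3.GRW

variable {V : Type*} [DecidableEq V]

/-- `hit G z k v` is the probability that simple random walk on `G` started at `v` visits `z`
within its first `k` steps (time `0` included). -/
noncomputable def hit (G : SimpleGraph V) [G.LocallyFinite] (z : V) : ℕ → V → ℝ≥0∞
  | 0, v => if v = z then 1 else 0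
  | k + 1, v => if v = z then 1 else
      ∑ w ∈ G.neighborFinset v, ((G.neighborFinset v).card : ℝ≥0∞)⁻¹ * hit G z k w

/-- `ret G z k` is the probability that simple random walk on `G` started at `z` visits `z` at one
of the times `1, ..., k + 1`. -/
noncomputable def ret (G : SimpleGraph V) [G.LocallyFinite] (z : V) (k : ℕ) : ℝ≥0∞ :=
  ∑ w ∈ G.neighborFinset z, ((G.neighborFinset z).card : ℝ≥0∞)⁻¹ * hit G z k w

/-- Simple random walk started at `z` returns to `z` with probability one. -/
def SRWRecurrent (G : SimpleGraph V) [G.LocallyFinite] (z : V) : Prop := ⨆ k, ret G z k = 1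

section srw

variable (G : SimpleGraph V) [G.LocallyFinite]

/-- average over the neighbours -/
noncomputable def avg (f : V → ℝ≥0∞) (v : V) : ℝ≥0∞ :=
  ∑ w ∈ G.neighborFinset v, ((G.neighborFinset v).card : ℝ≥0∞)⁻¹ * f w

lemma avg_mono {f g : V → ℝ≥0∞} (h : ∀ v, f v ≤ g v) (v : V) : avg G f v ≤ avg G g v := by
  unfold avg
  apply Finset.sum_le_sum
  intro w _
  gcongr
  exact h w

lemma avg_const_le (c : ℝ≥0∞) (v : V) : avg G (fun _ => c) v ≤ c := by
  unfold avg
  rw [Finset.sum_const, nsmul_eq_mul, ← mul_assoc]
  calc ((G.neighborFinset v).card : ℝ≥0∞) * ((G.neighborFinset v).card : ℝ≥0∞)⁻¹ * c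
      ≤ 1 * c := by gcongr; exact ENNReal.mul_inv_le_one _
    _ = c := one_mul c

lemma avg_le_of_le {f : V → ℝ≥0∞} {c : ℝ≥0∞} (h : ∀ v, f v ≤ c) (v : V) : avg G f v ≤ c :=
  (avg_mono G h v).trans (avg_const_le G c v)

lemma avg_mul (c : ℝ≥0∞) (f : V → ℝ≥0∞) (v : V) : avg G (fun w => c * f w) v = c * avg G f v := by
  unfold avg
  rw [Finset.mul_sum]
  apply Finset.sum_congr rfl
  intro w _
  ring

lemma hit_self (z : V) (k : ℕ) : hit G z k z = 1 := by
  cases k <;> simp [hit]

lemma hit_succ_of_ne {z v : V} (h : v ≠ z) (k : ℕ) : hit G z (k + 1) v = avg G (hit G z k) v := by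
  simp [hit, h, avg]

lemma hit_le_one (z : V) (k : ℕ) : ∀ v, hit G z k v ≤ 1 := by
  induction k with
  | zero =>
    intro v
    simp only [hit]
    split_ifs <;> simp
  | succ k ih =>
    intro v
    by_cases h : v = z
    · rw [h, hit_self]
    · rw [hit_succ_of_ne G h]
      exact avg_le_of_le G ih v

lemma hit_mono_succ (z : V) (k : ℕ) : ∀ v, hit G z k v ≤ hit G z (k + 1) v := by
  induction k with
  | zero =>
    intro v
    by_cases h : v = z
    · rw [h, hit_self, hit_self]
    · simp [hit, h]
  | succ k ih =>
    intro v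
    by_cases h : v = z
    · rw [h, hit_self, hit_self]
    · rw [hit_succ_of_ne G h, hit_succ_of_ne G h]
      exact avg_mono G ih v

lemma hit_mono (z v : V) : Monotone (fun k => hit G z k v) :=
  monotone_nat_of_le_succ (fun k => hit_mono_succ G z k v)

/-- the probability that simple random walk from `v` ever visits `z` -/
noncomputable def hitInf (z v : V) : ℝ≥0∞ := ⨆ k, hit G z k v

lemma hitInf_self (z : V) : hitInf G z z = 1 := by
  unfold hitInf
  simp [hit_self]

lemma hitInf_le_one (z v : V) : hitInf G z v ≤ 1 := iSup_le fun k => hit_le_one G z k v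

lemma avg_hitInf (z v : V) : avg G (hitInf G z) v = ⨆ k, avg G (hit G z k) v := by
  unfold avg hitInf
  rw [← ENNReal.finsetSum_iSup_of_monotone]
  · apply Finset.sum_congr rfl
    intro w _
    rw [ENNReal.mul_iSup]
  · intro w a b hab
    exact mul_le_mul_right (hit_mono G z w hab) _

lemma avg_hitInf_of_ne {z v : V} (h : v ≠ z) : avg G (hitInf G z) v = hitInf G z v := by
  rw [avg_hitInf]
  unfold hitInf
  have : ∀ k, avg G (hit G z k) v = hit G z (k + 1) v := fun k => (hit_succ_of_ne G h k).symm
  simp only [this]
  apply le_antisymm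
  · exact iSup_le fun k => le_iSup (fun k => hit G z k v) (k + 1)
  · exact iSup_le fun k => (hit_mono_succ G z k v).trans
      (le_iSup (fun k => hit G z (k + 1) v) k)

lemma avg_hitInf_le (z v : V) : avg G (hitInf G z) v ≤ hitInf G z v := by
  by_cases h : v = z
  · rw [h, hitInf_self]
    exact avg_le_of_le G (hitInf_le_one G z) z
  · exact (avg_hitInf_of_ne G h).le

lemma iSup_ret (z : V) : ⨆ k, ret G z k = avg G (hitInf G z) z := by
  rw [avg_hitInf]
  rfl

end srw

section counts

variable (G : SimpleGraph V) [G.LocallyFinite]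

/-- number of times before `t` at which the walk is stuck at `o` -/
def nst (o : V) (x : ℕ → V) : ℕ → ℕ
  | 0 => 0
  | t + 1 => nst o x t + if (x t = o ∧ ¬ (fresh G x t).Nonempty) then 1 else 0

/-- number of visits to `o` before time `t` -/
def vis (o : V) (x : ℕ → V) : ℕ → ℕ
  | 0 => 0
  | t + 1 => vis o x t + if x t = o then 1 else 0

lemma nst_congr (o : V) {x y : ℕ → V} {t : ℕ} (h : ∀ s < t, x s = y s) :
    nst G o x t = nst G o y t := by
  induction t with
  | zero => rfl
  | succ t ih =>
    simp only [nst]
    rw [ih (fun s hs => h s (by omega)), h t (by omega),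
      fresh_congr G (fun s hs => h s (by omega))]

lemma nst_mono (o : V) (x : ℕ → V) : Monotone (nst G o x) := by
  apply monotone_nat_of_le_succ
  intro t
  simp only [nst]
  omega

variable {G}

lemma udeg_mono (x : ℕ → V) (v : V) : Monotone (fun t => udeg G x t v) := by
  intro s t hst
  unfold udeg
  apply Finset.card_le_card
  intro w hw
  simp only [Finset.mem_filter] at hw ⊢
  exact ⟨hw.1, crossed_mono x hst hw.2⟩

lemma vis_le (o : V) {x : ℕ → V} (hx : Valid G x) (t : ℕ) :
    vis o x t ≤ nst G o x t + udeg G x t o := by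
  induction t with
  | zero => simp [vis]
  | succ t ih =>
    have hmono := udeg_mono (G := G) x o (Nat.le_succ t)
    simp only at hmono
    by_cases h : x t = o
    · by_cases hf : (fresh G x t).Nonempty
      · have hmem := hx.fresh_mem hf
        have hnew : s(x t, x (t + 1)) ∉ crossed x t := by
          unfold fresh at hmem
          exact (Finset.mem_filter.mp hmem).2
        have := udeg_insert (hx.adj t) hnew o
        rw [if_pos h.symm] at this
        simp only [vis, nst, h, if_true]
        omega
      · simp only [vis, nst, h, hf, if_true]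
        simp only [not_false_eq_true, and_self, if_true]
        have h2 : udeg G x t o ≤ udeg G x (t + 1) o := hmono
        omega
    · simp only [vis, nst, h, if_false, false_and]
      have h2 : udeg G x t o ≤ udeg G x (t + 1) o := hmono
      omega

lemma exists_vis_ge (o : V) {x : ℕ → V} (hio : ∀ n, ∃ t, n ≤ t ∧ x t = o) (n : ℕ) :
    ∃ t, n ≤ vis o x t := by
  induction n with
  | zero => exact ⟨0, Nat.zero_le _⟩
  | succ n ih =>
    obtain ⟨t, ht⟩ := ih
    obtain ⟨s, hs, hso⟩ := hio t
    refine ⟨s + 1, ?_⟩
    have hmono : vis o x t ≤ vis o x s := by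
      have : Monotone (vis o x) := by
        apply monotone_nat_of_le_succ
        intro t
        simp only [vis]
        omega
      exact this hs
    simp only [vis, hso, if_true]
    omega

lemma exists_nst_ge (o : V) {x : ℕ → V} (hx : Valid G x) (hio : ∀ n, ∃ t, n ≤ t ∧ x t = o)
    (n : ℕ) : ∃ t, n ≤ nst G o x t := by
  obtain ⟨t, ht⟩ := exists_vis_ge o hio (n + (G.neighborFinset o).card)
  refine ⟨t, ?_⟩
  have h1 := vis_le o hx t
  have h2 : udeg G x t o ≤ (G.neighborFinset o).card := by
    unfold udeg
    exact Finset.card_filter_le _ _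
  omega

end counts

section transient

variable {Ω : Type*} [MeasurableSpace Ω] {G : SimpleGraph V} [G.LocallyFinite] {o : V}
  {P : Measure Ω} {X : ℕ → Ω → V}

/-- the potential -/
noncomputable def pot (G : SimpleGraph V) [G.LocallyFinite] (o : V) (n : ℕ) (t : ℕ) (x : ℕ → V) :
    ℝ≥0∞ :=
  if n ≤ nst G o x t then 1 else
    (avg G (hitInf G o) o) ^ (n - 1 - nst G o x t) * hitInf G o (base G x t)

lemma pot_le_one (n t : ℕ) (x : ℕ → V) : pot G o n t x ≤ 1 := by
  unfold pot
  split_ifs with h
  · exact le_rfl
  · apply mul_le_one'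
    · exact pow_le_one' (avg_le_of_le G (hitInf_le_one G o) o) _
    · exact hitInf_le_one G o _

lemma pot_dep (n t : ℕ) : DepLE t (pot G o n t) := by
  intro x y h
  unfold pot
  rw [nst_congr G o (fun s hs => h s (by omega)), base_congr G h]

lemma nst_update (x : ℕ → V) (t : ℕ) (y : V) :
    nst G o (Function.update x (t + 1) y) (t + 1) = nst G o x (t + 1) :=
  nst_congr G o (fun s hs => by rw [Function.update_of_ne (by omega)])

lemma base_update (x : ℕ → V) (t : ℕ) (y : V) :
    base G (Function.update x (t + 1) y) (t + 1) =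
      if (fresh G x t).Nonempty then base G x t else y := by
  have hf : fresh G (Function.update x (t + 1) y) t = fresh G x t :=
    fresh_congr G (fun s hs => by rw [Function.update_of_ne (by omega)])
  have hb : base G (Function.update x (t + 1) y) t = base G x t :=
    base_congr G (fun s hs => by rw [Function.update_of_ne (by omega)])
  simp only [base]
  rw [hf, hb, Function.update_self]

lemma pot_step (heven : ∀ v, Even (G.neighborFinset v).card) (n t : ℕ) {x : ℕ → V}
    (hx : Valid G x) :
    ∑' y, stepProb G x t y * pot G o n (t + 1) (Function.update x (t + 1) y) ≤ pot G o n t x := by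
  have hval : ∀ y, pot G o n (t + 1) (Function.update x (t + 1) y) =
      if n ≤ nst G o x (t + 1) then 1 else
        (avg G (hitInf G o) o) ^ (n - 1 - nst G o x (t + 1)) *
          hitInf G o (if (fresh G x t).Nonempty then base G x t else y) := by
    intro y
    unfold pot
    rw [nst_update, base_update]
  by_cases hf : (fresh G x t).Nonempty
  · apply tsum_step_fresh_le hf
    intro y _
    rw [hval, if_pos hf]
    have : nst G o x (t + 1) = nst G o x t := by simp [nst, hf]
    rw [this]
    rfl
  · rw [tsum_step_stuck hf]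
    have hb := eq_base_of_stuck heven hx hf
    simp only [hval, if_neg hf]
    by_cases h1 : n ≤ nst G o x t
    · have h2 : n ≤ nst G o x (t + 1) := h1.trans (nst_mono G o x (Nat.le_succ t))
      simp only [if_pos h2]
      have : pot G o n t x = 1 := by unfold pot; rw [if_pos h1]
      rw [this]
      exact avg_const_le G 1 (x t)
    · have hpot : pot G o n t x = (avg G (hitInf G o) o) ^ (n - 1 - nst G o x t) *
          hitInf G o (x t) := by
        unfold pot; rw [if_neg h1, ← hb]
      rw [hpot]
      by_cases ho : x t = o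
      · have h3 : nst G o x (t + 1) = nst G o x t + 1 := by simp [nst, hf, ho]
        rw [h3]
        by_cases h2 : n ≤ nst G o x t + 1
        · simp only [if_pos h2]
          have h4 : n - 1 - nst G o x t = 0 := by omega
          rw [h4, pow_zero, one_mul, ho, hitInf_self]
          exact avg_const_le G 1 o
        · simp only [if_neg h2]
          have := avg_mul G ((avg G (hitInf G o) o) ^ (n - 1 - (nst G o x t + 1)))
            (hitInf G o) (x t)
          unfold avg at this
          unfold avg
          rw [this]
          have h4 : n - 1 - nst G o x t = (n - 1 - (nst G o x t + 1)) + 1 := by omega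
          rw [h4, pow_succ, ho, hitInf_self, mul_one]
      · have h3 : nst G o x (t + 1) = nst G o x t := by simp [nst, ho]
        rw [h3]
        simp only [if_neg h1]
        have := avg_mul G ((avg G (hitInf G o) o) ^ (n - 1 - nst G o x t))
            (hitInf G o) (x t)
        unfold avg at this
        unfold avg
        rw [this]
        gcongr
        exact avg_hitInf_le G o (x t)

theorem IsGRW.nst_bound [Countable V] (h : IsGRW G o P X)
    (heven : ∀ v, Even (G.neighborFinset v).card) (n : ℕ) (t : ℕ) :
    P {ω | n + 1 ≤ nst G o (fun s => X s ω) t} ≤ (avg G (hitInf G o) o) ^ n := by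
  have hP : IsProbabilityMeasure P := ⟨h.prob⟩
  have hE : ∀ t, ∫⁻ ω, pot G o (n + 1) t (fun s => X s ω) ∂P ≤ (avg G (hitInf G o) o) ^ n := by
    intro t
    induction t with
    | zero =>
      have : ∀ ω, pot G o (n + 1) 0 (fun s => X s ω) ≤ (avg G (hitInf G o) o) ^ n := by
        intro ω
        unfold pot
        simp only [nst]
        rw [if_neg (by omega)]
        calc _ ≤ (avg G (hitInf G o) o) ^ (n + 1 - 1 - 0) * 1 := by
              gcongr
              exact hitInf_le_one G o _
          _ = _ := by simp
      calc _ ≤ ∫⁻ ω, (avg G (hitInf G o) o) ^ n ∂P := lintegral_mono this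
        _ = _ := by simp
    | succ t ih =>
      refine le_trans (h.lintegral_step_le t _ (pot G o (n + 1) t) (pot_dep _ _) ?_) ih
      intro x hx _
      exact pot_step heven (n + 1) t hx
  refine le_trans ?_ (hE t)
  have hms : MeasurableSet {ω | n + 1 ≤ nst G o (fun s => X s ω) t} := by
    apply h.measurableSet_dep t (fun x => n + 1 ≤ nst G o x t)
    intro x y hxy
    simp only
    rw [nst_congr G o (fun s hs => hxy s (by omega))]
  rw [← lintegral_indicator_one hms]
  apply lintegral_mono
  intro ω
  simp only [Set.indicator]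
  split_ifs with h1
  · have h2 : n + 1 ≤ nst G o (fun s => X s ω) t := h1
    unfold pot
    rw [if_pos h2]
    simp
  · exact zero_le

/-- In the transient case the walk visits `o` infinitely often with probability zero. -/
theorem IsGRW.transient [Countable V] (h : IsGRW G o P X)
    (heven : ∀ v, Even (G.neighborFinset v).card) (hq : ¬ SRWRecurrent G o) :
    P {ω | ∀ n, ∃ t, n ≤ t ∧ X t ω = o} = 0 := by
  have hq1 : avg G (hitInf G o) o < 1 := by
    unfold SRWRecurrent at hq
    rw [iSup_ret] at hq
    exact lt_of_le_of_ne (avg_le_of_le G (hitInf_le_one G o) o) hq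
  have hbound : ∀ n, P {ω | ∃ t, n + 1 ≤ nst G o (fun s => X s ω) t} ≤
      (avg G (hitInf G o) o) ^ n := by
    intro n
    have hU : {ω | ∃ t, n + 1 ≤ nst G o (fun s => X s ω) t} =
        ⋃ t, {ω | n + 1 ≤ nst G o (fun s => X s ω) t} := by
      ext ω; simp
    have hmono : Monotone (fun t => {ω | n + 1 ≤ nst G o (fun s => X s ω) t}) := by
      intro s t hst ω hω
      exact le_trans hω (nst_mono G o _ hst)
    rw [hU, hmono.measure_iUnion]
    exact iSup_le fun t => h.nst_bound heven n t
  have hsub : ∀ n, P {ω | ∀ n, ∃ t, n ≤ t ∧ X t ω = o} ≤ (avg G (hitInf G o) o) ^ n := by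
    intro n
    refine le_trans (measure_mono_ae ?_) (hbound n)
    filter_upwards [h.ae_valid] with ω hv hω
    exact exists_nst_ge o hv hω (n + 1)
  have hlim : Tendsto (fun n => (avg G (hitInf G o) o) ^ n) atTop (𝓝 0) :=
    ENNReal.tendsto_pow_atTop_nhds_zero_of_lt_one hq1
  exact le_antisymm (ge_of_tendsto' hlim hsub) zero_le

end transient

end Pool.Agent.H575R3.GRW
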