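import Mathlib
import Pool.Agent.H575R3.GRWBase
import Pool.Agent.H575R3.GRWStep
import Pool.Agent.H575R3.GRWSrw

/-!
The base point of the walk performs a simple random walk; hitting lemma in the recurrent case.
-/

open MeasureTheory Finset Filter
open scoped ENNReal Topology

namespace Pool.Agent.H575R3.GRW

variable {V : Type*} [DecidableEq V]

section transport

variable (G : SimpleGraph V) [G.LocallyFinite]

lemma mem_neighborFinset_iso (φ : G ≃g G) (v w : V) :
    φ w ∈ G.neighborFinset (φ v) ↔ w ∈ G.neighborFinset v := by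
  simp only [SimpleGraph.mem_neighborFinset]
  exact φ.map_adj_iff

lemma neighborFinset_iso (φ : G ≃g G) (v : V) :
    G.neighborFinset (φ v) = (G.neighborFinset v).map φ.toEquiv.toEmbedding := by
  ext w
  simp only [Finset.mem_map, Equiv.coe_toEmbedding]
  constructor
  · intro hw
    refine ⟨φ.symm w, ?_, ?_⟩
    · rw [← mem_neighborFinset_iso G φ]
      simpa using hw
    · show φ (φ.symm w) = w
      simp
  · rintro ⟨a, ha, rfl⟩
    show φ a ∈ _
    rw [mem_neighborFinset_iso]
    exact ha

lemma card_neighborFinset_iso (φ : G ≃g G) (v : V) :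
    (G.neighborFinset (φ v)).card = (G.neighborFinset v).card := by
  rw [neighborFinset_iso, Finset.card_map]

lemma sum_neighborFinset_iso (φ : G ≃g G) (v : V) (f : V → ℝ≥0∞) :
    ∑ w ∈ G.neighborFinset (φ v), f w = ∑ w ∈ G.neighborFinset v, f (φ w) := by
  rw [neighborFinset_iso, Finset.sum_map]
  rfl

lemma avg_iso (φ : G ≃g G) (f : V → ℝ≥0∞) (v : V) :
    avg G f (φ v) = avg G (fun w => f (φ w)) v := by
  unfold avg
  rw [card_neighborFinset_iso, sum_neighborFinset_iso]

lemma hit_iso (φ : G ≃g G) (z : V) (k : ℕ) : ∀ v, hit G (φ z) k (φ v) = hit G z k v := by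
  induction k with
  | zero =>
    intro v
    simp only [hit]
    by_cases h : v = z
    · simp [h]
    · have : φ v ≠ φ z := fun hh => h (φ.injective hh)
      simp [h]
  | succ k ih =>
    intro v
    by_cases h : v = z
    · rw [h, hit_self, hit_self]
    · have : φ v ≠ φ z := fun hh => h (φ.injective hh)
      rw [hit_succ_of_ne G this, hit_succ_of_ne G h, avg_iso]
      unfold avg
      simp only [ih]

lemma hitInf_iso (φ : G ≃g G) (z v : V) : hitInf G (φ z) (φ v) = hitInf G z v := by
  unfold hitInf
  simp only [hit_iso]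

lemma eq_one_of_avg_eq_one {f : V → ℝ≥0∞} (hf : ∀ v, f v ≤ 1) {v : V} (h : avg G f v = 1) :
    ∀ w ∈ G.neighborFinset v, f w = 1 := by
  intro w hw
  have hsum : avg G f v + avg G (fun w => 1 - f w) v ≤ 1 := by
    have : avg G f v + avg G (fun w => 1 - f w) v = avg G (fun _ => 1) v := by
      unfold avg
      rw [← Finset.sum_add_distrib]
      apply Finset.sum_congr rfl
      intro u _
      rw [← mul_add, add_tsub_cancel_of_le (hf u)]
    rw [this]
    exact avg_const_le G 1 v
  rw [h] at hsum
  have h0 : avg G (fun w => 1 - f w) v = 0 := by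
    by_contra hne
    have : (1 : ℝ≥0∞) < 1 + avg G (fun w => 1 - f w) v :=
      ENNReal.lt_add_right ENNReal.one_ne_top hne
    exact absurd hsum (not_le.mpr this)
  unfold avg at h0
  rw [Finset.sum_eq_zero_iff] at h0
  have h1 := h0 w hw
  rcases mul_eq_zero.mp h1 with h2 | h2
  · exact absurd h2 (ENNReal.inv_ne_zero.mpr (ENNReal.natCast_ne_top _))
  · exact le_antisymm (hf w) (tsub_eq_zero_iff_le.mp h2)

/-- recurrence at one vertex gives sure hitting from everywhere to everywhere -/
theorem hitInf_eq_one (hconn : G.Connected) (htrans : ∀ u v : V, ∃ φ : G ≃g G, φ u = v) (o : V)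
    (hrec : SRWRecurrent G o) (z v : V) : hitInf G z v = 1 := by
  have hz : avg G (hitInf G z) z = 1 := by
    obtain ⟨φ, hφ⟩ := htrans o z
    unfold SRWRecurrent at hrec
    rw [iSup_ret] at hrec
    rw [← hφ, avg_iso]
    simp only [hitInf_iso]
    exact hrec
  obtain ⟨p⟩ := hconn.preconnected z v
  have key : ∀ {a b : V} (p : G.Walk a b), hitInf G z a = 1 → hitInf G z b = 1 := by
    intro a b p
    induction p with
    | nil => exact id
    | @cons u w c hadj p ih =>
      intro hu
      apply ih
      have hav : avg G (hitInf G z) u = 1 := by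
        by_cases h : u = z
        · rw [h]; exact hz
        · rw [avg_hitInf_of_ne G h]; exact hu
      exact eq_one_of_avg_eq_one G (hitInf_le_one G z) hav w (by simpa using hadj)
  exact key p (hitInf_self G z)

end transport

section macrochain

variable (G : SimpleGraph V) [G.LocallyFinite]

/-- number of stuck times before `t` -/
def nsk (x : ℕ → V) : ℕ → ℕ
  | 0 => 0
  | t + 1 => nsk x t + if (fresh G x t).Nonempty then 0 else 1

lemma nsk_congr {x y : ℕ → V} {t : ℕ} (h : ∀ s < t, x s = y s) : nsk G x t = nsk G y t := by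
  induction t with
  | zero => rfl
  | succ t ih =>
    simp only [nsk]
    rw [ih (fun s hs => h s (by omega)), fresh_congr G (fun s hs => h s (by omega))]

lemma nsk_mono (x : ℕ → V) : Monotone (nsk G x) := by
  apply monotone_nat_of_le_succ
  intro t
  simp only [nsk]
  omega

/-- the potential for the hitting lemma -/
noncomputable def psi (z : V) (t0 K : ℕ) (t : ℕ) (x : ℕ → V) : ℝ≥0∞ :=
  open Classical in
  if ∃ s, t0 ≤ s ∧ s ≤ t ∧ base G x s = z then 0 else
    1 - hit G z (K - (nsk G x t - nsk G x t0)) (base G x t)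

variable {G}

lemma psi_dep (z : V) (t0 K t : ℕ) (ht : t0 ≤ t) : DepLE t (psi G z t0 K t) := by
  intro x y h
  have h1 : (∃ s, t0 ≤ s ∧ s ≤ t ∧ base G x s = z) ↔ (∃ s, t0 ≤ s ∧ s ≤ t ∧ base G y s = z) := by
    constructor
    · rintro ⟨s, a, b, c⟩
      exact ⟨s, a, b, by rw [← base_congr G (fun r hr => h r (by omega))]; exact c⟩
    · rintro ⟨s, a, b, c⟩
      exact ⟨s, a, b, by rw [base_congr G (fun r hr => h r (by omega))]; exact c⟩
  unfold psi
  rw [nsk_congr G (fun s hs => h s (by omega)), base_congr G h,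
    nsk_congr G (t := t0) (fun s hs => h s (by omega))]
  by_cases h2 : ∃ s, t0 ≤ s ∧ s ≤ t ∧ base G x s = z
  · rw [if_pos h2, if_pos (h1.mp h2)]
  · rw [if_neg h2, if_neg (fun hh => h2 (h1.mpr hh))]

lemma psi_step (heven : ∀ v, Even (G.neighborFinset v).card) (z : V) (t0 K t : ℕ) (ht : t0 ≤ t)
    {x : ℕ → V} (hx : Valid G x) :
    ∑' y, stepProb G x t y * psi G z t0 K (t + 1) (Function.update x (t + 1) y) ≤
      psi G z t0 K t x := by
  have hbs : ∀ y, ∀ s ≤ t, base G (Function.update x (t + 1) y) s = base G x s := fun y s hs =>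
    base_congr G (fun r hr => by rw [Function.update_of_ne (by omega)])
  by_cases hE : ∃ s, t0 ≤ s ∧ s ≤ t ∧ base G x s = z
  · have : ∀ y, psi G z t0 K (t + 1) (Function.update x (t + 1) y) = 0 := by
      intro y
      unfold psi
      rw [if_pos]
      obtain ⟨s, a, b, c⟩ := hE
      exact ⟨s, a, by omega, by rw [hbs y s b]; exact c⟩
    simp [this]
  · have hpsi : psi G z t0 K t x = 1 - hit G z (K - (nsk G x t - nsk G x t0)) (base G x t) := by
      unfold psi
      rw [if_neg hE]
    have hle : ∀ y, psi G z t0 K (t + 1) (Function.update x (t + 1) y) ≤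
        1 - hit G z (K - (nsk G x (t + 1) - nsk G x t0))
          (if (fresh G x t).Nonempty then base G x t else y) := by
      intro y
      unfold psi
      split_ifs with h1 h2
      · exact zero_le
      · exact zero_le
      · rw [base_update, if_pos (by assumption), nsk_congr G (y := x)
          (fun s hs => by rw [Function.update_of_ne (by omega)]),
          nsk_congr G (y := x) (t := t0) (fun s hs => by rw [Function.update_of_ne (by omega)])]
      · rw [base_update, if_neg (by assumption), nsk_congr G (y := x)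
          (fun s hs => by rw [Function.update_of_ne (by omega)]),
          nsk_congr G (y := x) (t := t0) (fun s hs => by rw [Function.update_of_ne (by omega)])]
    rw [hpsi]
    by_cases hf : (fresh G x t).Nonempty
    · apply tsum_step_fresh_le hf
      intro y _
      refine (hle y).trans ?_
      rw [if_pos hf]
      have : nsk G x (t + 1) = nsk G x t := by simp [nsk, hf]
      rw [this]
    · rw [tsum_step_stuck hf]
      have hb := eq_base_of_stuck heven hx hf
      have hne : x t ≠ z := by
        intro hh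
        exact hE ⟨t, ht, le_rfl, by rw [← hb]; exact hh⟩
      have hn : nsk G x (t + 1) = nsk G x t + 1 := by simp [nsk, hf]
      have hm := nsk_mono G x ht
      have hle' : ∀ y, psi G z t0 K (t + 1) (Function.update x (t + 1) y) ≤
        1 - hit G z (K - (nsk G x (t + 1) - nsk G x t0)) y := by
        intro y
        have := hle y
        rw [if_neg hf] at this
        exact this
      have hsum : ∑ y ∈ G.neighborFinset (x t), ((G.neighborFinset (x t)).card : ℝ≥0∞)⁻¹ *
          psi G z t0 K (t + 1) (Function.update x (t + 1) y) ≤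
          avg G (fun y => 1 - hit G z (K - (nsk G x (t + 1) - nsk G x t0)) y) (x t) := by
        unfold avg
        apply Finset.sum_le_sum
        intro y _
        gcongr
        exact hle' y
      refine hsum.trans ?_
      rw [← hb]
      by_cases hK : K ≤ nsk G x t - nsk G x t0
      · have h0 : K - (nsk G x t - nsk G x t0) = 0 := by omega
        rw [h0]
        have : hit G z 0 (x t) = 0 := by simp [hit, hne]
        rw [this, tsub_zero]
        exact avg_le_of_le G (fun v => tsub_le_self) (x t)
      · have h0 : K - (nsk G x t - nsk G x t0) =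
          (K - (nsk G x (t + 1) - nsk G x t0)) + 1 := by omega
        rw [h0, hit_succ_of_ne G hne]
        set j := K - (nsk G x (t + 1) - nsk G x t0)
        apply ENNReal.le_sub_of_add_le_right
        · exact ne_top_of_le_ne_top ENNReal.one_ne_top (avg_le_of_le G (hit_le_one G z j) (x t))
        · have : avg G (fun y => 1 - hit G z j y) (x t) + avg G (hit G z j) (x t) =
            avg G (fun _ => 1) (x t) := by
            unfold avg
            rw [← Finset.sum_add_distrib]
            apply Finset.sum_congr rfl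
            intro u _
            rw [← mul_add, tsub_add_cancel_of_le (hit_le_one G z j u)]
          rw [this]
          exact avg_const_le G 1 (x t)

variable {Ω : Type*} [MeasurableSpace Ω] {o : V} {P : Measure Ω} {X : ℕ → Ω → V}

theorem IsGRW.macro_bound [Countable V] (h : IsGRW G o P X)
    (heven : ∀ v, Even (G.neighborFinset v).card) (z : V) (t0 K : ℕ) :
    P {ω | (∃ t, t0 ≤ t ∧ K ≤ nsk G (fun s => X s ω) t - nsk G (fun s => X s ω) t0) ∧
        ∀ t, t0 ≤ t → base G (fun s => X s ω) t ≠ z} ≤
      ∫⁻ ω, (1 - hit G z K (base G (fun s => X s ω) t0)) ∂P := by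
  have hP : IsProbabilityMeasure P := ⟨h.prob⟩
  have hE : ∀ r, ∫⁻ ω, psi G z t0 K (t0 + r) (fun s => X s ω) ∂P ≤
      ∫⁻ ω, (1 - hit G z K (base G (fun s => X s ω) t0)) ∂P := by
    intro r
    induction r with
    | zero =>
      apply lintegral_mono
      intro ω
      simp only
      unfold psi
      split_ifs with h1
      · exact zero_le
      · simp
    | succ r ih =>
      refine le_trans (h.lintegral_step_le (t0 + r) _ (psi G z t0 K (t0 + r))
        (psi_dep z t0 K _ (by omega)) ?_) ih
      intro x hx _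
      exact psi_step heven z t0 K (t0 + r) (by omega) hx
  have hU : {ω | (∃ t, t0 ≤ t ∧ K ≤ nsk G (fun s => X s ω) t - nsk G (fun s => X s ω) t0) ∧
        ∀ t, t0 ≤ t → base G (fun s => X s ω) t ≠ z} =
      ⋃ r, {ω | K ≤ nsk G (fun s => X s ω) (t0 + r) - nsk G (fun s => X s ω) t0 ∧
        ∀ t, t0 ≤ t → base G (fun s => X s ω) t ≠ z} := by
    ext ω
    simp only [Set.mem_ofPred_eq, Set.mem_iUnion]
    constructor
    · rintro ⟨⟨t, a, b⟩, c⟩
      exact ⟨t - t0, by rw [Nat.add_sub_cancel' a]; exact b, c⟩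
    · rintro ⟨r, a, b⟩
      exact ⟨⟨t0 + r, by omega, a⟩, b⟩
  have hmono : Monotone (fun r => {ω | K ≤ nsk G (fun s => X s ω) (t0 + r) -
      nsk G (fun s => X s ω) t0 ∧ ∀ t, t0 ≤ t → base G (fun s => X s ω) t ≠ z}) := by
    intro r r' hr ω hω
    refine ⟨le_trans hω.1 ?_, hω.2⟩
    exact Nat.sub_le_sub_right (nsk_mono G _ (by omega)) _
  rw [hU, hmono.measure_iUnion]
  refine iSup_le fun r => ?_
  refine le_trans ?_ (hE r)
  have hms : MeasurableSet {ω | K ≤ nsk G (fun s => X s ω) (t0 + r) -
      nsk G (fun s => X s ω) t0 ∧ ¬ ∃ s, t0 ≤ s ∧ s ≤ t0 + r ∧ base G (fun s => X s ω) s = z} := by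
    apply h.measurableSet_dep (t0 + r) (fun x => K ≤ nsk G x (t0 + r) -
      nsk G x t0 ∧ ¬ ∃ s, t0 ≤ s ∧ s ≤ t0 + r ∧ base G x s = z)
    intro x y hxy
    have h1 : nsk G x (t0 + r) = nsk G y (t0 + r) := nsk_congr G (fun s hs => hxy s (by omega))
    have h2 : nsk G x t0 = nsk G y t0 := nsk_congr G (fun s hs => hxy s (by omega))
    have h3 : (∃ s, t0 ≤ s ∧ s ≤ t0 + r ∧ base G x s = z) =
        (∃ s, t0 ≤ s ∧ s ≤ t0 + r ∧ base G y s = z) := by
      apply propext
      constructor
      · rintro ⟨s, a, b, c⟩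
        exact ⟨s, a, b, by rw [← base_congr G (fun r hr => hxy r (by omega))]; exact c⟩
      · rintro ⟨s, a, b, c⟩
        exact ⟨s, a, b, by rw [base_congr G (fun r hr => hxy r (by omega))]; exact c⟩
    simp only
    rw [h1, h2, h3]
  calc P {ω | K ≤ nsk G (fun s => X s ω) (t0 + r) -
      nsk G (fun s => X s ω) t0 ∧ ∀ t, t0 ≤ t → base G (fun s => X s ω) t ≠ z}
      ≤ P {ω | K ≤ nsk G (fun s => X s ω) (t0 + r) -
      nsk G (fun s => X s ω) t0 ∧ ¬ ∃ s, t0 ≤ s ∧ s ≤ t0 + r ∧
        base G (fun s => X s ω) s = z} := by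
        apply measure_mono
        rintro ω ⟨a, b⟩
        refine ⟨a, ?_⟩
        rintro ⟨s, c, _, d⟩
        exact b s c d
    _ = ∫⁻ ω, Set.indicator {ω | K ≤ nsk G (fun s => X s ω) (t0 + r) -
      nsk G (fun s => X s ω) t0 ∧ ¬ ∃ s, t0 ≤ s ∧ s ≤ t0 + r ∧
        base G (fun s => X s ω) s = z} 1 ω ∂P := (lintegral_indicator_one hms).symm
    _ ≤ _ := by
        apply lintegral_mono
        intro ω
        simp only [Set.indicator]
        split_ifs with h1
        · obtain ⟨h2, h3⟩ := h1
          unfold psi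
          rw [if_neg h3]
          have h4 : K - (nsk G (fun s => X s ω) (t0 + r) - nsk G (fun s => X s ω) t0) = 0 := by
            omega
          rw [h4]
          have h5 : base G (fun s => X s ω) (t0 + r) ≠ z := by
            intro hh
            exact h3 ⟨t0 + r, by omega, le_rfl, hh⟩
          simp [hit, h5]
        · exact zero_le

lemma exists_nsk_ge {x : ℕ → V} (hst : ∀ n, ∃ t, n ≤ t ∧ ¬ (fresh G x t).Nonempty) (n : ℕ) :
    ∃ t, n ≤ nsk G x t := by
  induction n with
  | zero => exact ⟨0, Nat.zero_le _⟩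
  | succ n ih =>
    obtain ⟨t, ht⟩ := ih
    obtain ⟨s, hs, hso⟩ := hst t
    refine ⟨s + 1, ?_⟩
    have := nsk_mono G x hs
    simp only [nsk, if_neg hso]
    omega

/-- Hitting lemma: if simple random walk hits `z` surely from everywhere, then on the event that
the walk is stuck infinitely often, its base point visits `z` after any given time. -/
theorem IsGRW.hit_of_stuck [Countable V] (h : IsGRW G o P X)
    (heven : ∀ v, Even (G.neighborFinset v).card) (z : V) (hz : ∀ v, hitInf G z v = 1) (t0 : ℕ) :
    P {ω | (∀ n, ∃ t, n ≤ t ∧ ¬ (fresh G (fun s => X s ω) t).Nonempty) ∧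
        ∀ t, t0 ≤ t → base G (fun s => X s ω) t ≠ z} = 0 := by
  have hP : IsProbabilityMeasure P := ⟨h.prob⟩
  have hlim : Tendsto (fun K => ∫⁻ ω, (1 - hit G z K (base G (fun s => X s ω) t0)) ∂P) atTop
      (𝓝 (∫⁻ _, 0 ∂P)) := by
    apply tendsto_lintegral_of_dominated_convergence (fun _ => 1)
    · intro K
      exact h.measurable_dep t0 (fun x => 1 - hit G z K (base G x t0)) (by
        intro x y hxy
        simp only
        rw [base_congr G hxy])
    · intro K
      exact Eventually.of_forall (fun ω => tsub_le_self)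
    · simp
    · refine Eventually.of_forall (fun ω => ?_)
      have h1 : Tendsto (fun K => hit G z K (base G (fun s => X s ω) t0)) atTop (𝓝 1) := by
        have := tendsto_atTop_iSup (hit_mono G z (base G (fun s => X s ω) t0))
        have h2 : ⨆ K, hit G z K (base G (fun s => X s ω) t0) = 1 := hz _
        rw [h2] at this
        exact this
      have h3 := ENNReal.Tendsto.sub (tendsto_const_nhds (x := (1 : ℝ≥0∞)) (f := atTop)) h1
        (Or.inl ENNReal.one_ne_top)
      simpa using h3
  rw [lintegral_zero] at hlim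
  refine le_antisymm (ge_of_tendsto' hlim fun K => ?_) zero_le
  refine le_trans (measure_mono ?_) (h.macro_bound heven z t0 K)
  rintro ω ⟨h1, h2⟩
  refine ⟨?_, h2⟩
  obtain ⟨t, ht⟩ := exists_nsk_ge h1 (K + nsk G (fun s => X s ω) t0)
  refine ⟨max t t0, le_max_right _ _, ?_⟩
  have := nsk_mono G (fun s => X s ω) (le_max_left t t0)
  omega

lemma exists_base_time {x : ℕ → V} {s0 : ℕ} (h0 : base G x s0 = x s0) (r : ℕ) :
    ∃ s, s0 ≤ s ∧ s ≤ s0 + r ∧ x s = base G x s ∧ base G x s = base G x (s0 + r) := by
  induction r with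
  | zero => exact ⟨s0, le_rfl, le_rfl, h0.symm, rfl⟩
  | succ r ih =>
    obtain ⟨s, a, b, c, d⟩ := ih
    by_cases hf : (fresh G x (s0 + r)).Nonempty
    · refine ⟨s, a, by omega, c, ?_⟩
      rw [show s0 + (r + 1) = s0 + r + 1 by ring, base_succ_fresh hf]
      exact d
    · refine ⟨s0 + (r + 1), by omega, le_rfl, ?_, rfl⟩
      rw [show s0 + (r + 1) = s0 + r + 1 by ring, base_succ_stuck hf]

/-- In the recurrent case, on the event of being stuck infinitely often, `o` is visited infinitely
often. -/
theorem IsGRW.visits_of_stuck [Countable V] (h : IsGRW G o P X)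
    (heven : ∀ v, Even (G.neighborFinset v).card) (z : V) (hz : ∀ v, hitInf G z v = 1) :
    ∀ᵐ ω ∂P, (∀ n, ∃ t, n ≤ t ∧ ¬ (fresh G (fun s => X s ω) t).Nonempty) →
      ∀ n, ∃ t, n ≤ t ∧ X t ω = z ∧ base G (fun s => X s ω) t = z := by
  have h1 : ∀ᵐ ω ∂P, ∀ t0, ¬ ((∀ n, ∃ t, n ≤ t ∧ ¬ (fresh G (fun s => X s ω) t).Nonempty) ∧
        ∀ t, t0 ≤ t → base G (fun s => X s ω) t ≠ z) := by
    rw [ae_all_iff]
    intro t0
    rw [ae_iff]
    simp only [not_not]
    exact h.hit_of_stuck heven z hz t0
  filter_upwards [h1] with ω hω hst n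
  obtain ⟨t1, ht1, hs1⟩ := hst n
  have h2 := hω (t1 + 1)
  rw [not_and] at h2
  have h3 := h2 hst
  push Not at h3
  obtain ⟨t, ht, hb⟩ := h3
  have hb0 : base G (fun s => X s ω) (t1 + 1) = X (t1 + 1) ω := base_succ_stuck hs1
  obtain ⟨s, a, b, c, d⟩ := exists_base_time (x := fun s => X s ω) hb0 (t - (t1 + 1))
  rw [Nat.add_sub_cancel' ht] at d
  refine ⟨s, by omega, ?_, ?_⟩
  · have c' : X s ω = base G (fun s => X s ω) s := c
    rw [c', d, hb]
  · rw [d, hb]

end macrochain

end Pool.Agent.H575R3.GRW
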