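import Mathlib

/-!
Fixed-point-free involutions (perfect matchings) of a finite type and the counting lemma.
-/

open Finset

namespace Pool.Agent.H575R3.GRW

/-- perfect matchings of the type `α`, as fixed-point-free involutions -/
def PM (α : Type*) : Type _ := {σ : Equiv.Perm α // (∀ a, σ (σ a) = a) ∧ ∀ a, σ a ≠ a}

namespace PM

variable {α : Type*}

instance [Finite α] : Finite (PM α) := Subtype.finite

/-- conjugation of a matching by a permutation -/
def conj (τ : Equiv.Perm α) (σ : PM α) : PM α :=
  ⟨(τ.symm.trans σ.1).trans τ, by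
    constructor
    · intro a
      simp [σ.2.1]
    · intro a h
      simp only [Equiv.trans_apply] at h
      have h2 : σ.1 (τ.symm a) = τ.symm a := by
        rw [Equiv.eq_symm_apply]; exact h
      exact σ.2.2 _ h2⟩

lemma conj_apply (τ : Equiv.Perm α) (σ : PM α) (a : α) :
    (conj τ σ).1 a = τ (σ.1 (τ.symm a)) := rfl

lemma conj_conj (τ : Equiv.Perm α) (σ : PM α) : conj τ (conj τ.symm σ) = σ := by
  apply Subtype.ext
  ext a
  simp [conj_apply]

theorem nonempty_of_even [Fintype α] (h : Even (Fintype.card α)) : Nonempty (PM α) := by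
  obtain ⟨m, hm⟩ := h
  have hcard : Fintype.card α = Fintype.card (Fin m × Bool) := by
    rw [Fintype.card_prod, Fintype.card_fin, Fintype.card_bool]; omega
  let e : α ≃ Fin m × Bool := Fintype.equivOfCardEq hcard
  let g : Equiv.Perm (Fin m × Bool) :=
    { toFun := fun p => (p.1, !p.2)
      invFun := fun p => (p.1, !p.2)
      left_inv := fun p => by simp
      right_inv := fun p => by simp }
  refine ⟨⟨(e.trans g).trans e.symm, ?_, ?_⟩⟩
  · intro a
    simp [g]
  · intro a h
    simp only [Equiv.trans_apply] at h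
    have h2 : g (e a) = e a := (Equiv.symm_apply_eq e).mp h
    have h3 := congrArg Prod.snd h2
    simp [g] at h3

/-- The counting lemma: among the matchings of a suitable family `S` that fixes the set `U`, a
point `c` outside `U` is matched to each of the remaining points equally often. -/
theorem card_mul [Fintype α] [DecidableEq α] (S : Finset (PM α)) (U : Finset α)
    (h1 : ∀ σ ∈ S, ∀ u ∈ U, σ.1 u ∈ U)
    (h2 : ∀ σ ∈ S, ∀ d d', d ∉ U → d' ∉ U → conj (Equiv.swap d d') σ ∈ S)
    {c d : α} (hc : c ∉ U) (hd : d ∉ U) (hdc : d ≠ c) :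
    S.card = (Finset.univ \ insert c U).card * (S.filter (fun σ => σ.1 c = d)).card := by
  have hfib : S.card = ∑ e ∈ (Finset.univ : Finset α), (S.filter (fun σ => σ.1 c = e)).card :=
    Finset.card_eq_sum_card_fiberwise (fun σ _ => Finset.mem_univ _)
  have hzero : ∀ e ∈ insert c U, (S.filter (fun σ => σ.1 c = e)).card = 0 := by
    intro e he
    rw [Finset.card_eq_zero, Finset.filter_eq_empty_iff]
    intro σ hσ hce
    rcases Finset.mem_insert.mp he with he | he
    · exact σ.2.2 c (hce.trans he)
    · have := h1 σ hσ e he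
      rw [← hce, σ.2.1] at this
      exact hc this
  have heq : ∀ e ∈ (Finset.univ : Finset α) \ insert c U,
      (S.filter (fun σ => σ.1 c = e)).card = (S.filter (fun σ => σ.1 c = d)).card := by
    intro e he
    rw [Finset.mem_sdiff] at he
    have heU : e ∉ U := fun h => he.2 (Finset.mem_insert_of_mem h)
    have hec : e ≠ c := fun h => he.2 (by rw [h]; exact Finset.mem_insert_self _ _)
    apply Finset.card_nbij' (conj (Equiv.swap d e)) (conj (Equiv.swap d e))
    · intro σ hσ
      simp only [Finset.coe_filter, Set.mem_ofPred_eq] at hσ ⊢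
      refine ⟨h2 σ hσ.1 d e hd heU, ?_⟩
      rw [conj_apply, Equiv.symm_swap, Equiv.swap_apply_of_ne_of_ne (Ne.symm hdc) (Ne.symm hec),
        hσ.2, Equiv.swap_apply_right]
    · intro σ hσ
      simp only [Finset.coe_filter, Set.mem_ofPred_eq] at hσ ⊢
      refine ⟨h2 σ hσ.1 d e hd heU, ?_⟩
      rw [conj_apply, Equiv.symm_swap, Equiv.swap_apply_of_ne_of_ne (Ne.symm hdc) (Ne.symm hec),
        hσ.2, Equiv.swap_apply_left]
    · intro σ _
      have := conj_conj (Equiv.swap d e) σ
      rwa [Equiv.symm_swap] at this
    · intro σ _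
      have := conj_conj (Equiv.swap d e) σ
      rwa [Equiv.symm_swap] at this
  rw [hfib, ← Finset.sum_sdiff (Finset.subset_univ (insert c U)), Finset.sum_eq_zero hzero,
    add_zero, Finset.sum_congr rfl heq, Finset.sum_const, smul_eq_mul]

end PM

end Pool.Agent.H575R3.GRW
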