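import Mathlib
import Pool.Agent.H575R3.GRWBase
import Pool.Agent.H575R3.GRWStep
import Pool.Agent.H575R3.GRWMatch

/-!
The structure of the set of used edges, and its relation to random matchings.
-/

open MeasureTheory Finset Filter
open scoped ENNReal Topology

namespace Pool.Agent.H575R3.GRW

variable {V : Type*} [DecidableEq V] {G : SimpleGraph V} [G.LocallyFinite]

/-- the neighbours of `v` used in passages through `v` before time `t` -/
def pairSet (G : SimpleGraph V) [G.LocallyFinite] (x : ℕ → V) (v : V) : ℕ → Finset V
  | 0 => ∅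
  | t + 1 => if x t = v ∧ x t ≠ base G x t then
      insert (x (t - 1)) (insert (x (t + 1)) (pairSet G x v t)) else pairSet G x v t

lemma mem_pairSet (x : ℕ → V) (v w : V) (t : ℕ) :
    w ∈ pairSet G x v t ↔ ∃ s < t, x s = v ∧ x s ≠ base G x s ∧ (w = x (s - 1) ∨ w = x (s + 1)) := by
  induction t with
  | zero => simp [pairSet]
  | succ t ih =>
    simp only [pairSet]
    constructor
    · intro h
      split_ifs at h with h1
      · rw [Finset.mem_insert, Finset.mem_insert] at h
        rcases h with h | h | h
        · exact ⟨t, Nat.lt_succ_self t, h1.1, h1.2, Or.inl h⟩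
        · exact ⟨t, Nat.lt_succ_self t, h1.1, h1.2, Or.inr h⟩
        · obtain ⟨s, a, b⟩ := ih.mp h
          exact ⟨s, by omega, b⟩
      · obtain ⟨s, a, b⟩ := ih.mp h
        exact ⟨s, by omega, b⟩
    · rintro ⟨s, a, b, c, d⟩
      by_cases hs : s = t
      · subst hs
        rw [if_pos ⟨b, c⟩]
        rw [Finset.mem_insert, Finset.mem_insert]
        tauto
      · have : w ∈ pairSet G x v t := ih.mpr ⟨s, by omega, b, c, d⟩
        split_ifs
        · exact Finset.mem_insert_of_mem (Finset.mem_insert_of_mem this)
        · exact this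

/-- `v` was never visited as a base point up to time `t` -/
def NotBased (G : SimpleGraph V) [G.LocallyFinite] (x : ℕ → V) (v : V) (t : ℕ) : Prop :=
  ∀ s ≤ t, ¬ (x s = v ∧ base G x s = v)

lemma used_invariant (heven : ∀ v, Even (G.neighborFinset v).card) {x : ℕ → V} (hx : Valid G x)
    (v : V) (t : ℕ) (hnb : NotBased G x v t) :
    (∀ w, (w ∈ G.neighborFinset v ∧ s(v, w) ∈ crossed x t) ↔
      (w ∈ pairSet G x v t ∨ (x t = v ∧ w = x (t - 1)))) ∧
    (x t = v → x (t - 1) ∉ pairSet G x v t) := by
  induction t with
  | zero =>
    have h0 : x 0 ≠ v := fun h => hnb 0 le_rfl ⟨h, h⟩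
    refine ⟨fun w => ?_, fun h => absurd h h0⟩
    simp [crossed_zero, pairSet, h0]
  | succ t ih =>
    obtain ⟨ih1, ih2⟩ := ih (fun s hs => hnb s (by omega))
    have hadj := hx.adj t
    by_cases hf : (fresh G x t).Nonempty
    · have hmem := hx.fresh_mem hf
      have hnew : s(x t, x (t + 1)) ∉ crossed x t := by
        unfold fresh at hmem
        exact (Finset.mem_filter.mp hmem).2
      by_cases hv : x t = v
      · have hmid : x t ≠ base G x t := fun h => hnb t (by omega) ⟨hv, by rw [← h, hv]⟩
        have hv1 : x (t + 1) ≠ v := by rw [← hv]; exact hadj.ne'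
        refine ⟨fun w => ?_, fun h => absurd h hv1⟩
        rw [crossed_succ]
        simp only [pairSet, if_pos (show x t = v ∧ x t ≠ base G x t from ⟨hv, hmid⟩)]
        rw [Finset.mem_insert, Finset.mem_insert, Finset.mem_insert]
        have key := ih1 w
        constructor
        · rintro ⟨a, b | b⟩
          · rw [Sym2.eq_iff] at b
            rcases b with ⟨_, b⟩ | ⟨b, _⟩
            · left; right; left; exact b
            · exact absurd b.symm hv1
          · rcases key.mp ⟨a, b⟩ with c | ⟨_, c⟩
            · left; right; right; exact c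
            · left; left; exact c
        · rintro ((c | c | c) | ⟨c, _⟩)
          · have := key.mpr (Or.inr ⟨hv, c⟩)
            exact ⟨this.1, Or.inr this.2⟩
          · refine ⟨?_, Or.inl ?_⟩
            · rw [c, SimpleGraph.mem_neighborFinset, ← hv]; exact hadj
            · rw [c, hv]
          · have := key.mpr (Or.inl c)
            exact ⟨this.1, Or.inr this.2⟩
          · exact absurd c hv1
      · have hps : pairSet G x v (t + 1) = pairSet G x v t := by
          simp only [pairSet]
          rw [if_neg (fun h => hv h.1)]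
        rw [hps, crossed_succ]
        by_cases hv1 : x (t + 1) = v
        · refine ⟨fun w => ?_, fun _ => ?_⟩
          · rw [Finset.mem_insert]
            have key := ih1 w
            simp only [Nat.add_sub_cancel]
            constructor
            · rintro ⟨a, b | b⟩
              · rw [Sym2.eq_iff] at b
                rcases b with ⟨b, _⟩ | ⟨_, b⟩
                · exact absurd b.symm hv
                · exact Or.inr ⟨hv1, b⟩
              · rcases key.mp ⟨a, b⟩ with c | ⟨c, _⟩
                · exact Or.inl c
                · exact absurd c hv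
            · rintro (c | ⟨_, c⟩)
              · have := key.mpr (Or.inl c)
                exact ⟨this.1, Or.inr this.2⟩
              · refine ⟨?_, Or.inl ?_⟩
                · rw [c, SimpleGraph.mem_neighborFinset, ← hv1]; exact hadj.symm
                · rw [c, ← hv1]; exact Sym2.eq_swap
          · simp only [Nat.add_sub_cancel]
            intro hc
            have := (ih1 (x t)).mpr (Or.inl hc)
            apply hnew
            rw [hv1, Sym2.eq_swap]
            exact this.2
        · refine ⟨fun w => ?_, fun h => absurd h hv1⟩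
          rw [Finset.mem_insert]
          have key := ih1 w
          constructor
          · rintro ⟨a, b | b⟩
            · rw [Sym2.eq_iff] at b
              rcases b with ⟨b, _⟩ | ⟨b, _⟩
              · exact absurd b.symm hv
              · exact absurd b.symm hv1
            · rcases key.mp ⟨a, b⟩ with c | ⟨c, _⟩
              · exact Or.inl c
              · exact absurd c hv
          · rintro (c | ⟨c, _⟩)
            · have := key.mpr (Or.inl c)
              exact ⟨this.1, Or.inr this.2⟩
            · exact absurd c hv1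
    · have hb := eq_base_of_stuck heven hx hf
      have hv : x t ≠ v := fun h => hnb t (by omega) ⟨h, by rw [← hb, h]⟩
      have hb1 := base_succ_stuck (G := G) (x := x) hf
      have hv1 : x (t + 1) ≠ v := fun h => hnb (t + 1) le_rfl ⟨h, by rw [hb1, h]⟩
      have hused : s(x t, x (t + 1)) ∈ crossed x t := by
        by_contra hc
        apply hf
        refine ⟨x (t + 1), ?_⟩
        unfold fresh
        simp only [Finset.mem_filter, SimpleGraph.mem_neighborFinset]
        exact ⟨hadj, hc⟩
      have hps : pairSet G x v (t + 1) = pairSet G x v t := by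
        simp only [pairSet]
        rw [if_neg (fun h => hv h.1)]
      rw [hps, crossed_succ, Finset.insert_eq_of_mem hused]
      refine ⟨fun w => ?_, fun h => absurd h hv1⟩
      have key := ih1 w
      constructor
      · intro h
        rcases key.mp h with c | ⟨c, _⟩
        · exact Or.inl c
        · exact absurd c hv
      · rintro (c | ⟨c, _⟩)
        · exact key.mpr (Or.inl c)
        · exact absurd c hv1

lemma base_or_used (heven : ∀ v, Even (G.neighborFinset v).card) {x : ℕ → V} (hx : Valid G x)
    (s r : ℕ) : base G x (s + r) = base G x s ∨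
      ∀ w ∈ G.neighborFinset (base G x s), s(base G x s, w) ∈ crossed x (s + r) := by
  induction r with
  | zero => exact Or.inl rfl
  | succ r ih =>
    rcases ih with ih | ih
    · by_cases hf : (fresh G x (s + r)).Nonempty
      · left
        rw [show s + (r + 1) = s + r + 1 by ring, base_succ_fresh hf, ih]
      · right
        intro w hw
        have hb := eq_base_of_stuck heven hx hf
        rw [ih] at hb
        apply crossed_mono x (show s + r ≤ s + (r + 1) by omega)
        by_contra hc
        apply hf
        refine ⟨w, ?_⟩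
        unfold fresh
        rw [Finset.mem_filter, hb]
        exact ⟨hw, hc⟩
    · right
      intro w hw
      exact crossed_mono x (show s + r ≤ s + (r + 1) by omega) (ih w hw)

lemma notBased_of_mid (heven : ∀ v, Even (G.neighborFinset v).card) {x : ℕ → V} (hx : Valid G x)
    {t : ℕ} (hmid : x t ≠ base G x t) : NotBased G x (x t) t := by
  rintro s hs ⟨h1, h2⟩
  obtain ⟨r, rfl⟩ := Nat.exists_eq_add_of_le hs
  rcases base_or_used heven hx s r with h | h
  · exact hmid (by rw [h, h2])
  · rw [h2] at h
    have hpar := parity heven hx (s + r) (x (s + r))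
    rw [if_neg hmid, if_pos rfl] at hpar
    have hu : udeg G x (s + r) (x (s + r)) = (G.neighborFinset (x (s + r))).card := by
      unfold udeg
      rw [Finset.filter_true_of_mem h]
    rw [hu] at hpar
    have := heven (x (s + r))
    rw [Nat.even_iff] at this
    omega

lemma pos_of_mid {x : ℕ → V} {t : ℕ} (hmid : x t ≠ base G x t) : 1 ≤ t := by
  rcases Nat.eq_zero_or_pos t with h | h
  · subst h; exact absurd rfl hmid
  · exact h

lemma mid_structure (heven : ∀ v, Even (G.neighborFinset v).card) {x : ℕ → V} (hx : Valid G x)
    {t : ℕ} (hmid : x t ≠ base G x t) :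
    x (t - 1) ∈ G.neighborFinset (x t) ∧ pairSet G x (x t) t ⊆ G.neighborFinset (x t) ∧
    x (t - 1) ∉ pairSet G x (x t) t ∧
    fresh G x t = G.neighborFinset (x t) \ insert (x (t - 1)) (pairSet G x (x t) t) := by
  obtain ⟨h1, h2⟩ := used_invariant heven hx (x t) t (notBased_of_mid heven hx hmid)
  refine ⟨((h1 (x (t - 1))).mpr (Or.inr ⟨rfl, rfl⟩)).1, ?_, h2 rfl, ?_⟩
  · intro w hw
    exact ((h1 w).mpr (Or.inl hw)).1
  · ext w
    unfold fresh
    rw [Finset.mem_filter, Finset.mem_sdiff, Finset.mem_insert]
    have := h1 w
    constructor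
    · rintro ⟨a, b⟩
      refine ⟨a, ?_⟩
      rintro (c | c)
      · exact b (this.mpr (Or.inr ⟨rfl, c⟩)).2
      · exact b (this.mpr (Or.inl c)).2
    · rintro ⟨a, b⟩
      refine ⟨a, fun c => b ?_⟩
      rcases this.mp ⟨a, c⟩ with d | ⟨_, d⟩
      · exact Or.inr d
      · exact Or.inl d

/-! ### Matchings at the vertices -/

/-- The matching `σ` at the vertex `v` matches the neighbours `a` and `b`. -/
def Mch {v : V} (σ : PM (G.neighborSet v)) (a b : V) : Prop :=
  ∃ (ha : a ∈ G.neighborSet v) (hb : b ∈ G.neighborSet v), σ.1 ⟨a, ha⟩ = ⟨b, hb⟩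

lemma Mch.symm {v : V} {σ : PM (G.neighborSet v)} {a b : V} (h : Mch σ a b) : Mch σ b a := by
  obtain ⟨ha, hb, h⟩ := h
  exact ⟨hb, ha, by rw [← h, σ.2.1]⟩

lemma Mch.unique {v : V} {σ : PM (G.neighborSet v)} {a b c : V} (h : Mch σ a b) (h' : Mch σ a c) :
    b = c := by
  obtain ⟨ha, hb, h⟩ := h
  obtain ⟨_, hc, h'⟩ := h'
  have : (⟨b, hb⟩ : G.neighborSet v) = ⟨c, hc⟩ := by rw [← h, ← h']
  exact congrArg Subtype.val this

lemma Mch.ne {v : V} {σ : PM (G.neighborSet v)} {a b : V} (h : Mch σ a b) : a ≠ b := by
  obtain ⟨ha, hb, h⟩ := h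
  intro hab
  subst hab
  exact σ.2.2 _ h

lemma exists_Mch {v : V} (σ : PM (G.neighborSet v)) {a : V} (ha : a ∈ G.neighborSet v) :
    ∃ b, Mch σ a b := ⟨σ.1 ⟨a, ha⟩, ha, (σ.1 ⟨a, ha⟩).2, rfl⟩

/-- constraints at the vertex `v` coming from the passages before time `t` -/
def Sv (G : SimpleGraph V) [G.LocallyFinite] (x : ℕ → V) (v : V) (t : ℕ) :
    Set (PM (G.neighborSet v)) :=
  {σ | ∀ s < t, x s ≠ base G x s → x s = v → Mch σ (x (s - 1)) (x (s + 1))}

/-- the matching configurations compatible with the path up to time `t` -/
def Cset (G : SimpleGraph V) [G.LocallyFinite] (x : ℕ → V) (t : ℕ) :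
    Set ((v : V) → PM (G.neighborSet v)) :=
  {ω | ∀ s < t, x s ≠ base G x s → Mch (ω (x s)) (x (s - 1)) (x (s + 1))}

lemma Cset_eq_pi (x : ℕ → V) (t : ℕ) (F : Finset V) (hF : ∀ s < t, x s ∈ F) :
    Cset G x t = Set.pi (F : Set V) (fun v => Sv G x v t) := by
  ext ω
  simp only [Cset, Sv, Set.mem_ofPred_eq, Set.mem_pi]
  constructor
  · intro h v _ s hs hm hv
    subst hv
    exact h s hs hm
  · intro h s hs hm
    exact h (x s) (Finset.mem_coe.mpr (hF s hs)) s hs hm rfl

lemma Cset_antitone (x : ℕ → V) {s t : ℕ} (h : s ≤ t) : Cset G x t ⊆ Cset G x s := by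
  intro ω hω r hr
  exact hω r (by omega)

/-- constraint sets only depend on the path up to the given time -/
lemma Sv_update (x : ℕ → V) (v : V) (t : ℕ) (y : V) :
    Sv G (Function.update x (t + 1) y) v (t + 1) =
      {σ | σ ∈ Sv G x v t ∧ (x t ≠ base G x t → x t = v → Mch σ (x (t - 1)) y)} := by
  have hx' : ∀ s ≤ t, Function.update x (t + 1) y s = x s := fun s hs => by
    rw [Function.update_of_ne (by omega)]
  have hb : ∀ s ≤ t, base G (Function.update x (t + 1) y) s = base G x s := fun s hs =>
    base_congr G (fun r hr => hx' r (by omega))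
  ext σ
  simp only [Sv, Set.mem_ofPred_eq]
  constructor
  · intro h
    refine ⟨fun s hs hm hv => ?_, fun hm hv => ?_⟩
    · have := h s (by omega)
      rw [hx' s (by omega), hb s (by omega), hx' (s - 1) (by omega), hx' (s + 1) (by omega)] at this
      exact this hm hv
    · have := h t (by omega)
      rw [hx' t (by omega), hb t (by omega), hx' (t - 1) (by omega), Function.update_self] at this
      exact this hm hv
  · rintro ⟨h1, h2⟩ s hs hm hv
    rcases Nat.lt_or_ge s t with h | h
    · rw [hx' s (by omega), hb s (by omega)] at hm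
      rw [hx' s (by omega)] at hv
      rw [hx' (s - 1) (by omega), hx' (s + 1) (by omega)]
      exact h1 s h hm hv
    · have : s = t := by omega
      subst this
      rw [hx' s (by omega), hb s (by omega)] at hm
      rw [hx' s (by omega)] at hv
      rw [hx' (s - 1) (by omega), Function.update_self]
      exact h2 hm hv

lemma Cset_update (x : ℕ → V) (t : ℕ) (y : V) :
    Cset G (Function.update x (t + 1) y) (t + 1) =
      {ω | ω ∈ Cset G x t ∧ (x t ≠ base G x t → Mch (ω (x t)) (x (t - 1)) y)} := by
  have hx' : ∀ s ≤ t, Function.update x (t + 1) y s = x s := fun s hs => by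
    rw [Function.update_of_ne (by omega)]
  have hb : ∀ s ≤ t, base G (Function.update x (t + 1) y) s = base G x s := fun s hs =>
    base_congr G (fun r hr => hx' r (by omega))
  ext ω
  simp only [Cset, Set.mem_ofPred_eq]
  constructor
  · intro h
    refine ⟨fun s hs hm => ?_, fun hm => ?_⟩
    · have := h s (by omega)
      rw [hx' s (by omega), hb s (by omega), hx' (s - 1) (by omega), hx' (s + 1) (by omega)] at this
      exact this hm
    · have := h t (by omega)
      rw [hx' t (by omega), hb t (by omega), hx' (t - 1) (by omega), Function.update_self] at this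
      exact this hm
  · rintro ⟨h1, h2⟩ s hs hm
    rcases Nat.lt_or_ge s t with h | h
    · rw [hx' s (by omega), hb s (by omega)] at hm
      rw [hx' s (by omega), hx' (s - 1) (by omega), hx' (s + 1) (by omega)]
      exact h1 s h hm
    · have : s = t := by omega
      subst this
      rw [hx' s (by omega), hb s (by omega)] at hm
      rw [hx' s (by omega), hx' (s - 1) (by omega), Function.update_self]
      exact h2 hm

/-- compatible configurations continue along a fresh edge -/
lemma Cset_fresh (heven : ∀ v, Even (G.neighborFinset v).card) {x : ℕ → V} (hx : Valid G x)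
    {t : ℕ} (hmid : x t ≠ base G x t) {ω : (v : V) → PM (G.neighborSet v)}
    (hω : ω ∈ Cset G x t) : ∃ y ∈ fresh G x t, Mch (ω (x t)) (x (t - 1)) y := by
  obtain ⟨h1, h2, h3, h4⟩ := mid_structure heven hx hmid
  obtain ⟨y, hy⟩ := exists_Mch (ω (x t)) (a := x (t - 1)) (by simpa using h1)
  refine ⟨y, ?_, hy⟩
  rw [h4, Finset.mem_sdiff, Finset.mem_insert]
  refine ⟨?_, ?_⟩
  · obtain ⟨_, hb, _⟩ := hy
    simpa using hb
  · rintro (c | c)
    · exact hy.ne c.symm
    · rw [mem_pairSet] at c
      obtain ⟨s, hs, a, b, d⟩ := c
      have := hω s hs b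
      rw [a] at this
      rcases d with d | d
      · have e := hy.symm
        rw [d] at e
        have := e.unique this
        apply h3
        rw [mem_pairSet]
        exact ⟨s, hs, a, b, Or.inr this⟩
      · have e := hy.symm
        rw [d] at e
        have := e.unique this.symm
        apply h3
        rw [mem_pairSet]
        exact ⟨s, hs, a, b, Or.inl this⟩

end Pool.Agent.H575R3.GRW
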