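import Mathlib
import Pool.Agent.H575R3.GRWBase
import Pool.Agent.H575R3.GRWExist
import Pool.Agent.H575R3.GRWStep
import Pool.Agent.H575R3.GRWMatch
import Pool.Agent.H575R3.GRWUsed

/-!
The product measure on matching configurations and its conditional structure along the walk.
-/

open MeasureTheory Finset Filter ProbabilityTheory
open scoped ENNReal Topology

namespace Pool.Agent.H575R3.GRW

instance instMeasurableSpacePM (α : Type*) : MeasurableSpace (PM α) := ⊤

instance instDiscretePM (α : Type*) : DiscreteMeasurableSpace (PM α) := ⟨fun _ => trivial⟩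

/-- the uniform measure on matchings -/
noncomputable def unif (α : Type*) : Measure (PM α) :=
  ((Measure.count (Set.univ : Set (PM α))) : ℝ≥0∞)⁻¹ • Measure.count

lemma unif_prob {α : Type*} [Finite α] (h : Nonempty (PM α)) : IsProbabilityMeasure (unif α) := by
  refine ⟨?_⟩
  unfold unif
  rw [Measure.smul_apply, smul_eq_mul]
  apply ENNReal.inv_mul_cancel
  · rw [ne_eq, Measure.count_eq_zero_iff]
    exact Set.univ_nonempty.ne_empty
  · rw [Measure.count_apply_finite _ Set.finite_univ]
    exact ENNReal.natCast_ne_top _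

lemma unif_mul {α : Type*} (S S' : Finset (PM α)) (k : ℕ) (h : S.card = k * S'.card) :
    unif α (S : Set (PM α)) = k * unif α (S' : Set (PM α)) := by
  unfold unif
  rw [Measure.smul_apply, Measure.smul_apply, smul_eq_mul, smul_eq_mul,
    Measure.count_apply_finset, Measure.count_apply_finset, h]
  push_cast
  ring

variable {V : Type*} [DecidableEq V] {G : SimpleGraph V} [G.LocallyFinite]

lemma unif_prob_vertex (heven : ∀ v, Even (G.neighborFinset v).card) (v : V) :
    IsProbabilityMeasure (unif (G.neighborSet v)) := by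
  apply unif_prob
  apply PM.nonempty_of_even
  have := heven v
  rw [SimpleGraph.card_neighborFinset_eq_degree] at this
  rw [SimpleGraph.card_neighborSet_eq_degree]
  exact this

/-- the law of independent uniform matchings at all vertices -/
noncomputable def mu (G : SimpleGraph V) : Measure ((v : V) → PM (G.neighborSet v)) :=
  Measure.infinitePi (fun v => unif (G.neighborSet v))

lemma mu_prob (heven : ∀ v, Even (G.neighborFinset v).card) : IsProbabilityMeasure (mu G) := by
  have := unif_prob_vertex heven
  unfold mu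
  infer_instance

lemma Sv_measure (heven : ∀ v, Even (G.neighborFinset v).card) {x : ℕ → V} (hx : Valid G x)
    {t : ℕ} (hmid : x t ≠ base G x t) {y : V} (hy : y ∈ fresh G x t) :
    unif (G.neighborSet (x t)) (Sv G x (x t) t) =
      (fresh G x t).card * unif (G.neighborSet (x t))
        {σ | σ ∈ Sv G x (x t) t ∧ Mch σ (x (t - 1)) y} := by
  classical
  obtain ⟨h1, h2, h3, h4⟩ := mid_structure heven hx hmid
  have hfin : Fintype (PM (G.neighborSet (x t))) := Fintype.ofFinite _
  have hc' : x (t - 1) ∈ G.neighborSet (x t) := by simpa using h1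
  have hy' := hy
  rw [h4, Finset.mem_sdiff, Finset.mem_insert, not_or] at hy'
  obtain ⟨hyN, hy1, hy2⟩ := hy'
  have hd' : y ∈ G.neighborSet (x t) := by simpa using hyN
  let S : Finset (PM (G.neighborSet (x t))) := Finset.univ.filter (fun σ => σ ∈ Sv G x (x t) t)
  let U : Finset (G.neighborSet (x t)) :=
    Finset.univ.filter (fun u => (u : V) ∈ pairSet G x (x t) t)
  let c : G.neighborSet (x t) := ⟨x (t - 1), hc'⟩
  let d : G.neighborSet (x t) := ⟨y, hd'⟩
  have hcU : c ∉ U := by simp only [U, c, Finset.mem_filter, Finset.mem_univ, true_and]; exact h3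
  have hdU : d ∉ U := by simp only [U, d, Finset.mem_filter, Finset.mem_univ, true_and]; exact hy2
  have hdc : d ≠ c := fun h => hy1 (congrArg Subtype.val h)
  have hh1 : ∀ σ ∈ S, ∀ u ∈ U, σ.1 u ∈ U := by
    intro σ hσ u hu
    simp only [S, Finset.mem_filter, Finset.mem_univ, true_and] at hσ
    simp only [U, Finset.mem_filter, Finset.mem_univ, true_and] at hu ⊢
    rw [mem_pairSet] at hu ⊢
    obtain ⟨s, hs, a, b, e⟩ := hu
    refine ⟨s, hs, a, b, ?_⟩
    have hM := hσ s hs b a
    rcases e with e | e
    · right
      obtain ⟨ha, hb, hab⟩ := hM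
      have : u = ⟨x (s - 1), ha⟩ := Subtype.ext e
      rw [this, hab]
    · left
      obtain ⟨ha, hb, hab⟩ := hM.symm
      have : u = ⟨x (s + 1), ha⟩ := Subtype.ext e
      rw [this, hab]
  have hh2 : ∀ σ ∈ S, ∀ d d', d ∉ U → d' ∉ U → PM.conj (Equiv.swap d d') σ ∈ S := by
    intro σ hσ e e' he he'
    simp only [S, Finset.mem_filter, Finset.mem_univ, true_and] at hσ ⊢
    intro s hs b a
    obtain ⟨ha, hb, hab⟩ := hσ s hs b a
    refine ⟨ha, hb, ?_⟩
    have hmem1 : (⟨x (s - 1), ha⟩ : G.neighborSet (x t)) ∈ U := by
      simp only [U, Finset.mem_filter, Finset.mem_univ, true_and]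
      rw [mem_pairSet]
      exact ⟨s, hs, a, b, Or.inl rfl⟩
    have hmem2 : (⟨x (s + 1), hb⟩ : G.neighborSet (x t)) ∈ U := by
      simp only [U, Finset.mem_filter, Finset.mem_univ, true_and]
      rw [mem_pairSet]
      exact ⟨s, hs, a, b, Or.inr rfl⟩
    have q1 : Equiv.swap e e' ⟨x (s - 1), ha⟩ = ⟨x (s - 1), ha⟩ :=
      Equiv.swap_apply_of_ne_of_ne (fun h => he (by rw [← h]; exact hmem1))
        (fun h => he' (by rw [← h]; exact hmem1))
    have q2 : Equiv.swap e e' ⟨x (s + 1), hb⟩ = ⟨x (s + 1), hb⟩ :=
      Equiv.swap_apply_of_ne_of_ne (fun h => he (by rw [← h]; exact hmem2))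
        (fun h => he' (by rw [← h]; exact hmem2))
    rw [PM.conj_apply, Equiv.symm_swap, q1, hab, q2]
  have hmain := PM.card_mul S U hh1 hh2 hcU hdU hdc
  have hcardf : (Finset.univ \ insert c U).card = (fresh G x t).card := by
    have : fresh G x t = (Finset.univ \ insert c U).map (Function.Embedding.subtype _) := by
      rw [h4]
      ext w
      simp only [Finset.mem_sdiff, Finset.mem_insert, Finset.mem_map,
        Function.Embedding.coe_subtype, Finset.mem_univ, true_and]
      constructor
      · rintro ⟨a, b⟩
        refine ⟨⟨w, by simpa using a⟩, ?_, rfl⟩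
        rintro (e | e)
        · exact b (Or.inl (congrArg Subtype.val e))
        · simp only [U, Finset.mem_filter, Finset.mem_univ, true_and] at e
          exact b (Or.inr e)
      · rintro ⟨u, a, rfl⟩
        refine ⟨(SimpleGraph.mem_neighborFinset G _ _).mpr u.2, ?_⟩
        rintro (e | e)
        · exact a (Or.inl (Subtype.ext e))
        · exact a (Or.inr (by simp only [U, Finset.mem_filter, Finset.mem_univ, true_and]; exact e))
    rw [this, Finset.card_map]
  rw [hcardf] at hmain
  have e1 : Sv G x (x t) t = (S : Set (PM (G.neighborSet (x t)))) := by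
    ext σ; simp [S]
  have e2 : {σ | σ ∈ Sv G x (x t) t ∧ Mch σ (x (t - 1)) y} =
      ((S.filter (fun σ => σ.1 c = d) : Finset _) : Set (PM (G.neighborSet (x t)))) := by
    ext σ
    simp only [Set.mem_ofPred_eq, Finset.coe_filter, S, Finset.mem_filter, Finset.mem_univ,
      true_and]
    constructor
    · rintro ⟨a, ha, hb, hab⟩
      exact ⟨a, hab⟩
    · rintro ⟨a, b⟩
      exact ⟨a, hc', hd', b⟩
  rw [e2]
  nth_rewrite 1 [e1]
  exact unif_mul S _ _ hmain

lemma measurableSet_Cset (x : ℕ → V) (t : ℕ) : MeasurableSet (Cset G x t) := by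
  have : Cset G x t = ⋂ s, ⋂ (_ : s < t), ⋂ (_ : x s ≠ base G x s),
      (fun ω : (v : V) → PM (G.neighborSet v) => ω (x s)) ⁻¹'
        {σ | Mch σ (x (s - 1)) (x (s + 1))} := by
    ext ω
    simp [Cset]
  rw [this]
  exact MeasurableSet.iInter fun s => MeasurableSet.iInter fun _ => MeasurableSet.iInter fun _ =>
    (measurable_pi_apply (x s)) (MeasurableSet.of_discrete)

/-- The key conditional probability formula. -/
lemma mu_Cset_update (heven : ∀ v, Even (G.neighborFinset v).card) {x : ℕ → V} (hx : Valid G x)
    {t : ℕ} (hmid : x t ≠ base G x t) {y : V} (hy : y ∈ fresh G x t) :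
    mu G (Cset G x t) =
      (fresh G x t).card * mu G (Cset G (Function.update x (t + 1) y) (t + 1)) := by
  have hp := unif_prob_vertex heven
  let F : Finset V := (Finset.range (t + 1)).image x
  have hF1 : ∀ s < t, x s ∈ F := fun s hs =>
    Finset.mem_image_of_mem x (Finset.mem_range.mpr (by omega))
  have hF2 : ∀ s < t + 1, Function.update x (t + 1) y s ∈ F := fun s hs => by
    rw [Function.update_of_ne (by omega)]
    exact Finset.mem_image_of_mem x (Finset.mem_range.mpr (by omega))
  have hxt : x t ∈ F := Finset.mem_image_of_mem x (Finset.mem_range.mpr (by omega))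
  rw [Cset_eq_pi x t F hF1, Cset_eq_pi (Function.update x (t + 1) y) (t + 1) F hF2]
  unfold mu
  rw [Measure.infinitePi_pi _ (fun i _ => MeasurableSet.of_discrete),
    Measure.infinitePi_pi _ (fun i _ => MeasurableSet.of_discrete)]
  rw [← Finset.mul_prod_erase F _ hxt, ← Finset.mul_prod_erase F _ hxt, ← mul_assoc]
  congr 1
  · rw [Sv_measure heven hx hmid hy]
    congr 2
    rw [Sv_update]
    ext σ
    simp only [Set.mem_ofPred_eq]
    constructor
    · rintro ⟨a, b⟩
      exact ⟨a, fun _ _ => b⟩
    · rintro ⟨a, b⟩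
      exact ⟨a, b hmid trivial⟩
  · apply Finset.prod_congr rfl
    intro v hv
    rw [Sv_update]
    congr 1
    ext σ
    simp only [Set.mem_ofPred_eq]
    constructor
    · intro a
      exact ⟨a, fun _ h => absurd h.symm (Finset.ne_of_mem_erase hv)⟩
    · rintro ⟨a, _⟩
      exact a

lemma mu_Cset_ne_zero (heven : ∀ v, Even (G.neighborFinset v).card) {x : ℕ → V} (hx : Valid G x)
    (t : ℕ) : mu G (Cset G x t) ≠ 0 := by
  have hP := mu_prob heven
  induction t with
  | zero =>
    have : Cset G x 0 = Set.univ := by
      ext ω; simp [Cset]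
    rw [this, measure_univ]
    exact one_ne_zero
  | succ t ih =>
    have hupd : Function.update x (t + 1) (x (t + 1)) = x := Function.update_eq_self _ _
    by_cases hmid : x t ≠ base G x t
    · have hf : (fresh G x t).Nonempty := by
        by_contra hc
        exact hmid (eq_base_of_stuck heven hx hc)
      have hy := hx.fresh_mem hf
      have := mu_Cset_update heven hx hmid hy
      rw [hupd] at this
      intro h0
      rw [h0, mul_zero] at this
      exact ih this
    · push Not at hmid
      have := Cset_update (G := G) x t (x (t + 1))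
      rw [hupd] at this
      rw [this]
      have e : {ω | ω ∈ Cset G x t ∧ (x t ≠ base G x t → Mch (ω (x t)) (x (t - 1)) (x (t + 1)))} =
          Cset G x t := by
        ext ω
        simp only [Set.mem_ofPred_eq]
        exact ⟨fun h => h.1, fun h => ⟨h, fun h' => absurd hmid h'⟩⟩
      rw [e]
      exact ih

/-- the conditional probability of the event `A` given compatibility with the path -/
noncomputable def cp (G : SimpleGraph V) [G.LocallyFinite]
    (A : Set ((v : V) → PM (G.neighborSet v))) (t : ℕ) (x : ℕ → V) : ℝ≥0∞ :=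
  mu G (A ∩ Cset G x t) / mu G (Cset G x t)

lemma Cset_congr {x y : ℕ → V} {t : ℕ} (h : ∀ s ≤ t, x s = y s) : Cset G x t = Cset G y t := by
  ext ω
  simp only [Cset, Set.mem_ofPred_eq]
  constructor
  · intro hh s hs hm
    rw [← h s (by omega), ← base_congr G (fun r hr => h r (by omega))] at hm
    rw [← h s (by omega), ← h (s - 1) (by omega), ← h (s + 1) (by omega)]
    exact hh s hs hm
  · intro hh s hs hm
    rw [h s (by omega), base_congr G (fun r hr => h r (by omega))] at hm
    rw [h s (by omega), h (s - 1) (by omega), h (s + 1) (by omega)]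
    exact hh s hs hm

lemma cp_dep (A : Set ((v : V) → PM (G.neighborSet v))) (t : ℕ) : DepLE t (cp G A t) := by
  intro x y h
  unfold cp
  rw [Cset_congr h]

/-- The conditional probability is a martingale along the walk. -/
lemma cp_step (heven : ∀ v, Even (G.neighborFinset v).card)
    {A : Set ((v : V) → PM (G.neighborSet v))} (hA : MeasurableSet A) (t : ℕ)
    {x : ℕ → V} (hx : Valid G x) (hsum : ∑' y, stepProb G x t y = 1) :
    ∑' y, stepProb G x t y * cp G A (t + 1) (Function.update x (t + 1) y) = cp G A t x := by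
  have hP := mu_prob heven
  by_cases hmid : x t ≠ base G x t
  · have hf : (fresh G x t).Nonempty := by
      by_contra hc
      exact hmid (eq_base_of_stuck heven hx hc)
    rw [tsum_step_fresh hf]
    have hterm : ∀ y ∈ fresh G x t, ((fresh G x t).card : ℝ≥0∞)⁻¹ *
        cp G A (t + 1) (Function.update x (t + 1) y) =
        mu G (A ∩ Cset G (Function.update x (t + 1) y) (t + 1)) / mu G (Cset G x t) := by
      intro y hy
      unfold cp
      rw [mu_Cset_update heven hx hmid hy]
      have hne : ((fresh G x t).card : ℝ≥0∞) ≠ 0 := by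
        exact_mod_cast (Finset.card_pos.mpr hf).ne'
      rw [ENNReal.div_eq_inv_mul, ENNReal.div_eq_inv_mul,
        ENNReal.mul_inv (Or.inl hne) (Or.inl (ENNReal.natCast_ne_top _)), mul_assoc]
    rw [Finset.sum_congr rfl hterm]
    unfold cp
    simp only [ENNReal.div_eq_inv_mul]
    rw [← Finset.mul_sum]
    congr 1
    have hU : A ∩ Cset G x t = ⋃ y ∈ fresh G x t,
        (A ∩ Cset G (Function.update x (t + 1) y) (t + 1)) := by
      ext ω
      simp only [Set.mem_inter_iff, Set.mem_iUnion, exists_prop]
      constructor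
      · rintro ⟨a, b⟩
        obtain ⟨y, hy, hM⟩ := Cset_fresh heven hx hmid b
        refine ⟨y, hy, a, ?_⟩
        rw [Cset_update]
        exact ⟨b, fun _ => hM⟩
      · rintro ⟨y, _, a, b⟩
        rw [Cset_update] at b
        exact ⟨a, b.1⟩
    rw [hU, measure_biUnion_finset]
    · intro y hy y' hy' hne
      rw [Function.onFun, Set.disjoint_left]
      rintro ω ⟨_, h1⟩ ⟨_, h2⟩
      rw [Cset_update] at h1 h2
      exact hne ((h1.2 hmid).unique (h2.2 hmid))
    · intro y _
      exact hA.inter (measurableSet_Cset _ _)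
  · push Not at hmid
    have : ∀ y, cp G A (t + 1) (Function.update x (t + 1) y) = cp G A t x := by
      intro y
      unfold cp
      rw [Cset_update]
      have e : {ω | ω ∈ Cset G x t ∧ (x t ≠ base G x t → Mch (ω (x t)) (x (t - 1)) y)} =
          Cset G x t := by
        ext ω
        simp only [Set.mem_ofPred_eq]
        exact ⟨fun h => h.1, fun h => ⟨h, fun h' => absurd hmid h'⟩⟩
      rw [e]
    simp only [this]
    rw [ENNReal.tsum_mul_right, hsum, one_mul]

variable {Ω : Type*} [MeasurableSpace Ω] {o : V} {P : Measure Ω} {X : ℕ → Ω → V}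

lemma IsGRW.lintegral_cp [Countable V] (h : IsGRW G o P X)
    (heven : ∀ v, Even (G.neighborFinset v).card) (hpos : ∀ v, (G.neighborFinset v).Nonempty)
    {A : Set ((v : V) → PM (G.neighborSet v))} (hA : MeasurableSet A) (t : ℕ) :
    ∫⁻ ω, cp G A t (fun s => X s ω) ∂P = mu G A := by
  have hP : IsProbabilityMeasure P := ⟨h.prob⟩
  have hM := mu_prob heven
  induction t with
  | zero =>
    have : ∀ x : ℕ → V, cp G A 0 x = mu G A := by
      intro x
      unfold cp
      have : Cset G x 0 = Set.univ := by
        ext ω; simp [Cset]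
      rw [this, Set.inter_univ, measure_univ, div_one]
    simp [this]
  | succ t ih =>
    rw [← ih, h.lintegral_step t (cp G A (t + 1)) (cp_dep A (t + 1))]
    apply lintegral_congr_ae
    filter_upwards [h.ae_valid] with ω hv
    apply cp_step heven hA t hv
    exact (tsum_stepProb G hpos _ _)

end Pool.Agent.H575R3.GRW
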