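import Mathlib
import Pool.Agent.H575R3.GRWBase
import Pool.Agent.H575R3.GRWExist
import Pool.Agent.H575R3.GRWStep
import Pool.Agent.H575R3.GRWSrw
import Pool.Agent.H575R3.GRWMatch
import Pool.Agent.H575R3.GRWUsed
import Pool.Agent.H575R3.GRWMeas

/-!
Orbits of the arc map given by a matching configuration, and their relation to the walk.
-/

open MeasureTheory Finset Filter ProbabilityTheory
open scoped ENNReal Topology

namespace Pool.Agent.H575R3.GRW

variable {V : Type*} [DecidableEq V] {G : SimpleGraph V} [G.LocallyFinite]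

open Classical in
/-- the successor of the arc from `u` to `v` -/
noncomputable def nx (ω : (v : V) → PM (G.neighborSet v)) (u v : V) : V :=
  if h : u ∈ G.neighborSet v then ((ω v).1 ⟨u, h⟩ : V) else u

/-- the arc map -/
noncomputable def arcT (ω : (v : V) → PM (G.neighborSet v)) (a : V × V) : V × V :=
  (a.2, nx ω a.1 a.2)

/-- the orbit started with the arc from `b` to `f` -/
noncomputable def orb (ω : (v : V) → PM (G.neighborSet v)) (b f : V) (k : ℕ) : V :=
  ((arcT ω)^[k] (b, f)).1

lemma arcT_congr {ω ω' : (v : V) → PM (G.neighborSet v)} {a : V × V} (h : ω a.2 = ω' a.2) :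
    arcT ω a = arcT ω' a := by
  unfold arcT nx
  simp only [h]

lemma nx_eq {ω : (v : V) → PM (G.neighborSet v)} {u v w : V} (h : Mch (ω v) u w) :
    nx ω u v = w := by
  obtain ⟨ha, hb, hab⟩ := h
  unfold nx
  rw [dif_pos ha, hab]

lemma Mch_nx (ω : (v : V) → PM (G.neighborSet v)) {u v : V} (h : G.Adj v u) :
    Mch (ω v) u (nx ω u v) := by
  obtain ⟨w, hw⟩ := exists_Mch (ω v) (a := u) h
  rw [nx_eq hw]
  exact hw

lemma orbit_eq {x : ℕ → V} {n t' : ℕ} {ω : (v : V) → PM (G.neighborSet v)}
    (hω : ω ∈ Cset G x n) (hmid : ∀ s, t' < s → s < n → x s ≠ base G x s) (j : ℕ)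
    (hj : t' + j < n) :
    (arcT ω)^[j] (x t', x (t' + 1)) = (x (t' + j), x (t' + j + 1)) := by
  induction j with
  | zero => rfl
  | succ j ih =>
    rw [Function.iterate_succ_apply', ih (by omega)]
    have hM := hω (t' + j + 1) (by omega) (hmid _ (by omega) (by omega))
    simp only [Nat.add_sub_cancel] at hM
    unfold arcT
    simp only
    rw [nx_eq hM]
    rfl

lemma orb_eq {x : ℕ → V} {n t' : ℕ} {ω : (v : V) → PM (G.neighborSet v)}
    (hω : ω ∈ Cset G x n) (hmid : ∀ s, t' < s → s < n → x s ≠ base G x s) (k : ℕ)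
    (hk : t' + k ≤ n) : orb ω (x t') (x (t' + 1)) k = x (t' + k) := by
  cases k with
  | zero => rfl
  | succ k =>
    unfold orb
    rw [Function.iterate_succ_apply', orbit_eq hω hmid k (by omega)]
    rfl

lemma base_const {x : ℕ → V} (heven : ∀ v, Even (G.neighborFinset v).card) (hx : Valid G x)
    {t' : ℕ} (h0 : x t' = base G x t') (hf : (fresh G x t').Nonempty) (j : ℕ)
    (hne : ∀ i, 1 ≤ i → i ≤ j → x (t' + i) ≠ x t') : base G x (t' + j) = x t' := by
  induction j with
  | zero => exact h0.symm
  | succ j ih =>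
    have ihj := ih (fun i h1 h2 => hne i h1 (by omega))
    have hfj : (fresh G x (t' + j)).Nonempty := by
      rcases Nat.eq_zero_or_pos j with h | h
      · subst h; exact hf
      · by_contra hc
        have := eq_base_of_stuck heven hx hc
        rw [ihj] at this
        exact hne j h (by omega) this
    rw [show t' + (j + 1) = t' + j + 1 by ring, base_succ_fresh hfj, ihj]

/-- the orbit from the arc `(b, f)` does not return to `b` within `m` steps -/
def noRet (G : SimpleGraph V) (b f : V) (m : ℕ) : Set ((v : V) → PM (G.neighborSet v)) :=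
  {ω | ∀ k, 1 ≤ k → k ≤ m → orb ω b f k ≠ b}

lemma measurableSet_iter [Countable V] (a0 : V × V) (k : ℕ) : ∀ a : V × V,
    MeasurableSet {ω : (v : V) → PM (G.neighborSet v) | (arcT ω)^[k] a0 = a} := by
  induction k with
  | zero =>
    intro a
    by_cases h : a0 = a
    · have : {ω : (v : V) → PM (G.neighborSet v) | (arcT ω)^[0] a0 = a} = Set.univ := by
        ext ω; simp [h]
      rw [this]; exact MeasurableSet.univ
    · have : {ω : (v : V) → PM (G.neighborSet v) | (arcT ω)^[0] a0 = a} = ∅ := by
        ext ω; simp [h]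
      rw [this]; exact MeasurableSet.empty
  | succ k ih =>
    intro a
    have : {ω : (v : V) → PM (G.neighborSet v) | (arcT ω)^[k + 1] a0 = a} =
        ⋃ a' : V × V, {ω | (arcT ω)^[k] a0 = a'} ∩
          ((fun ω : (v : V) → PM (G.neighborSet v) => ω a'.2) ⁻¹'
            {σ | ∀ ω : (v : V) → PM (G.neighborSet v), ω a'.2 = σ → arcT ω a' = a}) := by
      ext ω
      simp only [Set.mem_ofPred_eq, Set.mem_iUnion, Set.mem_inter_iff, Set.mem_preimage,
        Function.iterate_succ_apply']
      constructor
      · intro h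
        refine ⟨(arcT ω)^[k] a0, rfl, ?_⟩
        intro ω' hω'
        rw [← h]
        exact arcT_congr hω'
      · rintro ⟨a', h1, h2⟩
        rw [h1]
        exact h2 ω rfl
    rw [this]
    exact MeasurableSet.iUnion fun a' => (ih a').inter
      ((measurable_pi_apply a'.2) (MeasurableSet.of_discrete))

lemma measurableSet_orb [Countable V] (b f : V) (k : ℕ) (w : V) :
    MeasurableSet {ω : (v : V) → PM (G.neighborSet v) | orb ω b f k = w} := by
  have : {ω : (v : V) → PM (G.neighborSet v) | orb ω b f k = w} =
      ⋃ u : V, {ω | (arcT ω)^[k] (b, f) = (w, u)} := by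
    ext ω
    simp only [Set.mem_ofPred_eq, Set.mem_iUnion]
    constructor
    · intro h
      exact ⟨((arcT ω)^[k] (b, f)).2, Prod.ext h rfl⟩
    · rintro ⟨u, h⟩
      unfold orb
      rw [h]
  rw [this]
  exact MeasurableSet.iUnion fun u => measurableSet_iter _ _ _

lemma measurableSet_noRet [Countable V] (b f : V) (m : ℕ) : MeasurableSet (noRet G b f m) := by
  have : noRet G b f m = ⋂ k, ⋂ (_ : 1 ≤ k), ⋂ (_ : k ≤ m), {ω | orb ω b f k = b}ᶜ := by
    ext ω
    simp [noRet]
  rw [this]
  exact MeasurableSet.iInter fun k => MeasurableSet.iInter fun _ => MeasurableSet.iInter fun _ =>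
    (measurableSet_orb _ _ _ _).compl

variable {Ω : Type*} [MeasurableSpace Ω] {o : V} {P : Measure Ω} {X : ℕ → Ω → V}

/-- upper bound: an event implied by a matching event -/
theorem IsGRW.le_mu [Countable V] (h : IsGRW G o P X)
    (heven : ∀ v, Even (G.neighborFinset v).card) (hpos : ∀ v, (G.neighborFinset v).Nonempty)
    {A : Set ((v : V) → PM (G.neighborSet v))} (hA : MeasurableSet A) (n : ℕ)
    (D : (ℕ → V) → Prop) (hD : DepLE n D)
    (himp : ∀ x, Valid G x → x 0 = o → D x → Cset G x n ⊆ A) :
    P {ω | D (fun s => X s ω)} ≤ mu G A := by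
  have hM := mu_prob heven
  rw [← h.lintegral_cp heven hpos hA n, ← lintegral_indicator_one (h.measurableSet_dep n D hD)]
  apply lintegral_mono_ae
  filter_upwards [h.ae_valid, h.ae_start] with ω hv h0
  simp only [Set.indicator]
  split_ifs with h1
  · unfold cp
    rw [Set.inter_eq_self_of_subset_right (himp _ hv h0 h1)]
    rw [ENNReal.div_self (mu_Cset_ne_zero heven hv n) (measure_ne_top _ _)]
    simp
  · exact zero_le

lemma IsGRW.lintegral_cp_ind [Countable V] (h : IsGRW G o P X)
    (heven : ∀ v, Even (G.neighborFinset v).card) (hpos : ∀ v, (G.neighborFinset v).Nonempty)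
    {A : Set ((v : V) → PM (G.neighborSet v))} (hA : MeasurableSet A) (s : ℕ)
    (D : (ℕ → V) → ℝ≥0∞) (hD : DepLE s D) (r : ℕ) :
    ∫⁻ ω, D (fun s => X s ω) * cp G A (s + r) (fun s => X s ω) ∂P =
      ∫⁻ ω, D (fun s => X s ω) * cp G A s (fun s => X s ω) ∂P := by
  have hP : IsProbabilityMeasure P := ⟨h.prob⟩
  have hM := mu_prob heven
  induction r with
  | zero => rfl
  | succ r ih =>
    rw [← ih]
    have hdep : DepLE (s + r + 1) (fun x => D x * cp G A (s + r + 1) x) := by
      intro x y hxy
      simp only
      rw [hD x y (fun i hi => hxy i (by omega)), cp_dep A (s + r + 1) x y hxy]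
    rw [show s + (r + 1) = s + r + 1 by ring,
      h.lintegral_step (s + r) (fun x => D x * cp G A (s + r + 1) x) hdep]
    apply lintegral_congr_ae
    filter_upwards [h.ae_valid] with ω hv
    have hDu : ∀ y, D (Function.update (fun s => X s ω) (s + r + 1) y) = D (fun s => X s ω) := by
      intro y
      apply hD
      intro i hi
      rw [Function.update_of_ne (by omega)]
    simp only [hDu]
    rw [← cp_step heven hA (s + r) hv (tsum_stepProb G hpos _ _), ← ENNReal.tsum_mul_left]
    congr 1
    funext y
    ring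

lemma stepProb_zero (hpos : ∀ v, (G.neighborFinset v).Nonempty) (x : ℕ → V) {f : V}
    (hf : f ∈ G.neighborFinset (x 0)) :
    stepProb G x 0 f = ((G.neighborFinset (x 0)).card : ℝ≥0∞)⁻¹ := by
  have hfr : fresh G x 0 = G.neighborFinset (x 0) := by
    unfold fresh
    rw [crossed_zero]
    simp
  unfold stepProb
  rw [hfr, if_pos (hpos _), if_pos hf]

/-- Exact formula for the first excursion. -/
theorem IsGRW.noRet_formula [Countable V] (h : IsGRW G o P X)
    (heven : ∀ v, Even (G.neighborFinset v).card) (hpos : ∀ v, (G.neighborFinset v).Nonempty)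
    {f : V} (hf : f ∈ G.neighborFinset o) (m : ℕ) :
    P {ω | X 1 ω = f ∧ ∀ k, 1 ≤ k → k ≤ m + 1 → X k ω ≠ o} =
      ((G.neighborFinset o).card : ℝ≥0∞)⁻¹ * mu G (noRet G o f (m + 1)) := by
  classical
  have hP : IsProbabilityMeasure P := ⟨h.prob⟩
  have hM := mu_prob heven
  have hA := measurableSet_noRet (G := G) o f (m + 1)
  have key := h.lintegral_cp_ind heven hpos hA 1 (fun x => if x 1 = f then 1 else 0) (by
    intro x y hxy
    simp only
    rw [hxy 1 le_rfl]) m
  have hR : ∫⁻ ω, (if X 1 ω = f then 1 else 0) * cp G (noRet G o f (m + 1)) 1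
      (fun s => X s ω) ∂P = ((G.neighborFinset o).card : ℝ≥0∞)⁻¹ * mu G (noRet G o f (m + 1)) := by
    have h1 : ∀ x : ℕ → V, cp G (noRet G o f (m + 1)) 1 x = mu G (noRet G o f (m + 1)) := by
      intro x
      unfold cp
      have : Cset G x 1 = Set.univ := by
        ext ω
        simp only [Cset, Set.mem_ofPred_eq, Set.mem_univ, iff_true]
        intro s hs hm
        have : s = 0 := by omega
        subst this
        exact absurd rfl hm
      rw [this, Set.inter_univ, measure_univ, div_one]
    simp only [h1]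
    have h2 : ∫⁻ ω, (if X 1 ω = f then (1 : ℝ≥0∞) else 0) * mu G (noRet G o f (m + 1)) ∂P =
        P {ω | X 1 ω = f} * mu G (noRet G o f (m + 1)) := by
      rw [lintegral_mul_const']
      · congr 1
        rw [← lintegral_indicator_one (h.meas 1 f)]
        congr 1
        funext a
        by_cases ha : X 1 a = f <;> simp [Set.indicator, ha]
      · exact measure_ne_top _ _
    rw [h2]
    congr 1
    have h3 : P {ω | X 1 ω = f} = P {ω | (∀ s ≤ 0, X s ω = (fun _ => o) s) ∧ X (0 + 1) ω = f} := by
      apply measure_congr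
      filter_upwards [h.ae_start] with ω h0
      apply propext
      constructor
      · intro h4
        refine ⟨fun s hs => ?_, h4⟩
        have : s = 0 := by omega
        subst this
        exact h0
      · intro h4
        exact h4.2
    rw [h3, h.trans 0 (fun _ => o) f, h.cyl_zero (fun _ => o) rfl, one_mul]
    exact stepProb_zero hpos (fun _ => o) hf
  rw [← hR]
  refine Eq.trans ?_ key
  have hms : MeasurableSet {ω | X 1 ω = f ∧ ∀ k, 1 ≤ k → k ≤ m + 1 → X k ω ≠ o} := by
    apply h.measurableSet_dep (m + 1) (fun x => x 1 = f ∧ ∀ k, 1 ≤ k → k ≤ m + 1 → x k ≠ o)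
    intro x y hxy
    apply propext
    constructor
    · rintro ⟨a, b⟩
      exact ⟨by rw [← hxy 1 (by omega)]; exact a, fun k h1 h2 => by
        rw [← hxy k h2]; exact b k h1 h2⟩
    · rintro ⟨a, b⟩
      exact ⟨by rw [hxy 1 (by omega)]; exact a, fun k h1 h2 => by
        rw [hxy k h2]; exact b k h1 h2⟩
  rw [← lintegral_indicator_one hms]
  apply lintegral_congr_ae
  filter_upwards [h.ae_valid, h.ae_start] with ω hv h0
  have hf0 : (fresh G (fun s => X s ω) 0).Nonempty := by
    have : fresh G (fun s => X s ω) 0 = G.neighborFinset (X 0 ω) := by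
      unfold fresh
      rw [crossed_zero]
      simp
    rw [this]
    exact hpos _
  rw [show 1 + m = m + 1 by ring]
  by_cases h1 : X 1 ω = f
  · simp only [if_pos h1, one_mul]
    by_cases h2 : ∀ k, 1 ≤ k → k ≤ m + 1 → X k ω ≠ o
    · rw [Set.indicator_of_mem (show ω ∈ {ω | X 1 ω = f ∧ ∀ k, 1 ≤ k → k ≤ m + 1 → X k ω ≠ o} from
        ⟨h1, h2⟩)]
      unfold cp
      have hsub : Cset G (fun s => X s ω) (m + 1) ⊆ noRet G o f (m + 1) := by
        intro η hη k hk1 hk2
        have hmid : ∀ s, 0 < s → s < m + 1 → (fun s => X s ω) s ≠ base G (fun s => X s ω) s := by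
          intro s hs1 hs2
          have := base_const heven hv (t' := 0) rfl hf0 s (by
            intro i hi1 hi2
            rw [Nat.zero_add]
            show X i ω ≠ X 0 ω
            rw [h0]
            exact h2 i hi1 (by omega))
          rw [Nat.zero_add] at this
          rw [this]
          show X s ω ≠ X 0 ω
          rw [h0]
          exact h2 s hs1 (by omega)
        have := orb_eq hη hmid k (by omega)
        simp only [Nat.zero_add] at this
        rw [h0, h1] at this
        rw [this]
        exact h2 k hk1 hk2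
      rw [Set.inter_eq_self_of_subset_right hsub,
        ENNReal.div_self (mu_Cset_ne_zero heven hv _) (measure_ne_top _ _)]
      rfl
    · rw [Set.indicator_of_notMem (fun hh => h2 hh.2)]
      push Not at h2
      have hex : ∃ k, 1 ≤ k ∧ k ≤ m + 1 ∧ X k ω = o := h2
      obtain ⟨hk1, hk2, hk3⟩ := Nat.find_spec hex
      have hmin : ∀ i, 1 ≤ i → i < Nat.find hex → X i ω ≠ o := by
        intro i hi1 hi2 hi3
        exact Nat.find_min hex hi2 ⟨hi1, by omega, hi3⟩
      set k := Nat.find hex
      have hempty : noRet G o f (m + 1) ∩ Cset G (fun s => X s ω) (m + 1) = ∅ := by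
        rw [Set.eq_empty_iff_forall_notMem]
        rintro η ⟨hη1, hη2⟩
        have hmid : ∀ s, 0 < s → s < k → (fun s => X s ω) s ≠ base G (fun s => X s ω) s := by
          intro s hs1 hs2
          have := base_const heven hv (t' := 0) rfl hf0 s (by
            intro i hi1 hi2
            rw [Nat.zero_add]
            show X i ω ≠ X 0 ω
            rw [h0]
            exact hmin i hi1 (by omega))
          rw [Nat.zero_add] at this
          rw [this]
          show X s ω ≠ X 0 ω
          rw [h0]
          exact hmin s hs1 hs2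
        have := orb_eq (Cset_antitone _ hk2 hη2) hmid k (by omega)
        simp only [Nat.zero_add] at this
        rw [h0, h1, hk3] at this
        exact hη1 k hk1 hk2 this
      unfold cp
      rw [hempty]
      simp
  · simp only [if_neg h1, zero_mul]
    rw [Set.indicator_of_notMem (fun hh => h1 hh.1)]

end Pool.Agent.H575R3.GRW
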