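import Mathlib
import Pool.Agent.H575R3.GRWBase
import Pool.Agent.H575R3.GRWStep
import Pool.Agent.H575R3.GRWMatch
import Pool.Agent.H575R3.GRWUsed
import Pool.Agent.H575R3.GRWMeas
import Pool.Agent.H575R3.GRWOrbit
import Pool.Agent.H575R3.GRWMacro

/-!
Balls, dependence on finitely many matchings, independence, closed configurations and transport.
-/

open MeasureTheory Finset Filter ProbabilityTheory
open scoped ENNReal Topology

namespace Pool.Agent.H575R3.GRW

variable {V : Type*} [DecidableEq V] {G : SimpleGraph V} [G.LocallyFinite]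

/-- the ball of radius `k` around `b` -/
def bl (G : SimpleGraph V) [G.LocallyFinite] (b : V) : ℕ → Finset V
  | 0 => {b}
  | k + 1 => (bl G b k).biUnion (fun v => insert v (G.neighborFinset v))

lemma mem_bl_succ {b w : V} {k : ℕ} :
    w ∈ bl G b (k + 1) ↔ ∃ u ∈ bl G b k, w = u ∨ w ∈ G.neighborFinset u := by
  simp only [bl, Finset.mem_biUnion, Finset.mem_insert]

lemma bl_mono_succ (b : V) (k : ℕ) : bl G b k ⊆ bl G b (k + 1) := fun w hw =>
  mem_bl_succ.mpr ⟨w, hw, Or.inl rfl⟩

lemma bl_mono (b : V) {j k : ℕ} (h : j ≤ k) : bl G b j ⊆ bl G b k := by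
  induction h with
  | refl => exact Finset.Subset.refl _
  | step _ ih => exact ih.trans (bl_mono_succ b _)

lemma bl_left {u v : V} (h : u = v ∨ u ∈ G.neighborFinset v) (k : ℕ) :
    bl G u k ⊆ bl G v (k + 1) := by
  induction k with
  | zero =>
    intro w hw
    simp only [bl, Finset.mem_singleton] at hw
    subst hw
    exact mem_bl_succ.mpr ⟨v, by simp [bl], h⟩
  | succ k ih =>
    intro w hw
    obtain ⟨a, ha, hwa⟩ := mem_bl_succ.mp hw
    exact mem_bl_succ.mpr ⟨a, ih ha, hwa⟩

lemma bl_symm {b v : V} {k : ℕ} (h : v ∈ bl G b k) : b ∈ bl G v k := by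
  induction k generalizing v with
  | zero =>
    simp only [bl, Finset.mem_singleton] at h ⊢
    exact h.symm
  | succ k ih =>
    obtain ⟨u, hu, hvu⟩ := mem_bl_succ.mp h
    have := ih hu
    apply bl_left (u := u) _ k this
    rcases hvu with h1 | h1
    · exact Or.inl h1.symm
    · right
      rw [SimpleGraph.mem_neighborFinset] at h1 ⊢
      exact h1.symm

lemma exists_far [Infinite V] (S : Finset V) (k : ℕ) : ∃ b, Disjoint S (bl G b k) := by
  obtain ⟨b, hb⟩ := Infinite.exists_notMem_finset (S.biUnion (fun v => bl G v k))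
  refine ⟨b, ?_⟩
  rw [Finset.disjoint_left]
  intro v hv hvb
  apply hb
  rw [Finset.mem_biUnion]
  exact ⟨v, hv, bl_symm hvb⟩

lemma mem_bl_walk {a b : V} (p : G.Walk a b) : b ∈ bl G a p.length := by
  induction p with
  | nil => simp [bl]
  | @cons u v w h p ih =>
    rw [SimpleGraph.Walk.length_cons]
    apply bl_left (u := v) _ _ ih
    right
    rw [SimpleGraph.mem_neighborFinset]
    exact h

theorem countable_of_connected (G : SimpleGraph V) [G.LocallyFinite] (hconn : G.Connected) :
    Countable V := by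
  obtain ⟨o⟩ := hconn.nonempty
  have : (Set.univ : Set V) = ⋃ k, (bl G o k : Set V) := by
    ext v
    simp only [Set.mem_univ, Set.mem_iUnion, Finset.mem_coe, true_iff]
    obtain ⟨p⟩ := hconn.preconnected o v
    exact ⟨p.length, mem_bl_walk p⟩
  rw [← Set.countable_univ_iff, this]
  exact Set.countable_iUnion fun k => Finset.countable_toSet _

lemma neighborFinset_nonempty [Infinite V] (hconn : G.Connected) (v : V) :
    (G.neighborFinset v).Nonempty := by
  obtain ⟨w, hw⟩ := exists_ne v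
  obtain ⟨p⟩ := hconn.preconnected v w
  cases p with
  | nil => exact absurd rfl hw
  | @cons _ u _ h p => exact ⟨u, by rw [SimpleGraph.mem_neighborFinset]; exact h⟩

/-! ### Dependence and independence -/

/-- the event `E` depends only on the matchings at the vertices of `S` -/
def DepOn (S : Finset V) (E : Set ((v : V) → PM (G.neighborSet v))) : Prop :=
  ∀ ω ω' : (v : V) → PM (G.neighborSet v), (∀ v ∈ S, ω v = ω' v) → ω ∈ E → ω' ∈ E

lemma DepOn.preimage {S : Finset V} {E : Set ((v : V) → PM (G.neighborSet v))} (h : DepOn S E) :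
    E = (fun ω (i : S) => ω i) ⁻¹' ((fun ω (i : S) => ω i) '' E) := by
  ext ω
  constructor
  · intro hω
    exact ⟨ω, hω, rfl⟩
  · rintro ⟨ω', hω', heq⟩
    apply h ω' ω _ hω'
    intro v hv
    exact congrFun heq ⟨v, hv⟩

theorem indep_of_depOn (heven : ∀ v, Even (G.neighborFinset v).card) {S T : Finset V}
    (hST : Disjoint S T) {E F : Set ((v : V) → PM (G.neighborSet v))} (hE : DepOn S E)
    (hF : DepOn T F) : mu G (E ∩ F) = mu G E * mu G F := by
  have hp := unif_prob_vertex heven
  have hI : iIndepFun (fun (v : V) (ω : (v : V) → PM (G.neighborSet v)) => ω v) (mu G) := by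
    unfold mu
    exact iIndepFun_infinitePi (X := fun _ x => x) (fun i => measurable_id)
  have hIF := hI.indepFun_finset S T hST (fun i => measurable_pi_apply i)
  rw [hE.preimage, hF.preimage]
  exact hIF.measure_inter_preimage_eq_mul _ _ (Set.toFinite _).measurableSet
    (Set.toFinite _).measurableSet

/-- all orbits from `b` return within `m + 1` steps -/
def Rm (G : SimpleGraph V) (b : V) (m : ℕ) : Set ((v : V) → PM (G.neighborSet v)) :=
  {ω | ∀ f, G.Adj b f → ∃ k, 1 ≤ k ∧ k ≤ m + 1 ∧ orb ω b f k = b}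

/-- all orbits from `b` return -/
def Rinf (G : SimpleGraph V) (b : V) : Set ((v : V) → PM (G.neighborSet v)) :=
  {ω | ∀ f, G.Adj b f → ∃ k, 1 ≤ k ∧ orb ω b f k = b}

lemma iter_adj (ω : (v : V) → PM (G.neighborSet v)) {a : V × V} (h : G.Adj a.1 a.2) (j : ℕ) :
    G.Adj ((arcT ω)^[j] a).1 ((arcT ω)^[j] a).2 := by
  induction j with
  | zero => exact h
  | succ j ih =>
    rw [Function.iterate_succ_apply']
    obtain ⟨_, hb, _⟩ := Mch_nx ω ih.symm
    exact hb

lemma iter_congr {b f : V} (hbf : G.Adj b f) {ω ω' : (v : V) → PM (G.neighborSet v)} (j : ℕ)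
    (h : ∀ v ∈ bl G b j, ω v = ω' v) :
    (arcT ω)^[j] (b, f) = (arcT ω')^[j] (b, f) ∧ ((arcT ω)^[j] (b, f)).2 ∈ bl G b (j + 1) := by
  induction j with
  | zero =>
    refine ⟨rfl, ?_⟩
    apply mem_bl_succ.mpr
    exact ⟨b, by simp [bl], Or.inr (by simpa using hbf)⟩
  | succ j ih =>
    obtain ⟨h1, h2⟩ := ih (fun v hv => h v (bl_mono_succ b j hv))
    have h3 : (arcT ω)^[j + 1] (b, f) = (arcT ω')^[j + 1] (b, f) := by
      rw [Function.iterate_succ_apply', Function.iterate_succ_apply', ← h1]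
      apply arcT_congr
      exact h _ h2
    refine ⟨h3, ?_⟩
    apply mem_bl_succ.mpr
    refine ⟨((arcT ω)^[j] (b, f)).2, h2, Or.inr ?_⟩
    have := iter_adj ω (a := (b, f)) hbf (j + 1)
    rw [Function.iterate_succ_apply'] at this ⊢
    rw [SimpleGraph.mem_neighborFinset]
    exact this

lemma Rm_depOn (b : V) (m : ℕ) : DepOn (bl G b (m + 1)) (Rm G b m) := by
  intro ω ω' h hω f hf
  obtain ⟨k, h1, h2, h3⟩ := hω f hf
  refine ⟨k, h1, h2, ?_⟩
  have := (iter_congr hf (ω := ω) (ω' := ω') k (fun v hv => h v (bl_mono b h2 hv))).1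
  unfold orb at h3 ⊢
  rw [← this]
  exact h3

lemma DepOn.inter {S T : Finset V} {E F : Set ((v : V) → PM (G.neighborSet v))}
    (hE : DepOn S E) (hF : DepOn T F) : DepOn (S ∪ T) (E ∩ F) := by
  intro ω ω' h hω
  exact ⟨hE ω ω' (fun v hv => h v (Finset.mem_union_left _ hv)) hω.1,
    hF ω ω' (fun v hv => h v (Finset.mem_union_right _ hv)) hω.2⟩

/-! ### Closed configurations -/

lemma crossed_all_of_based (heven : ∀ v, Even (G.neighborFinset v).card) {x : ℕ → V}
    (hx : Valid G x) {n s : ℕ} (hs : s ≤ n) (hstuck : ¬ (fresh G x n).Nonempty) {v : V}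
    (hv : base G x s = v) (w : V) (hw : w ∈ G.neighborFinset v) : s(v, w) ∈ crossed x n := by
  obtain ⟨r, rfl⟩ := Nat.exists_eq_add_of_le hs
  rcases base_or_used heven hx s r with h | h
  · have hb := eq_base_of_stuck heven hx hstuck
    rw [h, hv] at hb
    by_contra hc
    apply hstuck
    refine ⟨w, ?_⟩
    unfold fresh
    rw [Finset.mem_filter, hb]
    exact ⟨hw, hc⟩
  · rw [hv] at h
    exact h w hw

/-- the used arcs -/
def usedArcs (G : SimpleGraph V) (x : ℕ → V) (n : ℕ) : Set (V × V) :=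
  {a | G.Adj a.1 a.2 ∧ s(a.1, a.2) ∈ crossed x n}

lemma usedArcs_finite (x : ℕ → V) (n : ℕ) : (usedArcs G x n).Finite := by
  have hfin : ((Set.range (fun i : Fin n => (x i, x (i + 1)))) ∪
      (Set.range (fun i : Fin n => (x (i + 1), x i)))).Finite :=
    (Set.finite_range _).union (Set.finite_range _)
  apply hfin.subset
  rintro ⟨a, b⟩ ⟨_, h⟩
  unfold crossed at h
  rw [Finset.mem_image] at h
  obtain ⟨s, hs, heq⟩ := h
  rw [Finset.mem_range] at hs
  rw [Sym2.eq_iff] at heq
  rcases heq with ⟨h1, h2⟩ | ⟨h1, h2⟩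
  · left
    exact ⟨⟨s, hs⟩, by simp [h1, h2]⟩
  · right
    exact ⟨⟨s, hs⟩, by simp [h1, h2]⟩

lemma usedArcs_closed (heven : ∀ v, Even (G.neighborFinset v).card) {x : ℕ → V}
    (hx : Valid G x) {n : ℕ} (hstuck : ¬ (fresh G x n).Nonempty)
    {ω : (v : V) → PM (G.neighborSet v)} (hω : ω ∈ Cset G x n) {a : V × V}
    (ha : a ∈ usedArcs G x n) : arcT ω a ∈ usedArcs G x n := by
  obtain ⟨u, v⟩ := a
  obtain ⟨hadj, hused⟩ := ha
  simp only at hadj hused
  have hM := Mch_nx ω (u := u) (v := v) hadj.symm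
  have hadj2 : G.Adj v (nx ω u v) := by
    obtain ⟨_, hb, _⟩ := hM
    exact hb
  refine ⟨hadj2, ?_⟩
  show s(v, nx ω u v) ∈ crossed x n
  by_cases hnb : NotBased G x v n
  · obtain ⟨h1, _⟩ := used_invariant heven hx v n hnb
    have hxn : x n ≠ v := by
      intro h
      apply hnb n le_rfl
      refine ⟨h, ?_⟩
      rw [← eq_base_of_stuck heven hx hstuck, h]
    have h2 : u ∈ pairSet G x v n := by
      rcases (h1 u).mp ⟨by simpa using hadj.symm, by rw [Sym2.eq_swap]; exact hused⟩ with c | ⟨c, _⟩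
      · exact c
      · exact absurd c hxn
    have h3 : nx ω u v ∈ pairSet G x v n := by
      rw [mem_pairSet] at h2 ⊢
      obtain ⟨s, hs, a, b, c⟩ := h2
      have hMs := hω s hs b
      rw [a] at hMs
      refine ⟨s, hs, a, b, ?_⟩
      rcases c with c | c
      · right
        rw [← c] at hMs
        exact nx_eq hMs
      · left
        rw [← c] at hMs
        exact nx_eq hMs.symm
    exact ((h1 _).mpr (Or.inl h3)).2
  · unfold NotBased at hnb
    push Not at hnb
    obtain ⟨s, hs, _, hb⟩ := hnb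
    exact crossed_all_of_based heven hx hs hstuck hb _ (by simpa using hadj2)

lemma arcT_injOn (ω : (v : V) → PM (G.neighborSet v)) {a a' : V × V} (ha : G.Adj a.1 a.2)
    (ha' : G.Adj a'.1 a'.2) (h : arcT ω a = arcT ω a') : a = a' := by
  obtain ⟨u, v⟩ := a
  obtain ⟨u', v'⟩ := a'
  unfold arcT at h
  simp only [Prod.mk.injEq] at h ha ha'
  obtain ⟨h1, h2⟩ := h
  subst h1
  have hM := Mch_nx ω ha.symm
  have hM' := Mch_nx ω ha'.symm
  rw [← h2] at hM'
  have := hM.symm.unique hM'.symm
  rw [this]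

/-- At a stuck time, the orbits from every vertex all of whose edges were used are periodic. -/
theorem Cset_subset_Rinf (heven : ∀ v, Even (G.neighborFinset v).card) {x : ℕ → V}
    (hx : Valid G x) {n : ℕ} (hstuck : ¬ (fresh G x n).Nonempty) {b : V}
    (hb : ∀ w ∈ G.neighborFinset b, s(b, w) ∈ crossed x n) : Cset G x n ⊆ Rinf G b := by
  intro ω hω f hf
  have ha0 : (b, f) ∈ usedArcs G x n := ⟨hf, hb f (by simpa using hf)⟩
  have hfin : Finite (usedArcs G x n) := (usedArcs_finite x n).to_subtype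
  let g : usedArcs G x n → usedArcs G x n := fun a =>
    ⟨arcT ω a.1, usedArcs_closed heven hx hstuck hω a.2⟩
  have hg : Function.Injective g := by
    intro a a' h
    apply Subtype.ext
    exact arcT_injOn ω a.2.1 a'.2.1 (congrArg Subtype.val h)
  have hgi : ∀ k (a : usedArcs G x n), (g^[k] a).1 = (arcT ω)^[k] a.1 := by
    intro k
    induction k with
    | zero => intro a; rfl
    | succ k ih =>
      intro a
      rw [Function.iterate_succ_apply', Function.iterate_succ_apply', ← ih]
  obtain ⟨i, j, hij, heq⟩ := Finite.exists_ne_map_eq_of_infinite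
    (fun k : ℕ => g^[k] ⟨(b, f), ha0⟩)
  wlog hlt : i < j generalizing i j
  · exact this j i hij.symm heq.symm (by omega)
  obtain ⟨r, rfl⟩ := Nat.exists_eq_add_of_lt hlt
  have h1 : g^[i] ⟨(b, f), ha0⟩ = g^[i] (g^[r + 1] ⟨(b, f), ha0⟩) := by
    rw [← Function.iterate_add_apply]
    exact heq
  have h2 := (hg.iterate i) h1
  refine ⟨r + 1, by omega, ?_⟩
  unfold orb
  rw [← hgi (r + 1) ⟨(b, f), ha0⟩, ← h2]

/-! ### Transport by automorphisms -/

lemma crossed_map (φ : G ≃g G) (x : ℕ → V) (t : ℕ) (a b : V) :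
    s(φ a, φ b) ∈ crossed (fun s => φ (x s)) t ↔ s(a, b) ∈ crossed x t := by
  unfold crossed
  simp only [Finset.mem_image, Sym2.eq_iff]
  constructor
  · rintro ⟨s, hs, h⟩
    refine ⟨s, hs, ?_⟩
    rcases h with ⟨h1, h2⟩ | ⟨h1, h2⟩
    · exact Or.inl ⟨φ.injective h1, φ.injective h2⟩
    · exact Or.inr ⟨φ.injective h1, φ.injective h2⟩
  · rintro ⟨s, hs, h⟩
    refine ⟨s, hs, ?_⟩
    rcases h with ⟨h1, h2⟩ | ⟨h1, h2⟩
    · exact Or.inl ⟨by rw [h1], by rw [h2]⟩
    · exact Or.inr ⟨by rw [h1], by rw [h2]⟩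

lemma fresh_map (φ : G ≃g G) (x : ℕ → V) (t : ℕ) :
    fresh G (fun s => φ (x s)) t = (fresh G x t).map φ.toEquiv.toEmbedding := by
  ext w
  unfold fresh
  rw [Finset.mem_filter, Finset.mem_map]
  constructor
  · rintro ⟨h1, h2⟩
    refine ⟨φ.symm w, ?_, ?_⟩
    · rw [Finset.mem_filter]
      refine ⟨?_, ?_⟩
      · rw [← mem_neighborFinset_iso G φ]
        simpa using h1
      · rw [← crossed_map φ]
        simpa using h2
    · show φ (φ.symm w) = w
      simp
  · rintro ⟨a, ha, rfl⟩
    rw [Finset.mem_filter] at ha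
    refine ⟨?_, ?_⟩
    · show φ a ∈ _
      rw [mem_neighborFinset_iso]
      exact ha.1
    · show s(φ (x t), φ a) ∉ _
      rw [crossed_map]
      exact ha.2

lemma stepProb_map (φ : G ≃g G) (x : ℕ → V) (t : ℕ) (y : V) :
    stepProb G (fun s => φ (x s)) t (φ y) = stepProb G x t y := by
  unfold stepProb
  have h1 : (fresh G (fun s => φ (x s)) t).card = (fresh G x t).card := by
    rw [fresh_map, Finset.card_map]
  have h2 : (fresh G (fun s => φ (x s)) t).Nonempty ↔ (fresh G x t).Nonempty := by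
    rw [fresh_map, Finset.map_nonempty]
  have h3 : φ y ∈ fresh G (fun s => φ (x s)) t ↔ y ∈ fresh G x t := by
    rw [fresh_map, Finset.mem_map]
    constructor
    · rintro ⟨a, ha, h⟩
      have : a = y := φ.injective h
      rw [← this]; exact ha
    · intro h
      exact ⟨y, h, rfl⟩
  have h4 : φ y ∈ G.neighborFinset (φ (x t)) ↔ y ∈ G.neighborFinset (x t) :=
    mem_neighborFinset_iso G φ _ _
  have h5 : (G.neighborFinset (φ (x t))).card = (G.neighborFinset (x t)).card :=
    card_neighborFinset_iso G φ _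
  simp only [h1, h2, h3, h4, h5]

variable {Ω : Type*} [MeasurableSpace Ω] {o : V} {P : Measure Ω} {X : ℕ → Ω → V}

theorem IsGRW.map (h : IsGRW G o P X) (φ : G ≃g G) :
    IsGRW G (φ o) P (fun t ω => φ (X t ω)) := by
  have key : ∀ v w : V, φ v = w ↔ v = φ.symm w := by
    intro v w
    constructor
    · rintro rfl; simp
    · rintro rfl; simp
  constructor
  · exact h.prob
  · intro t v
    simp only [key]
    exact h.meas t _
  · simp only [key]
    simpa using h.start
  · intro t x y
    simp only [key]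
    rw [h.trans t (fun s => φ.symm (x s)) (φ.symm y)]
    congr 1
    have := stepProb_map φ (fun s => φ.symm (x s)) t (φ.symm y)
    simpa using this.symm

end Pool.Agent.H575R3.GRW
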