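import Mathlib
import Pool.Agent.H575R3.GRWBase
import Pool.Agent.H575R3.GRWExist
import Pool.Agent.H575R3.GRWStep
import Pool.Agent.H575R3.GRWSrw
import Pool.Agent.H575R3.GRWMacro
import Pool.Agent.H575R3.GRWMatch
import Pool.Agent.H575R3.GRWUsed
import Pool.Agent.H575R3.GRWMeas
import Pool.Agent.H575R3.GRWOrbit
import Pool.Agent.H575R3.GRWBall

/-!
Final assembly: the zero-one law for infinitely many returns on even vertex-transitive graphs.
-/

open MeasureTheory Finset Filter ProbabilityTheory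
open scoped ENNReal Topology

namespace Pool.Agent.H575R3.GRW

variable {V : Type*} [DecidableEq V] {G : SimpleGraph V} [G.LocallyFinite]
variable {Ω : Type*} [MeasurableSpace Ω] {o : V} {P : Measure Ω} {X : ℕ → Ω → V}

/-- probability of no return within `m + 1` steps -/
noncomputable def wn (P : Measure Ω) (X : ℕ → Ω → V) (o : V) (m : ℕ) : ℝ≥0∞ :=
  P {ω | ∀ k, 1 ≤ k → k ≤ m + 1 → X k ω ≠ o}

lemma wn_antitone (P : Measure Ω) (X : ℕ → Ω → V) (o : V) : Antitone (wn P X o) := by
  intro m n h
  apply measure_mono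
  intro ω hω k h1 h2
  exact hω k h1 (by omega)

lemma IsGRW.wn_formula [Countable V] (h : IsGRW G o P X)
    (heven : ∀ v, Even (G.neighborFinset v).card) (hpos : ∀ v, (G.neighborFinset v).Nonempty)
    (m : ℕ) : wn P X o m = ∑ f ∈ G.neighborFinset o,
      ((G.neighborFinset o).card : ℝ≥0∞)⁻¹ * mu G (noRet G o f (m + 1)) := by
  have hP : IsProbabilityMeasure P := ⟨h.prob⟩
  have e1 : wn P X o m = P (⋃ f ∈ G.neighborFinset o,
      {ω | X 1 ω = f ∧ ∀ k, 1 ≤ k → k ≤ m + 1 → X k ω ≠ o}) := by
    apply measure_congr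
    filter_upwards [h.ae_valid, h.ae_start] with ω hv h0
    apply propext
    constructor
    · intro hω
      show ω ∈ ⋃ f ∈ G.neighborFinset o, {ω | X 1 ω = f ∧ ∀ k, 1 ≤ k → k ≤ m + 1 → X k ω ≠ o}
      rw [Set.mem_iUnion₂]
      refine ⟨X 1 ω, ?_, rfl, hω⟩
      have := hv.adj 0
      rw [SimpleGraph.mem_neighborFinset]
      simp only [Nat.zero_add] at this
      rw [h0] at this
      exact this
    · intro hω
      have hω' : ω ∈ ⋃ f ∈ G.neighborFinset o,
        {ω | X 1 ω = f ∧ ∀ k, 1 ≤ k → k ≤ m + 1 → X k ω ≠ o} := hω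
      rw [Set.mem_iUnion₂] at hω'
      obtain ⟨f, _, _, h2⟩ := hω'
      exact h2
  rw [e1, measure_biUnion_finset]
  · apply Finset.sum_congr rfl
    intro f hf
    exact h.noRet_formula heven hpos hf m
  · intro f _ f' _ hne
    rw [Function.onFun, Set.disjoint_left]
    rintro ω ⟨h1, _⟩ ⟨h2, _⟩
    exact hne (h1.symm.trans h2)
  · intro f _
    apply h.measurableSet_dep (m + 1) (fun x => x 1 = f ∧ ∀ k, 1 ≤ k → k ≤ m + 1 → x k ≠ o)
    intro x y hxy
    apply propext
    constructor
    · rintro ⟨a, b⟩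
      exact ⟨by rw [← hxy 1 (by omega)]; exact a, fun k h1 h2 => by
        rw [← hxy k h2]; exact b k h1 h2⟩
    · rintro ⟨a, b⟩
      exact ⟨by rw [hxy 1 (by omega)]; exact a, fun k h1 h2 => by
        rw [hxy k h2]; exact b k h1 h2⟩

lemma IsGRW.wn_at [Countable V] (h : IsGRW G o P X)
    (heven : ∀ v, Even (G.neighborFinset v).card) (hpos : ∀ v, (G.neighborFinset v).Nonempty)
    (htrans : ∀ u v : V, ∃ φ : G ≃g G, φ u = v) (b : V) (m : ℕ) :
    wn P X o m = ∑ f ∈ G.neighborFinset b,
      ((G.neighborFinset b).card : ℝ≥0∞)⁻¹ * mu G (noRet G b f (m + 1)) := by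
  obtain ⟨φ, rfl⟩ := htrans o b
  rw [← (h.map φ).wn_formula heven hpos m]
  unfold wn
  congr 1
  ext ω
  simp only [Set.mem_ofPred_eq, ne_eq, EmbeddingLike.apply_eq_iff_eq]

lemma IsGRW.sum_noRet [Countable V] (h : IsGRW G o P X)
    (heven : ∀ v, Even (G.neighborFinset v).card) (hpos : ∀ v, (G.neighborFinset v).Nonempty)
    (htrans : ∀ u v : V, ∃ φ : G ≃g G, φ u = v) (b : V) (m : ℕ) :
    ∑ f ∈ G.neighborFinset b, mu G (noRet G b f (m + 1)) =
      (G.neighborFinset b).card * wn P X o m := by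
  rw [h.wn_at heven hpos htrans b m, ← Finset.mul_sum, ← mul_assoc, ENNReal.mul_inv_cancel, one_mul]
  · exact_mod_cast (Finset.card_pos.mpr (hpos b)).ne'
  · exact ENNReal.natCast_ne_top _

lemma Rm_eq (b : V) (m : ℕ) :
    Rm G b m = ⋂ f ∈ G.neighborFinset b, (noRet G b f (m + 1))ᶜ := by
  ext ω
  simp only [Rm, Set.mem_ofPred_eq, Set.mem_iInter, Set.mem_compl_iff, noRet,
    SimpleGraph.mem_neighborFinset]
  constructor
  · intro hh f hf hc
    obtain ⟨k, h1, h2, h3⟩ := hh f hf
    exact hc k h1 h2 h3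
  · intro hh f hf
    have := hh f hf
    push Not at this
    exact this

lemma measurableSet_Rm [Countable V] (b : V) (m : ℕ) : MeasurableSet (Rm G b m) := by
  rw [Rm_eq]
  exact Finset.measurableSet_biInter _ fun f _ => (measurableSet_noRet b f (m + 1)).compl

lemma Rinf_eq (b : V) : Rinf G b = ⋂ f ∈ G.neighborFinset b, ⋃ m, (noRet G b f (m + 1))ᶜ := by
  ext ω
  simp only [Rinf, Set.mem_ofPred_eq, Set.mem_iInter, Set.mem_iUnion, Set.mem_compl_iff, noRet,
    SimpleGraph.mem_neighborFinset]
  constructor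
  · intro hh f hf
    obtain ⟨k, h1, h3⟩ := hh f hf
    refine ⟨k, fun hc => hc k h1 (by omega) h3⟩
  · intro hh f hf
    obtain ⟨m, hm⟩ := hh f hf
    push Not at hm
    obtain ⟨k, h1, _, h3⟩ := hm
    exact ⟨k, h1, h3⟩

lemma measurableSet_Rinf [Countable V] (b : V) : MeasurableSet (Rinf G b) := by
  rw [Rinf_eq]
  exact Finset.measurableSet_biInter _ fun f _ => MeasurableSet.iUnion fun m =>
    (measurableSet_noRet b f (m + 1)).compl

lemma IsGRW.mu_Rm_le [Countable V] (h : IsGRW G o P X)
    (heven : ∀ v, Even (G.neighborFinset v).card) (hpos : ∀ v, (G.neighborFinset v).Nonempty)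
    (htrans : ∀ u v : V, ∃ φ : G ≃g G, φ u = v) (b : V) (m : ℕ) :
    mu G (Rm G b m) ≤ 1 - wn P X o m := by
  have hM := mu_prob heven
  have h1 : wn P X o m ≤ mu G (Rm G b m)ᶜ := by
    rw [h.wn_at heven hpos htrans b m]
    have h2 : ∀ f ∈ G.neighborFinset b, mu G (noRet G b f (m + 1)) ≤ mu G (Rm G b m)ᶜ := by
      intro f hf
      apply measure_mono
      rw [Rm_eq]
      intro ω hω hc
      rw [Set.mem_iInter₂] at hc
      exact hc f hf hω
    calc _ ≤ ∑ f ∈ G.neighborFinset b, ((G.neighborFinset b).card : ℝ≥0∞)⁻¹ *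
          mu G (Rm G b m)ᶜ := by
          apply Finset.sum_le_sum
          intro f hf
          exact mul_le_mul' le_rfl (h2 f hf)
      _ ≤ mu G (Rm G b m)ᶜ := avg_const_le G _ b
  rw [prob_compl_eq_one_sub (measurableSet_Rm b m)] at h1
  have h3 : mu G (Rm G b m) ≤ 1 := prob_le_one
  apply ENNReal.le_sub_of_add_le_right
  · exact ne_top_of_le_ne_top ENNReal.one_ne_top (h1.trans tsub_le_self)
  · calc mu G (Rm G b m) + wn P X o m ≤ mu G (Rm G b m) + (1 - mu G (Rm G b m)) := by gcongr
      _ = 1 := add_tsub_cancel_of_le h3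

lemma noRet_antitone (b f : V) : Antitone (noRet G b f) := by
  intro m n h ω hω k h1 h2
  exact hω k h1 (h2.trans h)

lemma IsGRW.mu_diff_le [Countable V] (h : IsGRW G o P X)
    (heven : ∀ v, Even (G.neighborFinset v).card) (hpos : ∀ v, (G.neighborFinset v).Nonempty)
    (htrans : ∀ u v : V, ∃ φ : G ≃g G, φ u = v) (b : V) (m : ℕ) :
    mu G (Rinf G b \ Rm G b m) ≤
      (G.neighborFinset b).card * (wn P X o m - ⨅ n, wn P X o n) := by
  have hM := mu_prob heven
  have hP : IsProbabilityMeasure P := ⟨h.prob⟩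
  let D : ℕ → Set ((v : V) → PM (G.neighborSet v)) := fun r =>
    ⋃ f ∈ G.neighborFinset b, (noRet G b f (m + 1) \ noRet G b f (m + r + 1))
  have hsub : Rinf G b \ Rm G b m ⊆ ⋃ r, D r := by
    rintro ω ⟨h1, h2⟩
    rw [Rm_eq, Set.mem_iInter₂] at h2
    push Not at h2
    obtain ⟨f, hf, h3⟩ := h2
    rw [Set.mem_compl_iff, not_not] at h3
    obtain ⟨k, hk1, hk2⟩ := h1 f (by simpa using hf)
    rw [Set.mem_iUnion]
    refine ⟨k, ?_⟩
    simp only [D]
    rw [Set.mem_iUnion₂]
    refine ⟨f, hf, h3, ?_⟩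
    intro hc
    exact hc k hk1 (by omega) hk2
  have hmono : Monotone D := by
    intro r r' hr
    apply Set.iUnion₂_mono
    intro f _
    apply Set.sdiff_subset_sdiff_right
    exact noRet_antitone b f (by omega)
  refine (measure_mono hsub).trans ?_
  rw [hmono.measure_iUnion]
  refine iSup_le fun r => ?_
  have hsum1 := h.sum_noRet heven hpos htrans b m
  have hsum2 := h.sum_noRet heven hpos htrans b (m + r)
  have hfin : ∀ n, wn P X o n ≠ ⊤ := fun n => measure_ne_top _ _
  calc mu G (D r) ≤ ∑ f ∈ G.neighborFinset b,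
        mu G (noRet G b f (m + 1) \ noRet G b f (m + r + 1)) := measure_biUnion_finset_le _ _
    _ = ∑ f ∈ G.neighborFinset b,
        (mu G (noRet G b f (m + 1)) - mu G (noRet G b f (m + r + 1))) := by
        apply Finset.sum_congr rfl
        intro f _
        rw [measure_sdiff (noRet_antitone b f (by omega))
          (measurableSet_noRet b f _).nullMeasurableSet (measure_ne_top _ _)]
    _ = (G.neighborFinset b).card * wn P X o m - (G.neighborFinset b).card * wn P X o (m + r) := by
        rw [← hsum1, ← hsum2]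
        apply ENNReal.eq_sub_of_add_eq
        · rw [hsum2]
          exact ENNReal.mul_ne_top (ENNReal.natCast_ne_top _) (hfin _)
        · rw [← Finset.sum_add_distrib]
          apply Finset.sum_congr rfl
          intro f _
          exact tsub_add_cancel_of_le (measure_mono (noRet_antitone b f (by omega)))
    _ = (G.neighborFinset b).card * (wn P X o m - wn P X o (m + r)) := by
        rw [ENNReal.mul_sub]
        intro _ _
        exact ENNReal.natCast_ne_top _
    _ ≤ _ := by
        gcongr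
        exact iInf_le _ _

/-- choosing many far apart vertices -/
lemma IsGRW.exists_set [Countable V] [Infinite V] (h : IsGRW G o P X)
    (heven : ∀ v, Even (G.neighborFinset v).card) (hpos : ∀ v, (G.neighborFinset v).Nonempty)
    (htrans : ∀ u v : V, ∃ φ : G ≃g G, φ u = v) (m n : ℕ) :
    ∃ A : Finset V, A.card ≤ n ∧ (∃ S : Finset V, DepOn S (⋂ b ∈ A, Rm G b m)) ∧
      mu G (⋂ b ∈ A, Rm G b m) ≤ (1 - ⨅ k, wn P X o k) ^ n := by
  have hM := mu_prob heven
  induction n with
  | zero =>
    refine ⟨∅, by simp, ⟨∅, ?_⟩, ?_⟩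
    · intro ω ω' _ _
      simp
    · simp
  | succ n ih =>
    obtain ⟨A, hA1, ⟨S, hS⟩, hA2⟩ := ih
    obtain ⟨b, hb⟩ := exists_far (G := G) S (m + 1)
    refine ⟨insert b A, (Finset.card_insert_le _ _).trans (by omega), ⟨bl G b (m + 1) ∪ S, ?_⟩, ?_⟩
    · rw [Finset.set_biInter_insert]
      exact (Rm_depOn b m).inter hS
    · rw [Finset.set_biInter_insert, indep_of_depOn heven hb.symm (Rm_depOn b m) hS, pow_succ,
        mul_comm]
      gcongr
      refine (h.mu_Rm_le heven hpos htrans b m).trans ?_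
      exact tsub_le_tsub_left (iInf_le _ _) _

/-- the event of being stuck infinitely often -/
def StuckIO (G : SimpleGraph V) [G.LocallyFinite] (x : ℕ → V) : Prop :=
  ∀ n, ∃ t, n ≤ t ∧ ¬ (fresh G x t).Nonempty

lemma nst_pos_used {x : ℕ → V} {b : V} {t : ℕ} (h : 1 ≤ nst G b x t) :
    ∃ s < t, x s = b ∧ ¬ (fresh G x s).Nonempty := by
  induction t with
  | zero => simp [nst] at h
  | succ t ih =>
    simp only [nst] at h
    by_cases hc : x t = b ∧ ¬ (fresh G x t).Nonempty
    · exact ⟨t, Nat.lt_succ_self t, hc⟩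
    · rw [if_neg hc, add_zero] at h
      obtain ⟨s, a, b⟩ := ih h
      exact ⟨s, by omega, b⟩

lemma used_of_stuck {x : ℕ → V} {s : ℕ} (h : ¬ (fresh G x s).Nonempty) :
    ∀ w ∈ G.neighborFinset (x s), s(x s, w) ∈ crossed x s := by
  intro w hw
  by_contra hc
  apply h
  refine ⟨w, ?_⟩
  unfold fresh
  rw [Finset.mem_filter]
  exact ⟨hw, hc⟩

lemma exists_good_time {x : ℕ → V} (A : Finset V)
    (hA : ∀ b ∈ A, ∃ s, ∀ w ∈ G.neighborFinset b, s(b, w) ∈ crossed x s)
    (hst : StuckIO G x) :
    ∃ k, ¬ (fresh G x k).Nonempty ∧ ∀ b ∈ A, ∀ w ∈ G.neighborFinset b, s(b, w) ∈ crossed x k := by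
  have : ∃ N, ∀ b ∈ A, ∀ w ∈ G.neighborFinset b, s(b, w) ∈ crossed x N := by
    classical
    induction A using Finset.induction_on with
    | empty => exact ⟨0, by simp⟩
    | insert a A _ ih =>
      obtain ⟨N, hN⟩ := ih (fun b hb => hA b (Finset.mem_insert_of_mem hb))
      obtain ⟨s, hs⟩ := hA a (Finset.mem_insert_self _ _)
      refine ⟨max N s, ?_⟩
      intro b hb w hw
      rcases Finset.mem_insert.mp hb with h | h
      · subst h
        exact crossed_mono x (le_max_right N s) (hs w hw)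
      · exact crossed_mono x (le_max_left N s) (hN b h w hw)
  obtain ⟨N, hN⟩ := this
  obtain ⟨k, hk1, hk2⟩ := hst N
  exact ⟨k, hk2, fun b hb w hw => crossed_mono x hk1 (hN b hb w hw)⟩

/-- In the recurrent case, being stuck infinitely often has at most the probability that all
orbits from a finite set of vertices are finite. -/
theorem IsGRW.stuckIO_le [Countable V] (h : IsGRW G o P X)
    (heven : ∀ v, Even (G.neighborFinset v).card) (hpos : ∀ v, (G.neighborFinset v).Nonempty)
    (hhit : ∀ z v, hitInf G z v = 1) (A : Finset V) :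
    P {ω | StuckIO G (fun s => X s ω)} ≤ mu G (⋂ b ∈ A, Rinf G b) := by
  have hmeas : MeasurableSet (⋂ b ∈ A, Rinf G b) :=
    Finset.measurableSet_biInter _ fun b _ => measurableSet_Rinf b
  let D : ℕ → (ℕ → V) → Prop := fun n x => ∃ k ≤ n, ¬ (fresh G x k).Nonempty ∧
    ∀ b ∈ A, ∀ w ∈ G.neighborFinset b, s(b, w) ∈ crossed x k
  have hD : ∀ n, DepLE n (D n) := by
    intro n x y hxy
    apply propext
    constructor
    · rintro ⟨k, hk, h1, h2⟩
      refine ⟨k, hk, ?_, ?_⟩
      · rw [← fresh_congr G (fun s hs => hxy s (by omega))]; exact h1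
      · rw [← crossed_congr (fun s hs => hxy s (by omega))]; exact h2
    · rintro ⟨k, hk, h1, h2⟩
      refine ⟨k, hk, ?_, ?_⟩
      · rw [fresh_congr G (fun s hs => hxy s (by omega))]; exact h1
      · rw [crossed_congr (fun s hs => hxy s (by omega))]; exact h2
  have hbound : ∀ n, P {ω | D n (fun s => X s ω)} ≤ mu G (⋂ b ∈ A, Rinf G b) := by
    intro n
    apply h.le_mu heven hpos hmeas n (D n) (hD n)
    rintro x hx _ ⟨k, hk, h1, h2⟩
    refine (Cset_antitone x hk).trans ?_
    apply Set.subset_iInter₂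
    intro b hb
    exact Cset_subset_Rinf heven hx h1 (h2 b hb)
  have hae : ∀ᵐ ω ∂P, StuckIO G (fun s => X s ω) → ∃ n, D n (fun s => X s ω) := by
    have h1 : ∀ᵐ ω ∂P, ∀ z : V, (∀ n, ∃ t, n ≤ t ∧ ¬ (fresh G (fun s => X s ω) t).Nonempty) →
        ∀ n, ∃ t, n ≤ t ∧ X t ω = z ∧ base G (fun s => X s ω) t = z := by
      rw [ae_all_iff]
      intro z
      exact h.visits_of_stuck heven z (hhit z)
    filter_upwards [h1, h.ae_valid] with ω h2 hv hst
    obtain ⟨k, hk1, hk2⟩ := exists_good_time A (x := fun s => X s ω) (by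
      intro b _
      have hio : ∀ n, ∃ t, n ≤ t ∧ (fun s => X s ω) t = b := by
        intro n
        obtain ⟨t, a, b, _⟩ := h2 b hst n
        exact ⟨t, a, b⟩
      obtain ⟨t, ht⟩ := exists_nst_ge b hv hio 1
      obtain ⟨s, _, hs1, hs2⟩ := nst_pos_used ht
      refine ⟨s, ?_⟩
      have := used_of_stuck hs2
      rw [hs1] at this
      exact this) hst
    exact ⟨k, k, le_rfl, hk1, hk2⟩
  have hmono : Monotone (fun n => {ω | D n (fun s => X s ω)}) := by
    rintro n n' hn ω ⟨k, hk, h1⟩
    exact ⟨k, hk.trans hn, h1⟩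
  calc P {ω | StuckIO G (fun s => X s ω)} ≤ P (⋃ n, {ω | D n (fun s => X s ω)}) := by
        apply measure_mono_ae
        filter_upwards [hae] with ω h1 h2
        obtain ⟨n, hn⟩ := h1 h2
        exact Set.mem_iUnion.mpr ⟨n, hn⟩
    _ = ⨆ n, P {ω | D n (fun s => X s ω)} := hmono.measure_iUnion
    _ ≤ _ := iSup_le hbound

/-- If the first return is not certain, then (recurrent case) being stuck infinitely often has
probability zero. -/
theorem IsGRW.stuckIO_zero [Countable V] [Infinite V] (h : IsGRW G o P X)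
    (heven : ∀ v, Even (G.neighborFinset v).card) (hpos : ∀ v, (G.neighborFinset v).Nonempty)
    (htrans : ∀ u v : V, ∃ φ : G ≃g G, φ u = v)
    (hhit : ∀ z v, hitInf G z v = 1) (hw : (⨅ k, wn P X o k) ≠ 0) :
    P {ω | StuckIO G (fun s => X s ω)} = 0 := by
  have hM := mu_prob heven
  have hP : IsProbabilityMeasure P := ⟨h.prob⟩
  have hd : ∀ b, (G.neighborFinset b).card = (G.neighborFinset o).card := by
    intro b
    obtain ⟨φ, rfl⟩ := htrans o b
    exact card_neighborFinset_iso G φ o
  have hmain : ∀ n m : ℕ, P {ω | StuckIO G (fun s => X s ω)} ≤ (1 - ⨅ k, wn P X o k) ^ n +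
      n * ((G.neighborFinset o).card * (wn P X o m - ⨅ k, wn P X o k)) := by
    intro n m
    obtain ⟨A, hA1, _, hA2⟩ := h.exists_set heven hpos htrans m n
    have hsub : (⋂ b ∈ A, Rinf G b) ⊆ (⋂ b ∈ A, Rm G b m) ∪ ⋃ b ∈ A, (Rinf G b \ Rm G b m) := by
      intro ω hω
      by_cases hc : ω ∈ ⋂ b ∈ A, Rm G b m
      · exact Or.inl hc
      · right
        rw [Set.mem_iInter₂] at hc hω
        push Not at hc
        obtain ⟨b, hb, hc⟩ := hc
        rw [Set.mem_iUnion₂]
        exact ⟨b, hb, hω b hb, hc⟩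
    calc P {ω | StuckIO G (fun s => X s ω)} ≤ mu G (⋂ b ∈ A, Rinf G b) :=
          h.stuckIO_le heven hpos hhit A
      _ ≤ mu G ((⋂ b ∈ A, Rm G b m) ∪ ⋃ b ∈ A, (Rinf G b \ Rm G b m)) := measure_mono hsub
      _ ≤ mu G (⋂ b ∈ A, Rm G b m) + mu G (⋃ b ∈ A, (Rinf G b \ Rm G b m)) :=
          measure_union_le _ _
      _ ≤ (1 - ⨅ k, wn P X o k) ^ n + ∑ b ∈ A, mu G (Rinf G b \ Rm G b m) :=
          add_le_add hA2 (measure_biUnion_finset_le _ _)
      _ ≤ (1 - ⨅ k, wn P X o k) ^ n + ∑ b ∈ A,
          ((G.neighborFinset o).card * (wn P X o m - ⨅ k, wn P X o k)) := by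
          gcongr with b _
          have := h.mu_diff_le heven hpos htrans b m
          rw [hd b] at this
          exact this
      _ = (1 - ⨅ k, wn P X o k) ^ n +
          A.card * ((G.neighborFinset o).card * (wn P X o m - ⨅ k, wn P X o k)) := by
          rw [Finset.sum_const, nsmul_eq_mul]
      _ ≤ _ := by
          gcongr
  have hlim1 : ∀ n : ℕ, P {ω | StuckIO G (fun s => X s ω)} ≤ (1 - ⨅ k, wn P X o k) ^ n := by
    intro n
    have ht : Tendsto (fun m => (1 - ⨅ k, wn P X o k) ^ n +
      n * ((G.neighborFinset o).card * (wn P X o m - ⨅ k, wn P X o k))) atTop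
      (𝓝 ((1 - ⨅ k, wn P X o k) ^ n +
      n * ((G.neighborFinset o).card * ((⨅ k, wn P X o k) - ⨅ k, wn P X o k)))) := by
      apply Tendsto.const_add
      apply ENNReal.Tendsto.const_mul _ (Or.inr (ENNReal.natCast_ne_top _))
      apply ENNReal.Tendsto.const_mul _ (Or.inr (ENNReal.natCast_ne_top _))
      apply ENNReal.Tendsto.sub (tendsto_atTop_iInf (wn_antitone P X o)) tendsto_const_nhds
      left
      exact ne_top_of_le_ne_top (measure_ne_top P _) (iInf_le _ 0)
    rw [tsub_self, mul_zero, mul_zero, add_zero] at ht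
    exact ge_of_tendsto' ht (fun m => hmain n m)
  have hlt : 1 - (⨅ k, wn P X o k) < 1 := ENNReal.sub_lt_self ENNReal.one_ne_top one_ne_zero hw
  exact le_antisymm (ge_of_tendsto' (ENNReal.tendsto_pow_atTop_nhds_zero_of_lt_one hlt) hlim1)
    zero_le

/-- last visit to the base point -/
lemma exists_last_visit (heven : ∀ v, Even (G.neighborFinset v).card) {x : ℕ → V}
    (hx : Valid G x) (hst : ¬ StuckIO G x) :
    ∃ t', x t' = base G x t' ∧ (fresh G x t').Nonempty ∧ ∀ k, 1 ≤ k → x (t' + k) ≠ x t' := by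
  unfold StuckIO at hst
  push Not at hst
  obtain ⟨N, hN⟩ := hst
  have h1 : ∀ r, ∃ s, s ≤ r ∧ x s = base G x s ∧ ∀ u, s ≤ u → u ≤ r → base G x u = base G x s := by
    intro r
    induction r with
    | zero => exact ⟨0, le_rfl, rfl, fun u h1 h2 => by
        have : u = 0 := by omega
        rw [this]⟩
    | succ r ih =>
      obtain ⟨s, a, b, c⟩ := ih
      by_cases hf : (fresh G x r).Nonempty
      · refine ⟨s, by omega, b, fun u h1 h2 => ?_⟩
        rcases Nat.lt_or_ge u (r + 1) with h3 | h3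
        · exact c u h1 (by omega)
        · have : u = r + 1 := by omega
          rw [this, base_succ_fresh hf]
          exact c r a le_rfl
      · refine ⟨r + 1, le_rfl, (base_succ_stuck hf).symm, fun u h1 h2 => ?_⟩
        have : u = r + 1 := by omega
        rw [this]
  obtain ⟨s, hsN, hsb, hsc⟩ := h1 N
  have h2 : ∀ u, s ≤ u → base G x u = base G x s := by
    intro u hu
    rcases Nat.lt_or_ge u (N + 1) with h3 | h3
    · exact hsc u hu (by omega)
    · obtain ⟨r, rfl⟩ := Nat.exists_eq_add_of_le h3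
      have : ∀ r, base G x (N + r) = base G x s := by
        intro r
        induction r with
        | zero => exact hsc N hsN le_rfl
        | succ r ih =>
          rw [show N + (r + 1) = N + r + 1 by ring, base_succ_fresh (hN _ (by omega)), ih]
      rw [show N + 1 + r = N + (1 + r) by ring]
      exact this _
  by_contra hcon
  push Not at hcon
  have h3 : ∀ n, ∃ t, n ≤ t ∧ s ≤ t ∧ x t = base G x s := by
    intro n
    induction n with
    | zero => exact ⟨s, Nat.zero_le _, le_rfl, hsb⟩
    | succ n ih =>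
      obtain ⟨t, a, b, c⟩ := ih
      have hxt : x t = base G x t := by rw [c, h2 t b]
      by_cases hft : (fresh G x t).Nonempty
      · obtain ⟨k, hk1, hk2⟩ := hcon t hxt hft
        exact ⟨t + k, by omega, by omega, by rw [hk2, c]⟩
      · exfalso
        have e1 := base_succ_stuck (G := G) (x := x) hft
        rw [h2 (t + 1) (by omega), ← c] at e1
        exact (hx.adj t).ne e1
  have h4 : ∀ n, ∃ t, n ≤ t ∧ x t = base G x s := fun n => by
    obtain ⟨t, a, _, c⟩ := h3 n
    exact ⟨t, a, c⟩
  obtain ⟨t, ht⟩ := exists_nst_ge (G := G) (base G x s) hx h4 (nst G (base G x s) x N + 1)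
  have h5 : ∀ r, nst G (base G x s) x (N + r) = nst G (base G x s) x N := by
    intro r
    induction r with
    | zero => rfl
    | succ r ih =>
      rw [show N + (r + 1) = N + r + 1 by ring]
      simp only [nst]
      rw [ih, if_neg (fun hc => hc.2 (hN _ (by omega))), add_zero]
  have h6 := nst_mono G (base G x s) x (show t ≤ N + t by omega)
  rw [h5 t] at h6
  omega

/-- If the first return is certain, then the walk is stuck infinitely often almost surely. -/
theorem IsGRW.stuckIO_ae [Countable V] (h : IsGRW G o P X)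
    (heven : ∀ v, Even (G.neighborFinset v).card) (hpos : ∀ v, (G.neighborFinset v).Nonempty)
    (htrans : ∀ u v : V, ∃ φ : G ≃g G, φ u = v)
    (hw : (⨅ k, wn P X o k) = 0) :
    ∀ᵐ ω ∂P, StuckIO G (fun s => X s ω) := by
  have hP : IsProbabilityMeasure P := ⟨h.prob⟩
  have hM := mu_prob heven
  have hnull : ∀ (t' : ℕ) (b f : V), P {ω | X t' ω = b ∧ base G (fun s => X s ω) t' = b ∧
      X (t' + 1) ω = f ∧ (fresh G (fun s => X s ω) t').Nonempty ∧
      ∀ k, 1 ≤ k → X (t' + k) ω ≠ b} = 0 := by
    intro t' b f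
    by_cases hbf : f ∈ G.neighborFinset b
    · have hle : ∀ m, P {ω | X t' ω = b ∧ base G (fun s => X s ω) t' = b ∧
          X (t' + 1) ω = f ∧ (fresh G (fun s => X s ω) t').Nonempty ∧
          ∀ k, 1 ≤ k → X (t' + k) ω ≠ b} ≤ (G.neighborFinset b).card * wn P X o m := by
        intro m
        let D : (ℕ → V) → Prop := fun x => x t' = b ∧ base G x t' = b ∧ x (t' + 1) = f ∧
          (fresh G x t').Nonempty ∧ ∀ k, 1 ≤ k → k ≤ m + 1 → x (t' + k) ≠ b
        have hD : DepLE (t' + (m + 1)) D := by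
          intro x y hxy
          have e1 : x t' = y t' := hxy _ (by omega)
          have e2 : base G x t' = base G y t' := base_congr G (fun r hr => hxy r (by omega))
          have e3 : x (t' + 1) = y (t' + 1) := hxy _ (by omega)
          have e4 : fresh G x t' = fresh G y t' := fresh_congr G (fun r hr => hxy r (by omega))
          apply propext
          constructor
          · rintro ⟨a, b, c, d, e⟩
            refine ⟨by rw [← e1]; exact a, by rw [← e2]; exact b, by rw [← e3]; exact c,
              by rw [← e4]; exact d, fun k h1 h2 => ?_⟩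
            rw [← hxy (t' + k) (by omega)]
            exact e k h1 h2
          · rintro ⟨a, b, c, d, e⟩
            refine ⟨by rw [e1]; exact a, by rw [e2]; exact b, by rw [e3]; exact c,
              by rw [e4]; exact d, fun k h1 h2 => ?_⟩
            rw [hxy (t' + k) (by omega)]
            exact e k h1 h2
        have h1 := h.le_mu heven hpos (measurableSet_noRet (G := G) b f (m + 1)) (t' + (m + 1)) D hD
          (by
            rintro x hx _ ⟨a1, a2, a3, a4, a5⟩
            intro η hη k hk1 hk2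
            have hmid : ∀ s, t' < s → s < t' + (m + 1) → x s ≠ base G x s := by
              intro s hs1 hs2
              obtain ⟨j, rfl⟩ := Nat.exists_eq_add_of_lt hs1
              have := base_const heven hx (t' := t') (by rw [a1, a2]) a4 (j + 1) (by
                intro i hi1 hi2
                rw [a1]
                exact a5 i hi1 (by omega))
              rw [show t' + j + 1 = t' + (j + 1) by ring, this, a1]
              exact a5 (j + 1) (by omega) (by omega)
            have := orb_eq hη hmid k (by omega)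
            rw [a1, a3] at this
            rw [this]
            exact a5 k hk1 hk2)
        have h2 : mu G (noRet G b f (m + 1)) ≤ (G.neighborFinset b).card * wn P X o m := by
          rw [← h.sum_noRet heven hpos htrans b m]
          exact Finset.single_le_sum (f := fun f => mu G (noRet G b f (m + 1)))
            (fun _ _ => zero_le) hbf
        refine le_trans (measure_mono ?_) (h1.trans h2)
        rintro ω ⟨a1, a2, a3, a4, a5⟩
        exact ⟨a1, a2, a3, a4, fun k hk _ => a5 k hk⟩
      have ht : Tendsto (fun m => ((G.neighborFinset b).card : ℝ≥0∞) * wn P X o m) atTop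
          (𝓝 ((G.neighborFinset b).card * (⨅ k, wn P X o k))) :=
        ENNReal.Tendsto.const_mul (tendsto_atTop_iInf (wn_antitone P X o))
          (Or.inr (ENNReal.natCast_ne_top _))
      rw [hw, mul_zero] at ht
      exact le_antisymm (ge_of_tendsto' ht hle) zero_le
    · refine measure_mono_null ?_ (ae_iff.mp h.ae_valid)
      rintro ω ⟨a1, _, a3, _, _⟩
      intro hv
      apply hbf
      have : G.Adj (X t' ω) (X (t' + 1) ω) := hv.adj t'
      rw [SimpleGraph.mem_neighborFinset]
      rw [a1, a3] at this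
      exact this
  have hall : ∀ᵐ ω ∂P, ∀ (t' : ℕ) (b f : V), ¬ (X t' ω = b ∧ base G (fun s => X s ω) t' = b ∧
      X (t' + 1) ω = f ∧ (fresh G (fun s => X s ω) t').Nonempty ∧
      ∀ k, 1 ≤ k → X (t' + k) ω ≠ b) := by
    rw [ae_all_iff]
    intro t'
    rw [ae_all_iff]
    intro b
    rw [ae_all_iff]
    intro f
    rw [ae_iff]
    simp only [not_not]
    exact hnull t' b f
  filter_upwards [hall, h.ae_valid] with ω h1 hv
  by_contra hc
  obtain ⟨t', a, b, c⟩ := exists_last_visit heven hv hc
  exact h1 t' (X t' ω) (X (t' + 1) ω) ⟨rfl, a.symm, rfl, b, c⟩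

lemma IsGRW.iInf_wn (h : IsGRW G o P X) :
    ⨅ k, wn P X o k = P {ω | ∃ t, 1 ≤ t ∧ X t ω = o}ᶜ := by
  have hP : IsProbabilityMeasure P := ⟨h.prob⟩
  have e : {ω | ∃ t, 1 ≤ t ∧ X t ω = o}ᶜ =
      ⋂ m, {ω | ∀ k, 1 ≤ k → k ≤ m + 1 → X k ω ≠ o} := by
    ext ω
    simp only [Set.mem_compl_iff, Set.mem_ofPred_eq, Set.mem_iInter]
    constructor
    · intro hh m k h1 _ h2
      exact hh ⟨k, h1, h2⟩
    · rintro hh ⟨t, h1, h2⟩
      exact hh t t h1 (by omega) h2
  have hms : ∀ m, MeasurableSet {ω | ∀ k, 1 ≤ k → k ≤ m + 1 → X k ω ≠ o} := by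
    intro m
    have : {ω | ∀ k, 1 ≤ k → k ≤ m + 1 → X k ω ≠ o} =
        ⋂ k, ⋂ (_ : 1 ≤ k), ⋂ (_ : k ≤ m + 1), {ω | X k ω = o}ᶜ := by
      ext ω; simp
    rw [this]
    exact MeasurableSet.iInter fun k => MeasurableSet.iInter fun _ => MeasurableSet.iInter fun _ =>
      (h.meas k o).compl
  rw [e]
  symm
  apply Antitone.measure_iInter
  · intro m n hmn ω hω k h1 h2
    exact hω k h1 (by omega)
  · exact fun m => (hms m).nullMeasurableSet
  · exact ⟨0, measure_ne_top _ _⟩

/-- The full description on even graphs. -/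
theorem IsGRW.even_law [Infinite V] (h : IsGRW G o P X) (hconn : G.Connected)
    (htrans : ∀ u v : V, ∃ φ : G ≃g G, φ u = v)
    (heven : ∀ v, Even (G.neighborFinset v).card) :
    ((SRWRecurrent G o ∧ P {ω | ∃ t, 1 ≤ t ∧ X t ω = o} = 1) →
      P {ω | ∀ n, ∃ t, n ≤ t ∧ X t ω = o} = 1) ∧
    (¬ (SRWRecurrent G o ∧ P {ω | ∃ t, 1 ≤ t ∧ X t ω = o} = 1) →
      P {ω | ∀ n, ∃ t, n ≤ t ∧ X t ω = o} = 0) := by
  have hP : IsProbabilityMeasure P := ⟨h.prob⟩
  have hcount := countable_of_connected G hconn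
  have hpos := neighborFinset_nonempty hconn
  have hBm : MeasurableSet {ω | ∃ t, 1 ≤ t ∧ X t ω = o} := by
    have : {ω | ∃ t, 1 ≤ t ∧ X t ω = o} = ⋃ t, ⋃ (_ : 1 ≤ t), {ω | X t ω = o} := by
      ext ω; simp
    rw [this]
    exact MeasurableSet.iUnion fun t => MeasurableSet.iUnion fun _ => h.meas t o
  constructor
  · rintro ⟨hrec, hB⟩
    have hhit := hitInf_eq_one G hconn htrans o hrec
    have hw : (⨅ k, wn P X o k) = 0 := by
      rw [h.iInf_wn, prob_compl_eq_one_sub hBm, hB, tsub_self]
    have h1 : ∀ᵐ ω ∂P, ∀ n, ∃ t, n ≤ t ∧ X t ω = o := by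
      filter_upwards [h.stuckIO_ae heven hpos htrans hw, h.visits_of_stuck heven o (hhit o)]
        with ω h2 h3 n
      obtain ⟨t, a, b, _⟩ := h3 h2 n
      exact ⟨t, a, b⟩
    rw [← measure_univ (μ := P)]
    apply measure_congr
    filter_upwards [h1] with ω hω
    apply propext
    constructor
    · intro _; trivial
    · intro _; exact hω
  · intro hnot
    by_cases hrec : SRWRecurrent G o
    · have hB : P {ω | ∃ t, 1 ≤ t ∧ X t ω = o} ≠ 1 := fun hB => hnot ⟨hrec, hB⟩
      have hhit := hitInf_eq_one G hconn htrans o hrec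
      have hw : (⨅ k, wn P X o k) ≠ 0 := by
        rw [h.iInf_wn, prob_compl_eq_one_sub hBm]
        intro h0
        exact hB (le_antisymm prob_le_one (tsub_eq_zero_iff_le.mp h0))
      refine measure_mono_null_ae ?_ (h.stuckIO_zero heven hpos htrans hhit hw)
      filter_upwards [h.ae_valid] with ω hv hio n
      by_contra hc
      push Not at hc
      obtain ⟨t, ht⟩ := exists_nst_ge (G := G) o hv hio (nst G o (fun s => X s ω) n + 1)
      have h5 : ∀ r, nst G o (fun s => X s ω) (n + r) = nst G o (fun s => X s ω) n := by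
        intro r
        induction r with
        | zero => rfl
        | succ r ih =>
          rw [show n + (r + 1) = n + r + 1 by ring]
          simp only [nst]
          rw [ih, if_neg (fun hh => hh.2 (hc _ (by omega))), add_zero]
      have h6 := nst_mono G o (fun s => X s ω) (show t ≤ n + t by omega)
      rw [h5 t] at h6
      omega
    · exact h.transient heven hrec

end Pool.Agent.H575R3.GRW
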