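import Mathlib
import Pool.Agent.H575R3.GRWSrw

/-!
A maximal inequality for nonnegative supermartingale functionals of the greedy random walk, and
the fact that infinitely many visits propagate to neighbours.
-/

open MeasureTheory Finset Filter
open scoped ENNReal Topology

namespace Pool.Agent.H575R3.GRW

variable {V : Type*} [DecidableEq V] {Ω : Type*} [MeasurableSpace Ω] {G : SimpleGraph V}
  [G.LocallyFinite] {o : V} {P : Measure Ω} {X : ℕ → Ω → V}

open Classical in
/-- the stopped functional -/
noncomputable def Zf (y0 : ℕ → V) (T0 : ℕ) (K : ℝ≥0∞) (Φ : ℕ → (ℕ → V) → ℝ≥0∞)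
    (al : ℕ → (ℕ → V) → Prop) (t : ℕ) (x : ℕ → V) : ℝ≥0∞ :=
  if (∀ s ≤ T0, x s = y0 s) then
    (if ∃ s, T0 ≤ s ∧ s ≤ t ∧ (∀ r, T0 ≤ r → r ≤ s → al r x) ∧ K ≤ Φ s x then K
      else if (∀ r, T0 ≤ r → r ≤ t → al r x) then Φ t x else 0)
  else 0

lemma Zf_dep (y0 : ℕ → V) (T0 : ℕ) (K : ℝ≥0∞) (Φ : ℕ → (ℕ → V) → ℝ≥0∞)
    (al : ℕ → (ℕ → V) → Prop) (hΦ : ∀ t, DepLE t (Φ t)) (hal : ∀ t, DepLE t (al t)) (t : ℕ)
    (ht : T0 ≤ t) : DepLE t (Zf y0 T0 K Φ al t) := by
  intro x y hxy
  have h1 : (∀ s ≤ T0, x s = y0 s) ↔ (∀ s ≤ T0, y s = y0 s) := by
    constructor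
    · intro h s hs; rw [← hxy s (by omega)]; exact h s hs
    · intro h s hs; rw [hxy s (by omega)]; exact h s hs
  have h3 : ∀ s ≤ t, (al s x ↔ al s y) := by
    intro s hs
    rw [hal s x y (fun r hr => hxy r (by omega))]
  have h4 : ∀ s ≤ t, Φ s x = Φ s y := fun s hs => hΦ s x y (fun r hr => hxy r (by omega))
  have h5 : (∃ s, T0 ≤ s ∧ s ≤ t ∧ (∀ r, T0 ≤ r → r ≤ s → al r x) ∧ K ≤ Φ s x) ↔
      (∃ s, T0 ≤ s ∧ s ≤ t ∧ (∀ r, T0 ≤ r → r ≤ s → al r y) ∧ K ≤ Φ s y) := by
    constructor
    · rintro ⟨s, a, b, c, d⟩
      exact ⟨s, a, b, fun r hr hr' => (h3 r (by omega)).mp (c r hr hr'), by rw [← h4 s b]; exact d⟩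
    · rintro ⟨s, a, b, c, d⟩
      exact ⟨s, a, b, fun r hr hr' => (h3 r (by omega)).mpr (c r hr hr'), by rw [h4 s b]; exact d⟩
  have h6 : (∀ r, T0 ≤ r → r ≤ t → al r x) ↔ (∀ r, T0 ≤ r → r ≤ t → al r y) := by
    constructor
    · intro h r a b; exact (h3 r b).mp (h r a b)
    · intro h r a b; exact (h3 r b).mpr (h r a b)
  unfold Zf
  by_cases c1 : ∀ s ≤ T0, x s = y0 s
  · rw [if_pos c1, if_pos (h1.mp c1)]
    by_cases c5 : ∃ s, T0 ≤ s ∧ s ≤ t ∧ (∀ (r : ℕ), T0 ≤ r → r ≤ s → al r x) ∧ K ≤ Φ s x
    · rw [if_pos c5, if_pos (h5.mp c5)]
    · rw [if_neg c5, if_neg (fun h => c5 (h5.mpr h))]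
      by_cases c6 : ∀ (r : ℕ), T0 ≤ r → r ≤ t → al r x
      · rw [if_pos c6, if_pos (h6.mp c6), h4 t le_rfl]
      · rw [if_neg c6, if_neg (fun h => c6 (h6.mpr h))]
  · rw [if_neg c1, if_neg (fun h => c1 (h1.mpr h))]

lemma tsum_stepProb_le (x : ℕ → V) (t : ℕ) : ∑' y, stepProb G x t y ≤ 1 := by
  by_cases hf : (fresh G x t).Nonempty
  · have := tsum_step_fresh_le (G := G) hf (fun _ => (1 : ℝ≥0∞)) 1 (fun _ _ => le_rfl)
    simpa using this
  · have := tsum_step_stuck (G := G) hf (fun _ => (1 : ℝ≥0∞))
    have h2 : ∑' y, stepProb G x t y = ∑' y, stepProb G x t y * 1 := by simp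
    rw [h2, this]
    rw [Finset.sum_const, nsmul_eq_mul, mul_one]
    exact ENNReal.mul_inv_le_one _

theorem IsGRW.max_ineq [Countable V] (h : IsGRW G o P X) (y0 : ℕ → V) (T0 N : ℕ) (hTN : T0 ≤ N)
    (K : ℝ≥0∞) (Φ : ℕ → (ℕ → V) → ℝ≥0∞) (al : ℕ → (ℕ → V) → Prop)
    (hΦ : ∀ t, DepLE t (Φ t)) (hal : ∀ t, DepLE t (al t))
    (hstep : ∀ t, T0 ≤ t → t < N → ∀ x, Valid G x → x 0 = o → al t x →
      ∑' y, stepProb G x t y * Φ (t + 1) (Function.update x (t + 1) y) ≤ Φ t x) :
    K * P {ω | (∀ s ≤ T0, X s ω = y0 s) ∧ ∃ s, T0 ≤ s ∧ s ≤ N ∧
      (∀ r, T0 ≤ r → r ≤ s → al r (fun i => X i ω)) ∧ K ≤ Φ s (fun i => X i ω)} ≤ Φ T0 y0 := by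
  classical
  have hprob : IsProbabilityMeasure P := ⟨h.prob⟩
  have hmono : ∀ t, T0 ≤ t → t ≤ N → ∫⁻ ω, Zf y0 T0 K Φ al t (fun s => X s ω) ∂P ≤ Φ T0 y0 := by
    intro t ht
    induction t, ht using Nat.le_induction with
    | base =>
      intro _
      calc ∫⁻ ω, Zf y0 T0 K Φ al T0 (fun s => X s ω) ∂P ≤ ∫⁻ _, Φ T0 y0 ∂P := by
            apply lintegral_mono
            intro ω
            simp only [Zf]
            split_ifs with h1 h2 h3
            · obtain ⟨s, a, b, c, d⟩ := h2
              have : s = T0 := le_antisymm b a
              subst this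
              rw [← hΦ s (fun s => X s ω) y0 h1]
              exact d
            · exact (hΦ T0 (fun s => X s ω) y0 h1).le
            · exact zero_le
            · exact zero_le
        _ = Φ T0 y0 := by simp
    | succ t ht ih =>
      intro hN
      refine le_trans ?_ (ih (by omega))
      apply h.lintegral_step_le t _ _ (Zf_dep y0 T0 K Φ al hΦ hal (t + 1) (by omega))
      intro x hx hx0
      -- pointwise inequality
      by_cases h1 : ∀ s ≤ T0, x s = y0 s
      · by_cases h2 : ∃ s, T0 ≤ s ∧ s ≤ t ∧ (∀ r, T0 ≤ r → r ≤ s → al r x) ∧ K ≤ Φ s x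
        · have hR : Zf y0 T0 K Φ al t x = K := by
            unfold Zf
            rw [if_pos h1, if_pos h2]
          rw [hR]
          calc ∑' y, stepProb G x t y * Zf y0 T0 K Φ al (t + 1) (Function.update x (t + 1) y)
              ≤ ∑' y, stepProb G x t y * K := by
                apply ENNReal.tsum_le_tsum
                intro y
                gcongr
                unfold Zf
                have hex : ∃ s, T0 ≤ s ∧ s ≤ t + 1 ∧ (∀ r, T0 ≤ r → r ≤ s →
                    al r (Function.update x (t + 1) y)) ∧ K ≤ Φ s (Function.update x (t + 1) y) := by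
                  obtain ⟨s, a, b, c, d⟩ := h2
                  refine ⟨s, a, by omega, ?_, ?_⟩
                  · intro r hr hr'
                    rw [hal r (Function.update x (t + 1) y) x (fun q hq => by
                      rw [Function.update_of_ne (by omega)])]
                    exact c r hr hr'
                  · rw [hΦ s (Function.update x (t + 1) y) x (fun q hq => by
                      rw [Function.update_of_ne (by omega)])]
                    exact d
                rw [if_pos hex]
                split_ifs
                · exact le_rfl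
                · exact zero_le
            _ = (∑' y, stepProb G x t y) * K := ENNReal.tsum_mul_right
            _ ≤ 1 * K := by gcongr; exact tsum_stepProb_le x t
            _ = K := one_mul K
        · by_cases h3 : ∀ r, T0 ≤ r → r ≤ t → al r x
          · have hR : Zf y0 T0 K Φ al t x = Φ t x := by
              unfold Zf
              rw [if_pos h1, if_neg h2, if_pos h3]
            rw [hR]
            refine le_trans ?_ (hstep t ht (by omega) x hx hx0 (h3 t ht le_rfl))
            apply ENNReal.tsum_le_tsum
            intro y
            gcongr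
            unfold Zf
            split_ifs with g1 g2 g3
            · obtain ⟨s, a, b, c, d⟩ := g2
              rcases Nat.lt_or_ge s (t + 1) with hs | hs
              · exfalso
                apply h2
                refine ⟨s, a, by omega, ?_, ?_⟩
                · intro r hr hr'
                  rw [← hal r (Function.update x (t + 1) y) x (fun q hq => by
                    rw [Function.update_of_ne (by omega)])]
                  exact c r hr hr'
                · rw [← hΦ s (Function.update x (t + 1) y) x (fun q hq => by
                    rw [Function.update_of_ne (by omega)])]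
                  exact d
              · have : s = t + 1 := by omega
                subst this
                exact d
            · exact le_rfl
            · exact zero_le
            · exact zero_le
          · have hz : ∀ y, Zf y0 T0 K Φ al (t + 1) (Function.update x (t + 1) y) = 0 := by
              intro y
              unfold Zf
              have g2 : ¬ ∃ s, T0 ≤ s ∧ s ≤ t + 1 ∧ (∀ r, T0 ≤ r → r ≤ s →
                  al r (Function.update x (t + 1) y)) ∧ K ≤ Φ s (Function.update x (t + 1) y) := by
                rintro ⟨s, a, b, c, d⟩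
                rcases Nat.lt_or_ge s (t + 1) with hs | hs
                · apply h2
                  refine ⟨s, a, by omega, ?_, ?_⟩
                  · intro r hr hr'
                    rw [← hal r (Function.update x (t + 1) y) x (fun q hq => by
                      rw [Function.update_of_ne (by omega)])]
                    exact c r hr hr'
                  · rw [← hΦ s (Function.update x (t + 1) y) x (fun q hq => by
                      rw [Function.update_of_ne (by omega)])]
                    exact d
                · apply h3
                  intro r hr hr'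
                  rw [← hal r (Function.update x (t + 1) y) x (fun q hq => by
                    rw [Function.update_of_ne (by omega)])]
                  exact c r hr (by omega)
              have g3 : ¬ ∀ r, T0 ≤ r → r ≤ t + 1 → al r (Function.update x (t + 1) y) := by
                intro hh
                apply h3
                intro r hr hr'
                rw [← hal r (Function.update x (t + 1) y) x (fun q hq => by
                  rw [Function.update_of_ne (by omega)])]
                exact hh r hr (by omega)
              rw [if_neg g2, if_neg g3]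
              split_ifs <;> rfl
            simp [hz]
      · have hz : ∀ y, Zf y0 T0 K Φ al (t + 1) (Function.update x (t + 1) y) = 0 := by
          intro y
          unfold Zf
          rw [if_neg]
          intro hh
          apply h1
          intro s hs
          have := hh s hs
          rw [Function.update_of_ne (by omega)] at this
          exact this
        simp [hz]
  refine le_trans ?_ (hmono N hTN le_rfl)
  have hset : MeasurableSet {ω | (∀ s ≤ T0, X s ω = y0 s) ∧ ∃ s, T0 ≤ s ∧ s ≤ N ∧
      (∀ r, T0 ≤ r → r ≤ s → al r (fun i => X i ω)) ∧ K ≤ Φ s (fun i => X i ω)} := by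
    apply h.measurableSet_dep N (fun x => (∀ s ≤ T0, x s = y0 s) ∧ ∃ s, T0 ≤ s ∧ s ≤ N ∧
      (∀ r, T0 ≤ r → r ≤ s → al r x) ∧ K ≤ Φ s x)
    intro x y hxy
    have h1 : (∀ s ≤ T0, x s = y0 s) ↔ (∀ s ≤ T0, y s = y0 s) := by
      constructor
      · intro h s hs; rw [← hxy s (by omega)]; exact h s hs
      · intro h s hs; rw [hxy s (by omega)]; exact h s hs
    have h3 : ∀ s ≤ N, (al s x ↔ al s y) := by
      intro s hs
      rw [hal s x y (fun r hr => hxy r (by omega))]
    have h4 : ∀ s ≤ N, Φ s x = Φ s y := fun s hs => hΦ s x y (fun r hr => hxy r (by omega))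
    show ((∀ s ≤ T0, x s = y0 s) ∧ _) = ((∀ s ≤ T0, y s = y0 s) ∧ _)
    rw [eq_iff_iff, h1]
    apply and_congr_right
    intro _
    constructor
    · rintro ⟨s, a, b, c, d⟩
      exact ⟨s, a, b, fun r hr hr' => (h3 r (by omega)).mp (c r hr hr'), by rw [← h4 s b]; exact d⟩
    · rintro ⟨s, a, b, c, d⟩
      exact ⟨s, a, b, fun r hr hr' => (h3 r (by omega)).mpr (c r hr hr'), by rw [h4 s b]; exact d⟩
  rw [← lintegral_indicator_const hset]
  apply lintegral_mono
  intro ω
  simp only
  by_cases hω : ω ∈ {ω | (∀ s ≤ T0, X s ω = y0 s) ∧ ∃ s, T0 ≤ s ∧ s ≤ N ∧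
      (∀ r, T0 ≤ r → r ≤ s → al r (fun i => X i ω)) ∧ K ≤ Φ s (fun i => X i ω)}
  · rw [Set.indicator_of_mem hω]
    unfold Zf
    rw [if_pos hω.1, if_pos hω.2]
  · rw [Set.indicator_of_notMem hω]
    exact zero_le

/-- If `v` is visited infinitely often then so is every neighbour. -/
theorem IsGRW.io_neighbor [Countable V] (h : IsGRW G o P X) {v w : V} (hvw : G.Adj v w) :
    ∀ᵐ ω ∂P, (∀ n, ∃ t, n ≤ t ∧ X t ω = v) → (∀ n, ∃ t, n ≤ t ∧ X t ω = w) := by
  classical
  have hprob : IsProbabilityMeasure P := ⟨h.prob⟩
  set D : ℕ := (G.neighborFinset v).card with hD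
  have hwm : w ∈ G.neighborFinset v := by simpa using hvw
  have hDpos : 0 < D := Finset.card_pos.mpr ⟨w, hwm⟩
  -- c = (D-1)/D ; potential c^{-nst}
  -- key bound
  have key : ∀ T0 k : ℕ, P {ω | (∀ n, ∃ t, n ≤ t ∧ X t ω = v) ∧ ∀ t, T0 ≤ t → X t ω ≠ w} = 0 := by
    intro T0 _
    set c : ℝ≥0∞ := ((D : ℝ≥0∞) - 1) * (D : ℝ≥0∞)⁻¹ with hc
    have hcl : c < 1 := by
      rw [hc, ← div_eq_mul_inv]
      apply ENNReal.div_lt_of_lt_mul
      rw [one_mul]
      apply ENNReal.sub_lt_self (ENNReal.natCast_ne_top _)
      · exact_mod_cast hDpos.ne'
      · exact one_ne_zero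
    -- functional: U k t x = if (no w in [T0,t]) then c^(k - nst) else 0
    have hbound : ∀ k : ℕ, ∀ t, T0 ≤ t →
        ∫⁻ ω, (if (∀ s, T0 ≤ s → s ≤ t → X s ω ≠ w) then
          c ^ (k - (nst G v (fun s => X s ω) t - nst G v (fun s => X s ω) T0)) else 0) ∂P ≤ c ^ k := by
      intro k t ht
      induction t, ht using Nat.le_induction with
      | base =>
        calc _ ≤ ∫⁻ _, c ^ k ∂P := by
              apply lintegral_mono
              intro ω
              simp only [Nat.sub_self, Nat.sub_zero]
              split_ifs
              · exact le_rfl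
              · exact zero_le
          _ = c ^ k := by simp
      | succ t ht ih =>
        refine le_trans ?_ ih
        have := h.lintegral_step_le t
          (fun x => if (∀ s, T0 ≤ s → s ≤ t + 1 → x s ≠ w) then
            c ^ (k - (nst G v x (t + 1) - nst G v x T0)) else 0)
          (fun x => if (∀ s, T0 ≤ s → s ≤ t → x s ≠ w) then
            c ^ (k - (nst G v x t - nst G v x T0)) else 0) ?_ ?_
        · exact this
        · intro x y hxy
          have h1 : (∀ s, T0 ≤ s → s ≤ t + 1 → x s ≠ w) ↔ (∀ s, T0 ≤ s → s ≤ t + 1 → y s ≠ w) := by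
            constructor
            · intro hh s a b; rw [← hxy s b]; exact hh s a b
            · intro hh s a b; rw [hxy s b]; exact hh s a b
          have h2 : nst G v x (t + 1) = nst G v y (t + 1) := nst_congr G v (fun s hs => hxy s (by omega))
          have h3 : nst G v x T0 = nst G v y T0 := nst_congr G v (fun s hs => hxy s (by omega))
          simp only [h1, h2, h3]
        · intro x hx hx0
          by_cases h1 : ∀ s, T0 ≤ s → s ≤ t → x s ≠ w
          · rw [if_pos h1]
            have hT : ∀ y, nst G v (Function.update x (t + 1) y) T0 = nst G v x T0 := fun y =>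
              nst_congr G v (fun s hs => by rw [Function.update_of_ne (by omega)])
            have hT1 : ∀ y, nst G v (Function.update x (t + 1) y) (t + 1) = nst G v x (t + 1) :=
              fun y => nst_congr G v (fun s hs => by rw [Function.update_of_ne (by omega)])
            have hle0 : nst G v x T0 ≤ nst G v x t := nst_mono G v x ht
            by_cases hst : x t = v ∧ ¬ (fresh G x t).Nonempty
            · have hn : nst G v x (t + 1) = nst G v x t + 1 := by
                simp only [nst]
                rw [if_pos hst]
              rw [tsum_step_stuck hst.2, hst.1]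
              have hterm : ∀ y ∈ G.neighborFinset v,
                  (((G.neighborFinset v).card : ℝ≥0∞)⁻¹ * (if (∀ s, T0 ≤ s → s ≤ t + 1 →
                    Function.update x (t + 1) y s ≠ w) then
                    c ^ (k - (nst G v (Function.update x (t + 1) y) (t + 1) -
                      nst G v (Function.update x (t + 1) y) T0)) else 0)) ≤
                  (if y = w then 0 else (D : ℝ≥0∞)⁻¹ *
                    c ^ (k - (nst G v x (t + 1) - nst G v x T0))) := by
                intro y _
                by_cases hy : y = w
                · rw [if_pos hy, if_neg]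
                  · simp
                  · intro hh
                    exact hh (t + 1) (by omega) le_rfl (by simp [hy])
                · rw [if_neg hy, hT, hT1]
                  gcongr
                  split_ifs
                  · exact le_rfl
                  · exact zero_le
              refine le_trans (Finset.sum_le_sum hterm) ?_
              rw [← Finset.sum_filter_add_sum_filter_not _ (fun y => y = w)]
              have e1 : ∑ y ∈ (G.neighborFinset v).filter (fun y => y = w),
                  (if y = w then 0 else (D : ℝ≥0∞)⁻¹ *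
                    c ^ (k - (nst G v x (t + 1) - nst G v x T0))) = 0 := by
                apply Finset.sum_eq_zero
                intro y hy
                rw [if_pos (Finset.mem_filter.mp hy).2]
              have e2 : ∑ y ∈ (G.neighborFinset v).filter (fun y => ¬ y = w),
                  (if y = w then 0 else (D : ℝ≥0∞)⁻¹ *
                    c ^ (k - (nst G v x (t + 1) - nst G v x T0))) =
                  c * c ^ (k - (nst G v x (t + 1) - nst G v x T0)) := by
                rw [Finset.sum_congr rfl (g := fun _ => (D : ℝ≥0∞)⁻¹ *
                    c ^ (k - (nst G v x (t + 1) - nst G v x T0)))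
                    (fun y hy => by rw [if_neg (Finset.mem_filter.mp hy).2])]
                rw [Finset.sum_const, nsmul_eq_mul, ← mul_assoc]
                congr 1
                have hcard : ((G.neighborFinset v).filter (fun y => ¬ y = w)).card = D - 1 := by
                  have : (G.neighborFinset v).filter (fun y => ¬ y = w) =
                      (G.neighborFinset v).erase w := by
                    ext y
                    simp only [Finset.mem_filter, Finset.mem_erase]
                    tauto
                  rw [this, Finset.card_erase_of_mem hwm]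
                rw [hcard, hc]
                congr 1
                rw [ENNReal.natCast_sub, Nat.cast_one]
              rw [e1, e2, zero_add, hn]
              by_cases hk : nst G v x t - nst G v x T0 < k
              · rw [← pow_succ']
                apply le_of_eq
                congr 1
                omega
              · have e3 : k - (nst G v x t + 1 - nst G v x T0) = 0 := by omega
                have e4 : k - (nst G v x t - nst G v x T0) = 0 := by omega
                rw [e3, e4, pow_zero, mul_one]
                exact hcl.le
            · have hn : nst G v x (t + 1) = nst G v x t := by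
                simp only [nst]
                rw [if_neg hst, add_zero]
              calc _ ≤ ∑' y, stepProb G x t y * c ^ (k - (nst G v x t - nst G v x T0)) := by
                    apply ENNReal.tsum_le_tsum
                    intro y
                    gcongr
                    rw [hT, hT1, hn]
                    split_ifs
                    · exact le_rfl
                    · exact zero_le
                _ = (∑' y, stepProb G x t y) * c ^ (k - (nst G v x t - nst G v x T0)) :=
                    ENNReal.tsum_mul_right
                _ ≤ 1 * c ^ (k - (nst G v x t - nst G v x T0)) := by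
                    gcongr; exact tsum_stepProb_le x t
                _ = _ := one_mul _
          · rw [if_neg h1]
            have hz : ∀ y, (if (∀ s, T0 ≤ s → s ≤ t + 1 → Function.update x (t + 1) y s ≠ w) then
                c ^ (k - (nst G v (Function.update x (t + 1) y) (t + 1) -
                  nst G v (Function.update x (t + 1) y) T0)) else 0) = 0 := by
              intro y
              rw [if_neg]
              intro hh
              apply h1
              intro s a b
              have := hh s a (by omega)
              rw [Function.update_of_ne (by omega)] at this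
              exact this
            simp [hz]
    -- conclude
    have hk : ∀ k : ℕ, P {ω | (∀ n, ∃ t, n ≤ t ∧ X t ω = v) ∧ ∀ t, T0 ≤ t → X t ω ≠ w} ≤ c ^ k := by
      intro k
      set B : ℕ → Set Ω := fun t => {ω | (∀ s, T0 ≤ s → s ≤ t → X s ω ≠ w) ∧
        nst G v (fun s => X s ω) T0 + k ≤ nst G v (fun s => X s ω) t} with hB
      have hBm : ∀ t, MeasurableSet (B t) := by
        intro t
        refine h.measurableSet_dep (t + T0) (fun x : ℕ → V => (∀ s, T0 ≤ s → s ≤ t → x s ≠ w) ∧
            nst G v x T0 + k ≤ nst G v x t) ?_
        intro x y hxy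
        have h1 : (∀ s, T0 ≤ s → s ≤ t → x s ≠ w) ↔ (∀ s, T0 ≤ s → s ≤ t → y s ≠ w) := by
          constructor
          · intro hh s a b; rw [← hxy s (by omega)]; exact hh s a b
          · intro hh s a b; rw [hxy s (by omega)]; exact hh s a b
        have h2 : nst G v x t = nst G v y t := nst_congr G v (fun s hs => hxy s (by omega))
        have h3 : nst G v x T0 = nst G v y T0 := nst_congr G v (fun s hs => hxy s (by omega))
        simp only [h1, h2, h3]
      have hBle : ∀ t, T0 ≤ t → P (B t) ≤ c ^ k := by
        intro t ht
        refine le_trans ?_ (hbound k t ht)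
        rw [← lintegral_indicator_one (hBm t)]
        apply lintegral_mono
        intro ω
        by_cases hω : ω ∈ B t
        · rw [Set.indicator_of_mem hω]
          simp only [Pi.one_apply]
          rw [if_pos hω.1]
          have : k - (nst G v (fun s => X s ω) t - nst G v (fun s => X s ω) T0) = 0 := by
            have := hω.2
            omega
          rw [this, pow_zero]
        · rw [Set.indicator_of_notMem hω]
          exact zero_le
      -- limit set
      have hsub : {ω | (∀ n, ∃ t, n ≤ t ∧ X t ω = v) ∧ ∀ t, T0 ≤ t → X t ω ≠ w} ≤ᵐ[P]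
          (⋃ n, ⋂ t, ⋂ (_ : n ≤ t), B t : Set Ω) := by
        filter_upwards [h.ae_valid] with ω hval
        rintro ⟨hio, hno⟩
        obtain ⟨n1, hn1⟩ := exists_nst_ge (G := G) v hval hio (nst G v (fun s => X s ω) T0 + k)
        refine Set.mem_iUnion.mpr ⟨n1, ?_⟩
        refine Set.mem_iInter.mpr fun t => Set.mem_iInter.mpr fun ht => ?_
        exact ⟨fun s a _ => hno s a, hn1.trans (nst_mono G v _ ht)⟩
      refine (measure_mono_ae hsub).trans ?_
      have hmonoU : Monotone (fun n => (⋂ t, ⋂ (_ : n ≤ t), B t : Set Ω)) := by
        intro n m hnm ω hω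
        simp only [Set.mem_iInter] at hω ⊢
        exact fun t ht => hω t (hnm.trans ht)
      rw [hmonoU.measure_iUnion]
      apply iSup_le
      intro n
      refine le_trans (measure_mono ?_) (hBle (max n T0) (le_max_right _ _))
      intro ω hω
      simp only [Set.mem_iInter] at hω
      exact hω _ (le_max_left _ _)
    have hlim : Tendsto (fun k : ℕ => c ^ k) atTop (𝓝 0) := ENNReal.tendsto_pow_atTop_nhds_zero_of_lt_one hcl
    exact le_antisymm (ge_of_tendsto' hlim hk) zero_le
  have hall : ∀ T0 : ℕ, ∀ᵐ ω ∂P, ¬ ((∀ n, ∃ t, n ≤ t ∧ X t ω = v) ∧ ∀ t, T0 ≤ t → X t ω ≠ w) := by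
    intro T0
    rw [ae_iff]
    simpa using key T0 0
  rw [← ae_all_iff] at hall
  filter_upwards [hall] with ω hω hio n
  by_contra hc
  push Not at hc
  exact hω n ⟨hio, fun t ht => hc t ht⟩

end Pool.Agent.H575R3.GRW
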