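import Mathlib
import Pool.Agent.H575R3.NetProb

/-!
The simple graph obtained from a multigraph by replacing every edge with a path.
-/

open Finset

namespace Pool.Agent.H575R3.Net

structure Sys where
  N : Type
  E : Type
  decN : DecidableEq N
  decE : DecidableEq E
  src : E → N
  dst : E → N
  len : E → ℕ
  two_le : ∀ e, 2 ≤ len e
  ne : ∀ e, src e ≠ dst e
  inc : N → Finset E
  mem_inc : ∀ n e, e ∈ inc n ↔ src e = n ∨ dst e = n

instance (Y : Sys) : DecidableEq Y.N := Y.decN
instance (Y : Sys) : DecidableEq Y.E := Y.decE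

variable (Y : Sys)

/-- admissible points -/
def Good : Y.N ⊕ (Y.E × ℕ) → Prop
  | Sum.inl n => ∃ e, Y.src e = n ∨ Y.dst e = n
  | Sum.inr p => 1 ≤ p.2 ∧ p.2 < Y.len p.1

/-- the vertices: nodes and inner points of the paths -/
abbrev Vx : Type := {v : Y.N ⊕ (Y.E × ℕ) // Good Y v}

variable {Y}

def rpt (e : Y.E) (t : ℕ) : Y.N ⊕ (Y.E × ℕ) :=
  if t = 0 then Sum.inl (Y.src e) else if t < Y.len e then Sum.inr (e, t) else Sum.inl (Y.dst e)

lemma rpt_good (e : Y.E) (t : ℕ) : Good Y (rpt e t) := by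
  unfold rpt
  split_ifs with h1 h2
  · exact ⟨e, Or.inl rfl⟩
  · exact ⟨Nat.one_le_iff_ne_zero.mpr h1, h2⟩
  · exact ⟨e, Or.inr rfl⟩

/-- the point at distance `t` from the source of `e` on the path of `e` -/
def pt (e : Y.E) (t : ℕ) : Vx Y := ⟨rpt e t, rpt_good e t⟩

lemma pt_zero (e : Y.E) : (pt e 0).1 = Sum.inl (Y.src e) := by simp [pt, rpt]

lemma pt_mid (e : Y.E) {t : ℕ} (h1 : 1 ≤ t) (h2 : t < Y.len e) : (pt e t).1 = Sum.inr (e, t) := by
  show rpt e t = _
  unfold rpt
  rw [if_neg (by omega), if_pos h2]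

lemma pt_len (e : Y.E) {t : ℕ} (h : Y.len e ≤ t) : (pt e t).1 = Sum.inl (Y.dst e) := by
  have := Y.two_le e
  show rpt e t = _
  unfold rpt
  rw [if_neg (by omega), if_neg (by omega)]

lemma pt_inj (e : Y.E) {s t : ℕ} (hs : s ≤ Y.len e) (ht : t ≤ Y.len e) (h : pt e s = pt e t) :
    s = t := by
  have h2 := Y.two_le e
  have hne := Y.ne e
  have h' : (pt e s).1 = (pt e t).1 := by rw [h]
  rcases Nat.eq_zero_or_pos s with hs0 | hs0
  · subst hs0
    rw [pt_zero] at h'
    rcases Nat.eq_zero_or_pos t with ht0 | ht0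
    · exact ht0.symm
    · rcases Nat.lt_or_ge t (Y.len e) with h3 | h3
      · rw [pt_mid e ht0 h3] at h'; cases h'
      · rw [pt_len e h3] at h'
        exact absurd (Sum.inl.inj h') hne
  · rcases Nat.lt_or_ge s (Y.len e) with h4 | h4
    · rw [pt_mid e hs0 h4] at h'
      rcases Nat.eq_zero_or_pos t with ht0 | ht0
      · subst ht0; rw [pt_zero] at h'; cases h'
      · rcases Nat.lt_or_ge t (Y.len e) with h3 | h3
        · rw [pt_mid e ht0 h3] at h'
          have := Sum.inr.inj h'
          exact (Prod.mk.inj this).2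
        · rw [pt_len e h3] at h'; cases h'
    · rw [pt_len e h4] at h'
      rcases Nat.eq_zero_or_pos t with ht0 | ht0
      · subst ht0; rw [pt_zero] at h'
        exact absurd (Sum.inl.inj h').symm hne
      · rcases Nat.lt_or_ge t (Y.len e) with h3 | h3
        · rw [pt_mid e ht0 h3] at h'; cases h'
        · omega

variable (Y) in
/-- the graph -/
def gr : SimpleGraph (Vx Y) where
  Adj u v := ∃ e t, t < Y.len e ∧ ((u = pt e t ∧ v = pt e (t + 1)) ∨ (v = pt e t ∧ u = pt e (t + 1)))
  symm := ⟨fun u v ⟨e, t, ht, h⟩ => ⟨e, t, ht, h.symm⟩⟩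
  loopless := ⟨fun u ⟨e, t, ht, h⟩ => by
    have : pt e t = pt e (t + 1) := by
      rcases h with ⟨h1, h2⟩ | ⟨h1, h2⟩
      · rw [← h1, ← h2]
      · rw [← h1, ← h2]
    have := pt_inj e (by omega) (by omega) this
    omega⟩

/-- the point at distance `d` from the endpoint `n` of `e` -/
def ptd (n : Y.N) (e : Y.E) (d : ℕ) : Vx Y := if Y.src e = n then pt e d else pt e (Y.len e - d)

/-- the endpoint of `e` other than `n` -/
def other (e : Y.E) (n : Y.N) : Y.N := if Y.src e = n then Y.dst e else Y.src e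

lemma ptd_zero {n : Y.N} {e : Y.E} (h : e ∈ Y.inc n) : (ptd n e 0).1 = Sum.inl n := by
  rw [Y.mem_inc] at h
  unfold ptd
  by_cases h1 : Y.src e = n
  · rw [if_pos h1, pt_zero, h1]
  · rw [if_neg h1, pt_len e (by omega)]
    rcases h with h | h
    · exact absurd h h1
    · rw [h]

lemma ptd_len {n : Y.N} {e : Y.E} : (ptd n e (Y.len e)).1 = Sum.inl (other e n) := by
  unfold ptd other
  by_cases h1 : Y.src e = n
  · rw [if_pos h1, if_pos h1, pt_len e le_rfl]
  · rw [if_neg h1, if_neg h1, Nat.sub_self, pt_zero]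

lemma ptd_mid {n : Y.N} {e : Y.E} {d : ℕ} (h1 : 1 ≤ d) (h2 : d < Y.len e) :
    (ptd n e d).1 = Sum.inr (e, if Y.src e = n then d else Y.len e - d) := by
  unfold ptd
  by_cases h : Y.src e = n
  · rw [if_pos h, if_pos h, pt_mid e h1 h2]
  · rw [if_neg h, if_neg h, pt_mid e (by omega) (by omega)]

lemma ptd_inj {n : Y.N} {e : Y.E} {s t : ℕ} (hs : s ≤ Y.len e) (ht : t ≤ Y.len e)
    (h : ptd n e s = ptd n e t) : s = t := by
  unfold ptd at h
  by_cases h1 : Y.src e = n
  · rw [if_pos h1, if_pos h1] at h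
    exact pt_inj e hs ht h
  · rw [if_neg h1, if_neg h1] at h
    have := pt_inj e (by omega) (by omega) h
    omega

lemma ptd_adj (n : Y.N) (e : Y.E) {d : ℕ} (hd : d < Y.len e) :
    (gr Y).Adj (ptd n e d) (ptd n e (d + 1)) := by
  unfold ptd
  by_cases h1 : Y.src e = n
  · rw [if_pos h1, if_pos h1]
    exact ⟨e, d, hd, Or.inl ⟨rfl, rfl⟩⟩
  · rw [if_neg h1, if_neg h1]
    refine ⟨e, Y.len e - (d + 1), by omega, Or.inr ⟨rfl, ?_⟩⟩
    congr 1
    omega

variable (Y) in
/-- the neighbours of a point -/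
def nbr (v : Vx Y) : Finset (Vx Y) :=
  match v.1 with
  | Sum.inl n => (Y.inc n).image (fun e => ptd n e 1)
  | Sum.inr p => {pt p.1 (p.2 - 1), pt p.1 (p.2 + 1)}

lemma nbr_node {v : Vx Y} {n : Y.N} (h : v.1 = Sum.inl n) :
    nbr Y v = (Y.inc n).image (fun e => ptd n e 1) := by
  unfold nbr
  rw [h]

lemma nbr_mid {v : Vx Y} {e : Y.E} {t : ℕ} (h : v.1 = Sum.inr (e, t)) :
    nbr Y v = {pt e (t - 1), pt e (t + 1)} := by
  unfold nbr
  rw [h]

lemma mem_nbr (v w : Vx Y) : w ∈ nbr Y v ↔ (gr Y).Adj v w := by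
  obtain ⟨v1, hv⟩ := v
  rcases v1 with n | ⟨e, t⟩
  · rw [nbr_node (n := n) rfl]
    simp only [Finset.mem_image]
    constructor
    · rintro ⟨e, he, rfl⟩
      have h0 : (⟨Sum.inl n, hv⟩ : Vx Y) = ptd n e 0 := Subtype.ext (ptd_zero he).symm
      rw [h0]
      exact ptd_adj n e (by have := Y.two_le e; omega)
    · rintro ⟨e, t, ht, ⟨h1, h2⟩ | ⟨h1, h2⟩⟩
      · have h3 : (pt e t).1 = Sum.inl n := by rw [← h1]
        have ht0 : t = 0 := by
          by_contra hc
          rw [pt_mid e (by omega) ht] at h3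
          cases h3
        subst ht0
        rw [pt_zero] at h3
        have h4 := Sum.inl.inj h3
        refine ⟨e, (Y.mem_inc n e).mpr (Or.inl h4), ?_⟩
        rw [h2]
        unfold ptd
        rw [if_pos h4]
      · have h3 : (pt e (t + 1)).1 = Sum.inl n := by rw [← h2]
        have ht1 : t + 1 = Y.len e := by
          by_contra hc
          rw [pt_mid e (by omega) (by omega)] at h3
          cases h3
        rw [pt_len e (by omega)] at h3
        have h4 := Sum.inl.inj h3
        refine ⟨e, (Y.mem_inc n e).mpr (Or.inr h4), ?_⟩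
        rw [h1]
        unfold ptd
        rw [if_neg (by rw [← h4]; exact Y.ne e)]
        congr 1
        omega
  · obtain ⟨g1, g2⟩ : 1 ≤ t ∧ t < Y.len e := hv
    have hv0 : (⟨Sum.inr (e, t), ⟨g1, g2⟩⟩ : Vx Y) = pt e t := Subtype.ext (pt_mid e g1 g2).symm
    rw [nbr_mid (e := e) (t := t) rfl]
    simp only [Finset.mem_insert, Finset.mem_singleton]
    constructor
    · rintro (rfl | rfl)
      · rw [hv0]
        refine ⟨e, t - 1, by omega, Or.inr ⟨rfl, ?_⟩⟩
        congr 1; omega
      · rw [hv0]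
        exact ⟨e, t, g2, Or.inl ⟨rfl, rfl⟩⟩
    · rintro ⟨e', t', ht', ⟨h1, h2⟩ | ⟨h1, h2⟩⟩
      · have h3 : (pt e' t').1 = Sum.inr (e, t) := by rw [← h1]
        have ht0 : 1 ≤ t' := by
          by_contra hc
          have : t' = 0 := by omega
          rw [this, pt_zero] at h3
          cases h3
        rw [pt_mid e' ht0 ht'] at h3
        have h4 := Prod.mk.inj (Sum.inr.inj h3)
        right
        rw [h2, h4.1, h4.2]
      · have h3 : (pt e' (t' + 1)).1 = Sum.inr (e, t) := by rw [← h2]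
        have ht0 : t' + 1 < Y.len e' := by
          by_contra hc
          rw [pt_len e' (by omega)] at h3
          cases h3
        rw [pt_mid e' (by omega) ht0] at h3
        have h4 := Prod.mk.inj (Sum.inr.inj h3)
        left
        rw [h1, ← h4.2, ← h4.1]
        congr 1

instance : (gr Y).LocallyFinite := fun v => Fintype.ofFinset (nbr Y v) (fun w => by
  rw [mem_nbr]; rfl)

lemma neighborFinset_eq (v : Vx Y) : (gr Y).neighborFinset v = nbr Y v := by
  ext w
  rw [mem_nbr, SimpleGraph.mem_neighborFinset]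

/-- segments are distinct -/
lemma seg_inj {e e' : Y.E} {t t' : ℕ} (ht : t < Y.len e) (ht' : t' < Y.len e')
    (h : s(pt e t, pt e (t + 1)) = s(pt e' t', pt e' (t' + 1))) : e = e' ∧ t = t' := by
  have h2 := Y.two_le e
  have h2' := Y.two_le e'
  -- one of the two endpoints is an inner point
  have key : e = e' := by
    by_cases h0 : t = 0
    · -- then pt e 1 is inner
      have hm : (pt e (t + 1)).1 = Sum.inr (e, t + 1) := pt_mid e (by omega) (by omega)
      rw [Sym2.eq_iff] at h
      rcases h with ⟨_, h⟩ | ⟨_, h⟩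
      · rw [h] at hm
        rcases Nat.lt_or_ge (t' + 1) (Y.len e') with h3 | h3
        · rw [pt_mid e' (by omega) h3] at hm
          exact (Prod.mk.inj (Sum.inr.inj hm)).1.symm
        · rw [pt_len e' h3] at hm; cases hm
      · rw [h] at hm
        rcases Nat.eq_zero_or_pos t' with h3 | h3
        · rw [h3, pt_zero] at hm; cases hm
        · rw [pt_mid e' h3 ht'] at hm
          exact (Prod.mk.inj (Sum.inr.inj hm)).1.symm
    · have hm : (pt e t).1 = Sum.inr (e, t) := pt_mid e (by omega) ht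
      rw [Sym2.eq_iff] at h
      rcases h with ⟨h, _⟩ | ⟨h, _⟩
      · rw [h] at hm
        rcases Nat.eq_zero_or_pos t' with h3 | h3
        · rw [h3, pt_zero] at hm; cases hm
        · rw [pt_mid e' h3 ht'] at hm
          exact (Prod.mk.inj (Sum.inr.inj hm)).1.symm
      · rw [h] at hm
        rcases Nat.lt_or_ge (t' + 1) (Y.len e') with h3 | h3
        · rw [pt_mid e' (by omega) h3] at hm
          exact (Prod.mk.inj (Sum.inr.inj hm)).1.symm
        · rw [pt_len e' h3] at hm; cases hm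
  subst key
  refine ⟨rfl, ?_⟩
  rw [Sym2.eq_iff] at h
  rcases h with ⟨h, _⟩ | ⟨h, h'⟩
  · exact pt_inj e (by omega) (by omega) h
  · have a1 := pt_inj e (by omega) (by omega) h
    have a2 := pt_inj e (by omega) (by omega) h'
    omega

/-- the segment from distance `d` to distance `d + 1` in terms of the source orientation -/
lemma ptd_seg (n : Y.N) (e : Y.E) {d : ℕ} (hd : d < Y.len e) :
    s(ptd n e d, ptd n e (d + 1)) =
      s(pt e (if Y.src e = n then d else Y.len e - 1 - d),
        pt e ((if Y.src e = n then d else Y.len e - 1 - d) + 1)) := by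
  unfold ptd
  by_cases h : Y.src e = n
  · simp only [if_pos h]
  · simp only [if_neg h]
    have e1 : Y.len e - (d + 1) = Y.len e - 1 - d := by omega
    have e2 : Y.len e - d = Y.len e - 1 - d + 1 := by omega
    rw [Sym2.eq_swap, e1, e2]

end Pool.Agent.H575R3.Net
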