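import Mathlib
import Pool.Agent.H575R3.NetBase

/-!
Following the greedy random walk on a graph of paths by an abstract machine that only sees the
nodes.
-/

open Finset MeasureTheory
open scoped ENNReal

namespace Pool.Agent.H575R3.Net

open Pool.Agent.H575R3.GRW

structure Mach (Y : Sys) where
  A : Type
  node : A → Y.N
  used : A → Y.E → Prop
  nxt : A → Y.E → A
  ok : A → Prop
  ini : A
  ok_ini : ok ini
  used_ini : ∀ e, ¬ used ini e
  gre : ∀ a e, ok a → e ∈ Y.inc (node a) → ¬ used a e →
    ok (nxt a e) ∧ node (nxt a e) = other e (node a) ∧ ∀ f, used (nxt a e) f ↔ used a f ∨ f = e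
  srw : ∀ a e, ok a → (∀ f ∈ Y.inc (node a), used a f) → e ∈ Y.inc (node a) →
    ok (nxt a e) ∧ node (nxt a e) = other e (node a) ∧ ∀ f, used (nxt a e) f ↔ used a f

/-- extended states -/
inductive MS (A E : Type) where
  | nd (a : A)
  | tr (a : A) (e : E) (d : ℕ)
  | sr (a : A) (e : E) (d : ℕ)

variable {Y : Sys} (K : Mach Y)

open Classical in
/-- the update of the extended state when the walk moves to `v` -/
noncomputable def upd (m : MS K.A Y.E) (v : Vx Y) : MS K.A Y.E :=
  match m with
  | MS.nd a =>
    match v.1 with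
    | Sum.inl _ => MS.nd a
    | Sum.inr p => if K.used a p.1 then MS.sr a p.1 1 else MS.tr a p.1 1
  | MS.tr a e d => if d + 1 = Y.len e then MS.nd (K.nxt a e) else MS.tr a e (d + 1)
  | MS.sr a e d =>
    if v = ptd (K.node a) e (d + 1) then
      (if d + 1 = Y.len e then MS.nd (K.nxt a e) else MS.sr a e (d + 1))
    else (if d = 1 then MS.nd a else MS.sr a e (d - 1))

/-- the extended state after `t` steps -/
noncomputable def ms (x : ℕ → Vx Y) : ℕ → MS K.A Y.E
  | 0 => MS.nd K.ini
  | t + 1 => upd K (ms x t) (x (t + 1))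

lemma ms_congr {x y : ℕ → Vx Y} {t : ℕ} (h : ∀ s ≤ t, x s = y s) : ms K x t = ms K y t := by
  induction t with
  | zero => rfl
  | succ t ih =>
    simp only [ms]
    rw [ih (fun s hs => h s (by omega)), h (t + 1) le_rfl]

lemma ms_update (x : ℕ → Vx Y) (t : ℕ) (y : Vx Y) :
    ms K (Function.update x (t + 1) y) (t + 1) = upd K (ms K x t) y := by
  simp only [ms]
  rw [ms_congr K (x := Function.update x (t + 1) y) (y := x)
    (fun s hs => by rw [Function.update_of_ne (by omega)])]
  simp

def At (m : MS K.A Y.E) (v : Vx Y) : Prop :=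
  match m with
  | MS.nd a => v.1 = Sum.inl (K.node a)
  | MS.tr a e d => v = ptd (K.node a) e d
  | MS.sr a e d => v = ptd (K.node a) e d

def okM (m : MS K.A Y.E) : Prop :=
  match m with
  | MS.nd a => K.ok a
  | MS.tr a e d => K.ok a ∧ e ∈ Y.inc (K.node a) ∧ ¬ K.used a e ∧ 1 ≤ d ∧ d < Y.len e
  | MS.sr a e d => K.ok a ∧ e ∈ Y.inc (K.node a) ∧ (∀ f ∈ Y.inc (K.node a), K.used a f) ∧
      1 ≤ d ∧ d < Y.len e

def cr (m : MS K.A Y.E) (e : Y.E) (i : ℕ) : Prop :=
  match m with
  | MS.nd a => K.used a e
  | MS.tr a e0 d => K.used a e ∨ (e = e0 ∧ (if Y.src e0 = K.node a then i < d else Y.len e0 ≤ i + d))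
  | MS.sr a _ _ => K.used a e

structure Inv (x : ℕ → Vx Y) (t : ℕ) : Prop where
  at' : At K (ms K x t) (x t)
  okm : okM K (ms K x t)
  crs : ∀ e i, i < Y.len e → (s(pt e i, pt e (i + 1)) ∈ crossed x t ↔ cr K (ms K x t) e i)

section step

variable {K}

/-- crossing in terms of distances from a node -/
lemma crs_ptd {x : ℕ → Vx Y} {t : ℕ} (h : Inv K x t) (n : Y.N) (e : Y.E) {d : ℕ}
    (hd : d < Y.len e) : (s(ptd n e d, ptd n e (d + 1)) ∈ crossed x t ↔
      cr K (ms K x t) e (if Y.src e = n then d else Y.len e - 1 - d)) := by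
  rw [ptd_seg n e hd]
  apply h.crs
  split_ifs
  · exact hd
  · omega

lemma ptd_pt_nbr (n : Y.N) (e : Y.E) {d : ℕ} (h1 : 1 ≤ d) (h2 : d < Y.len e) :
    nbr Y (ptd n e d) = {ptd n e (d - 1), ptd n e (d + 1)} := by
  by_cases h : Y.src e = n
  · have hv : (ptd n e d).1 = Sum.inr (e, d) := by rw [ptd_mid h1 h2, if_pos h]
    rw [nbr_mid hv]
    unfold ptd
    simp only [if_pos h]
  · have hv : (ptd n e d).1 = Sum.inr (e, Y.len e - d) := by rw [ptd_mid h1 h2, if_neg h]
    rw [nbr_mid hv]
    unfold ptd
    simp only [if_neg h]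
    rw [Finset.pair_comm]
    have e1 : Y.len e - d + 1 = Y.len e - (d - 1) := by omega
    have e2 : Y.len e - d - 1 = Y.len e - (d + 1) := by omega
    rw [e1, e2]

lemma fresh_nd {x : ℕ → Vx Y} {t : ℕ} (h : Inv K x t) {a : K.A} (hm : ms K x t = MS.nd a)
    [DecidablePred (K.used a)] :
    fresh (gr Y) x t = ((Y.inc (K.node a)).filter (fun e => ¬ K.used a e)).image
      (fun e => ptd (K.node a) e 1) := by
  have hat : (x t).1 = Sum.inl (K.node a) := by
    have := h.at'; rw [hm] at this; exact this
  have hx0 : ∀ e ∈ Y.inc (K.node a), x t = ptd (K.node a) e 0 := fun e he =>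
    Subtype.ext (hat.trans (ptd_zero he).symm)
  ext w
  unfold fresh
  rw [Finset.mem_filter, neighborFinset_eq, nbr_node hat]
  simp only [Finset.mem_image, Finset.mem_filter]
  constructor
  · rintro ⟨⟨e, he, rfl⟩, h2⟩
    refine ⟨e, ⟨he, ?_⟩, rfl⟩
    rw [hx0 e he] at h2
    have h3 := crs_ptd h (K.node a) e (d := 0) (by have := Y.two_le e; omega)
    rw [hm] at h3
    intro hu
    exact h2 (h3.mpr hu)
  · rintro ⟨e, ⟨he, hu⟩, rfl⟩
    refine ⟨⟨e, he, rfl⟩, ?_⟩
    rw [hx0 e he]
    have h3 := crs_ptd h (K.node a) e (d := 0) (by have := Y.two_le e; omega)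
    rw [hm] at h3
    intro hc
    exact hu (h3.mp hc)

lemma fresh_tr {x : ℕ → Vx Y} {t : ℕ} (h : Inv K x t) {a : K.A} {e : Y.E} {d : ℕ}
    (hm : ms K x t = MS.tr a e d) : fresh (gr Y) x t = {ptd (K.node a) e (d + 1)} := by
  have hat : x t = ptd (K.node a) e d := by
    have := h.at'; rw [hm] at this; exact this
  have hok := h.okm
  rw [hm] at hok
  obtain ⟨_, hinc, hu, h1, h2⟩ := hok
  have hsplit : ∀ i, i < Y.len e → (s(ptd (K.node a) e i, ptd (K.node a) e (i + 1)) ∈ crossed x t ↔
      i < d) := by
    intro i hi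
    rw [crs_ptd h (K.node a) e hi, hm]
    show (K.used a e ∨ (e = e ∧ _)) ↔ _
    constructor
    · rintro (hh | ⟨_, hh⟩)
      · exact absurd hh hu
      · split_ifs at hh with h3
        · exact hh
        · omega
    · intro hh
      right
      refine ⟨rfl, ?_⟩
      split_ifs with h3
      · exact hh
      · omega
  ext w
  unfold fresh
  rw [Finset.mem_filter, neighborFinset_eq, hat, ptd_pt_nbr _ _ h1 h2]
  simp only [Finset.mem_insert, Finset.mem_singleton]
  constructor
  · rintro ⟨rfl | rfl, h4⟩
    · exfalso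
      apply h4
      have := (hsplit (d - 1) (by omega)).mpr (by omega)
      have e1 : d - 1 + 1 = d := by omega
      rw [e1] at this
      rw [Sym2.eq_swap]
      exact this
    · rfl
  · rintro rfl
    refine ⟨Or.inr rfl, ?_⟩
    intro hc
    have := (hsplit d h2).mp hc
    omega

lemma fresh_sr {x : ℕ → Vx Y} {t : ℕ} (h : Inv K x t) {a : K.A} {e : Y.E} {d : ℕ}
    (hm : ms K x t = MS.sr a e d) : fresh (gr Y) x t = ∅ := by
  have hat : x t = ptd (K.node a) e d := by
    have := h.at'; rw [hm] at this; exact this
  have hok := h.okm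
  rw [hm] at hok
  obtain ⟨_, hinc, hu, h1, h2⟩ := hok
  have hsplit : ∀ i, i < Y.len e → (s(ptd (K.node a) e i, ptd (K.node a) e (i + 1)) ∈ crossed x t) := by
    intro i hi
    rw [crs_ptd h (K.node a) e hi, hm]
    exact hu e hinc
  rw [Finset.eq_empty_iff_forall_notMem]
  intro w
  unfold fresh
  rw [Finset.mem_filter, neighborFinset_eq, hat, ptd_pt_nbr _ _ h1 h2]
  simp only [Finset.mem_insert, Finset.mem_singleton]
  rintro ⟨rfl | rfl, h4⟩
  · apply h4
    have := hsplit (d - 1) (by omega)
    have e1 : d - 1 + 1 = d := by omega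
    rw [e1] at this
    rw [Sym2.eq_swap]
    exact this
  · exact h4 (hsplit d h2)

lemma nbr_ptd_node {a : K.A} {v : Vx Y} (hat : v.1 = Sum.inl (K.node a)) :
    nbr Y v = (Y.inc (K.node a)).image (fun e => ptd (K.node a) e 1) := nbr_node hat

lemma upd_nd {a : K.A} {e : Y.E} [DecidablePred (K.used a)] :
    upd K (MS.nd a) (ptd (K.node a) e 1) =
      if K.used a e then MS.sr a e 1 else MS.tr a e 1 := by
  have h2 := Y.two_le e
  have hv : (ptd (K.node a) e 1).1 = Sum.inr (e, if Y.src e = K.node a then 1 else Y.len e - 1) :=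
    ptd_mid le_rfl (by omega)
  unfold upd
  simp only [hv]

theorem Inv.succ {x : ℕ → Vx Y} {t : ℕ} (h : Inv K x t) (hx : Valid (gr Y) x) :
    Inv K x (t + 1) := by
  classical
  have hadj := hx.adj t
  rw [← SimpleGraph.mem_neighborFinset, neighborFinset_eq] at hadj
  rcases hm : ms K x t with a | ⟨a, e, d⟩ | ⟨a, e, d⟩
  · -- at a node
    have hat : (x t).1 = Sum.inl (K.node a) := by
      have := h.at'; rw [hm] at this; exact this
    have hok : K.ok a := by have := h.okm; rw [hm] at this; exact this
    rw [nbr_node hat, Finset.mem_image] at hadj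
    obtain ⟨e, he, hxe⟩ := hadj
    have h2 := Y.two_le e
    have hx0 : x t = ptd (K.node a) e 0 := Subtype.ext (hat.trans (ptd_zero he).symm)
    have hms : ms K x (t + 1) = if K.used a e then MS.sr a e 1 else MS.tr a e 1 := by
      simp only [ms]
      rw [hm, ← hxe, upd_nd]
    have hfr := fresh_nd h hm
    by_cases hu : K.used a e
    · rw [if_pos hu] at hms
      have hall : ∀ f ∈ Y.inc (K.node a), K.used a f := by
        by_contra hc
        push Not at hc
        obtain ⟨f, hf, hfu⟩ := hc
        have hne : (fresh (gr Y) x t).Nonempty := by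
          rw [hfr]
          exact ⟨ptd (K.node a) f 1, Finset.mem_image.mpr ⟨f, Finset.mem_filter.mpr ⟨hf, hfu⟩, rfl⟩⟩
        have hmem := hx.fresh_mem hne
        rw [hfr, Finset.mem_image] at hmem
        obtain ⟨g, hg, hg2⟩ := hmem
        have hge : g = e := by
          rw [← hxe] at hg2
          have h3 : (ptd (K.node a) g 1).1 = (ptd (K.node a) e 1).1 := by rw [hg2]
          rw [ptd_mid le_rfl (by have := Y.two_le g; omega), ptd_mid le_rfl (by omega)] at h3
          exact (Prod.mk.inj (Sum.inr.inj h3)).1
        rw [hge] at hg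
        exact (Finset.mem_filter.mp hg).2 hu
      refine ⟨?_, ?_, ?_⟩
      · rw [hms]; exact hxe.symm
      · rw [hms]; exact ⟨hok, he, hall, le_rfl, by omega⟩
      · intro f i hi
        rw [hms, crossed_succ, Finset.mem_insert]
        have h3 := h.crs f i hi
        rw [hm] at h3
        constructor
        · rintro (h4 | h4)
          · rw [hx0, ← hxe, ptd_seg _ _ (by omega : 0 < Y.len e)] at h4
            have := seg_inj hi (by split_ifs <;> omega) h4
            rw [this.1]
            exact hu
          · exact h3.mp h4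
        · intro h4
          exact Or.inr (h3.mpr h4)
    · rw [if_neg hu] at hms
      refine ⟨?_, ?_, ?_⟩
      · rw [hms]; exact hxe.symm
      · rw [hms]; exact ⟨hok, he, hu, le_rfl, by omega⟩
      · intro f i hi
        rw [hms, crossed_succ, Finset.mem_insert]
        have h3 := h.crs f i hi
        rw [hm] at h3
        rw [hx0, ← hxe, ptd_seg _ _ (by omega : 0 < Y.len e)]
        show _ ↔ (K.used a f ∨ (f = e ∧ (if Y.src e = K.node a then i < 1 else Y.len e ≤ i + 1)))
        constructor
        · rintro (h4 | h4)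
          · have h5 := seg_inj hi (by split_ifs <;> omega) h4
            right
            refine ⟨h5.1, ?_⟩
            have h6 := h5.2
            split_ifs at h6 ⊢ <;> omega
          · exact Or.inl (h3.mp h4)
        · rintro (h4 | ⟨h4, h5⟩)
          · exact Or.inr (h3.mpr h4)
          · left
            subst h4
            have h6 : i = (if Y.src f = K.node a then 0 else Y.len f - 1 - 0) := by
              split_ifs at h5 ⊢ <;> omega
            rw [← h6]
  · -- in greedy transit
    have hat : x t = ptd (K.node a) e d := by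
      have := h.at'; rw [hm] at this; exact this
    have hok := h.okm
    rw [hm] at hok
    obtain ⟨hoka, hinc, hu, h1, h2⟩ := hok
    have hfr := fresh_tr h hm
    have hx1 : x (t + 1) = ptd (K.node a) e (d + 1) := by
      have := hx.fresh_mem (by rw [hfr]; exact Finset.singleton_nonempty _ : (fresh (gr Y) x t).Nonempty)
      rw [hfr, Finset.mem_singleton] at this
      exact this
    have hms : ms K x (t + 1) = if d + 1 = Y.len e then MS.nd (K.nxt a e) else MS.tr a e (d + 1) := by
      simp only [ms]
      rw [hm]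
      rfl
    obtain ⟨g1, g2, g3⟩ := K.gre a e hoka hinc hu
    have hcr : ∀ f i, i < Y.len f → (s(pt f i, pt f (i + 1)) ∈ crossed x (t + 1) ↔
        K.used a f ∨ (f = e ∧ (if Y.src e = K.node a then i < d + 1 else Y.len e ≤ i + (d + 1)))) := by
      intro f i hi
      rw [crossed_succ, Finset.mem_insert]
      have h3 := h.crs f i hi
      rw [hm] at h3
      rw [hat, hx1, ptd_seg _ _ h2, h3]
      show (_ ∨ (K.used a f ∨ (f = e ∧ (if Y.src e = K.node a then i < d else Y.len e ≤ i + d)))) ↔ _
      constructor
      · rintro (h4 | h4 | ⟨h4, h5⟩)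
        · have h5 := seg_inj hi (by split_ifs <;> omega) h4
          right
          refine ⟨h5.1, ?_⟩
          have h6 := h5.2
          split_ifs at h6 ⊢ <;> omega
        · exact Or.inl h4
        · right
          refine ⟨h4, ?_⟩
          split_ifs at h5 ⊢ <;> omega
      · rintro (h4 | ⟨h4, h5⟩)
        · exact Or.inr (Or.inl h4)
        · subst h4
          by_cases h6 : i = (if Y.src f = K.node a then d else Y.len f - 1 - d)
          · left
            rw [← h6]
          · right
            right
            refine ⟨rfl, ?_⟩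
            split_ifs at h5 h6 ⊢ <;> omega
    by_cases hd : d + 1 = Y.len e
    · rw [if_pos hd] at hms
      refine ⟨?_, ?_, ?_⟩
      · rw [hms]
        show (x (t + 1)).1 = Sum.inl (K.node (K.nxt a e))
        rw [hx1, hd, ptd_len, g2]
      · rw [hms]; exact g1
      · intro f i hi
        rw [hms, hcr f i hi]
        show _ ↔ K.used (K.nxt a e) f
        rw [g3]
        constructor
        · rintro (h4 | ⟨h4, _⟩)
          · exact Or.inl h4
          · exact Or.inr h4
        · rintro (h4 | h4)
          · exact Or.inl h4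
          · right
            refine ⟨h4, ?_⟩
            subst h4
            split_ifs <;> omega
    · rw [if_neg hd] at hms
      refine ⟨?_, ?_, ?_⟩
      · rw [hms]; exact hx1
      · rw [hms]; exact ⟨hoka, hinc, hu, by omega, by omega⟩
      · intro f i hi
        rw [hms]
        exact hcr f i hi
  · -- random step inside a used path
    have hat : x t = ptd (K.node a) e d := by
      have := h.at'; rw [hm] at this; exact this
    have hok := h.okm
    rw [hm] at hok
    obtain ⟨hoka, hinc, hu, h1, h2⟩ := hok
    rw [hat, ptd_pt_nbr _ _ h1 h2, Finset.mem_insert, Finset.mem_singleton] at hadj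
    obtain ⟨g1, g2, g3⟩ := K.srw a e hoka hu hinc
    have hcr : ∀ f i, i < Y.len f → (s(pt f i, pt f (i + 1)) ∈ crossed x (t + 1) ↔ K.used a f) := by
      intro f i hi
      rw [crossed_succ, Finset.mem_insert]
      have h3 := h.crs f i hi
      rw [hm] at h3
      rw [h3]
      show (_ ∨ K.used a f) ↔ K.used a f
      constructor
      · rintro (h4 | h4)
        · rw [hat] at h4
          rcases hadj with h5 | h5
          · rw [h5] at h4
            have e1 : d - 1 + 1 = d := by omega
            have h6 : s(pt f i, pt f (i + 1)) =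
                s(ptd (K.node a) e (d - 1), ptd (K.node a) e (d - 1 + 1)) := by
              rw [h4, e1]; exact Sym2.eq_swap
            rw [ptd_seg _ _ (by omega : d - 1 < Y.len e)] at h6
            have := seg_inj hi (by split_ifs <;> omega) h6
            rw [this.1]
            exact hu e hinc
          · rw [h5, ptd_seg _ _ h2] at h4
            have := seg_inj hi (by split_ifs <;> omega) h4
            rw [this.1]
            exact hu e hinc
        · exact h4
      · intro h4
        exact Or.inr h4
    have hne : ptd (K.node a) e (d - 1) ≠ ptd (K.node a) e (d + 1) := by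
      intro hc
      have := ptd_inj (by omega) (by omega) hc
      omega
    rcases hadj with h5 | h5
    · have hms : ms K x (t + 1) = if d = 1 then MS.nd a else MS.sr a e (d - 1) := by
        simp only [ms]
        rw [hm]
        unfold upd
        simp only
        rw [h5, if_neg hne]
      by_cases hd : d = 1
      · rw [if_pos hd] at hms
        refine ⟨?_, ?_, ?_⟩
        · rw [hms]
          show (x (t + 1)).1 = Sum.inl (K.node a)
          rw [h5, hd]
          exact ptd_zero hinc
        · rw [hms]; exact hoka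
        · intro f i hi
          rw [hms]; exact hcr f i hi
      · rw [if_neg hd] at hms
        refine ⟨?_, ?_, ?_⟩
        · rw [hms]; exact h5
        · rw [hms]; exact ⟨hoka, hinc, hu, by omega, by omega⟩
        · intro f i hi
          rw [hms]; exact hcr f i hi
    · have hms : ms K x (t + 1) = if d + 1 = Y.len e then MS.nd (K.nxt a e) else MS.sr a e (d + 1) := by
        simp only [ms]
        rw [hm]
        unfold upd
        simp only
        rw [if_pos h5]
      by_cases hd : d + 1 = Y.len e
      · rw [if_pos hd] at hms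
        refine ⟨?_, ?_, ?_⟩
        · rw [hms]
          show (x (t + 1)).1 = Sum.inl (K.node (K.nxt a e))
          rw [h5, hd, ptd_len, g2]
        · rw [hms]; exact g1
        · intro f i hi
          rw [hms, hcr f i hi]
          exact (g3 f).symm
      · rw [if_neg hd] at hms
        refine ⟨?_, ?_, ?_⟩
        · rw [hms]; exact h5
        · rw [hms]; exact ⟨hoka, hinc, hu, by omega, by omega⟩
        · intro f i hi
          rw [hms]; exact hcr f i hi

theorem inv_all {x : ℕ → Vx Y} (hx : Valid (gr Y) x) (h0 : (x 0).1 = Sum.inl (K.node K.ini)) :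
    ∀ t, Inv K x t := by
  intro t
  induction t with
  | zero =>
    refine ⟨h0, K.ok_ini, ?_⟩
    intro e i _
    rw [crossed_zero]
    constructor
    · intro h; simp at h
    · intro h; exact absurd h (K.used_ini e)
  | succ t ih => exact ih.succ hx

end step

/-- the potential of an extended state -/
noncomputable def Phi (S : K.A → ℝ) (m : MS K.A Y.E) : ℝ :=
  match m with
  | MS.nd a => S a
  | MS.tr a e _ => S (K.nxt a e)
  | MS.sr a e d => (1 - (d : ℝ) / Y.len e) * S a + (d : ℝ) / Y.len e * S (K.nxt a e)

open Classical in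
theorem phi_step {x : ℕ → Vx Y} {t : ℕ} (h : Inv K x t)
    (hpos : ∀ n : Y.N, (∃ v : Vx Y, v.1 = Sum.inl n) → (Y.inc n).Nonempty)
    (S : K.A → ℝ) (hS : ∀ a, K.ok a → 0 ≤ S a)
    (hg : ∀ a, ms K x t = MS.nd a → (∃ e ∈ Y.inc (K.node a), ¬ K.used a e) →
      ∑ e ∈ (Y.inc (K.node a)).filter (fun e => ¬ K.used a e), (S (K.nxt a e) - S a) ≤ 0)
    (hs : ∀ a, ms K x t = MS.nd a → (∀ e ∈ Y.inc (K.node a), K.used a e) →
      ∑ e ∈ Y.inc (K.node a), (1 / (Y.len e : ℝ)) * (S (K.nxt a e) - S a) ≤ 0) :
    ∑' y, stepProb (gr Y) x t y * ENNReal.ofReal (Phi K S (upd K (ms K x t) y)) ≤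
      ENNReal.ofReal (Phi K S (ms K x t)) := by
  have hokm := h.okm
  rcases hm : ms K x t with a | ⟨a, e, d⟩ | ⟨a, e, d⟩
  · rw [hm] at hokm
    have hok : K.ok a := hokm
    have hat : (x t).1 = Sum.inl (K.node a) := by
      have := h.at'; rw [hm] at this; exact this
    have hfr := fresh_nd h hm
    have hinj : Set.InjOn (fun e => ptd (K.node a) e 1) (Y.inc (K.node a) : Set Y.E) := by
      intro g _ e _ hge
      simp only at hge
      have h3 : (ptd (K.node a) g 1).1 = (ptd (K.node a) e 1).1 := by rw [hge]
      rw [ptd_mid le_rfl (by have := Y.two_le g; omega),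
        ptd_mid le_rfl (by have := Y.two_le e; omega)] at h3
      exact (Prod.mk.inj (Sum.inr.inj h3)).1
    by_cases hex : ∃ e ∈ Y.inc (K.node a), ¬ K.used a e
    · have hne : (fresh (gr Y) x t).Nonempty := by
        obtain ⟨f, hf, hfu⟩ := hex
        rw [hfr]
        exact ⟨_, Finset.mem_image.mpr ⟨f, Finset.mem_filter.mpr ⟨hf, hfu⟩, rfl⟩⟩
      rw [tsum_step_fresh hne, hfr]
      set W := (Y.inc (K.node a)).filter (fun e => ¬ K.used a e) with hW
      have hWsub : (W : Set Y.E) ⊆ (Y.inc (K.node a) : Set Y.E) := by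
        intro e he
        exact (Finset.mem_filter.mp he).1
      rw [Finset.card_image_of_injOn (hinj.mono hWsub), Finset.sum_image (hinj.mono hWsub)]
      have hWne : W.Nonempty := by
        obtain ⟨f, hf, hfu⟩ := hex
        exact ⟨f, Finset.mem_filter.mpr ⟨hf, hfu⟩⟩
      have hcard : (0 : ℝ) < W.card := by exact_mod_cast Finset.card_pos.mpr hWne
      have e1 : ∀ e ∈ W, (W.card : ℝ≥0∞)⁻¹ * ENNReal.ofReal (Phi K S (upd K (MS.nd a)
          (ptd (K.node a) e 1))) = ENNReal.ofReal ((W.card : ℝ)⁻¹ * S (K.nxt a e)) := by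
        intro e he
        have hu := (Finset.mem_filter.mp he).2
        rw [upd_nd, if_neg hu]
        simp only [Phi]
        rw [ENNReal.ofReal_mul (by positivity), ENNReal.ofReal_inv_of_pos hcard,
          ENNReal.ofReal_natCast]
      rw [Finset.sum_congr rfl e1]
      rw [← ENNReal.ofReal_sum_of_nonneg]
      · apply ENNReal.ofReal_le_ofReal
        simp only [Phi]
        have h1 := hg a hm hex
        rw [Finset.sum_sub_distrib, Finset.sum_const, nsmul_eq_mul] at h1
        rw [← Finset.mul_sum]
        rw [inv_mul_le_iff₀ hcard]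
        linarith
      · intro e he
        have hu := (Finset.mem_filter.mp he)
        have := (K.gre a e hok hu.1 hu.2).1
        exact mul_nonneg (by positivity) (hS _ this)
    · push Not at hex
      have hempty : ¬ (fresh (gr Y) x t).Nonempty := by
        rw [hfr]
        rintro ⟨y, hy⟩
        obtain ⟨e, he, _⟩ := Finset.mem_image.mp hy
        exact (Finset.mem_filter.mp he).2 (hex e (Finset.mem_filter.mp he).1)
      rw [tsum_step_stuck hempty, neighborFinset_eq, nbr_node hat,
        Finset.card_image_of_injOn hinj, Finset.sum_image hinj]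
      have hcard : (0 : ℝ) < (Y.inc (K.node a)).card := by
        exact_mod_cast Finset.card_pos.mpr (hpos _ ⟨x t, hat⟩)
      have hsr : ∀ e ∈ Y.inc (K.node a), 0 ≤ Phi K S (MS.sr a e 1) := by
        intro e he
        have h2 := Y.two_le e
        have hn := (K.srw a e hok hex he).1
        simp only [Phi]
        have h3 : (0 : ℝ) < Y.len e := by exact_mod_cast (by omega : 0 < Y.len e)
        have h4 : (1 : ℝ) ≤ Y.len e := by exact_mod_cast (by omega : 1 ≤ Y.len e)
        have h5 : ((1 : ℕ) : ℝ) / Y.len e ≤ 1 := by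
          rw [Nat.cast_one, div_le_one h3]; exact h4
        have h6 : 0 ≤ ((1 : ℕ) : ℝ) / Y.len e := by positivity
        exact add_nonneg (mul_nonneg (by linarith) (hS _ hok)) (mul_nonneg h6 (hS _ hn))
      have e1 : ∀ e ∈ Y.inc (K.node a), ((Y.inc (K.node a)).card : ℝ≥0∞)⁻¹ *
          ENNReal.ofReal (Phi K S (upd K (MS.nd a) (ptd (K.node a) e 1))) =
          ENNReal.ofReal (((Y.inc (K.node a)).card : ℝ)⁻¹ *
            (S a + 1 / (Y.len e : ℝ) * (S (K.nxt a e) - S a))) := by
        intro e he
        rw [upd_nd, if_pos (hex e he)]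
        rw [ENNReal.ofReal_mul (by positivity), ENNReal.ofReal_inv_of_pos hcard,
          ENNReal.ofReal_natCast]
        congr 2
        simp only [Phi, Nat.cast_one]
        ring
      rw [Finset.sum_congr rfl e1, ← ENNReal.ofReal_sum_of_nonneg]
      · apply ENNReal.ofReal_le_ofReal
        simp only [Phi]
        have h1 := hs a hm hex
        rw [← Finset.mul_sum, Finset.sum_add_distrib, Finset.sum_const, nsmul_eq_mul]
        rw [inv_mul_le_iff₀ hcard]
        linarith
      · intro e he
        have := hsr e he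
        simp only [Phi, Nat.cast_one] at this
        apply mul_nonneg (by positivity)
        linarith
  · have hfr := fresh_tr h hm
    have hne : (fresh (gr Y) x t).Nonempty := by rw [hfr]; exact Finset.singleton_nonempty _
    rw [tsum_step_fresh hne, hfr]
    simp only [Finset.sum_singleton, Finset.card_singleton, Nat.cast_one, inv_one, one_mul]
    apply ENNReal.ofReal_le_ofReal
    unfold upd
    simp only
    split_ifs <;> simp [Phi]
  · rw [hm] at hokm
    obtain ⟨hoka, hinc, hu, h1, h2⟩ := hokm
    have hat : x t = ptd (K.node a) e d := by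
      have := h.at'; rw [hm] at this; exact this
    have hfr := fresh_sr h hm
    have hempty : ¬ (fresh (gr Y) x t).Nonempty := by rw [hfr]; simp
    have hne : ptd (K.node a) e (d - 1) ≠ ptd (K.node a) e (d + 1) := by
      intro hc
      have := ptd_inj (by omega) (by omega) hc
      omega
    have hn := (K.srw a e hoka hu hinc).1
    rw [tsum_step_stuck hempty, neighborFinset_eq, hat, ptd_pt_nbr _ _ h1 h2,
      Finset.card_pair hne, Finset.sum_pair hne]
    have hl : (0 : ℝ) < Y.len e := by exact_mod_cast (by omega : 0 < Y.len e)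
    have q1 : Phi K S (upd K (MS.sr a e d) (ptd (K.node a) e (d - 1))) =
        (1 - ((d : ℝ) - 1) / Y.len e) * S a + ((d : ℝ) - 1) / Y.len e * S (K.nxt a e) := by
      unfold upd
      simp only
      rw [if_neg hne]
      by_cases hd : d = 1
      · rw [if_pos hd]
        simp [Phi, hd]
      · rw [if_neg hd]
        simp only [Phi]
        rw [Nat.cast_sub h1, Nat.cast_one]
    have q2 : Phi K S (upd K (MS.sr a e d) (ptd (K.node a) e (d + 1))) =
        (1 - ((d : ℝ) + 1) / Y.len e) * S a + ((d : ℝ) + 1) / Y.len e * S (K.nxt a e) := by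
      unfold upd
      simp only
      rw [if_pos trivial]
      by_cases hd : d + 1 = Y.len e
      · rw [if_pos hd]
        simp only [Phi]
        have : (Y.len e : ℝ) = (d : ℝ) + 1 := by rw [← hd]; push_cast; ring
        rw [this]
        have h5 : (d : ℝ) + 1 ≠ 0 := by positivity
        rw [div_self h5]
        ring
      · rw [if_neg hd]
        simp only [Phi]
        push_cast
        ring
    have hSa := hS a hoka
    have hSn := hS _ hn
    have hd1 : (1 : ℝ) ≤ d := by exact_mod_cast h1
    have hd2 : (d : ℝ) + 1 ≤ Y.len e := by exact_mod_cast h2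
    have n1 : 0 ≤ (1 - ((d : ℝ) - 1) / Y.len e) * S a + ((d : ℝ) - 1) / Y.len e * S (K.nxt a e) := by
      apply add_nonneg
      · apply mul_nonneg _ hSa
        rw [sub_nonneg, div_le_one hl]; linarith
      · apply mul_nonneg _ hSn
        apply div_nonneg (by linarith) hl.le
    have n2 : 0 ≤ (1 - ((d : ℝ) + 1) / Y.len e) * S a + ((d : ℝ) + 1) / Y.len e * S (K.nxt a e) := by
      apply add_nonneg
      · apply mul_nonneg _ hSa
        rw [sub_nonneg, div_le_one hl]; linarith
      · apply mul_nonneg _ hSn
        apply div_nonneg (by linarith) hl.le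
    rw [q1, q2, ← mul_add, ← ENNReal.ofReal_add n1 n2]
    have e3 : ((2 : ℕ) : ℝ≥0∞)⁻¹ = ENNReal.ofReal (2⁻¹) := by
      rw [ENNReal.ofReal_inv_of_pos (by norm_num)]
      norm_num
    rw [e3, ← ENNReal.ofReal_mul (by norm_num)]
    apply ENNReal.ofReal_le_ofReal
    simp only [Phi]
    apply le_of_eq
    ring

end Pool.Agent.H575R3.Net
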