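import Mathlib
import Pool.Agent.H575R3.NetMach

/-!
The concrete multigraph: a chain of hubs; between hub `i` and hub `i + 1` there are `2 ^ (i + 1)`
strands, a strand consisting of 24 consecutive double edges followed by a single edge.
-/

open Finset

namespace Pool.Agent.H575R3.Net

/-- raw edges: block `i`, strand `s`, level `l`, copy `b` -/
structure Ed where
  i : ℕ
  s : ℕ
  l : ℕ
  b : Bool
deriving DecidableEq

inductive Nd where
  | hub (i : ℕ)
  | nd (i s x : ℕ)
deriving DecidableEq

def EdV (e : Ed) : Prop := e.s < 2 ^ (e.i + 1) ∧ e.l ≤ 24 ∧ (e.l = 24 → e.b = false)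

instance : DecidablePred EdV := fun e => by unfold EdV; infer_instance

/-- the node at position `x` of strand `s` of block `i` -/
def Ps (i s x : ℕ) : Nd := if x = 0 then Nd.hub i else if x = 25 then Nd.hub (i + 1) else Nd.nd i s x

def rawinc : Nd → Finset Ed
  | Nd.hub i => ((range (2 ^ (i + 1))) ×ˢ (univ : Finset Bool)).image (fun p => ⟨i, p.1, 0, p.2⟩) ∪
      (if i = 0 then ∅ else (range (2 ^ i)).image (fun s => ⟨i - 1, s, 24, false⟩))
  | Nd.nd i s x => if 1 ≤ x ∧ x ≤ 24 then
      {⟨i, s, x - 1, false⟩, ⟨i, s, x - 1, true⟩, ⟨i, s, x, false⟩, ⟨i, s, x, true⟩} else ∅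

lemma Ps_inj_nd {i s x i' s' x' : ℕ} : Ps i s x = Nd.nd i' s' x' ↔
    (x ≠ 0 ∧ x ≠ 25 ∧ i = i' ∧ s = s' ∧ x = x') := by
  unfold Ps
  split_ifs with h1 h2
  · simp [h1]
  · simp [h2]
  · simp [h1, h2]

lemma Ps_hub {i s x j : ℕ} : Ps i s x = Nd.hub j ↔ (x = 0 ∧ i = j) ∨ (x = 25 ∧ i + 1 = j) := by
  unfold Ps
  split_ifs with h1 h2
  · subst h1; simp
  · subst h2; simp
  · simp [h1, h2]

lemma mem_rawinc (n : Nd) (e : Ed) (he : EdV e) :
    e ∈ rawinc n ↔ Ps e.i e.s e.l = n ∨ Ps e.i e.s (e.l + 1) = n := by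
  obtain ⟨i, s, l, b⟩ := e
  obtain ⟨h1, h2, h3⟩ := he
  simp only at h1 h2 h3
  cases n with
  | hub j =>
    simp only [rawinc, Finset.mem_union, Finset.mem_image, Finset.mem_product, Finset.mem_range,
      Finset.mem_univ, and_true, Prod.exists, Ps_hub]
    constructor
    · rintro (⟨s', b', h4, h5⟩ | h4)
      · simp only [Ed.mk.injEq] at h5
        left; left
        exact ⟨h5.2.2.1.symm, h5.1.symm⟩
      · split_ifs at h4 with h0
        · simp at h4
        · simp only [Finset.mem_image, Finset.mem_range, Ed.mk.injEq] at h4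
          obtain ⟨s', h5, h6, h7, h8, h9⟩ := h4
          right; right
          omega
    · rintro ((⟨h4, h5⟩ | ⟨h4, h5⟩) | (⟨h4, h5⟩ | ⟨h4, h5⟩))
      · left
        exact ⟨s, b, by rw [← h5]; exact h1, by simp [h4, h5]⟩
      · omega
      · omega
      · right
        have hl : l = 24 := by omega
        rw [if_neg (by omega)]
        simp only [Finset.mem_image, Finset.mem_range, Ed.mk.injEq]
        refine ⟨s, ?_, by omega, rfl, hl.symm, (h3 hl).symm⟩
        rw [← h5]; exact h1
  | nd i' s' x =>
    simp only [rawinc, Ps_inj_nd]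
    split_ifs with hx
    · simp only [Finset.mem_insert, Finset.mem_singleton, Ed.mk.injEq]
      constructor
      · rintro (h | h | h | h)
        · right; omega
        · right; omega
        · left; omega
        · left; omega
      · rintro (h | h)
        · cases b
          · right; right; left; exact ⟨h.2.2.1, h.2.2.2.1, h.2.2.2.2, rfl⟩
          · right; right; right; exact ⟨h.2.2.1, h.2.2.2.1, h.2.2.2.2, rfl⟩
        · cases b
          · left; exact ⟨h.2.2.1, h.2.2.2.1, by omega, rfl⟩
          · right; left; exact ⟨h.2.2.1, h.2.2.2.1, by omega, rfl⟩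
    · constructor
      · intro h; simp at h
      · rintro (h | h) <;> omega

/-- the system -/
def CY : Sys where
  N := Nd
  E := {e : Ed // EdV e}
  decN := inferInstance
  decE := inferInstance
  src e := Ps e.1.i e.1.s e.1.l
  dst e := Ps e.1.i e.1.s (e.1.l + 1)
  len e := if e.1.l = 0 then 400 else 2
  two_le e := by split_ifs <;> omega
  ne e := by
    obtain ⟨⟨i, s, l, b⟩, h1, h2, h3⟩ := e
    simp only at h1 h2 h3
    intro h
    unfold Ps at h
    simp only at h
    split_ifs at h with g1 g2 g3 g4 g5 g6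
    all_goals first
      | omega
      | (simp only [Nd.hub.injEq] at h; omega)
      | (simp only [Nd.nd.injEq] at h; omega)
      | cases h
  inc n := (rawinc n).subtype EdV
  mem_inc n e := by
    rw [Finset.mem_subtype]
    exact mem_rawinc n e.1 e.2

end Pool.Agent.H575R3.Net
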