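import Mathlib
import Pool.Agent.H575R3.NetSys

/-!
The abstract machine for the chain of hubs.
-/

open Finset

namespace Pool.Agent.H575R3.Net

structure Cf where
  k : ℕ
  m : ℕ
  ow : Bool

inductive Wk where
  | hub (i : ℕ)
  | rest (i s x : ℕ)
  | out (i s x j : ℕ)
  | inn (i s j x : ℕ)

structure St where
  cf : ℕ → ℕ → Cf
  w : Wk
  U : Finset Ed

def cap (l : ℕ) : ℕ := if l < 24 then 2 else 1
def sp (c : Cf) (l : ℕ) : ℕ := if l < c.k ∨ c.m ≤ l then cap l else if c.ow then 1 else 0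
def outp (c : Cf) (x j l : ℕ) : ℕ :=
  if l < c.k then cap l else if l < x then 1 else if l < j then 2 else if l < c.m then 0 else cap l
def inp (c : Cf) (j x l : ℕ) : ℕ :=
  if l < c.k then cap l else if l < j then 0 else if l < x then 2 else if l < c.m then 1 else cap l

def profW (cf : ℕ → ℕ → Cf) (w : Wk) (i s l : ℕ) : ℕ :=
  match w with
  | Wk.out i' s' x j => if i = i' ∧ s = s' then outp (cf i s) x j l else sp (cf i s) l
  | Wk.inn i' s' j x => if i = i' ∧ s = s' then inp (cf i s) j x l else sp (cf i s) l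
  | _ => sp (cf i s) l

def cnt (U : Finset Ed) (i s l : ℕ) : ℕ :=
  (if (⟨i, s, l, false⟩ : Ed) ∈ U then 1 else 0) + (if (⟨i, s, l, true⟩ : Ed) ∈ U then 1 else 0)

def cfok (c : Cf) : Prop := c.k ≤ c.m ∧ c.k ≤ 24 ∧ c.m ≤ 25 ∧ (c.ow = true → c.m ≤ 24)

def exh (U : Finset Ed) (i : ℕ) : Prop := ∀ e ∈ rawinc (Nd.hub i), e ∈ U

def wok (cf : ℕ → ℕ → Cf) (w : Wk) (U : Finset Ed) : Prop :=
  match w with
  | Wk.hub _ => True
  | Wk.rest i s x => s < 2 ^ (i + 1) ∧ 1 ≤ x ∧ x ≤ 24 ∧ (x ≤ (cf i s).k ∨ (cf i s).m ≤ x) ∧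
      ((cf i s).m = 25 → exh U i)
  | Wk.out i s x j => s < 2 ^ (i + 1) ∧ (cf i s).ow = false ∧ (cf i s).k < x ∧ x ≤ j ∧
      j ≤ (cf i s).m ∧ j ≤ 24 ∧ ((cf i s).m = 25 → 1 ≤ (cf i s).k → exh U i)
  | Wk.inn i s j x => s < 2 ^ (i + 1) ∧ (cf i s).ow = false ∧ (cf i s).k ≤ j ∧ 1 ≤ j ∧ j ≤ x ∧
      x < (cf i s).m ∧ (cf i s).m ≤ 24

def nodeW : Wk → Nd
  | Wk.hub i => Nd.hub i
  | Wk.rest i s x => Nd.nd i s x
  | Wk.out i s x _ => Nd.nd i s x
  | Wk.inn i s _ x => Nd.nd i s x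

structure okS (a : St) : Prop where
  c : ∀ i s, cfok (a.cf i s)
  v : ∀ e ∈ a.U, EdV e
  n : ∀ i s l, s < 2 ^ (i + 1) → l ≤ 24 → cnt a.U i s l = profW a.cf a.w i s l
  w : wok a.cf a.w a.U

def upd2 (cf : ℕ → ℕ → Cf) (i s : ℕ) (c : Cf) : ℕ → ℕ → Cf :=
  fun i' s' => if i' = i ∧ s' = s then c else cf i' s'

lemma upd2_same (cf : ℕ → ℕ → Cf) (i s : ℕ) (c : Cf) : upd2 cf i s c i s = c := by simp [upd2]

lemma upd2_ne (cf : ℕ → ℕ → Cf) {i s i' s' : ℕ} (c : Cf) (h : ¬ (i' = i ∧ s' = s)) :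
    upd2 cf i s c i' s' = cf i' s' := by simp [upd2, h]

def hubOr (i s x : ℕ) : Wk := if x = 0 then Wk.hub i else Wk.rest i s x

/-- the new configuration and walker state after a greedy crossing of `e` -/
def gMove (a : St) (e : Ed) : (ℕ → ℕ → Cf) × Wk :=
  match a.w with
  | Wk.hub _ =>
    if e.l = 0 then
      (if (a.cf e.i e.s).ow then (upd2 a.cf e.i e.s ⟨1, (a.cf e.i e.s).m, true⟩, Wk.rest e.i e.s 1)
       else (a.cf, Wk.out e.i e.s 1 1))
    else (upd2 a.cf e.i e.s ⟨(a.cf e.i e.s).k, 24, false⟩, Wk.rest e.i e.s 24)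
  | Wk.rest i s x =>
    if e.l = x then
      (if (a.cf i s).ow then (upd2 a.cf i s ⟨x + 1, (a.cf i s).m, true⟩, Wk.rest i s (x + 1))
       else if x = 24 then (upd2 a.cf i s ⟨24, 24, false⟩, Wk.hub (i + 1))
       else (a.cf, Wk.out i s (x + 1) (x + 1)))
    else
      (if (a.cf i s).ow then (upd2 a.cf i s ⟨(a.cf i s).k, x - 1, true⟩, hubOr i s (x - 1))
       else if x = 1 then (upd2 a.cf i s ⟨0, 1, true⟩, Wk.hub i)
       else (a.cf, Wk.inn i s (x - 1) (x - 1)))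
  | Wk.out i s x j =>
    if e.l = x then
      (if x = 24 then (upd2 a.cf i s ⟨(a.cf i s).k, 24, true⟩, Wk.hub (i + 1))
       else (a.cf, Wk.out i s (x + 1) (x + 1)))
    else
      (if x - 1 = (a.cf i s).k then
        (upd2 a.cf i s ⟨j, (a.cf i s).m, false⟩, hubOr i s (x - 1))
       else (a.cf, Wk.out i s (x - 1) j))
  | Wk.inn i s j x =>
    if e.l = x then
      (if x + 1 = (a.cf i s).m then
        (upd2 a.cf i s ⟨(a.cf i s).k, j, false⟩, Wk.rest i s (x + 1))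
       else (a.cf, Wk.inn i s j (x + 1)))
    else
      (if x = 1 then (upd2 a.cf i s ⟨0, (a.cf i s).m, true⟩, Wk.hub i)
       else (a.cf, Wk.inn i s (x - 1) (x - 1)))

/-- the new walker state after a random crossing of a used edge -/
def sMove (a : St) (e : Ed) : Wk :=
  match a.w with
  | Wk.hub _ => if e.l = 0 then Wk.rest e.i e.s 1 else Wk.rest e.i e.s 24
  | Wk.rest i s x =>
    if e.l = x then (if x = 24 then Wk.hub (i + 1) else Wk.rest i s (x + 1)) else hubOr i s (x - 1)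
  | w => w

def nxtS (a : St) (e : Ed) : St :=
  if e ∈ a.U then ⟨a.cf, sMove a e, a.U⟩ else ⟨(gMove a e).1, (gMove a e).2, insert e a.U⟩

lemma cnt_insert {U : Finset Ed} {e : Ed} (he : e ∉ U) (i s l : ℕ) :
    cnt (insert e U) i s l = cnt U i s l + (if i = e.i ∧ s = e.s ∧ l = e.l then 1 else 0) := by
  obtain ⟨ei, es, el, eb⟩ := e
  unfold cnt
  simp only [Finset.mem_insert, Ed.mk.injEq]
  by_cases h : i = ei ∧ s = es ∧ l = el
  · obtain ⟨rfl, rfl, rfl⟩ := h
    cases eb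
    · simp [he]; omega
    · simp [he]
  · have h1 : ∀ b, ¬ (i = ei ∧ s = es ∧ l = el ∧ b = eb) := fun b hb => h ⟨hb.1, hb.2.1, hb.2.2.1⟩
    simp only [h1 false, h1 true, false_or, if_neg h, add_zero]

lemma cnt_lt {a : St} (h : okS a) {e : Ed} (hv : EdV e) (he : e ∉ a.U) :
    cnt a.U e.i e.s e.l < cap e.l := by
  obtain ⟨i, s, l, b⟩ := e
  obtain ⟨h1, h2, h3⟩ := hv
  simp only at h1 h2 h3 ⊢
  unfold cnt cap
  by_cases hl : l < 24
  · rw [if_pos hl]
    cases b
    · rw [if_neg he]; split_ifs <;> omega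
    · rw [if_neg he]; split_ifs <;> omega
  · rw [if_neg hl]
    have hl' : l = 24 := by omega
    have hb := h3 hl'
    subst hb
    rw [if_neg he, if_neg]
    · omega
    · intro hc
      have := (h.v _ hc).2.2
      simp only at this
      have := this hl'
      cases this

lemma cnt_full {a : St} (h : okS a) {i s l : ℕ} (hs : s < 2 ^ (i + 1)) (hl : l ≤ 24)
    (hall : ∀ b, EdV ⟨i, s, l, b⟩ → (⟨i, s, l, b⟩ : Ed) ∈ a.U) : profW a.cf a.w i s l = cap l := by
  rw [← h.n i s l hs hl]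
  unfold cnt cap
  by_cases hl' : l < 24
  · rw [if_pos hl', if_pos (hall false ⟨hs, hl, fun _ => rfl⟩),
      if_pos (hall true ⟨hs, hl, fun hc => by simp only at hc; omega⟩)]
  · rw [if_neg hl', if_pos (hall false ⟨hs, hl, fun _ => rfl⟩), if_neg]
    intro hc
    have := (h.v _ hc).2.2
    simp only at this
    have := this (by omega)
    cases this

lemma exh_mono {U : Finset Ed} {i : ℕ} (e : Ed) (h : exh U i) : exh (insert e U) i :=
  fun f hf => Finset.mem_insert_of_mem (h f hf)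

section prof

variable {c : Cf} {l : ℕ}

lemma pr_a (hk : c.k < c.m) (ho : c.ow = false) (hk2 : c.k < 24) :
    outp c (c.k + 1) (c.k + 1) l = sp c l + (if l = c.k then 1 else 0) := by
  unfold outp sp cap
  simp only [ho]
  split_ifs <;> first | omega | simp_all

lemma pr_b {k m : ℕ} (hk : k < m) (hm : m ≤ 24) :
    sp ⟨k + 1, m, true⟩ l = sp ⟨k, m, true⟩ l + (if l = k then 1 else 0) := by
  unfold sp cap
  simp only
  split_ifs <;> omega

lemma pr_c {k : ℕ} (hk : k ≤ 24) (hl : l ≤ 24) :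
    sp ⟨k, 24, false⟩ l = sp ⟨k, 25, false⟩ l + (if l = 24 then 1 else 0) := by
  unfold sp cap
  simp only
  split_ifs <;> first | omega | simp_all

lemma pr_e {k m : ℕ} (hk : k < m) (hm : m ≤ 24) :
    sp ⟨k, m - 1, true⟩ l = sp ⟨k, m, true⟩ l + (if l = m - 1 then 1 else 0) := by
  unfold sp cap
  simp only
  split_ifs <;> omega

lemma pr_f (hk : c.k < c.m) (ho : c.ow = false) (hm : c.m ≤ 24) :
    inp c (c.m - 1) (c.m - 1) l = sp c l + (if l = c.m - 1 then 1 else 0) := by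
  unfold inp sp cap
  simp only [ho]
  split_ifs <;> first | omega | simp_all

lemma pr_f' : sp ⟨0, 1, true⟩ l = sp ⟨0, 1, false⟩ l + (if l = 0 then 1 else 0) := by
  unfold sp cap
  simp only
  split_ifs <;> first | omega | simp_all

lemma pr_g {x j : ℕ} (hx : x = c.k + 1) (hxj : x ≤ j) (hjm : j ≤ c.m) (hj : j ≤ 24) :
    sp ⟨j, c.m, false⟩ l = outp c x j l + (if l = x - 1 then 1 else 0) := by
  unfold outp sp cap
  simp only
  split_ifs <;> first | omega | simp_all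

lemma pr_g' {x j : ℕ} (hx : c.k < x - 1) (hxj : x ≤ j) (hj : j ≤ 24) :
    outp c (x - 1) j l = outp c x j l + (if l = x - 1 then 1 else 0) := by
  unfold outp cap
  split_ifs <;> omega

lemma pr_h {x : ℕ} (hx : c.k < x) (hm : x < c.m) :
    outp c (x + 1) (x + 1) l = outp c x x l + (if l = x then 1 else 0) := by
  unfold outp cap
  split_ifs <;> omega

lemma pr_h' {k : ℕ} (hk : k < 24) (hl : l ≤ 24) :
    sp ⟨k, 24, true⟩ l = outp ⟨k, 25, false⟩ 24 24 l + (if l = 24 then 1 else 0) := by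
  unfold outp sp cap
  simp only
  split_ifs <;> first | omega | simp_all

lemma pr_i {j x : ℕ} (hkj : c.k ≤ j) (hjx : j ≤ x) (hx : x + 1 = c.m) (hm : c.m ≤ 24) :
    sp ⟨c.k, j, false⟩ l = inp c j x l + (if l = x then 1 else 0) := by
  unfold inp sp cap
  simp only
  split_ifs <;> first | omega | simp_all

lemma pr_i' {j x : ℕ} (hkj : c.k ≤ j) (hjx : j ≤ x) (hx : x + 1 < c.m) :
    inp c j (x + 1) l = inp c j x l + (if l = x then 1 else 0) := by
  unfold inp cap
  split_ifs <;> omega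

lemma pr_j {x : ℕ} (hkx : c.k < x) (hx : x < c.m) :
    inp c (x - 1) (x - 1) l = inp c x x l + (if l = x - 1 then 1 else 0) := by
  unfold inp cap
  split_ifs <;> omega

lemma pr_j' (hk : c.k = 0) (hm1 : 1 < c.m) (hm : c.m ≤ 24) :
    sp ⟨0, c.m, true⟩ l = inp c 1 1 l + (if l = 0 then 1 else 0) := by
  unfold inp sp cap
  simp only
  split_ifs <;> first | omega | simp_all

end prof

end Pool.Agent.H575R3.Net
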