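import Mathlib
import Pool.Agent.H575R3.NetCfg

/-!
The machine for the chain of hubs preserves its invariant.
-/

open Finset

namespace Pool.Agent.H575R3.Net

lemma mkOk {a : St} (h : okS a) {e : Ed} (hv : EdV e) (he : e ∉ a.U) (cf' : ℕ → ℕ → Cf) (w' : Wk)
    (hcf : ∀ i s, ¬ (i = e.i ∧ s = e.s) → cf' i s = a.cf i s) (hc : cfok (cf' e.i e.s))
    (hoff : ∀ i s l, ¬ (i = e.i ∧ s = e.s) → profW cf' w' i s l = profW a.cf a.w i s l)
    (hp : ∀ l ≤ 24, profW cf' w' e.i e.s l = profW a.cf a.w e.i e.s l + (if l = e.l then 1 else 0))
    (hw : wok cf' w' (insert e a.U)) : okS ⟨cf', w', insert e a.U⟩ := by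
  refine ⟨?_, ?_, ?_, hw⟩
  · intro i s
    by_cases h1 : i = e.i ∧ s = e.s
    · rw [h1.1, h1.2]; exact hc
    · show cfok (cf' i s)
      rw [hcf i s h1]; exact h.c i s
  · intro f hf
    rcases Finset.mem_insert.mp hf with rfl | hf
    · exact hv
    · exact h.v f hf
  · intro i s l hs hl
    show cnt (insert e a.U) i s l = profW cf' w' i s l
    rw [cnt_insert he, h.n i s l hs hl]
    by_cases h1 : i = e.i ∧ s = e.s
    · obtain ⟨rfl, rfl⟩ := h1
      rw [hp l hl]
      simp
    · rw [hoff i s l h1, if_neg (fun hh => h1 ⟨hh.1, hh.2.1⟩), add_zero]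

lemma hub_mem {i : ℕ} {e : Ed} (hv : EdV e) (h : e ∈ rawinc (Nd.hub i)) :
    (e.l = 0 ∧ e.i = i) ∨ (e.l = 24 ∧ e.i + 1 = i) := by
  rw [mem_rawinc _ _ hv, Ps_hub, Ps_hub] at h
  obtain ⟨h1, h2, h3⟩ := hv
  omega

lemma nd_mem {i s x : ℕ} {e : Ed} (hv : EdV e) (h : e ∈ rawinc (Nd.nd i s x)) :
    e.i = i ∧ e.s = s ∧ 1 ≤ x ∧ x ≤ 24 ∧ (e.l = x ∨ e.l + 1 = x) := by
  rw [mem_rawinc _ _ hv, Ps_inj_nd, Ps_inj_nd] at h
  obtain ⟨h1, h2, h3⟩ := hv
  rcases h with ⟨a1, a2, a3, a4, a5⟩ | ⟨a1, a2, a3, a4, a5⟩
  · exact ⟨a3, a4, by omega, by omega, by omega⟩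
  · exact ⟨a3, a4, by omega, by omega, by omega⟩

lemma mem_nd {i s x l : ℕ} {b : Bool} (h : EdV ⟨i, s, l, b⟩) (hx : 1 ≤ x) (hx2 : x ≤ 24)
    (hl : l = x ∨ l + 1 = x) : (⟨i, s, l, b⟩ : Ed) ∈ rawinc (Nd.nd i s x) := by
  rw [mem_rawinc _ _ h, Ps_inj_nd, Ps_inj_nd]
  rcases hl with rfl | rfl
  · left
    exact ⟨by simp only; omega, by simp only; omega, rfl, rfl, rfl⟩
  · right
    exact ⟨by simp only; omega, by simp only; omega, rfl, rfl, rfl⟩

lemma mem_hub0 {i s : ℕ} {b : Bool} (h : EdV ⟨i, s, 0, b⟩) :
    (⟨i, s, 0, b⟩ : Ed) ∈ rawinc (Nd.hub i) := by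
  rw [mem_rawinc _ _ h, Ps_hub, Ps_hub]
  simp

lemma mem_hub24 {i s : ℕ} {b : Bool} (h : EdV ⟨i, s, 24, b⟩) :
    (⟨i, s, 24, b⟩ : Ed) ∈ rawinc (Nd.hub (i + 1)) := by
  rw [mem_rawinc _ _ h, Ps_hub, Ps_hub]
  simp

theorem gOk {a : St} (h : okS a) {e : Ed} (hv : EdV e) (he : e ∉ a.U)
    (hinc : e ∈ rawinc (nodeW a.w)) : okS (nxtS a e) := by
  have hlt := cnt_lt h hv he
  rw [h.n e.i e.s e.l hv.1 hv.2.1] at hlt
  have hwok := h.w
  have hcf := h.c e.i e.s
  unfold nxtS
  rw [if_neg he]
  obtain ⟨i0, s0, l0, b0⟩ := e
  obtain ⟨cf, w, U⟩ := a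
  cases w with
  | hub i =>
    have hm := hub_mem hv hinc
    simp only at hm hlt hcf
    simp only [profW] at hlt
    rcases hm with ⟨hl, hi⟩ | ⟨hl, hi⟩
    · subst hl; subst hi
      have hk : (cf i0 s0).k = 0 ∧ 1 ≤ (cf i0 s0).m := by
        unfold sp cap at hlt
        constructor
        · by_contra hc; rw [if_pos (Or.inl (by omega))] at hlt; omega
        · by_contra hc; rw [if_pos (Or.inr (by omega))] at hlt; omega
      by_cases how : (cf i0 s0).ow = true
      · have hmv : gMove ⟨cf, Wk.hub i0, U⟩ ⟨i0, s0, 0, b0⟩ =
            (upd2 cf i0 s0 ⟨1, (cf i0 s0).m, true⟩, Wk.rest i0 s0 1) := by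
          simp [gMove, how]
        rw [hmv]
        apply mkOk h hv he
        · intro i s hh; exact upd2_ne _ _ hh
        · simp only [upd2_same]
          have := hcf.2.2.2 how
          exact ⟨by simp only; omega, by simp only; omega, by simp only; omega, fun _ => this⟩
        · intro i s l hh; simp only [profW, upd2_ne _ _ hh]
        · intro l _
          simp only [profW, upd2_same]
          have h3 := pr_b (l := l) (k := 0) (m := (cf i0 s0).m) (by omega) (hcf.2.2.2 how)
          have h4 : cf i0 s0 = ⟨0, (cf i0 s0).m, true⟩ := by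
            rw [← hk.1, ← how]
          rw [h4]
          exact h3
        · simp only [wok, upd2_same]
          exact ⟨hv.1, le_rfl, by omega, Or.inl le_rfl, fun hh => by
            have := hcf.2.2.2 how; omega⟩
      · have how' : (cf i0 s0).ow = false := by simpa using how
        have hmv : gMove ⟨cf, Wk.hub i0, U⟩ ⟨i0, s0, 0, b0⟩ = (cf, Wk.out i0 s0 1 1) := by
          simp [gMove, how]
        rw [hmv]
        apply mkOk h hv he
        · intro i s _; rfl
        · exact hcf
        · intro i s l hh; simp only [profW, if_neg hh]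
        · intro l _
          simp only [profW, and_self, if_true]
          have h3 := pr_a (c := cf i0 s0) (l := l) (by omega) how' (by omega)
          rw [hk.1] at h3
          exact h3
        · simp only [wok]
          exact ⟨hv.1, how', by omega, le_rfl, by omega, by omega, fun _ hh => by omega⟩
    · subst hl; subst hi
      have hk : (cf i0 s0).m = 25 ∧ (cf i0 s0).ow = false := by
        unfold sp cap at hlt
        have h5 : ¬ (24 < (cf i0 s0).k ∨ (cf i0 s0).m ≤ 24) := by
          intro hc; rw [if_pos hc] at hlt; omega
        have h6 : (cf i0 s0).m = 25 := by have := hcf.2.2.1; omega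
        refine ⟨h6, ?_⟩
        by_contra hc
        have := hcf.2.2.2 (by simpa using hc)
        omega
      have hmv : gMove ⟨cf, Wk.hub (i0 + 1), U⟩ ⟨i0, s0, 24, b0⟩ =
          (upd2 cf i0 s0 ⟨(cf i0 s0).k, 24, false⟩, Wk.rest i0 s0 24) := by
        simp [gMove]
      rw [hmv]
      apply mkOk h hv he
      · intro i s hh; exact upd2_ne _ _ hh
      · simp only [upd2_same]
        have := hcf.2.1
        exact ⟨by simp only; omega, by simp only; omega, by simp only; omega, fun _ => le_rfl⟩
      · intro i s l hh; simp only [profW, upd2_ne _ _ hh]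
      · intro l hl
        simp only [profW, upd2_same]
        have h3 := pr_c (l := l) (k := (cf i0 s0).k) (by have := hcf.2.1; omega) hl
        have h4 : cf i0 s0 = ⟨(cf i0 s0).k, 25, false⟩ := by
          rw [← hk.1, ← hk.2]
        have h5 : sp (cf i0 s0) l = sp ⟨(cf i0 s0).k, 25, false⟩ l := by rw [← h4]
        rw [h5]
        exact h3
      · simp only [wok, upd2_same]
        exact ⟨hv.1, by omega, le_rfl, Or.inr le_rfl, fun hh => by omega⟩
  | rest i s x =>
    obtain ⟨hi, hs, hx1, hx2, hl⟩ := nd_mem hv hinc
    simp only at hi hs hl hlt hcf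
    subst hi; subst hs
    simp only [profW] at hlt
    simp only [wok] at hwok
    obtain ⟨w1, w2, w3, w4, w5⟩ := hwok
    have hz : ¬ (l0 < (cf i0 s0).k ∨ (cf i0 s0).m ≤ l0) := by
      intro hc
      unfold sp at hlt
      rw [if_pos hc] at hlt; omega
    rcases hl with hl | hl
    · subst hl
      have hxk : l0 = (cf i0 s0).k := by omega
      by_cases how : (cf i0 s0).ow = true
      · have hmv : gMove ⟨cf, Wk.rest i0 s0 l0, U⟩ ⟨i0, s0, l0, b0⟩ =
            (upd2 cf i0 s0 ⟨l0 + 1, (cf i0 s0).m, true⟩, Wk.rest i0 s0 (l0 + 1)) := by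
          simp [gMove, how]
        have hm24 := hcf.2.2.2 how
        rw [hmv]
        apply mkOk h hv he
        · intro i s hh; exact upd2_ne _ _ hh
        · simp only [upd2_same]
          exact ⟨by simp only; omega, by simp only; omega, by simp only; omega, fun _ => hm24⟩
        · intro i s l hh; simp only [profW, upd2_ne _ _ hh]
        · intro l _
          simp only [profW, upd2_same]
          have h3 := pr_b (l := l) (k := l0) (m := (cf i0 s0).m) (by omega) hm24
          have h4 : cf i0 s0 = ⟨l0, (cf i0 s0).m, true⟩ := by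
            rw [hxk, ← how]
          have h5 : sp (cf i0 s0) l = sp ⟨l0, (cf i0 s0).m, true⟩ l := by rw [← h4]
          rw [h5]
          exact h3
        · simp only [wok, upd2_same]
          exact ⟨hv.1, by omega, by omega, Or.inl le_rfl, fun hh => by omega⟩
      · have how' : (cf i0 s0).ow = false := by simpa using how
        by_cases hx24 : l0 = 24
        · have hmv : gMove ⟨cf, Wk.rest i0 s0 l0, U⟩ ⟨i0, s0, l0, b0⟩ =
              (upd2 cf i0 s0 ⟨24, 24, false⟩, Wk.hub (i0 + 1)) := by
            simp [gMove, how, hx24]
          have hm25 : (cf i0 s0).m = 25 := by have := hcf.2.2.1; omega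
          rw [hmv]
          apply mkOk h hv he
          · intro i s hh; exact upd2_ne _ _ hh
          · simp only [upd2_same]
            exact ⟨by simp only; omega, by simp only; omega, by simp only; omega, fun _ => le_rfl⟩
          · intro i s l hh; simp only [profW, upd2_ne _ _ hh]
          · intro l hl
            simp only [profW, upd2_same]
            have h3 := pr_c (l := l) (k := 24) (by omega) hl
            have h4 : cf i0 s0 = ⟨24, 25, false⟩ := by
              rw [← hm25, ← how', ← hx24, hxk]
            have h5 : sp (cf i0 s0) l = sp ⟨24, 25, false⟩ l := by rw [h4]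
            rw [h5, hx24]
            exact h3
          · simp only [wok]
        · have hmv : gMove ⟨cf, Wk.rest i0 s0 l0, U⟩ ⟨i0, s0, l0, b0⟩ =
              (cf, Wk.out i0 s0 (l0 + 1) (l0 + 1)) := by
            simp [gMove, how, hx24]
          rw [hmv]
          apply mkOk h hv he
          · intro i s _; rfl
          · exact hcf
          · intro i s l hh; simp only [profW, if_neg hh]
          · intro l _
            simp only [profW, and_self, if_true]
            have h3 := pr_a (c := cf i0 s0) (l := l) (by omega) how' (by omega)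
            rw [← hxk] at h3
            exact h3
          · simp only [wok]
            exact ⟨hv.1, how', by omega, le_rfl, by omega, by omega,
              fun hh _ => exh_mono _ (w5 hh)⟩
    · subst hl
      have hxm : l0 + 1 = (cf i0 s0).m := by omega
      have hne : l0 ≠ l0 + 1 := by omega
      by_cases how : (cf i0 s0).ow = true
      · have hmv : gMove ⟨cf, Wk.rest i0 s0 (l0 + 1), U⟩ ⟨i0, s0, l0, b0⟩ =
            (upd2 cf i0 s0 ⟨(cf i0 s0).k, l0, true⟩, hubOr i0 s0 l0) := by
          simp [gMove, how]
        have hm24 := hcf.2.2.2 how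
        rw [hmv]
        have hprof : ∀ i s l, profW (upd2 cf i0 s0 ⟨(cf i0 s0).k, l0, true⟩) (hubOr i0 s0 l0) i s l =
            sp (upd2 cf i0 s0 ⟨(cf i0 s0).k, l0, true⟩ i s) l := by
          intro i s l
          unfold hubOr
          split_ifs <;> rfl
        apply mkOk h hv he
        · intro i s hh; exact upd2_ne _ _ hh
        · simp only [upd2_same]
          exact ⟨by simp only; omega, by simp only; omega, by simp only; omega,
            fun _ => by simp only; omega⟩
        · intro i s l hh
          rw [hprof, upd2_ne _ _ hh]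
          rfl
        · intro l _
          rw [hprof, upd2_same]
          simp only [profW]
          have h3 := pr_e (l := l) (k := (cf i0 s0).k) (m := l0 + 1) (by omega) (by omega)
          have h4 : cf i0 s0 = ⟨(cf i0 s0).k, l0 + 1, true⟩ := by
            rw [hxm, ← how]
          have h5 : sp (cf i0 s0) l = sp ⟨(cf i0 s0).k, l0 + 1, true⟩ l := by rw [← h4]
          rw [h5]
          simpa using h3
        · unfold hubOr
          split_ifs with h0
          · simp only [wok]
          · simp only [wok, upd2_same]
            exact ⟨hv.1, by omega, by omega, Or.inr le_rfl, fun hh => by omega⟩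
      · have how' : (cf i0 s0).ow = false := by simpa using how
        by_cases hx1' : l0 + 1 = 1
        · have hl0 : l0 = 0 := by omega
          have hmv : gMove ⟨cf, Wk.rest i0 s0 (l0 + 1), U⟩ ⟨i0, s0, l0, b0⟩ =
              (upd2 cf i0 s0 ⟨0, 1, true⟩, Wk.hub i0) := by
            simp [gMove, how, hl0]
          rw [hmv]
          apply mkOk h hv he
          · intro i s hh; exact upd2_ne _ _ hh
          · simp only [upd2_same]
            exact ⟨by simp only; omega, by simp only; omega, by simp only; omega,
              fun _ => by simp only; omega⟩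
          · intro i s l hh; simp only [profW, upd2_ne _ _ hh]
          · intro l hl
            simp only [profW, upd2_same]
            have h3 := pr_f' (l := l)
            have h4 : cf i0 s0 = ⟨0, 1, false⟩ := by
              have hk0 : (cf i0 s0).k = 0 := by omega
              have hm1 : (cf i0 s0).m = 1 := by omega
              rw [← how']
              conv_rhs => rw [← hm1]
              rw [← hk0]
            have h5 : sp (cf i0 s0) l = sp ⟨0, 1, false⟩ l := by rw [h4]
            rw [h5, hl0]
            exact h3
          · simp only [wok]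
        · have hmv : gMove ⟨cf, Wk.rest i0 s0 (l0 + 1), U⟩ ⟨i0, s0, l0, b0⟩ =
              (cf, Wk.inn i0 s0 l0 l0) := by
            have : ¬ (l0 = 0) := by omega
            simp [gMove, how, this]
          have hm24 : (cf i0 s0).m ≤ 24 := by omega
          rw [hmv]
          apply mkOk h hv he
          · intro i s _; rfl
          · exact hcf
          · intro i s l hh; simp only [profW, if_neg hh]
          · intro l _
            simp only [profW, and_self, if_true]
            have h3 := pr_f (c := cf i0 s0) (l := l) (by omega) how' hm24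
            have h4 : (cf i0 s0).m - 1 = l0 := by omega
            rw [h4] at h3
            exact h3
          · simp only [wok]
            exact ⟨hv.1, how', by omega, by omega, le_rfl, by omega, hm24⟩
  | out i s x j =>
    obtain ⟨hi, hs, hx1, hx2, hl⟩ := nd_mem hv hinc
    simp only at hi hs hl hlt hcf
    subst hi; subst hs
    simp only [profW, and_self, if_true] at hlt
    simp only [wok] at hwok
    obtain ⟨w1, w2, w3, w4, w5, w6, w7⟩ := hwok
    rcases hl with hl | hl
    · subst hl
      have hxj : l0 = j := by
        by_contra hc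
        unfold outp cap at hlt
        rw [if_neg (by omega), if_neg (by omega), if_pos (by omega)] at hlt
        split_ifs at hlt <;> omega
      subst hxj
      have hxm : l0 < (cf i0 s0).m := by
        by_contra hc
        unfold outp at hlt
        rw [if_neg (by omega), if_neg (by omega), if_neg (by omega), if_neg hc] at hlt
        omega
      by_cases hx24 : l0 = 24
      · have hmv : gMove ⟨cf, Wk.out i0 s0 l0 l0, U⟩ ⟨i0, s0, l0, b0⟩ =
            (upd2 cf i0 s0 ⟨(cf i0 s0).k, 24, true⟩, Wk.hub (i0 + 1)) := by
          simp [gMove, hx24]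
        have hm25 : (cf i0 s0).m = 25 := by have := hcf.2.2.1; omega
        rw [hmv]
        apply mkOk h hv he
        · intro i s hh; exact upd2_ne _ _ hh
        · simp only [upd2_same]
          exact ⟨by simp only; omega, by simp only; omega, by simp only; omega, fun _ => le_rfl⟩
        · intro i s l hh; simp only [profW, upd2_ne _ _ hh, if_neg hh]
        · intro l hl
          simp only [profW, upd2_same, and_self, if_true]
          have h3 := pr_h' (l := l) (k := (cf i0 s0).k) (by omega) hl
          have h4 : cf i0 s0 = ⟨(cf i0 s0).k, 25, false⟩ := by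
            rw [← hm25, ← w2]
          have h5 : outp (cf i0 s0) l0 l0 l = outp ⟨(cf i0 s0).k, 25, false⟩ 24 24 l := by
            rw [← h4, hx24]
          rw [h5, hx24]
          exact h3
        · simp only [wok]
      · have hmv : gMove ⟨cf, Wk.out i0 s0 l0 l0, U⟩ ⟨i0, s0, l0, b0⟩ =
            (cf, Wk.out i0 s0 (l0 + 1) (l0 + 1)) := by
          simp [gMove, hx24]
        rw [hmv]
        apply mkOk h hv he
        · intro i s _; rfl
        · exact hcf
        · intro i s l hh; simp only [profW, if_neg hh]
        · intro l _
          simp only [profW, and_self, if_true]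
          exact pr_h w3 hxm
        · simp only [wok]
          exact ⟨hv.1, w2, by omega, le_rfl, by omega, by omega,
            fun hh h1 => exh_mono _ (w7 hh h1)⟩
    · subst hl
      have hne : ¬ (l0 = l0 + 1) := by omega
      by_cases hk : l0 = (cf i0 s0).k
      · have hmv : gMove ⟨cf, Wk.out i0 s0 (l0 + 1) j, U⟩ ⟨i0, s0, l0, b0⟩ =
            (upd2 cf i0 s0 ⟨j, (cf i0 s0).m, false⟩, hubOr i0 s0 l0) := by
          simp [gMove, ← hk]
        rw [hmv]
        have hprof : ∀ i s l, profW (upd2 cf i0 s0 ⟨j, (cf i0 s0).m, false⟩) (hubOr i0 s0 l0) i s l =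
            sp (upd2 cf i0 s0 ⟨j, (cf i0 s0).m, false⟩ i s) l := by
          intro i s l
          unfold hubOr
          split_ifs <;> rfl
        apply mkOk h hv he
        · intro i s hh; exact upd2_ne _ _ hh
        · simp only [upd2_same]
          exact ⟨w5, w6, hcf.2.2.1, fun hh => by cases hh⟩
        · intro i s l hh
          rw [hprof, upd2_ne _ _ hh]
          simp only [profW, if_neg hh]
        · intro l _
          rw [hprof, upd2_same]
          simp only [profW, and_self, if_true]
          have h3 := pr_g (c := cf i0 s0) (l := l) (x := l0 + 1) (j := j) (by omega) w4 w5 w6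
          simpa using h3
        · unfold hubOr
          split_ifs with h0
          · simp only [wok]
          · simp only [wok, upd2_same]
            exact ⟨hv.1, by omega, by omega, Or.inl (by omega),
              fun hh => exh_mono _ (w7 hh (by omega))⟩
      · have hmv : gMove ⟨cf, Wk.out i0 s0 (l0 + 1) j, U⟩ ⟨i0, s0, l0, b0⟩ =
            (cf, Wk.out i0 s0 l0 j) := by
          simp [gMove, hk]
        rw [hmv]
        apply mkOk h hv he
        · intro i s _; rfl
        · exact hcf
        · intro i s l hh; simp only [profW, if_neg hh]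
        · intro l _
          simp only [profW, and_self, if_true]
          have h3 := pr_g' (c := cf i0 s0) (l := l) (x := l0 + 1) (j := j) (by omega) w4 w6
          simpa using h3
        · simp only [wok]
          exact ⟨hv.1, w2, by omega, by omega, w5, w6, fun hh h1 => exh_mono _ (w7 hh h1)⟩
  | inn i s j x =>
    obtain ⟨hi, hs, hx1, hx2, hl⟩ := nd_mem hv hinc
    simp only at hi hs hl hlt hcf
    subst hi; subst hs
    simp only [profW, and_self, if_true] at hlt
    simp only [wok] at hwok
    obtain ⟨w1, w2, w3, w4, w5, w6, w7⟩ := hwok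
    rcases hl with hl | hl
    · subst hl
      by_cases hk : l0 + 1 = (cf i0 s0).m
      · have hmv : gMove ⟨cf, Wk.inn i0 s0 j l0, U⟩ ⟨i0, s0, l0, b0⟩ =
            (upd2 cf i0 s0 ⟨(cf i0 s0).k, j, false⟩, Wk.rest i0 s0 (l0 + 1)) := by
          simp [gMove, hk]
        rw [hmv]
        apply mkOk h hv he
        · intro i s hh; exact upd2_ne _ _ hh
        · simp only [upd2_same]
          exact ⟨w3, hcf.2.1, by simp only; omega, fun hh => by cases hh⟩
        · intro i s l hh
          simp only [profW, upd2_ne _ _ hh, if_neg hh]
        · intro l _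
          simp only [profW, upd2_same, and_self, if_true]
          exact pr_i w3 w5 hk w7
        · simp only [wok, upd2_same]
          exact ⟨hv.1, by omega, by omega, Or.inr (by omega), fun hh => by omega⟩
      · have hmv : gMove ⟨cf, Wk.inn i0 s0 j l0, U⟩ ⟨i0, s0, l0, b0⟩ =
            (cf, Wk.inn i0 s0 j (l0 + 1)) := by
          simp [gMove, hk]
        rw [hmv]
        apply mkOk h hv he
        · intro i s _; rfl
        · exact hcf
        · intro i s l hh; simp only [profW, if_neg hh]
        · intro l _
          simp only [profW, and_self, if_true]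
          exact pr_i' w3 w5 (by omega)
        · simp only [wok]
          exact ⟨hv.1, w2, w3, w4, by omega, by omega, w7⟩
    · subst hl
      have hne : ¬ (l0 = l0 + 1) := by omega
      have hkl : (cf i0 s0).k ≤ l0 := by
        by_contra hc
        unfold inp at hlt
        rw [if_pos (by omega)] at hlt
        omega
      have hjx : j = l0 + 1 := by
        by_contra hc
        unfold inp cap at hlt
        rw [if_neg (by omega), if_neg (by omega), if_pos (by omega)] at hlt
        split_ifs at hlt <;> omega
      subst hjx
      by_cases hx1' : l0 = 0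
      · have hmv : gMove ⟨cf, Wk.inn i0 s0 (l0 + 1) (l0 + 1), U⟩ ⟨i0, s0, l0, b0⟩ =
            (upd2 cf i0 s0 ⟨0, (cf i0 s0).m, true⟩, Wk.hub i0) := by
          simp [gMove, hx1']
        rw [hmv]
        apply mkOk h hv he
        · intro i s hh; exact upd2_ne _ _ hh
        · simp only [upd2_same]
          exact ⟨by simp only; omega, by simp only; omega, by simp only; omega, fun _ => w7⟩
        · intro i s l hh; simp only [profW, upd2_ne _ _ hh, if_neg hh]
        · intro l hl
          simp only [profW, upd2_same, and_self, if_true]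
          have h3 := pr_j' (c := cf i0 s0) (l := l) (by omega) (by omega) w7
          rw [hx1']
          exact h3
        · simp only [wok]
      · have hmv : gMove ⟨cf, Wk.inn i0 s0 (l0 + 1) (l0 + 1), U⟩ ⟨i0, s0, l0, b0⟩ =
            (cf, Wk.inn i0 s0 l0 l0) := by
          simp [gMove, hx1']
        rw [hmv]
        apply mkOk h hv he
        · intro i s _; rfl
        · exact hcf
        · intro i s l hh; simp only [profW, if_neg hh]
        · intro l _
          simp only [profW, and_self, if_true]
          have h3 := pr_j (c := cf i0 s0) (l := l) (x := l0 + 1) (by omega) w6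
          simpa using h3
        · simp only [wok]
          exact ⟨hv.1, w2, hkl, by omega, le_rfl, by omega, w7⟩

end Pool.Agent.H575R3.Net
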