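import Mathlib
import Pool.Agent.H575R3.NetOk

/-!
Random steps of the machine, and the machine itself.
-/

open Finset

namespace Pool.Agent.H575R3.Net

lemma not_exh_out {cf : ℕ → ℕ → Cf} {U : Finset Ed} {i s x j : ℕ}
    (h : okS ⟨cf, Wk.out i s x j, U⟩)
    (hall : ∀ f ∈ rawinc (Nd.nd i s x), EdV f → f ∈ U) : False := by
  have hw := h.w
  simp only [wok] at hw
  obtain ⟨w1, w2, w3, w4, w5, w6, w7⟩ := hw
  have h1 := cnt_full h (i := i) (s := s) (l := x - 1) w1 (by omega) (fun b hb =>
    hall _ (mem_nd hb (by omega) (by omega) (by omega)) hb)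
  simp only [profW, and_self, if_true] at h1
  unfold outp cap at h1
  rw [if_neg (by omega), if_pos (by omega), if_pos (by omega)] at h1
  omega

lemma not_exh_inn {cf : ℕ → ℕ → Cf} {U : Finset Ed} {i s j x : ℕ}
    (h : okS ⟨cf, Wk.inn i s j x, U⟩)
    (hall : ∀ f ∈ rawinc (Nd.nd i s x), EdV f → f ∈ U) : False := by
  have hw := h.w
  simp only [wok] at hw
  obtain ⟨w1, w2, w3, w4, w5, w6, w7⟩ := hw
  have h1 := cnt_full h (i := i) (s := s) (l := x) w1 (by omega) (fun b hb =>
    hall _ (mem_nd hb (by omega) (by omega) (by omega)) hb)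
  simp only [profW, and_self, if_true] at h1
  unfold inp cap at h1
  rw [if_neg (by omega), if_neg (by omega), if_neg (by omega), if_pos (by omega),
    if_pos (by omega)] at h1
  omega

lemma sp_full {c : Cf} (hc : cfok c) {l : ℕ} (hl : l ≤ 24) (h : sp c l = cap l) :
    l < c.k ∨ c.m ≤ l := by
  by_contra hn
  unfold sp at h
  rw [if_neg hn] at h
  unfold cap at h
  by_cases how : c.ow = true
  · rw [if_pos how] at h
    have := hc.2.2.2 how
    rw [if_pos (by omega)] at h
    omega
  · rw [if_neg how] at h
    split_ifs at h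

lemma sMove_ok {a : St} (h : okS a) {e : Ed} (hv : EdV e) (he : e ∈ rawinc (nodeW a.w))
    (hall : ∀ f ∈ rawinc (nodeW a.w), EdV f → f ∈ a.U) : okS ⟨a.cf, sMove a e, a.U⟩ := by
  obtain ⟨cf, w, U⟩ := a
  obtain ⟨i0, s0, l0, b0⟩ := e
  have hcc : cfok (cf i0 s0) := h.c i0 s0
  cases w with
  | hub i =>
    have hm := hub_mem hv he
    simp only at hm
    rcases hm with ⟨rfl, rfl⟩ | ⟨rfl, rfl⟩
    · refine ⟨h.c, h.v, ?_, ?_⟩
      · intro i s l hs hl
        have := h.n i s l hs hl
        simp only [sMove, if_true, profW] at this ⊢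
        exact this
      · have h1 := cnt_full h (i := i0) (s := s0) (l := 0) hv.1 (by omega) (fun b hb =>
          hall _ (mem_hub0 hb) hb)
        simp only [profW] at h1
        have h2 := sp_full hcc (by omega) h1
        simp only [sMove, if_true, wok]
        refine ⟨hv.1, le_rfl, by omega, ?_, ?_⟩
        · have := hcc.1
          omega
        · intro _ f hf
          have hfv : EdV f := by
            simp only [rawinc, Finset.mem_union, Finset.mem_image, Finset.mem_product,
              Finset.mem_range, Finset.mem_univ, and_true, Prod.exists] at hf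
            rcases hf with ⟨s', b', h4, rfl⟩ | hf
            · exact ⟨h4, by simp only; omega, fun hc => by simp only at hc; omega⟩
            · split_ifs at hf with h0
              · simp at hf
              · simp only [Finset.mem_image, Finset.mem_range] at hf
                obtain ⟨s', h5, rfl⟩ := hf
                refine ⟨?_, le_rfl, fun _ => rfl⟩
                simp only
                rwa [Nat.sub_add_cancel (by omega)]
          exact hall f hf hfv
    · refine ⟨h.c, h.v, ?_, ?_⟩
      · intro i s l hs hl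
        have := h.n i s l hs hl
        simp only [sMove, profW] at this ⊢
        simpa using this
      · have h1 := cnt_full h (i := i0) (s := s0) (l := 24) hv.1 (by omega) (fun b hb =>
          hall _ (mem_hub24 hb) hb)
        simp only [profW] at h1
        have h2 := sp_full hcc (by omega) h1
        have h3 := hcc.2.1
        simp only [sMove]
        rw [if_neg (by omega)]
        simp only [wok]
        exact ⟨hv.1, by omega, le_rfl, Or.inr (by omega), fun hh => by omega⟩
  | rest i s x =>
    have hw := h.w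
    simp only [wok] at hw
    obtain ⟨w1, w2, w3, w4, w5⟩ := hw
    obtain ⟨hi, hs, hx1, hx2, hl⟩ := nd_mem hv he
    simp only at hi hs hl
    subst hi; subst hs
    have f1 := cnt_full h (i := i0) (s := s0) (l := x) w1 (by omega) (fun b hb =>
      hall _ (mem_nd hb (by omega) (by omega) (by omega)) hb)
    have f2 := cnt_full h (i := i0) (s := s0) (l := x - 1) w1 (by omega) (fun b hb =>
      hall _ (mem_nd hb (by omega) (by omega) (by omega)) hb)
    simp only [profW] at f1 f2
    have g1 := sp_full hcc (by omega) f1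
    have g2 := sp_full hcc (by omega) f2
    have hkm := hcc.1
    refine ⟨h.c, h.v, ?_, ?_⟩
    · intro i s l hs hl
      have := h.n i s l hs hl
      simp only [sMove, hubOr, profW] at this ⊢
      split_ifs <;> exact this
    · simp only [sMove, hubOr]
      split_ifs with c1 c2 c3
      · simp only [wok]
      · simp only [wok]
        exact ⟨w1, by omega, by omega, by omega, w5⟩
      · simp only [wok]
      · simp only [wok]
        exact ⟨w1, by omega, by omega, by omega, w5⟩
  | out i s x j => exact (not_exh_out h hall).elim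
  | inn i s j x => exact (not_exh_inn h hall).elim

/-- other endpoint at the level of raw edges -/
def oth (e : Ed) (n : Nd) : Nd := if Ps e.i e.s e.l = n then Ps e.i e.s (e.l + 1) else Ps e.i e.s e.l

lemma oth_nd_out {i s x : ℕ} {b : Bool} (h1 : 1 ≤ x) (h2 : x ≤ 24) :
    oth ⟨i, s, x, b⟩ (Nd.nd i s x) = Ps i s (x + 1) := by
  unfold oth
  rw [if_pos]
  rw [Ps_inj_nd]; exact ⟨by simp only; omega, by simp only; omega, rfl, rfl, rfl⟩

lemma oth_nd_in {i s l : ℕ} {b : Bool} :
    oth ⟨i, s, l, b⟩ (Nd.nd i s (l + 1)) = Ps i s l := by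
  unfold oth
  rw [if_neg]
  rw [Ps_inj_nd]; simp only; omega

lemma oth_hub0 {i s : ℕ} {b : Bool} : oth ⟨i, s, 0, b⟩ (Nd.hub i) = Nd.nd i s 1 := by
  unfold oth
  rw [if_pos]
  · simp [Ps]
  · simp [Ps]

lemma oth_hub24 {i s : ℕ} {b : Bool} : oth ⟨i, s, 24, b⟩ (Nd.hub (i + 1)) = Nd.nd i s 24 := by
  unfold oth
  rw [if_neg]
  · simp [Ps]
  · simp [Ps]

lemma nodeW_hubOr {i s x : ℕ} (hx : x ≤ 24) : nodeW (hubOr i s x) = Ps i s x := by
  unfold hubOr Ps
  split_ifs <;> first | rfl | omega

lemma gMove_node {a : St} (h : okS a) {e : Ed} (hv : EdV e) (he : e ∉ a.U)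
    (hinc : e ∈ rawinc (nodeW a.w)) : nodeW (gMove a e).2 = oth e (nodeW a.w) := by
  have hwok := h.w
  obtain ⟨i0, s0, l0, b0⟩ := e
  obtain ⟨cf, w, U⟩ := a
  cases w with
  | hub i =>
    have hm := hub_mem hv hinc
    simp only at hm
    rcases hm with ⟨rfl, rfl⟩ | ⟨rfl, rfl⟩
    · show _ = oth _ (Nd.hub i0)
      rw [oth_hub0]
      simp only [gMove]
      split_ifs <;> rfl
    · show _ = oth _ (Nd.hub (i0 + 1))
      rw [oth_hub24]
      simp only [gMove]
      rw [if_neg (by omega)]
      rfl
  | rest i s x =>
    obtain ⟨hi, hs, hx1, hx2, hl⟩ := nd_mem hv hinc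
    simp only at hi hs hl
    subst hi; subst hs
    rcases hl with rfl | rfl
    · show _ = oth _ (Nd.nd i0 s0 l0)
      rw [oth_nd_out hx1 hx2]
      have hlt := cnt_lt h hv he
      rw [h.n _ _ _ hv.1 hv.2.1] at hlt
      simp only [profW] at hlt
      have hc : cfok (cf i0 s0) := h.c i0 s0
      simp only [gMove, if_true]
      split_ifs with c1 c2
      · have hm := hc.2.2.2 c1
        have : ¬ ((cf i0 s0).m ≤ l0) := by
          intro hh
          unfold sp at hlt
          rw [if_pos (Or.inr hh)] at hlt
          omega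
        simp only [nodeW, Ps]
        rw [if_neg (by omega), if_neg (by omega)]
      · simp [nodeW, Ps, c2]
      · simp only [nodeW, Ps]
        rw [if_neg (by omega), if_neg (by omega)]
    · show _ = oth _ (Nd.nd i0 s0 (l0 + 1))
      rw [oth_nd_in]
      simp only [gMove]
      rw [if_neg (by omega)]
      split_ifs with c1 c2
      · simp only [Nat.add_sub_cancel]
        exact nodeW_hubOr (by omega)
      · have : l0 = 0 := by omega
        subst this
        simp [nodeW, Ps]
      · simp only [nodeW, Ps, Nat.add_sub_cancel]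
        rw [if_neg (by omega), if_neg (by omega)]
  | out i s x j =>
    obtain ⟨hi, hs, hx1, hx2, hl⟩ := nd_mem hv hinc
    simp only at hi hs hl
    subst hi; subst hs
    rcases hl with rfl | rfl
    · show _ = oth _ (Nd.nd i0 s0 l0)
      rw [oth_nd_out hx1 hx2]
      simp only [gMove, if_true]
      split_ifs with c2
      · simp [nodeW, Ps, c2]
      · simp only [nodeW, Ps]
        rw [if_neg (by omega), if_neg (by omega)]
    · show _ = oth _ (Nd.nd i0 s0 (l0 + 1))
      rw [oth_nd_in]
      simp only [wok] at hwok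
      simp only [gMove]
      rw [if_neg (by omega)]
      split_ifs with c1
      · simp only [Nat.add_sub_cancel]
        exact nodeW_hubOr (by omega)
      · simp only [Nat.add_sub_cancel] at c1
        simp only [nodeW, Ps, Nat.add_sub_cancel]
        rw [if_neg (by omega), if_neg (by omega)]
  | inn i s j x =>
    obtain ⟨hi, hs, hx1, hx2, hl⟩ := nd_mem hv hinc
    simp only at hi hs hl
    subst hi; subst hs
    simp only [wok] at hwok
    rcases hl with rfl | rfl
    · show _ = oth _ (Nd.nd i0 s0 l0)
      rw [oth_nd_out hx1 hx2]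
      simp only [gMove, if_true]
      split_ifs with c2
      · simp only [nodeW, Ps]
        rw [if_neg (by omega), if_neg (by omega)]
      · simp only [nodeW, Ps]
        rw [if_neg (by omega), if_neg (by omega)]
    · show _ = oth _ (Nd.nd i0 s0 (l0 + 1))
      rw [oth_nd_in]
      simp only [gMove]
      rw [if_neg (by omega)]
      split_ifs with c1
      · have : l0 = 0 := by omega
        subst this
        simp [nodeW, Ps]
      · simp only [nodeW, Ps, Nat.add_sub_cancel]
        rw [if_neg (by omega), if_neg (by omega)]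

lemma sMove_node {a : St} (h : okS a) {e : Ed} (hv : EdV e)
    (he : e ∈ rawinc (nodeW a.w)) (hall : ∀ f ∈ rawinc (nodeW a.w), EdV f → f ∈ a.U) :
    nodeW (sMove a e) = oth e (nodeW a.w) := by
  obtain ⟨i0, s0, l0, b0⟩ := e
  obtain ⟨cf, w, U⟩ := a
  cases w with
  | hub i =>
    have hm := hub_mem hv he
    simp only at hm
    rcases hm with ⟨rfl, rfl⟩ | ⟨rfl, rfl⟩
    · show _ = oth _ (Nd.hub i0)
      rw [oth_hub0]
      simp [sMove, nodeW]
    · show _ = oth _ (Nd.hub (i0 + 1))
      rw [oth_hub24]
      simp [sMove, nodeW]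
  | rest i s x =>
    obtain ⟨hi, hs, hx1, hx2, hl⟩ := nd_mem hv he
    simp only at hi hs hl
    subst hi; subst hs
    rcases hl with rfl | rfl
    · show _ = oth _ (Nd.nd i0 s0 l0)
      rw [oth_nd_out hx1 hx2]
      simp only [sMove, if_true]
      split_ifs with c2
      · simp [nodeW, Ps, c2]
      · simp only [nodeW, Ps]
        rw [if_neg (by omega), if_neg (by omega)]
    · show _ = oth _ (Nd.nd i0 s0 (l0 + 1))
      rw [oth_nd_in]
      simp only [sMove]
      rw [if_neg (by omega)]
      simp only [Nat.add_sub_cancel]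
      exact nodeW_hubOr (by omega)
  | out i s x j => exact (not_exh_out h hall).elim
  | inn i s j x => exact (not_exh_inn h hall).elim

/-- the initial state -/
def iniS : St := ⟨fun _ _ => ⟨0, 25, false⟩, Wk.hub 0, ∅⟩

lemma iniS_ok : okS iniS := by
  refine ⟨fun _ _ => ⟨by simp [iniS], by simp [iniS], by simp [iniS], by simp [iniS]⟩,
    fun e he => by simp [iniS] at he, ?_, trivial⟩
  intro i s l _ hl
  have : ¬ (25 ≤ l) := by omega
  simp [iniS, cnt, profW, sp, this]

/-- the machine -/
def CM : Mach CY where
  A := St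
  node a := nodeW a.w
  used a e := e.1 ∈ a.U
  nxt a e := nxtS a e.1
  ok := okS
  ini := iniS
  ok_ini := iniS_ok
  used_ini e := by simp [iniS]
  gre a e h hinc hu := by
    have hinc' : e.1 ∈ rawinc (nodeW a.w) := Finset.mem_subtype.mp hinc
    refine ⟨gOk h e.2 hu hinc', ?_, ?_⟩
    · show nodeW (nxtS a e.1).w = _
      unfold nxtS
      rw [if_neg hu]
      exact gMove_node h e.2 hu hinc'
    · intro f
      show f.1 ∈ (nxtS a e.1).U ↔ _
      unfold nxtS
      rw [if_neg hu]
      simp only [Finset.mem_insert]
      constructor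
      · rintro (h1 | h1)
        · exact Or.inr (Subtype.ext h1)
        · exact Or.inl h1
      · rintro (h1 | h1)
        · exact Or.inr h1
        · exact Or.inl (by rw [h1])
  srw a e h hall hinc := by
    have hinc' : e.1 ∈ rawinc (nodeW a.w) := Finset.mem_subtype.mp hinc
    have hu : e.1 ∈ a.U := hall e hinc
    have hall' : ∀ f ∈ rawinc (nodeW a.w), EdV f → f ∈ a.U := fun f hf hfv =>
      hall ⟨f, hfv⟩ (Finset.mem_subtype.mpr hf)
    refine ⟨?_, ?_, ?_⟩
    · show okS (nxtS a e.1)
      unfold nxtS
      rw [if_pos hu]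
      exact sMove_ok h e.2 hinc' hall'
    · show nodeW (nxtS a e.1).w = _
      unfold nxtS
      rw [if_pos hu]
      exact sMove_node h e.2 hinc' hall'
    · intro f
      show f.1 ∈ (nxtS a e.1).U ↔ f.1 ∈ a.U
      unfold nxtS
      rw [if_pos hu]

end Pool.Agent.H575R3.Net
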