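import Mathlib
import Pool.Agent.H575R3.NetInc

/-!
Further increments of the potential.
-/

open Finset

namespace Pool.Agent.H575R3.Net

noncomputable section

open Classical

variable {b N : ℕ}

theorem inc_inn {cf : ℕ → ℕ → Cf} {U : Finset Ed} {i s j x : ℕ} {e : Ed}
    (h : okS ⟨cf, Wk.inn i s j x, U⟩) (hv : EdV e) (he : e ∉ U)
    (hinc : e ∈ rawinc (Nd.nd i s x)) (hN : i + 1 < N) :
    SS b N (nxtS ⟨cf, Wk.inn i s j x, U⟩ e) - SS b N ⟨cf, Wk.inn i s j x, U⟩ ≤ 0 := by
  have hlt := cnt_lt h hv he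
  rw [h.n _ _ _ hv.1 hv.2.1] at hlt
  have hw := h.w
  simp only [wok] at hw
  obtain ⟨i0, s0, l0, c0⟩ := e
  obtain ⟨hi, hss, hx1, hx2, hl⟩ := nd_mem hv hinc
  simp only at hi hss hl hlt
  subst hi; subst hss
  simp only [profW, and_self, if_true] at hlt
  have hcf : cfok (cf i0 s0) := h.c i0 s0
  obtain ⟨w1, w2, w3, w4, w5, w6, w7⟩ := hw
  unfold nxtS
  rw [if_neg he]
  rcases hl with hl | hl
  · subst hl
    have hHP := HP_mid (b := b) (N := N) (U := U) (e := ⟨i0, s0, l0, c0⟩)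
      (by simp only; omega) (by simp only; omega)
    by_cases hk : l0 + 1 = (cf i0 s0).m
    · have hmv : gMove ⟨cf, Wk.inn i0 s0 j l0, U⟩ ⟨i0, s0, l0, c0⟩ =
          (upd2 cf i0 s0 ⟨(cf i0 s0).k, j, false⟩, Wk.rest i0 s0 (l0 + 1)) := by
        simp [gMove, hk]
      rw [hmv]
      simp only [SS, PT_rest, PT_inn, bse, AA]
      rw [RP_upd cf (by omega) w1, hHP, ← hk]
      have hV := VPb (N := N) (U := U) (v := vvb cf (i0, s0, l0 + 1))
        (v' := vvb (upd2 cf i0 s0 ⟨(cf i0 s0).k, j, false⟩) (i0, s0, l0 + 1)) (i := i0)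
        ⟨i0, s0, l0, c0⟩ (by omega)
        (fun j => vvb_nonneg (by simp only; omega) j) (fun j => vvb_le j) (fun j hj => vvb_same hj)
      rw [vvb_self, vvb_self, upd2_same, if_neg (by omega), if_neg (by simp only; omega),
        if_neg (by omega), if_neg (by omega)] at hV
      have hRR : RR ⟨(cf i0 s0).k, j, false⟩ - RR (cf i0 s0) = 0 := by
        unfold RR
        simp only [w2]
        rw [if_pos (by omega), if_pos w7]
        simp
      rw [hRR]
      linarith
    · have hmv : gMove ⟨cf, Wk.inn i0 s0 j l0, U⟩ ⟨i0, s0, l0, c0⟩ =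
          (cf, Wk.inn i0 s0 j (l0 + 1)) := by
        simp [gMove, hk]
      rw [hmv]
      simp only [SS, PT_inn, bse, AA]
      rw [hHP]
      have hV := VP_ins (N := N) (U := U) ⟨i0, s0, l0, c0⟩ (v := vvb cf (i0, s0, (cf i0 s0).m))
        (fun j => vvb_nonneg (by simp only; omega) j) (fun j => vvb_le j)
      linarith
  · subst hl
    have hHP := HP_le (b := b) (N := N) (by omega : i0 < N) w1 (by omega : l0 ≠ 24) he
    have hkl : (cf i0 s0).k ≤ l0 := by
      by_contra hc
      unfold inp at hlt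
      rw [if_pos (by omega)] at hlt
      omega
    by_cases hx1' : l0 = 0
    · have hmv : gMove ⟨cf, Wk.inn i0 s0 j (l0 + 1), U⟩ ⟨i0, s0, l0, c0⟩ =
          (upd2 cf i0 s0 ⟨0, (cf i0 s0).m, true⟩, Wk.hub i0) := by
        simp [gMove, hx1']
      rw [hmv]
      subst hx1'
      simp only [SS, PT_inn, PT_hub, bse, AA]
      rw [RP_upd cf (by omega) w1]
      have hact := act_zero hv he
      have hV := VPb (N := N) (U := U) (v := vvb cf (i0, s0, (cf i0 s0).m))
        (v' := vvb (upd2 cf i0 s0 ⟨0, (cf i0 s0).m, true⟩) (i0, 0, 0)) (i := i0)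
        ⟨i0, s0, 0, c0⟩ (by omega)
        (fun j => vvb_nonneg (by simp) j) (fun j => vvb_le j) (fun j hj => vvb_same hj)
      rw [hact] at hV
      have hRR : RR ⟨0, (cf i0 s0).m, true⟩ - RR (cf i0 s0) = pos (cf i0 s0).m := by
        unfold RR
        simp only [w2, pos_zero]
        simp
      rw [hRR, pos_zero]
      linarith
    · have hmv : gMove ⟨cf, Wk.inn i0 s0 j (l0 + 1), U⟩ ⟨i0, s0, l0, c0⟩ =
          (cf, Wk.inn i0 s0 l0 l0) := by
        simp [gMove, hx1']
      rw [hmv]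
      simp only [SS, PT_inn, bse, AA]
      have hV := VP_ins (N := N) (U := U) ⟨i0, s0, l0, c0⟩ (v := vvb cf (i0, s0, (cf i0 s0).m))
        (fun j => vvb_nonneg (by simp only; omega) j) (fun j => vvb_le j)
      linarith

theorem inc_out_in {cf : ℕ → ℕ → Cf} {U : Finset Ed} {i s x j : ℕ} {c : Bool}
    (h : okS ⟨cf, Wk.out i s (x + 1) j, U⟩) (hv : EdV ⟨i, s, x, c⟩) (he : (⟨i, s, x, c⟩ : Ed) ∉ U)
    (hN : i + 1 < N) :
    SS b N (nxtS ⟨cf, Wk.out i s (x + 1) j, U⟩ ⟨i, s, x, c⟩) -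
      SS b N ⟨cf, Wk.out i s (x + 1) j, U⟩ ≤ - PT b cf (Wk.out i s (x + 1) j) := by
  have hw := h.w
  simp only [wok] at hw
  have hcf : cfok (cf i s) := h.c i s
  obtain ⟨w1, w2, w3, w4, w5, w6, w7⟩ := hw
  unfold nxtS
  rw [if_neg he]
  have hHP := HP_le (b := b) (N := N) (by omega : i < N) w1 (by omega : x ≠ 24) he
  by_cases hk : x = (cf i s).k
  · have hmv : gMove ⟨cf, Wk.out i s (x + 1) j, U⟩ ⟨i, s, x, c⟩ =
        (upd2 cf i s ⟨j, (cf i s).m, false⟩, hubOr i s x) := by
      simp [gMove, ← hk]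
    rw [hmv]
    simp only [SS, PT_hubOr, AA_hubOr]
    rw [RP_upd cf (by omega) w1]
    have hV := VPb (N := N) (U := U) (v := vvb cf (i, s, x))
      (v' := vvb (upd2 cf i s ⟨j, (cf i s).m, false⟩)
        (bse (upd2 cf i s ⟨j, (cf i s).m, false⟩) (hubOr i s x))) (i := i)
      ⟨i, s, x, c⟩ (by omega)
      (fun j => vv_hubOr_nonneg (by omega) j) (fun j => vvb_le j) (fun j hj => vv_hubOr hj)
    rw [vv_hubOr_self, vvb_self, upd2_same] at hV
    simp only [sub_self, mul_zero, add_zero] at hV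
    have hRR : RR ⟨j, (cf i s).m, false⟩ - RR (cf i s) = 0 := by
      unfold RR
      simp [w2]
    rw [hRR]
    show _ - (Fh b i + sg b i * pos (cf i s).k + RP b N cf + HP b N U +
        VP N U (vvb cf (i, s, (cf i s).k)) + PT b cf (Wk.out i s (x + 1) j)) ≤ _
    rw [← hk]
    linarith
  · have hmv : gMove ⟨cf, Wk.out i s (x + 1) j, U⟩ ⟨i, s, x, c⟩ = (cf, Wk.out i s x j) := by
      simp [gMove, hk]
    rw [hmv]
    simp only [SS, bse, AA]
    have hV := VP_ins (N := N) (U := U) ⟨i, s, x, c⟩ (v := vvb cf (i, s, (cf i s).k))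
      (fun j => vvb_nonneg (by simp only; omega) j) (fun j => vvb_le j)
    have hPT : PT b cf (Wk.out i s x j) = 0 := by
      unfold PT
      simp only
      rw [if_neg]
      omega
    rw [hPT]
    linarith

theorem inc_out_out {cf : ℕ → ℕ → Cf} {U : Finset Ed} {i s x j : ℕ} {c : Bool}
    (h : okS ⟨cf, Wk.out i s x j, U⟩) (hv : EdV ⟨i, s, x, c⟩) (he : (⟨i, s, x, c⟩ : Ed) ∉ U)
    (hN : i + 1 < N) (hb : ∀ j, exh U j → j ≤ b) :
    x = j ∧ x < (cf i s).m ∧
    SS b N (nxtS ⟨cf, Wk.out i s x j, U⟩ ⟨i, s, x, c⟩) - SS b N ⟨cf, Wk.out i s x j, U⟩ ≤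
      (if x = 24 then (if (cf i s).k = 0 then 450 * sg b i else 0)
        else PT b cf (Wk.out i s (x + 1) (x + 1))) - PT b cf (Wk.out i s x j) := by
  have hlt := cnt_lt h hv he
  rw [h.n _ _ _ hv.1 hv.2.1] at hlt
  simp only [profW, and_self, if_true] at hlt
  have hw := h.w
  simp only [wok] at hw
  have hcf : cfok (cf i s) := h.c i s
  obtain ⟨w1, w2, w3, w4, w5, w6, w7⟩ := hw
  have hxj : x = j := by
    by_contra hc
    unfold outp cap at hlt
    rw [if_neg (by omega), if_neg (by omega), if_pos (by omega)] at hlt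
    split_ifs at hlt <;> omega
  subst hxj
  have hxm : x < (cf i s).m := by
    by_contra hc
    unfold outp at hlt
    rw [if_neg (by omega), if_neg (by omega), if_neg (by omega), if_neg hc] at hlt
    omega
  refine ⟨rfl, hxm, ?_⟩
  have hsg := sg_pos b i
  unfold nxtS
  rw [if_neg he]
  by_cases hx24 : x = 24
  · rw [if_pos hx24]
    have hm25 : (cf i s).m = 25 := by have := hcf.2.2.1; omega
    have hc0 : c = false := hv.2.2 hx24
    subst hx24
    subst hc0
    have hmv : gMove ⟨cf, Wk.out i s 24 24, U⟩ ⟨i, s, 24, false⟩ =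
        (upd2 cf i s ⟨(cf i s).k, 24, true⟩, Wk.hub (i + 1)) := by
      simp [gMove]
    rw [hmv]
    have hHP := HP_top_le (b := b) hN w1 he
    simp only [SS, PT_hub, bse, AA]
    rw [RP_upd cf (by omega) w1]
    have hV := VPb (N := N) (U := U) (v := vvb cf (i, s, (cf i s).k))
      (v' := vvb (upd2 cf i s ⟨(cf i s).k, 24, true⟩) (i + 1, 0, 0)) (i := i)
      ⟨i, s, 24, false⟩ (by omega)
      (fun j => vvb_nonneg (by simp) j) (fun j => vvb_le j) (fun j hj => vvb_up hj)
    rw [vvb_up_self, vvb_self] at hV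
    have hRR : RR ⟨(cf i s).k, 24, true⟩ - RR (cf i s) = 1 + (223 - pos (cf i s).k) := by
      unfold RR
      simp [w2, hm25, pos_24]
    rw [hRR, pos_zero, Fh_succ]
    have hep2 := eps_le
    have h7 : eps * sg b i ≤ 1 / 40 * sg b i := mul_le_mul_of_nonneg_right hep2 hsg.le
    by_cases hk0 : (cf i s).k = 0
    · rw [if_pos hk0]
      rw [hk0, pos_zero]
      rw [hk0] at hV
      -- level 0 has an unused edge
      have hact : act U i = 0 := by
        have h0 := h.n i s 0 w1 (by omega)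
        simp only [profW, and_self, if_true] at h0
        unfold outp at h0
        rw [if_neg (by omega), if_pos (by omega)] at h0
        unfold act
        rw [if_neg]
        rintro ⟨h1, _⟩
        unfold cnt at h0
        have e1 : (⟨i, s, 0, false⟩ : Ed) ∈ U := h1 _ (mem_hub0 ⟨w1, by simp only; omega, fun _ => rfl⟩)
        have e2 : (⟨i, s, 0, true⟩ : Ed) ∈ U := h1 _ (mem_hub0 ⟨w1, by simp only; omega,
          fun hh => by simp only at hh; omega⟩)
        rw [if_pos e1, if_pos e2] at h0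
        omega
      rw [hact] at hV
      nlinarith
    · rw [if_neg hk0]
      have hex := w7 hm25 (by omega)
      have hact : act U i = 1 := by
        unfold act
        rw [if_pos]
        exact ⟨hex, fun hc => he (hc _ (mem_hub24 hv))⟩
      have hst := sg_eq_ta (hb i hex)
      rw [if_neg hk0, if_pos hm25, hact, ← hst] at hV
      have hPT := PT_nonneg b cf (Wk.out i s 24 24)
      have hPT0 : PT b cf (Wk.out i s 24 24) = 0 := by
        unfold PT
        simp only
        rw [if_neg]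
        omega
      rw [hPT0]
      have hpk : 200 ≤ pos (cf i s).k := by
        have := pos_mono (x := 1) (y := (cf i s).k) (by omega) (by omega)
        rw [pos_one] at this
        exact this
      have h8 := mul_le_mul_of_nonneg_left hpk hsg.le
      nlinarith
  · rw [if_neg hx24]
    have hmv : gMove ⟨cf, Wk.out i s x x, U⟩ ⟨i, s, x, c⟩ =
        (cf, Wk.out i s (x + 1) (x + 1)) := by
      simp [gMove, hx24]
    rw [hmv]
    have hHP := HP_mid (b := b) (N := N) (U := U) (e := ⟨i, s, x, c⟩)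
      (by simp only; omega) (by simp only; omega)
    simp only [SS, bse, AA]
    rw [hHP]
    have hV := VP_ins (N := N) (U := U) ⟨i, s, x, c⟩ (v := vvb cf (i, s, (cf i s).k))
      (fun j => vvb_nonneg (by simp only; omega) j) (fun j => vvb_le j)
    linarith

/-- increments at random steps inside a strand -/
theorem inc_srw_rest {cf : ℕ → ℕ → Cf} {U : Finset Ed} {i s x : ℕ}
    (h : okS ⟨cf, Wk.rest i s x, U⟩) (hall : ∀ f ∈ rawinc (Nd.nd i s x), EdV f → f ∈ U)
    (hN : i + 1 < N) :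
    ∃ κ : ℝ, (∀ e, EdV e → e ∈ rawinc (Nd.nd i s x) → e.l + 1 = x →
        SS b N (nxtS ⟨cf, Wk.rest i s x, U⟩ e) - SS b N ⟨cf, Wk.rest i s x, U⟩ =
          -(κ * (pos x - pos (x - 1)))) ∧
      (∀ e, EdV e → e ∈ rawinc (Nd.nd i s x) → e.l = x →
        SS b N (nxtS ⟨cf, Wk.rest i s x, U⟩ e) - SS b N ⟨cf, Wk.rest i s x, U⟩ =
          κ * (pos (x + 1) - pos x)) := by
  have hw := h.w
  simp only [wok] at hw
  have hcf : cfok (cf i s) := h.c i s
  obtain ⟨w1, w2, w3, w4, w5⟩ := hw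
  have f1 := cnt_full h (i := i) (s := s) (l := x) w1 (by omega) (fun b hb =>
    hall _ (mem_nd hb (by omega) (by omega) (by omega)) hb)
  simp only [profW] at f1
  have g1 := sp_full hcf (by omega) f1
  by_cases hm : (cf i s).m = 25
  · -- open strand
    have hxk : x < (cf i s).k := by omega
    refine ⟨sg b i, ?_, ?_⟩
    · intro e hv hinc hl
      have hu := hall e hinc hv
      obtain ⟨i0, s0, l0, c0⟩ := e
      obtain ⟨hi, hss, -, -, -⟩ := nd_mem hv hinc
      simp only at hi hss hl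
      subst hi; subst hss; subst hl
      have hmv : nxtS ⟨cf, Wk.rest i0 s0 (l0 + 1), U⟩ ⟨i0, s0, l0, c0⟩ = ⟨cf, hubOr i0 s0 l0, U⟩ := by
        unfold nxtS
        rw [if_pos hu]
        simp [sMove]
      rw [hmv]
      simp only [SS, PT_hubOr, PT_rest, AA_hubOr]
      have hV := VP_diff (N := N) (U := U) (v := vvb cf (i0, s0, l0 + 1))
        (v' := vvb cf (bse cf (hubOr i0 s0 l0))) (i := i0) (by omega) (fun j hj => vv_hubOr hj)
      rw [vv_hubOr_self, vvb_self, if_neg (by omega : ¬ l0 + 1 = 0), if_pos hm, if_pos hm] at hV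
      have hv2 : (if l0 = 0 then (1 : ℝ) else 1) = 1 := by split_ifs <;> rfl
      rw [hv2] at hV
      show Fh b i0 + sg b i0 * pos l0 + RP b N cf + HP b N U +
        VP N U (vvb cf (bse cf (hubOr i0 s0 l0))) + 0 - (Fh b i0 + sg b i0 * pos (l0 + 1) +
        RP b N cf + HP b N U + VP N U (vvb cf (i0, s0, l0 + 1)) + 0) = _
      rw [hV]
      simp only [Nat.add_sub_cancel]
      ring
    · intro e hv hinc hl
      have hu := hall e hinc hv
      obtain ⟨i0, s0, l0, c0⟩ := e
      obtain ⟨hi, hss, -, -, -⟩ := nd_mem hv hinc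
      simp only at hi hss hl
      subst hi; subst hss; subst hl
      have hmv : nxtS ⟨cf, Wk.rest i0 s0 l0, U⟩ ⟨i0, s0, l0, c0⟩ =
          ⟨cf, Wk.rest i0 s0 (l0 + 1), U⟩ := by
        unfold nxtS
        rw [if_pos hu]
        have hk24 := hcf.2.1
        have : ¬ l0 = 24 := by omega
        simp [sMove, this]
      rw [hmv]
      simp only [SS, PT_rest, bse, AA]
      have hV := VP_diff (N := N) (U := U) (v := vvb cf (i0, s0, l0))
        (v' := vvb cf (i0, s0, l0 + 1)) (i := i0) (by omega) (fun j hj => vvb_same hj)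
      rw [vvb_self, vvb_self, if_neg (by omega : ¬ l0 + 1 = 0), if_neg (by omega : ¬ l0 = 0),
        if_pos hm, if_pos hm] at hV
      rw [hV]
      ring
  · -- closed strand
    refine ⟨sg b i - 50 * ta i * act U i / 225, ?_, ?_⟩
    · intro e hv hinc hl
      have hu := hall e hinc hv
      obtain ⟨i0, s0, l0, c0⟩ := e
      obtain ⟨hi, hss, -, -, -⟩ := nd_mem hv hinc
      simp only at hi hss hl
      subst hi; subst hss; subst hl
      have hmv : nxtS ⟨cf, Wk.rest i0 s0 (l0 + 1), U⟩ ⟨i0, s0, l0, c0⟩ = ⟨cf, hubOr i0 s0 l0, U⟩ := by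
        unfold nxtS
        rw [if_pos hu]
        simp [sMove]
      rw [hmv]
      simp only [SS, PT_hubOr, PT_rest, AA_hubOr]
      have hV := VP_diff (N := N) (U := U) (v := vvb cf (i0, s0, l0 + 1))
        (v' := vvb cf (bse cf (hubOr i0 s0 l0))) (i := i0) (by omega) (fun j hj => vv_hubOr hj)
      rw [vv_hubOr_self, vvb_self, if_neg (by omega : ¬ l0 + 1 = 0), if_neg hm, if_neg hm] at hV
      have hv2 : (if l0 = 0 then (1 : ℝ) else 1 - pos l0 / 225) = 1 - pos l0 / 225 := by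
        split_ifs with g
        · rw [g, pos_zero]; norm_num
        · rfl
      rw [hv2] at hV
      show Fh b i0 + sg b i0 * pos l0 + RP b N cf + HP b N U +
        VP N U (vvb cf (bse cf (hubOr i0 s0 l0))) + 0 - (Fh b i0 + sg b i0 * pos (l0 + 1) +
        RP b N cf + HP b N U + VP N U (vvb cf (i0, s0, l0 + 1)) + 0) = _
      rw [hV]
      simp only [Nat.add_sub_cancel]
      ring
    · intro e hv hinc hl
      have hu := hall e hinc hv
      obtain ⟨i0, s0, l0, c0⟩ := e
      obtain ⟨hi, hss, -, -, -⟩ := nd_mem hv hinc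
      simp only at hi hss hl
      subst hi; subst hss; subst hl
      by_cases hx24 : l0 = 24
      · have hmv : nxtS ⟨cf, Wk.rest i0 s0 l0, U⟩ ⟨i0, s0, l0, c0⟩ = ⟨cf, Wk.hub (i0 + 1), U⟩ := by
          unfold nxtS
          rw [if_pos hu]
          simp [sMove, hx24]
        rw [hmv]
        subst hx24
        simp only [SS, PT_rest, PT_hub, bse, AA]
        have hV := VP_diff (N := N) (U := U) (v := vvb cf (i0, s0, 24))
          (v' := vvb cf (i0 + 1, 0, 0)) (i := i0) (by omega) (fun j hj => vvb_up hj)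
        rw [vvb_up_self, vvb_self, if_neg (by omega : ¬ 24 = 0), if_neg hm, pos_24] at hV
        have : pos (24 + 1) = 225 := pos_top
        rw [hV, pos_zero, Fh_succ, this, pos_24]
        ring
      · have hmv : nxtS ⟨cf, Wk.rest i0 s0 l0, U⟩ ⟨i0, s0, l0, c0⟩ =
            ⟨cf, Wk.rest i0 s0 (l0 + 1), U⟩ := by
          unfold nxtS
          rw [if_pos hu]
          simp [sMove, hx24]
        rw [hmv]
        simp only [SS, PT_rest, bse, AA]
        have hV := VP_diff (N := N) (U := U) (v := vvb cf (i0, s0, l0))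
          (v' := vvb cf (i0, s0, l0 + 1)) (i := i0) (by omega) (fun j hj => vvb_same hj)
        rw [vvb_self, vvb_self, if_neg (by omega : ¬ l0 + 1 = 0), if_neg (by omega : ¬ l0 = 0),
          if_neg hm, if_neg hm] at hV
        rw [hV]
        ring

/-- increments at random steps from a hub -/
theorem inc_srw_hub_out {cf : ℕ → ℕ → Cf} {U : Finset Ed} {i s : ℕ} {c : Bool}
    (hu : (⟨i, s, 0, c⟩ : Ed) ∈ U) (hN : i + 1 < N) :
    SS b N (nxtS ⟨cf, Wk.hub i, U⟩ ⟨i, s, 0, c⟩) - SS b N ⟨cf, Wk.hub i, U⟩ ≤ 200 * sg b i := by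
  have hmv : nxtS ⟨cf, Wk.hub i, U⟩ ⟨i, s, 0, c⟩ = ⟨cf, Wk.rest i s 1, U⟩ := by
    unfold nxtS
    rw [if_pos hu]
    simp [sMove]
  rw [hmv]
  simp only [SS, PT_rest, PT_hub, bse, AA]
  have hV := VP_diff (N := N) (U := U) (v := vvb cf (i, 0, 0))
    (v' := vvb cf (i, s, 1)) (i := i) (by omega) (fun j hj => vvb_same hj)
  have h1 : vvb cf (i, 0, 0) i = 1 := by rw [vvb_self, if_pos rfl]
  have h2 : vvb cf (i, s, 1) i ≤ 1 := vvb_le i
  rw [h1] at hV
  have ht := ta_pos i
  have ha := act_nonneg U i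
  have h3 : 50 * ta i * act U i * (vvb cf (i, s, 1) i - 1) ≤ 0 :=
    mul_nonpos_of_nonneg_of_nonpos (by positivity) (by linarith)
  rw [pos_one, pos_zero]
  linarith

theorem inc_srw_hub_in {cf : ℕ → ℕ → Cf} {U : Finset Ed} {i s : ℕ} {c : Bool}
    (hu : (⟨i, s, 24, c⟩ : Ed) ∈ U) (hex : exh U (i + 1)) (hN : i < N) :
    SS b N (nxtS ⟨cf, Wk.hub (i + 1), U⟩ ⟨i, s, 24, c⟩) - SS b N ⟨cf, Wk.hub (i + 1), U⟩ =
      -2 * sg b i := by
  have hmv : nxtS ⟨cf, Wk.hub (i + 1), U⟩ ⟨i, s, 24, c⟩ = ⟨cf, Wk.rest i s 24, U⟩ := by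
    unfold nxtS
    rw [if_pos hu]
    simp [sMove]
  rw [hmv]
  simp only [SS, PT_rest, PT_hub, bse, AA]
  have hV := VP_diff (N := N) (U := U) (v := vvb cf (i + 1, 0, 0))
    (v' := vvb cf (i, s, 24)) (i := i) (by omega) (fun j hj => (vvb_up hj).symm)
  have ha : act U i = 0 := by
    unfold act
    rw [if_neg]
    rintro ⟨_, h2⟩
    exact h2 hex
  rw [hV, ha, pos_24, pos_zero, Fh_succ]
  ring

end

end Pool.Agent.H575R3.Net
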