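import Mathlib
import Pool.Agent.H575R3.NetInc2

/-!
The local supermartingale inequalities.
-/

open Finset

namespace Pool.Agent.H575R3.Net

noncomputable section

open Classical

def blk : Wk → ℕ
  | Wk.hub i => i
  | Wk.rest i _ _ => i
  | Wk.out i _ _ _ => i
  | Wk.inn i _ _ _ => i

lemma sum_inc (n : Nd) (g : Ed → ℝ) :
    ∑ e ∈ (rawinc n).subtype EdV, g e.1 = ∑ e ∈ (rawinc n).filter EdV, g e :=
  Finset.sum_subtype_eq_sum_filter g

lemma sum_nd {i s x : ℕ} (hs : s < 2 ^ (i + 1)) (h1 : 1 ≤ x) (h2 : x ≤ 24) (G : Ed → ℝ) :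
    ∑ e ∈ (rawinc (Nd.nd i s x)).filter EdV, G e =
      G ⟨i, s, x - 1, false⟩ + G ⟨i, s, x - 1, true⟩ + G ⟨i, s, x, false⟩ +
        (if x < 24 then G ⟨i, s, x, true⟩ else 0) := by
  have v1 : EdV ⟨i, s, x - 1, false⟩ := ⟨hs, by simp only; omega, fun _ => rfl⟩
  have v2 : EdV ⟨i, s, x - 1, true⟩ := ⟨hs, by simp only; omega, fun h => by simp only at h; omega⟩
  have v3 : EdV ⟨i, s, x, false⟩ := ⟨hs, by simp only; omega, fun _ => rfl⟩
  rw [Finset.sum_filter]
  simp only [rawinc, h1, h2, and_self, if_true]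
  rw [Finset.sum_insert, Finset.sum_insert, Finset.sum_insert, Finset.sum_singleton,
    if_pos v1, if_pos v2, if_pos v3]
  · by_cases hx : x < 24
    · have v4 : EdV ⟨i, s, x, true⟩ := ⟨hs, by simp only; omega, fun h => by simp only at h; omega⟩
      rw [if_pos v4, if_pos hx]
      ring
    · have v4 : ¬ EdV ⟨i, s, x, true⟩ := by
        rintro ⟨_, _, h5⟩
        have := h5 (by simp only; omega)
        cases this
      rw [if_neg v4, if_neg hx]
      ring
  · simp
  · simp only [Finset.mem_insert, Finset.mem_singleton, Ed.mk.injEq]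
    omega
  · simp only [Finset.mem_insert, Finset.mem_singleton, Ed.mk.injEq]
    simp
    omega

lemma EdV_of_hub {i : ℕ} {f : Ed} (hf : f ∈ rawinc (Nd.hub i)) : EdV f := by
  simp only [rawinc, Finset.mem_union, Finset.mem_image, Finset.mem_product,
    Finset.mem_range, Finset.mem_univ, and_true, Prod.exists] at hf
  rcases hf with ⟨s', b', h4, rfl⟩ | hf
  · exact ⟨h4, by simp only; omega, fun hc => by simp only at hc; omega⟩
  · split_ifs at hf with h0
    · simp at hf
    · simp only [Finset.mem_image, Finset.mem_range] at hf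
      obtain ⟨s', h5, rfl⟩ := hf
      refine ⟨?_, le_rfl, fun _ => rfl⟩
      simp only
      rwa [Nat.sub_add_cancel (by omega)]

lemma sum_hub {i : ℕ} (G : Ed → ℝ) :
    ∑ e ∈ (rawinc (Nd.hub i)).filter EdV, G e =
      ∑ p ∈ (range (2 ^ (i + 1))) ×ˢ (univ : Finset Bool), G ⟨i, p.1, 0, p.2⟩ +
        (if i = 0 then 0 else ∑ s ∈ range (2 ^ i), G ⟨i - 1, s, 24, false⟩) := by
  have hall : (rawinc (Nd.hub i)).filter EdV = rawinc (Nd.hub i) := by
    apply Finset.filter_true_of_mem
    intro f hf
    simp only [rawinc, Finset.mem_union, Finset.mem_image, Finset.mem_product,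
      Finset.mem_range, Finset.mem_univ, and_true, Prod.exists] at hf
    rcases hf with ⟨s', b', h4, rfl⟩ | hf
    · exact ⟨h4, by simp only; omega, fun hc => by simp only at hc; omega⟩
    · split_ifs at hf with h0
      · simp at hf
      · simp only [Finset.mem_image, Finset.mem_range] at hf
        obtain ⟨s', h5, rfl⟩ := hf
        refine ⟨?_, le_rfl, fun _ => rfl⟩
        simp only
        rwa [Nat.sub_add_cancel (by omega)]
  rw [hall]
  simp only [rawinc]
  rw [Finset.sum_union]
  · congr 1
    · rw [Finset.sum_image]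
      intro p _ q _ h
      simp only [Ed.mk.injEq, true_and] at h
      exact Prod.ext h.1 h.2
    · by_cases h0 : i = 0
      · rw [if_pos h0, if_pos h0]; simp
      · rw [if_neg h0, if_neg h0, Finset.sum_image]
        intro p _ q _ h
        simp only [Ed.mk.injEq, true_and, and_true] at h
        exact h
  · rw [Finset.disjoint_left]
    intro e h1 h2
    simp only [Finset.mem_image] at h1
    obtain ⟨p, _, rfl⟩ := h1
    split_ifs at h2 with h0
    · simp at h2
    · simp only [Finset.mem_image, Ed.mk.injEq] at h2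
      obtain ⟨s', _, h5⟩ := h2
      omega

lemma sum_ite_card {α : Type*} (S : Finset α) (Pp : α → Prop) (B : ℝ) :
    ∑ p ∈ S, (if Pp p then B else 0) = ((S.filter Pp).card : ℝ) * B := by
  rw [← Finset.sum_filter, Finset.sum_const, nsmul_eq_mul]

variable {b N : ℕ}

theorem loc_g {a : St} (h : okS a) (hN : blk a.w + 1 < N) (hb : ∀ j, exh a.U j → j ≤ b) :
    ∑ e ∈ (rawinc (nodeW a.w)).filter EdV,
      (if e ∉ a.U then SS b N (nxtS a e) - SS b N a else 0) ≤ 0 := by
  obtain ⟨cf, w, U⟩ := a
  have hw := h.w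
  cases w with
  | hub i =>
    simp only [blk] at hN
    show ∑ e ∈ (rawinc (Nd.hub i)).filter EdV, _ ≤ 0
    rw [sum_hub]
    have hsg := sg_pos b i
    have hep := eps_pos
    have hep2 := eps_le
    have ho : ∑ p ∈ (range (2 ^ (i + 1))) ×ˢ (univ : Finset Bool),
        (if (⟨i, p.1, 0, p.2⟩ : Ed) ∉ U then SS b N (nxtS ⟨cf, Wk.hub i, U⟩ ⟨i, p.1, 0, p.2⟩) -
          SS b N ⟨cf, Wk.hub i, U⟩ else 0) ≤ (wN U i : ℝ) * (eps * sg b i * (1 - qq U i)) := by
      have h1 : ∀ p ∈ (range (2 ^ (i + 1))) ×ˢ (univ : Finset Bool),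
          (if (⟨i, p.1, 0, p.2⟩ : Ed) ∉ U then SS b N (nxtS ⟨cf, Wk.hub i, U⟩ ⟨i, p.1, 0, p.2⟩) -
            SS b N ⟨cf, Wk.hub i, U⟩ else 0) ≤
          (if (⟨i, p.1, 0, p.2⟩ : Ed) ∉ U then eps * sg b i * (1 - qq U i) else 0) := by
        intro p hp
        rw [Finset.mem_product, Finset.mem_range] at hp
        by_cases hu : (⟨i, p.1, 0, p.2⟩ : Ed) ∉ U
        · rw [if_pos hu, if_pos hu]
          exact inc_hub_out h ⟨hp.1, by simp only; omega, fun hh => by simp only at hh; omega⟩ hu hN
        · rw [if_neg hu, if_neg hu]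
      refine (Finset.sum_le_sum h1).trans ?_
      rw [← Finset.sum_filter, Finset.sum_const, nsmul_eq_mul]
      apply le_of_eq
      unfold wN
      congr!
    cases i with
    | zero =>
      rw [if_pos rfl, add_zero]
      refine ho.trans ?_
      simp [qq]
    | succ i =>
      rw [if_neg (by omega)]
      have hi : ∑ s ∈ range (2 ^ (i + 1)),
          (if (⟨i, s, 24, false⟩ : Ed) ∉ U then SS b N (nxtS ⟨cf, Wk.hub (i + 1), U⟩ ⟨i, s, 24, false⟩) -
            SS b N ⟨cf, Wk.hub (i + 1), U⟩ else 0) ≤ (uN U i : ℝ) *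
            (-(5 / 9) * sg b i + eps * sg b (i + 1) * (wN U (i + 1) : ℝ) / 2 ^ (i + 1)) := by
        have h1 : ∀ s ∈ range (2 ^ (i + 1)),
            (if (⟨i, s, 24, false⟩ : Ed) ∉ U then SS b N (nxtS ⟨cf, Wk.hub (i + 1), U⟩
              ⟨i, s, 24, false⟩) - SS b N ⟨cf, Wk.hub (i + 1), U⟩ else 0) ≤
            (if (⟨i, s, 24, false⟩ : Ed) ∉ U then
              (-(5 / 9) * sg b i + eps * sg b (i + 1) * (wN U (i + 1) : ℝ) / 2 ^ (i + 1)) else 0) := by
          intro s hs
          rw [Finset.mem_range] at hs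
          by_cases hu : (⟨i, s, 24, false⟩ : Ed) ∉ U
          · rw [if_pos hu, if_pos hu]
            exact inc_hub_in h ⟨hs, le_rfl, fun _ => rfl⟩ hu (by omega)
          · rw [if_neg hu, if_neg hu]
        refine (Finset.sum_le_sum h1).trans ?_
        rw [← Finset.sum_filter, Finset.sum_const, nsmul_eq_mul]
        apply le_of_eq
        unfold uN
        congr!
      simp only [Nat.add_sub_cancel]
      refine (add_le_add ho hi).trans ?_
      have hq : 1 - qq U (i + 1) = (uN U i : ℝ) / 2 ^ (i + 1) := by simp only [qq]; ring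
      rw [hq]
      have hwle := wN_le U (i + 1)
      have h2 : (0 : ℝ) < 2 ^ (i + 1) := by positivity
      have hr : (wN U (i + 1) : ℝ) / 2 ^ (i + 1) ≤ 4 := by
        rw [div_le_iff₀ h2]
        rw [pow_succ] at hwle
        linarith
      have hsa := sg_anti b i
      have hsg1 := sg_pos b i
      have e1 : (wN U (i + 1) : ℝ) * (eps * sg b (i + 1) * ((uN U i : ℝ) / 2 ^ (i + 1))) +
          (uN U i : ℝ) * (-(5 / 9) * sg b i + eps * sg b (i + 1) * (wN U (i + 1) : ℝ) / 2 ^ (i + 1)) =
          (uN U i : ℝ) * (2 * (eps * sg b (i + 1) * ((wN U (i + 1) : ℝ) / 2 ^ (i + 1))) -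
            (5 / 9) * sg b i) := by ring
      rw [e1]
      apply mul_nonpos_of_nonneg_of_nonpos (by positivity)
      have e2 : eps * sg b (i + 1) * ((wN U (i + 1) : ℝ) / 2 ^ (i + 1)) ≤ (1 / 40 * sg b i) * 4 := by
        apply mul_le_mul _ hr (by positivity) (by positivity)
        exact mul_le_mul hep2 hsa hsg.le (by norm_num)
      linarith
  | rest i s x =>
    simp only [blk] at hN
    apply Finset.sum_nonpos
    intro e he
    rw [Finset.mem_filter] at he
    by_cases hu : e ∉ U
    · rw [if_pos hu]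
      exact inc_rest h he.2 hu he.1 hN hb
    · rw [if_neg hu]
  | inn i s j x =>
    simp only [blk] at hN
    apply Finset.sum_nonpos
    intro e he
    rw [Finset.mem_filter] at he
    by_cases hu : e ∉ U
    · rw [if_pos hu]
      exact inc_inn h he.2 hu he.1 hN
    · rw [if_neg hu]
  | out i s x j =>
    simp only [blk] at hN
    simp only [wok] at hw
    obtain ⟨w1, w2, w3, w4, w5, w6, w7⟩ := hw
    have hsg := sg_pos b i
    obtain ⟨y, rfl⟩ : ∃ y, x = y + 1 := ⟨x - 1, by omega⟩
    show ∑ e ∈ (rawinc (Nd.nd i s (y + 1))).filter EdV, _ ≤ 0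
    rw [sum_nd w1 (by omega) (by omega)]
    simp only [Nat.add_sub_cancel]
    -- counts
    have c1 := h.n i s y w1 (by omega)
    simp only [profW, and_self, if_true] at c1
    have c1' : outp (cf i s) (y + 1) j y = 1 := by
      unfold outp
      rw [if_neg (by omega), if_pos (by omega)]
    rw [c1'] at c1
    have vf : EdV ⟨i, s, y, false⟩ := ⟨w1, by simp only; omega, fun _ => rfl⟩
    have vt : EdV ⟨i, s, y, true⟩ := ⟨w1, by simp only; omega, fun hh => by simp only at hh; omega⟩
    have hPT := PT_nonneg b cf (Wk.out i s (y + 1) j)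
    set PTa := PT b cf (Wk.out i s (y + 1) j) with hPTa
    -- inward part
    have hin : (if (⟨i, s, y, false⟩ : Ed) ∉ U then SS b N (nxtS ⟨cf, Wk.out i s (y + 1) j, U⟩
          ⟨i, s, y, false⟩) - SS b N ⟨cf, Wk.out i s (y + 1) j, U⟩ else 0) +
        (if (⟨i, s, y, true⟩ : Ed) ∉ U then SS b N (nxtS ⟨cf, Wk.out i s (y + 1) j, U⟩
          ⟨i, s, y, true⟩) - SS b N ⟨cf, Wk.out i s (y + 1) j, U⟩ else 0) ≤ - PTa := by
      unfold cnt at c1
      by_cases u1 : (⟨i, s, y, false⟩ : Ed) ∈ U
      · have u2 : (⟨i, s, y, true⟩ : Ed) ∉ U := by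
          intro hc
          rw [if_pos u1, if_pos hc] at c1
          omega
        rw [if_neg (not_not.mpr u1), if_pos u2, zero_add]
        exact inc_out_in h vt u2 hN
      · have u2 : (⟨i, s, y, true⟩ : Ed) ∈ U := by
          by_contra hc
          rw [if_neg u1, if_neg hc] at c1
          omega
        rw [if_pos u1, if_neg (not_not.mpr u2), add_zero]
        exact inc_out_in h vf u1 hN
    -- outward part
    have vof : EdV ⟨i, s, y + 1, false⟩ := ⟨w1, by simp only; omega, fun _ => rfl⟩
    by_cases h24 : y + 1 = 24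
    · rw [if_neg (show ¬ (y + 1 < 24) by omega), add_zero]
      by_cases hu : (⟨i, s, y + 1, false⟩ : Ed) ∈ U
      · have : (if (⟨i, s, y + 1, false⟩ : Ed) ∉ U then SS b N (nxtS ⟨cf, Wk.out i s (y + 1) j, U⟩
          ⟨i, s, y + 1, false⟩) - SS b N ⟨cf, Wk.out i s (y + 1) j, U⟩ else 0) = 0 := by
          rw [if_neg (not_not.mpr hu)]
        rw [this]
        linarith
      · rw [if_pos (show (⟨i, s, y + 1, false⟩ : Ed) ∉ U from hu)]
        obtain ⟨g1, g2, g3⟩ := inc_out_out h vof hu hN hb
        rw [if_pos h24] at g3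
        have hm25 : (cf i s).m = 25 := by have := (h.c i s).2.2.1; simp only at this; omega
        by_cases hk0 : (cf i s).k = 0
        · rw [if_pos hk0] at g3
          have hval : PTa = 225 * sg b i := by
            rw [hPTa]
            unfold PT
            simp only
            rw [if_pos ⟨hk0, hm25, g1⟩, h24]
            norm_num
            ring
          rw [← hPTa] at g3
          linarith
        · rw [if_neg hk0, ← hPTa] at g3
          linarith
    · rw [if_pos (show y + 1 < 24 by omega)]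
      have vot : EdV ⟨i, s, y + 1, true⟩ := ⟨w1, by simp only; omega,
        fun hh => by simp only at hh; omega⟩
      by_cases hcase : y + 1 = j ∧ y + 1 < (cf i s).m
      · -- fresh zone ahead
        set PTb := PT b cf (Wk.out i s (y + 1 + 1) (y + 1 + 1)) with hPTb
        have hfor : ∀ c : Bool, (if (⟨i, s, y + 1, c⟩ : Ed) ∉ U then
            SS b N (nxtS ⟨cf, Wk.out i s (y + 1) j, U⟩ ⟨i, s, y + 1, c⟩) -
            SS b N ⟨cf, Wk.out i s (y + 1) j, U⟩ else 0) ≤ PTb - PTa := by
          intro c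
          have c2 := h.n i s (y + 1) w1 (by omega)
          simp only [profW, and_self, if_true] at c2
          have c2' : outp (cf i s) (y + 1) j (y + 1) = 0 := by
            unfold outp
            rw [if_neg (by omega), if_neg (by omega), if_neg (by omega), if_pos (by omega)]
          rw [c2'] at c2
          unfold cnt at c2
          have hu : (⟨i, s, y + 1, c⟩ : Ed) ∉ U := by
            intro hc
            cases c
            · rw [if_pos hc] at c2; omega
            · rw [if_pos hc] at c2; omega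
          rw [if_pos hu]
          have vv : EdV ⟨i, s, y + 1, c⟩ := by cases c; exact vof; exact vot
          obtain ⟨g1, g2, g3⟩ := inc_out_out h vv hu hN hb
          rw [if_neg h24] at g3
          exact g3
        have hf1 := hfor false
        have hf2 := hfor true
        have hrel : 2 * PTb ≤ 3 * PTa := by
          rw [hPTa, hPTb]
          unfold PT
          simp only
          by_cases hk : (cf i s).k = 0 ∧ (cf i s).m = 25
          · rw [if_pos ⟨hk.1, hk.2, trivial⟩, if_pos ⟨hk.1, hk.2, hcase.1⟩]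
            have : 24 - (y + 1) = (24 - (y + 1 + 1)) + 1 := by omega
            rw [this, pow_succ]
            apply le_of_eq
            ring
          · rw [if_neg (fun hh => hk ⟨hh.1, hh.2.1⟩), if_neg (fun hh => hk ⟨hh.1, hh.2.1⟩)]
            norm_num
        linarith
      · have hfor : ∀ c : Bool, (if (⟨i, s, y + 1, c⟩ : Ed) ∉ U then
            SS b N (nxtS ⟨cf, Wk.out i s (y + 1) j, U⟩ ⟨i, s, y + 1, c⟩) -
            SS b N ⟨cf, Wk.out i s (y + 1) j, U⟩ else 0) = 0 := by
          intro c
          rw [if_neg]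
          intro hu
          have vv : EdV ⟨i, s, y + 1, c⟩ := by cases c; exact vof; exact vot
          obtain ⟨g1, g2, g3⟩ := inc_out_out h vv hu hN hb
          exact hcase ⟨g1, g2⟩
        rw [hfor false, hfor true]
        linarith

/-- the conductances -/
def cond (e : Ed) : ℝ := 1 / (((if e.l = 0 then 400 else 2 : ℕ)) : ℝ)

theorem loc_s {a : St} (h : okS a) (hN : blk a.w + 1 < N) (hb : ∀ j, exh a.U j → j ≤ b)
    (hall : ∀ f ∈ rawinc (nodeW a.w), EdV f → f ∈ a.U) (hroot : nodeW a.w ≠ Nd.hub 0) :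
    ∑ e ∈ (rawinc (nodeW a.w)).filter EdV, cond e * (SS b N (nxtS a e) - SS b N a) ≤ 0 := by
  obtain ⟨cf, w, U⟩ := a
  have hw := h.w
  cases w with
  | hub i =>
    simp only [blk] at hN
    cases i with
    | zero => exact absurd rfl hroot
    | succ i =>
      have hex : exh U (i + 1) := by
        intro f hf
        have hfv : EdV f := EdV_of_hub hf
        exact hall f hf hfv
      have hib := hb _ hex
      show ∑ e ∈ (rawinc (Nd.hub (i + 1))).filter EdV, _ ≤ 0
      rw [sum_hub, if_neg (by omega)]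
      simp only [Nat.add_sub_cancel]
      have h1 : ∑ p ∈ (range (2 ^ (i + 1 + 1))) ×ˢ (univ : Finset Bool),
          cond ⟨i + 1, p.1, 0, p.2⟩ * (SS b N (nxtS ⟨cf, Wk.hub (i + 1), U⟩ ⟨i + 1, p.1, 0, p.2⟩) -
            SS b N ⟨cf, Wk.hub (i + 1), U⟩) ≤ 2 ^ (i + 1) * (2 * sg b (i + 1)) := by
        have h2 : ∀ p ∈ (range (2 ^ (i + 1 + 1))) ×ˢ (univ : Finset Bool),
            cond ⟨i + 1, p.1, 0, p.2⟩ * (SS b N (nxtS ⟨cf, Wk.hub (i + 1), U⟩ ⟨i + 1, p.1, 0, p.2⟩) -
            SS b N ⟨cf, Wk.hub (i + 1), U⟩) ≤ 1 / 2 * sg b (i + 1) := by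
          intro p hp
          rw [Finset.mem_product, Finset.mem_range] at hp
          have hv : EdV ⟨i + 1, p.1, 0, p.2⟩ := ⟨hp.1, by simp only; omega,
            fun hh => by simp only at hh; omega⟩
          have := inc_srw_hub_out (b := b) (N := N) (cf := cf) (hall _ (mem_hub0 hv) hv) hN
          have hc : cond ⟨i + 1, p.1, 0, p.2⟩ = 1 / 400 := by simp [cond]
          rw [hc]
          linarith
        refine (Finset.sum_le_sum h2).trans ?_
        rw [Finset.sum_const, Finset.card_product, nsmul_eq_mul]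
        simp only [Finset.card_range, Finset.card_univ, Fintype.card_bool]
        push_cast
        rw [pow_succ (2 : ℝ) (i + 1)]
        apply le_of_eq
        ring
      have h3 : ∑ s ∈ range (2 ^ (i + 1)), cond ⟨i, s, 24, false⟩ *
          (SS b N (nxtS ⟨cf, Wk.hub (i + 1), U⟩ ⟨i, s, 24, false⟩) -
            SS b N ⟨cf, Wk.hub (i + 1), U⟩) = 2 ^ (i + 1) * (- sg b i) := by
        have h2 : ∀ s ∈ range (2 ^ (i + 1)), cond ⟨i, s, 24, false⟩ *
          (SS b N (nxtS ⟨cf, Wk.hub (i + 1), U⟩ ⟨i, s, 24, false⟩) -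
            SS b N ⟨cf, Wk.hub (i + 1), U⟩) = - sg b i := by
          intro s hs
          rw [Finset.mem_range] at hs
          have hv : EdV ⟨i, s, 24, false⟩ := ⟨hs, le_rfl, fun _ => rfl⟩
          rw [inc_srw_hub_in (hall _ (mem_hub24 hv) hv) hex (by omega)]
          have hc : cond ⟨i, s, 24, false⟩ = 1 / 2 := by simp [cond]
          rw [hc]
          ring
        rw [Finset.sum_congr rfl h2, Finset.sum_const, nsmul_eq_mul, Finset.card_range]
        push_cast
        ring
      rw [h3]
      have := sg_half hib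
      rw [this]
      linarith
  | rest i s x =>
    simp only [blk] at hN
    simp only [wok] at hw
    obtain ⟨w1, w2, w3, w4, w5⟩ := hw
    obtain ⟨κ, k1, k2⟩ := inc_srw_rest (b := b) h hall hN
    show ∑ e ∈ (rawinc (Nd.nd i s x)).filter EdV, _ ≤ 0
    rw [sum_nd w1 w2 w3]
    have v1 : EdV ⟨i, s, x - 1, false⟩ := ⟨w1, by simp only; omega, fun _ => rfl⟩
    have v2 : EdV ⟨i, s, x - 1, true⟩ := ⟨w1, by simp only; omega,
      fun h => by simp only at h; omega⟩
    have v3 : EdV ⟨i, s, x, false⟩ := ⟨w1, by simp only; omega, fun _ => rfl⟩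
    rw [k1 _ v1 (mem_nd v1 w2 w3 (by omega)) (by simp only; omega),
      k1 _ v2 (mem_nd v2 w2 w3 (by omega)) (by simp only; omega),
      k2 _ v3 (mem_nd v3 w2 w3 (by omega)) rfl]
    have c1 : ∀ c : Bool, cond ⟨i, s, x - 1, c⟩ * (pos x - pos (x - 1)) = 1 / 2 := by
      intro c
      unfold cond
      simp only
      by_cases hx1 : x = 1
      · subst hx1
        rw [if_pos rfl]
        simp only [Nat.sub_self]
        rw [pos_one, pos_zero]
        norm_num
      · rw [if_neg (by omega)]
        obtain ⟨y, rfl⟩ : ∃ y, x = y + 1 := ⟨x - 1, by omega⟩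
        simp only [Nat.add_sub_cancel]
        rw [pos_succ (by omega) (by omega)]
        norm_num
    have hcx : ∀ c : Bool, cond ⟨i, s, x, c⟩ = 1 / 2 := by
      intro c
      unfold cond
      simp only
      rw [if_neg (by omega)]
      norm_num
    by_cases hx : x < 24
    · have v4 : EdV ⟨i, s, x, true⟩ := ⟨w1, by simp only; omega,
        fun h => by simp only at h; omega⟩
      rw [if_pos hx, k2 _ v4 (mem_nd v4 w2 w3 (by omega)) rfl, hcx, hcx, pos_succ w2 (by omega)]
      have h5 := c1 false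
      have h6 := c1 true
      have e1 : ∀ q : ℝ, q * -(κ * (pos x - pos (x - 1))) = -κ * (q * (pos x - pos (x - 1))) := by
        intro q; ring
      rw [e1, e1, h5, h6]
      apply le_of_eq
      ring
    · have hx24 : x = 24 := by omega
      rw [if_neg hx, hcx]
      have h5 := c1 false
      have h6 := c1 true
      have h7 : pos (x + 1) - pos x = 2 := by
        rw [hx24, pos_24]
        have : pos (24 + 1) = 225 := pos_top
        rw [this]
        norm_num
      have e1 : ∀ q : ℝ, q * -(κ * (pos x - pos (x - 1))) = -κ * (q * (pos x - pos (x - 1))) := by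
        intro q; ring
      rw [h7, e1, e1, h5, h6]
      apply le_of_eq
      ring
  | out i s x j => exact (not_exh_out h hall).elim
  | inn i s j x => exact (not_exh_inn h hall).elim

end

end Pool.Agent.H575R3.Net
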