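import Mathlib
import Pool.Agent.H575R3.NetLocal

/-!
Bounds for the potential.
-/

open Finset

namespace Pool.Agent.H575R3.Net

noncomputable section

open Classical

lemma bse_le {a : St} (h : okS a) : (bse a.cf a.w).2.2 ≤ 25 := by
  obtain ⟨cf, w, U⟩ := a
  have hw := h.w
  cases w with
  | hub i => simp [bse]
  | rest i s x => simp only [wok] at hw; simp only [bse]; omega
  | out i s x j => simp only [bse]; have := (h.c i s).2.1; simp only at this; omega
  | inn i s j x => simp only [bse]; have := (h.c i s).2.2.1; simp only at this; omega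

lemma bse_blk (cf : ℕ → ℕ → Cf) (w : Wk) : (bse cf w).1 = blk w := by
  cases w <;> rfl

lemma Fh_nonneg (b i : ℕ) : 0 ≤ Fh b i := by
  unfold Fh
  apply mul_nonneg (by norm_num)
  exact Finset.sum_nonneg (fun j _ => (sg_pos b j).le)

lemma AA_nonneg (b : ℕ) (B : ℕ × ℕ × ℕ) : 0 ≤ AA b B := by
  unfold AA
  exact add_nonneg (Fh_nonneg _ _) (mul_nonneg (sg_pos _ _).le (pos_nonneg _))

lemma RP_nonneg {a : St} (h : okS a) (b N : ℕ) : 0 ≤ RP b N a.cf := by
  unfold RP
  exact Finset.sum_nonneg (fun i _ => mul_nonneg (sg_pos _ _).le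
    (Finset.sum_nonneg (fun s _ => RR_nonneg (h.c i s))))

lemma VP_nonneg {a : St} (h : okS a) (N : ℕ) :
    0 ≤ VP N a.U (vvb a.cf (bse a.cf a.w)) := by
  unfold VP
  apply Finset.sum_nonneg
  intro i _
  have := ta_pos i
  have := vvb_nonneg (cf := a.cf) (bse_le h) i
  split_ifs <;> positivity

theorem SS_nonneg {a : St} (h : okS a) (b N : ℕ) : 0 ≤ SS b N a := by
  unfold SS
  have h1 := AA_nonneg b (bse a.cf a.w)
  have h2 := RP_nonneg h b N
  have h3 := HP_nonneg b N a.U
  have h4 := VP_nonneg h N
  have h5 := PT_nonneg b a.cf a.w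
  linarith

theorem SS_ge_blk {a : St} (h : okS a) (b N : ℕ) : 225 * (1 / 2) ^ b * (blk a.w : ℝ) ≤ SS b N a := by
  have h2 := RP_nonneg h b N
  have h3 := HP_nonneg b N a.U
  have h4 := VP_nonneg h N
  have h5 := PT_nonneg b a.cf a.w
  have h1 : 225 * (1 / 2) ^ b * (blk a.w : ℝ) ≤ AA b (bse a.cf a.w) := by
    unfold AA
    rw [bse_blk]
    have h6 := mul_nonneg (sg_pos b (blk a.w)).le (pos_nonneg (bse a.cf a.w).2.2)
    have h7 : 225 * (1 / 2) ^ b * (blk a.w : ℝ) ≤ Fh b (blk a.w) := by
      unfold Fh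
      have : ∑ j ∈ range (blk a.w), ((1 : ℝ) / 2) ^ b ≤ ∑ j ∈ range (blk a.w), sg b j := by
        apply Finset.sum_le_sum
        intro j _
        unfold sg
        exact pow_le_pow_of_le_one (by norm_num) (by norm_num) (min_le_right _ _)
      rw [Finset.sum_const, Finset.card_range, nsmul_eq_mul] at this
      nlinarith
    linarith
  unfold SS
  linarith

/-- strands without used edges carry no potential -/
lemma RR_zero {a : St} (h : okS a) {i s : ℕ} (hs : s < 2 ^ (i + 1))
    (hU : ∀ e ∈ a.U, e.i ≠ i) : RR (a.cf i s) = 0 := by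
  have hc := h.c i s
  have hn : ∀ l ≤ 24, profW a.cf a.w i s l = 0 := by
    intro l hl
    rw [← h.n i s l hs hl]
    unfold cnt
    rw [if_neg (fun hh => hU _ hh rfl), if_neg (fun hh => hU _ hh rfl)]
  have hm : (a.cf i s).m = 25 ∧ ((a.cf i s).ow = false) := by
    have h24 := hn 24 le_rfl
    have key : (a.cf i s).m = 25 := by
      by_contra hne
      have hm24 : (a.cf i s).m ≤ 24 := by have := hc.2.2.1; omega
      have hk := hc.1
      obtain ⟨cf, w, U⟩ := a
      simp only at *
      cases w with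
      | hub i' => simp [profW, sp, cap, hm24] at h24
      | rest i' s' x => simp [profW, sp, cap, hm24] at h24
      | out i' s' x j =>
        have hw := h.w
        simp only [wok] at hw
        simp only [profW] at h24
        split_ifs at h24 with h1
        · obtain ⟨rfl, rfl⟩ := h1
          unfold outp cap at h24
          split_ifs at h24 <;> omega
        · simp [sp, cap, hm24] at h24
      | inn i' s' j x =>
        have hw := h.w
        simp only [wok] at hw
        simp only [profW] at h24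
        split_ifs at h24 with h1
        · obtain ⟨rfl, rfl⟩ := h1
          unfold inp cap at h24
          split_ifs at h24 <;> omega
        · simp [sp, cap, hm24] at h24
    refine ⟨key, ?_⟩
    by_contra hne
    have := hc.2.2.2 (by simpa using hne)
    omega
  unfold RR
  rw [if_neg (by omega), hm.2]
  simp

lemma RR_le {c : Cf} (h : cfok c) : RR c ≤ 226 := by
  unfold RR
  have h1 := pos_le h.2.2.1
  have h2 := pos_nonneg c.k
  split_ifs <;> linarith

lemma exists_bd (U : Finset Ed) : ∃ M : ℕ, ∀ e ∈ U, e.i < M := by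
  refine ⟨(U.sup Ed.i) + 1, fun e he => ?_⟩
  have : e.i ≤ U.sup Ed.i := Finset.le_sup (f := Ed.i) he
  omega

lemma sum_le_of_zero (f : ℕ → ℝ) (M N : ℕ) (h0 : ∀ i, 0 ≤ f i) (h : ∀ i, M ≤ i → f i = 0) :
    ∑ i ∈ range N, f i ≤ ∑ i ∈ range M, f i := by
  rcases le_total N M with h1 | h1
  · exact Finset.sum_le_sum_of_subset_of_nonneg (Finset.range_mono h1) (fun i _ _ => h0 i)
  · apply le_of_eq
    symm
    apply Finset.sum_subset (Finset.range_mono h1)
    intro i _ hi
    exact h i (by simpa using hi)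

lemma geo_half (N : ℕ) : ∑ i ∈ range N, ((1 : ℝ) / 2) ^ i = 2 - 2 * (1 / 2) ^ N := by
  induction N with
  | zero => simp
  | succ n ih => rw [Finset.sum_range_succ, ih, pow_succ]; ring

theorem SS_le {a : St} (h : okS a) : ∃ C : ℝ, ∀ b N, SS b N a ≤ C := by
  obtain ⟨M, hM⟩ := exists_bd a.U
  refine ⟨(225 * (blk a.w : ℝ) + 225) + (∑ i ∈ range M, (2 : ℝ) ^ (i + 1) * 226) +
    (∑ i ∈ range (M + 1), (1 : ℝ) / 40 * (2 * 2 ^ (i + 1))) + 100 + 225, ?_⟩
  intro b N
  have h1 : AA b (bse a.cf a.w) ≤ 225 * (blk a.w : ℝ) + 225 := by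
    unfold AA
    rw [bse_blk]
    have h2 : Fh b (blk a.w) ≤ 225 * (blk a.w : ℝ) := by
      unfold Fh
      have : ∑ j ∈ range (blk a.w), sg b j ≤ ∑ j ∈ range (blk a.w), (1 : ℝ) :=
        Finset.sum_le_sum (fun j _ => sg_le_one b j)
      rw [Finset.sum_const, Finset.card_range, nsmul_eq_mul, mul_one] at this
      linarith
    have h3 : sg b (blk a.w) * pos (bse a.cf a.w).2.2 ≤ 1 * 225 :=
      mul_le_mul (sg_le_one _ _) (pos_le (bse_le h)) (pos_nonneg _) (by norm_num)
    linarith
  have h2 : RP b N a.cf ≤ ∑ i ∈ range M, (2 : ℝ) ^ (i + 1) * 226 := by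
    unfold RP
    refine (sum_le_of_zero _ M N ?_ ?_).trans ?_
    · intro i
      exact mul_nonneg (sg_pos _ _).le (Finset.sum_nonneg (fun s _ => RR_nonneg (h.c i s)))
    · intro i hi
      rw [Finset.sum_eq_zero, mul_zero]
      intro s hs
      exact RR_zero h (Finset.mem_range.mp hs) (fun e he hc => by have := hM e he; omega)
    · apply Finset.sum_le_sum
      intro i _
      have h3 : ∑ s ∈ range (2 ^ (i + 1)), RR (a.cf i s) ≤ 2 ^ (i + 1) * 226 := by
        have : ∑ s ∈ range (2 ^ (i + 1)), RR (a.cf i s) ≤ ∑ s ∈ range (2 ^ (i + 1)), (226 : ℝ) :=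
          Finset.sum_le_sum (fun s _ => RR_le (h.c i s))
        rw [Finset.sum_const, Finset.card_range, nsmul_eq_mul] at this
        push_cast at this
        exact this
      have h4 : 0 ≤ ∑ s ∈ range (2 ^ (i + 1)), RR (a.cf i s) :=
        Finset.sum_nonneg (fun s _ => RR_nonneg (h.c i s))
      calc sg b i * ∑ s ∈ range (2 ^ (i + 1)), RR (a.cf i s)
          ≤ 1 * ∑ s ∈ range (2 ^ (i + 1)), RR (a.cf i s) :=
            mul_le_mul_of_nonneg_right (sg_le_one b i) h4
        _ ≤ _ := by rw [one_mul]; exact h3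
  have h3 : HP b N a.U ≤ ∑ i ∈ range (M + 1), (1 : ℝ) / 40 * (2 * 2 ^ (i + 1)) := by
    unfold HP
    refine (sum_le_of_zero _ (M + 1) N ?_ ?_).trans ?_
    · intro i
      have := qq_nonneg a.U i
      have := sg_pos b i
      have := eps_pos
      positivity
    · intro i hi
      obtain ⟨j, rfl⟩ : ∃ j, i = j + 1 := ⟨i - 1, by omega⟩
      have : qq a.U (j + 1) = 0 := by
        simp only [qq]
        have h5 : uN a.U j = 2 ^ (j + 1) := by
          unfold uN
          rw [Finset.filter_true_of_mem, Finset.card_range]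
          intro s _ hc
          have := hM _ hc
          simp only at this
          omega
        rw [h5]
        push_cast
        rw [div_self (by positivity)]
        ring
      rw [this, mul_zero]
    · apply Finset.sum_le_sum
      intro i _
      have q0 := qq_nonneg a.U i
      have q1 := qq_le a.U i
      have s0 := sg_pos b i
      have s1 := sg_le_one b i
      have e0 := eps_pos
      have e1 := eps_le
      have w1 := wN_le a.U i
      have w0 : (0 : ℝ) ≤ wN a.U i := by positivity
      have t1 : eps * sg b i ≤ 1 / 40 * 1 := mul_le_mul e1 s1 s0.le (by norm_num)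
      have t2 : eps * sg b i * (wN a.U i : ℝ) ≤ 1 / 40 * 1 * (2 * 2 ^ (i + 1)) :=
        mul_le_mul t1 w1 w0 (by norm_num)
      have t3 : eps * sg b i * (wN a.U i : ℝ) * qq a.U i ≤ 1 / 40 * 1 * (2 * 2 ^ (i + 1)) * 1 :=
        mul_le_mul t2 q1 q0 (by positivity)
      linarith
  have h4 : VP N a.U (vvb a.cf (bse a.cf a.w)) ≤ 100 := by
    unfold VP
    have t1 : ∀ i ∈ range N, 50 * ta i * (if ¬ exh a.U i then 1 else if exh a.U (i + 1) then 0 else
        vvb a.cf (bse a.cf a.w) i) ≤ 50 * (1 / 2) ^ i := by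
      intro i _
      have h5 := ta_pos i
      have h6 := vvb_le (cf := a.cf) (B := bse a.cf a.w) i
      have h7 : (if ¬ exh a.U i then 1 else if exh a.U (i + 1) then 0 else
        vvb a.cf (bse a.cf a.w) i) ≤ (1 : ℝ) := by
        split_ifs
        · norm_num
        · exact h6
        · exact le_rfl
      calc _ ≤ 50 * ta i * 1 := mul_le_mul_of_nonneg_left h7 (by positivity)
        _ = 50 * (1 / 2) ^ i := by unfold ta; ring
    refine (Finset.sum_le_sum t1).trans ?_
    rw [← Finset.mul_sum]
    have t2 : ∑ i ∈ range N, ((1 : ℝ) / 2) ^ i ≤ 2 := by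
      rw [geo_half N]
      have : (0 : ℝ) < (1 / 2) ^ N := by positivity
      linarith
    linarith
  have h5 : PT b a.cf a.w ≤ 225 := by
    unfold PT
    cases a.w with
    | hub i => simp
    | rest i s x => simp
    | inn i s j x => simp
    | out i s x j =>
      simp only
      split_ifs
      · have t1 : ((2 : ℝ) / 3) ^ (24 - x) ≤ 1 := pow_le_one₀ (by norm_num) (by norm_num)
        have t2 : sg b i * ((2 / 3) ^ (24 - x) * 225) ≤ 1 * (1 * 225) :=
          mul_le_mul (sg_le_one _ _) (mul_le_mul_of_nonneg_right t1 (by norm_num)) (by positivity)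
            (by norm_num)
        linarith
      · norm_num
  unfold SS
  linarith

/-- number of exhausted hubs other than the root -/
def nex (U : Finset Ed) : ℕ := ((U.image Ed.i).filter (fun i => exh U (i + 1))).card

lemma exh_closed {a : St} (h : okS a) {i s : ℕ} (hs : s < 2 ^ (i + 1)) (hex : exh a.U (i + 1)) :
    (a.cf i s).m ≤ 24 := by
  have hmem : (⟨i, s, 24, false⟩ : Ed) ∈ a.U := by
    apply hex
    simp only [rawinc, Finset.mem_union, Finset.mem_image, Finset.mem_range]
    right
    rw [if_neg (by omega)]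
    simp only [Finset.mem_image, Finset.mem_range]
    exact ⟨s, hs, by simp⟩
  have hn := h.n i s 24 hs le_rfl
  have hc := h.c i s
  unfold cnt at hn
  rw [if_pos hmem] at hn
  by_contra hne
  have hm : (a.cf i s).m = 25 := by have := hc.2.2.1; omega
  have how : (a.cf i s).ow = false := by
    by_contra hh
    have := hc.2.2.2 (by simpa using hh)
    omega
  have hk := hc.2.1
  have hp : profW a.cf a.w i s 24 = 0 := by
    obtain ⟨cf, w, U⟩ := a
    simp only at *
    have hsp : sp (cf i s) 24 = 0 := by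
      unfold sp
      rw [if_neg (by omega), how]
      simp
    have hw := h.w
    cases w with
    | hub i' => exact hsp
    | rest i' s' x => exact hsp
    | out i' s' x j =>
      simp only [wok] at hw
      simp only [profW]
      split_ifs with h1
      · obtain ⟨rfl, rfl⟩ := h1
        unfold outp
        rw [if_neg (by omega), if_neg (by omega), if_neg (by omega), if_pos (by omega)]
      · exact hsp
    | inn i' s' j x =>
      simp only [wok] at hw
      simp only [profW]
      split_ifs with h1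
      · obtain ⟨rfl, rfl⟩ := h1
        omega
      · exact hsp
  rw [hp] at hn
  omega

theorem SS_ge_nex {a : St} (h : okS a) : ∃ M : ℕ, ∀ N, M ≤ N → 2 * (nex a.U : ℝ) ≤ SS N N a := by
  obtain ⟨M, hM⟩ := exists_bd a.U
  refine ⟨M, fun N hN => ?_⟩
  have h1 := AA_nonneg N (bse a.cf a.w)
  have h3 := HP_nonneg N N a.U
  have h4 := VP_nonneg h N
  have h5 := PT_nonneg N a.cf a.w
  have h2 : 2 * (nex a.U : ℝ) ≤ RP N N a.cf := by
    unfold RP
    set F := (a.U.image Ed.i).filter (fun i => exh a.U (i + 1)) with hF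
    have hsub : F ⊆ range N := by
      intro i hi
      rw [hF, Finset.mem_filter, Finset.mem_image] at hi
      obtain ⟨⟨e, he, rfl⟩, _⟩ := hi
      have := hM e he
      exact Finset.mem_range.mpr (by omega)
    have t1 : ∑ i ∈ F, sg N i * ∑ s ∈ range (2 ^ (i + 1)), RR (a.cf i s) ≤
        ∑ i ∈ range N, sg N i * ∑ s ∈ range (2 ^ (i + 1)), RR (a.cf i s) :=
      Finset.sum_le_sum_of_subset_of_nonneg hsub (fun i _ _ => mul_nonneg (sg_pos _ _).le
        (Finset.sum_nonneg (fun s _ => RR_nonneg (h.c i s))))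
    refine le_trans ?_ t1
    have t2 : ∀ i ∈ F, (2 : ℝ) ≤ sg N i * ∑ s ∈ range (2 ^ (i + 1)), RR (a.cf i s) := by
      intro i hi
      have hiN := Finset.mem_range.mp (hsub hi)
      have hex := (Finset.mem_filter.mp hi).2
      rw [sg_eq_ta hiN.le]
      have t3 : ∑ s ∈ range (2 ^ (i + 1)), (1 : ℝ) ≤ ∑ s ∈ range (2 ^ (i + 1)), RR (a.cf i s) := by
        apply Finset.sum_le_sum
        intro s hs
        have hcl := exh_closed h (Finset.mem_range.mp hs) hex
        have hc := h.c i s
        unfold RR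
        rw [if_pos hcl]
        have := pos_mono hc.1 hc.2.2.1
        split_ifs <;> linarith
      rw [Finset.sum_const, Finset.card_range, nsmul_eq_mul, mul_one] at t3
      push_cast at t3
      have t4 : ta i * 2 ^ (i + 1) = 2 := by
        unfold ta
        rw [pow_succ, ← mul_assoc, ← mul_pow]
        norm_num
      calc (2 : ℝ) = ta i * 2 ^ (i + 1) := t4.symm
        _ ≤ _ := mul_le_mul_of_nonneg_left t3 (ta_pos i).le
    have t5 : ∑ i ∈ F, (2 : ℝ) ≤ ∑ i ∈ F, sg N i * ∑ s ∈ range (2 ^ (i + 1)), RR (a.cf i s) :=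
      Finset.sum_le_sum t2
    rw [Finset.sum_const, nsmul_eq_mul] at t5
    unfold nex
    rw [← hF]
    linarith
  unfold SS
  linarith

end

end Pool.Agent.H575R3.Net
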