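import Mathlib
import Pool.Agent.H575R3.NetBound

/-!
The supermartingale along the greedy random walk and the null events.
-/

open Finset MeasureTheory
open scoped ENNReal

namespace Pool.Agent.H575R3.Net

open Pool.Agent.H575R3.GRW

noncomputable section

instance : Countable Ed := by
  have : Function.Injective (fun e : Ed => (e.i, e.s, e.l, e.b)) := by
    rintro ⟨a, b, c, d⟩ ⟨a', b', c', d'⟩ h
    simp only [Prod.mk.injEq] at h
    obtain ⟨rfl, rfl, rfl, rfl⟩ := h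
    rfl
  exact this.countable

instance : Countable Nd := by
  have : Function.Injective (fun n : Nd => match n with
      | Nd.hub i => (Sum.inl i : ℕ ⊕ (ℕ × ℕ × ℕ))
      | Nd.nd i s x => Sum.inr (i, s, x)) := by
    intro a b h
    cases a <;> cases b
    · simp only [Sum.inl.injEq] at h; rw [h]
    · simp at h
    · simp at h
    · simp only [Sum.inr.injEq, Prod.mk.injEq] at h
      obtain ⟨rfl, rfl, rfl⟩ := h
      rfl
  exact this.countable

instance : Countable CY.N := inferInstanceAs (Countable Nd)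
instance : Countable CY.E := inferInstanceAs (Countable {e : Ed // EdV e})
instance : Countable (Vx CY) := inferInstance

/-- the vertex of hub `0` -/
def rt : Vx CY := ⟨Sum.inl (Nd.hub 0), ⟨⟨⟨0, 0, 0, false⟩, ⟨by simp, by simp, by simp⟩⟩, Or.inl rfl⟩⟩

lemma inc_nonempty : ∀ n : CY.N, (∃ v : Vx CY, v.1 = Sum.inl n) → (CY.inc n).Nonempty := by
  rintro n ⟨⟨v, hv⟩, h⟩
  simp only at h
  subst h
  obtain ⟨e, he⟩ := hv
  exact ⟨e, (CY.mem_inc n e).mpr he⟩

/-- the potential along the walk -/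
def PhiT (b N t : ℕ) (x : ℕ → Vx CY) : ℝ≥0∞ := ENNReal.ofReal (Phi CM (SS b N) (ms CM x t))

/-- the inequality is available at this time -/
def alv (b N t : ℕ) (x : ℕ → Vx CY) : Prop :=
  ∀ a, ms CM x t = MS.nd a → nodeW a.w ≠ Nd.hub 0 ∧ blk a.w + 1 < N ∧ ∀ j, exh a.U j → j ≤ b

lemma PhiT_dep (b N t : ℕ) : DepLE t (PhiT b N t) := by
  intro x y hxy
  unfold PhiT
  rw [ms_congr CM hxy]

lemma alv_dep (b N t : ℕ) : DepLE t (alv b N t) := by
  intro x y hxy
  unfold alv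
  rw [ms_congr CM hxy]

theorem step_le (b N t : ℕ) (x : ℕ → Vx CY) (hx : Valid (gr CY) x) (h0 : x 0 = rt)
    (hal : alv b N t x) :
    ∑' y, stepProb (gr CY) x t y * PhiT b N (t + 1) (Function.update x (t + 1) y) ≤ PhiT b N t x := by
  classical
  have hinv := inv_all (K := CM) hx (by rw [h0]; rfl) t
  have h1 : ∀ y, PhiT b N (t + 1) (Function.update x (t + 1) y) =
      ENNReal.ofReal (Phi CM (SS b N) (upd CM (ms CM x t) y)) := by
    intro y
    unfold PhiT
    rw [ms_update]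
  simp only [h1]
  apply phi_step CM hinv inc_nonempty (SS b N) (fun a ha => SS_nonneg ha b N)
  · intro a hm _
    obtain ⟨a1, a2, a3⟩ := hal a hm
    have hok : okS a := by have := hinv.okm; rw [hm] at this; exact this
    have h2 := loc_g (N := N) hok a2 a3
    rw [← sum_inc] at h2
    rw [Finset.sum_filter]
    refine le_of_eq_of_le ?_ h2
    apply Finset.sum_congr rfl
    intro e _
    by_cases hu : e.1 ∈ a.U
    · exact (if_neg (show ¬ ¬ CM.used a e from not_not.mpr hu)).trans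
        (if_neg (not_not.mpr hu)).symm
    · exact (if_pos (show ¬ CM.used a e from hu)).trans
        (if_pos (show e.1 ∉ a.U from hu)).symm
  · intro a hm hall
    obtain ⟨a1, a2, a3⟩ := hal a hm
    have hok : okS a := by have := hinv.okm; rw [hm] at this; exact this
    have h2 := loc_s (N := N) hok a2 a3 (fun f hf hfv => hall ⟨f, hfv⟩ (Finset.mem_subtype.mpr hf)) a1
    rw [← sum_inc] at h2
    exact h2

lemma Phi_bdd {x : ℕ → Vx CY} {t : ℕ} (h : Inv CM x t) :
    ∃ C : ℝ, ∀ b N, Phi CM (SS b N) (ms CM x t) ≤ C := by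
  have hok := h.okm
  rcases hm : ms CM x t with a | ⟨a, e, d⟩ | ⟨a, e, d⟩
  · rw [hm] at hok
    obtain ⟨C, hC⟩ := SS_le (a := a) hok
    exact ⟨C, hC⟩
  · rw [hm] at hok
    obtain ⟨h1, h2, h3, h4, h5⟩ := hok
    obtain ⟨C, hC⟩ := SS_le (CM.gre a e h1 h2 h3).1
    exact ⟨C, hC⟩
  · rw [hm] at hok
    obtain ⟨h1, h2, h3, h4, h5⟩ := hok
    obtain ⟨C, hC⟩ := SS_le (a := a) h1
    obtain ⟨C', hC'⟩ := SS_le (CM.srw a e h1 h3 h2).1
    refine ⟨max C C', fun b N => ?_⟩
    simp only [Phi]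
    have l0 : (0 : ℝ) < CY.len e := by
      have := CY.two_le e
      exact_mod_cast (by omega : 0 < CY.len e)
    have l1 : (d : ℝ) ≤ CY.len e := by exact_mod_cast h5.le
    have q0 : 0 ≤ (d : ℝ) / CY.len e := by positivity
    have q1 : (d : ℝ) / CY.len e ≤ 1 := by rw [div_le_one l0]; exact l1
    have r1 := (hC b N).trans (le_max_left C C')
    have r2 := (hC' b N).trans (le_max_right C C')
    have r2' : SS b N (CM.nxt a e) ≤ max C C' := r2
    calc (1 - (d : ℝ) / CY.len e) * SS b N a + (d : ℝ) / CY.len e * SS b N (CM.nxt a e)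
        ≤ (1 - (d : ℝ) / CY.len e) * max C C' + (d : ℝ) / CY.len e * max C C' := by
          apply add_le_add
          · exact mul_le_mul_of_nonneg_left r1 (by linarith)
          · exact mul_le_mul_of_nonneg_left r2' q0
      _ = max C C' := by ring

variable {Ω : Type*} [MeasurableSpace Ω] {P : Measure Ω} {X : ℕ → Ω → Vx CY}

theorem null_event (h : IsGRW (gr CY) rt P X) (y0 : ℕ → Vx CY) (T0 : ℕ) (bN : ℕ → ℕ) :
    P {ω | (∀ s ≤ T0, X s ω = y0 s) ∧ ∀ K : ℕ, ∃ s, T0 ≤ s ∧ ∃ M, ∀ N, M ≤ N →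
      (∀ r, T0 ≤ r → r ≤ s → alv (bN N) N r (fun i => X i ω)) ∧
      (K : ℝ≥0∞) ≤ PhiT (bN N) N s (fun i => X i ω)} = 0 := by
  have hprob : IsProbabilityMeasure P := ⟨h.prob⟩
  set E := {ω | (∀ s ≤ T0, X s ω = y0 s) ∧ ∀ K : ℕ, ∃ s, T0 ≤ s ∧ ∃ M, ∀ N, M ≤ N →
      (∀ r, T0 ≤ r → r ≤ s → alv (bN N) N r (fun i => X i ω)) ∧
      (K : ℝ≥0∞) ≤ PhiT (bN N) N s (fun i => X i ω)} with hE
  by_contra hne
  -- a good point of the event
  have hex : ∃ ω ∈ E, Valid (gr CY) (fun i => X i ω) ∧ X 0 ω = rt := by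
    by_contra hc
    push Not at hc
    apply hne
    have h1 : P (E \ ∅) = P E := by simp
    have hz : P {ω | ¬ (Valid (gr CY) (fun i => X i ω) ∧ X 0 ω = rt)} = 0 := by
      have h2 := h.ae_valid.and h.ae_start
      exact ae_iff.mp h2
    refine measure_mono_null ?_ hz
    intro ω hω
    simp only [Set.mem_setOf_eq, not_and]
    exact hc ω hω
  obtain ⟨ω0, hω0, hv0, hs0⟩ := hex
  have hinv := inv_all (K := CM) hv0 (by rw [hs0]; rfl) T0
  obtain ⟨C, hC⟩ := Phi_bdd hinv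
  have hC' : ∀ b N, PhiT b N T0 y0 ≤ ENNReal.ofReal C := by
    intro b N
    unfold PhiT
    apply ENNReal.ofReal_le_ofReal
    rw [← ms_congr CM hω0.1]
    exact hC b N
  -- the maximal inequality
  have hmax : ∀ K N : ℕ, T0 ≤ N → (K : ℝ≥0∞) * P {ω | (∀ s ≤ T0, X s ω = y0 s) ∧ ∃ s, T0 ≤ s ∧ s ≤ N ∧
      (∀ r, T0 ≤ r → r ≤ s → alv (bN N) N r (fun i => X i ω)) ∧
      (K : ℝ≥0∞) ≤ PhiT (bN N) N s (fun i => X i ω)} ≤ ENNReal.ofReal C := by
    intro K N hN
    refine (h.max_ineq y0 T0 N hN K (PhiT (bN N) N) (alv (bN N) N) (PhiT_dep _ _) (alv_dep _ _)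
      ?_).trans (hC' _ _)
    intro t _ _ x hx hx0 hal
    exact step_le _ _ t x hx hx0 hal
  have hK : ∀ K : ℕ, (K : ℝ≥0∞) * P E ≤ ENNReal.ofReal C := by
    intro K
    set F : ℕ → Set Ω := fun n => ⋂ N, ⋂ (_ : max n T0 ≤ N), {ω | (∀ s ≤ T0, X s ω = y0 s) ∧
      ∃ s, T0 ≤ s ∧ s ≤ N ∧ (∀ r, T0 ≤ r → r ≤ s → alv (bN N) N r (fun i => X i ω)) ∧
      (K : ℝ≥0∞) ≤ PhiT (bN N) N s (fun i => X i ω)} with hF
    have hmono : Monotone F := by
      intro n m hnm
      simp only [hF]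
      intro ω hω
      simp only [Set.mem_iInter] at hω ⊢
      intro N hN
      exact hω N (by omega)
    have hsub : E ⊆ ⋃ n, F n := by
      intro ω hω
      obtain ⟨s, hs, M, hM⟩ := hω.2 K
      rw [Set.mem_iUnion]
      refine ⟨max M s, ?_⟩
      simp only [hF, Set.mem_iInter]
      intro N hN
      have := hM N (by omega)
      exact ⟨hω.1, s, hs, by omega, this.1, this.2⟩
    have h1 : P E ≤ ⨆ n, P (F n) := (measure_mono hsub).trans (hmono.measure_iUnion).le
    calc (K : ℝ≥0∞) * P E ≤ (K : ℝ≥0∞) * ⨆ n, P (F n) := by gcongr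
      _ = ⨆ n, (K : ℝ≥0∞) * P (F n) := ENNReal.mul_iSup _ _
      _ ≤ ENNReal.ofReal C := by
        apply iSup_le
        intro n
        refine le_trans ?_ (hmax K (max n T0) (by omega))
        gcongr
        simp only [hF]
        exact Set.iInter₂_subset (max n T0) le_rfl
  obtain ⟨K, hK2⟩ := ENNReal.exists_nat_mul_gt hne (ENNReal.ofReal_ne_top (r := C))
  exact absurd (hK K) (not_le.mpr hK2)

end

end Pool.Agent.H575R3.Net
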