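import Mathlib
import Pool.Agent.H575R3.NetEvents

/-!
The graph is infinite, connected and non-amenable.
-/

open Finset

namespace Pool.Agent.H575R3.Net

noncomputable section

/-- a function with large Laplacian and bounded gradient gives an isoperimetric inequality -/
theorem iso {V : Type*} [DecidableEq V] (G : SimpleGraph V) [G.LocallyFinite] (h : V → ℝ)
    (hL : ∀ v, 2 ≤ ∑ w ∈ G.neighborFinset v, (h w - h v))
    (hB : ∀ v w, G.Adj v w → h w - h v ≤ 3574) (S : Finset V) :
    2 * (S.card : ℝ) ≤ 3574 * ((∑ v ∈ S, ((G.neighborFinset v).filter (fun w => w ∉ S)).card : ℕ) : ℝ) := by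
  classical
  have h1 : 2 * (S.card : ℝ) ≤ ∑ v ∈ S, ∑ w ∈ G.neighborFinset v, (h w - h v) := by
    have : ∑ v ∈ S, (2 : ℝ) ≤ ∑ v ∈ S, ∑ w ∈ G.neighborFinset v, (h w - h v) :=
      Finset.sum_le_sum (fun v _ => hL v)
    rw [Finset.sum_const, nsmul_eq_mul] at this
    linarith
  have h2 : ∀ v ∈ S, ∑ w ∈ G.neighborFinset v, (h w - h v) =
      ∑ w ∈ S, (if G.Adj v w then h w - h v else 0) +
      ∑ w ∈ (G.neighborFinset v).filter (fun w => w ∉ S), (h w - h v) := by
    intro v _
    rw [← Finset.sum_filter_add_sum_filter_not (G.neighborFinset v) (fun w => w ∈ S)]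
    congr 1
    rw [← Finset.sum_filter]
    apply Finset.sum_congr _ (fun _ _ => rfl)
    ext w
    simp only [Finset.mem_filter, SimpleGraph.mem_neighborFinset]
    tauto
  rw [Finset.sum_congr rfl h2, Finset.sum_add_distrib] at h1
  have h3 : ∑ v ∈ S, ∑ w ∈ S, (if G.Adj v w then h w - h v else 0) = 0 := by
    have h4 : ∑ v ∈ S, ∑ w ∈ S, (if G.Adj v w then h w - h v else 0) =
        ∑ v ∈ S, ∑ w ∈ S, -(if G.Adj v w then h w - h v else 0) := by
      rw [Finset.sum_comm]
      apply Finset.sum_congr rfl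
      intro v _
      apply Finset.sum_congr rfl
      intro w _
      by_cases hvw : G.Adj v w
      · rw [if_pos hvw, if_pos hvw.symm]; ring
      · rw [if_neg hvw, if_neg (fun hh => hvw hh.symm)]; ring
    simp only [Finset.sum_neg_distrib] at h4
    linarith
  rw [h3, zero_add] at h1
  refine h1.trans ?_
  push_cast
  rw [Finset.mul_sum]
  apply Finset.sum_le_sum
  intro v _
  have : ∑ w ∈ (G.neighborFinset v).filter (fun w => w ∉ S), (h w - h v) ≤
      ∑ w ∈ (G.neighborFinset v).filter (fun w => w ∉ S), (3574 : ℝ) := by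
    apply Finset.sum_le_sum
    intro w hw
    exact hB v w (by simpa using (Finset.mem_filter.mp hw).1)
  rw [Finset.sum_const, nsmul_eq_mul] at this
  linarith

def thr (l : ℕ) : ℝ := if l = 0 then 447 else if l = 24 then 1786 else 845 + 2 * (l : ℝ)
def hx (x : ℕ) : ℝ := if x = 0 then 0 else if x = 25 then 604340 else
  517200 + 3382 * ((x : ℝ) - 1) + 4 * x * ((x : ℝ) - 1)
def hN : Nd → ℝ
  | Nd.hub i => 604340 * (i : ℝ)
  | Nd.nd i _ x => 604340 * (i : ℝ) + hx x
def hE (e : Ed) (t : ℕ) : ℝ := 604340 * (e.i : ℝ) + hx e.l + 2 * thr e.l * t + t * ((t : ℝ) - 1)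
def hV (v : Vx CY) : ℝ :=
  match v.1 with
  | Sum.inl n => hN n
  | Sum.inr p => hE p.1.1 p.2

def ln (l : ℕ) : ℕ := if l = 0 then 400 else 2

lemma len_eq (e : CY.E) : CY.len e = ln e.1.l := rfl

lemma hN_Ps {i s x : ℕ} (h : x ≤ 25) : hN (Ps i s x) = 604340 * (i : ℝ) + hx x := by
  unfold Ps
  split_ifs with h1 h2
  · subst h1
    simp [hN, hx]
  · subst h2
    simp only [hN, hx]
    norm_num
    ring
  · rfl

lemma hx_succ {l : ℕ} (h : l ≤ 24) : hx (l + 1) = hx l + 2 * thr l * (ln l : ℕ) +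
    (ln l : ℕ) * (((ln l : ℕ) : ℝ) - 1) := by
  unfold hx thr ln
  rcases Nat.eq_zero_or_pos l with h0 | h0
  · subst h0
    norm_num
  · by_cases h24 : l = 24
    · subst h24
      norm_num
    · rw [if_neg (by omega), if_neg (by omega), if_neg (by omega), if_neg (by omega),
        if_neg (by omega), if_neg h24, if_neg (by omega)]
      push_cast
      ring

lemma hV_inl {v : Vx CY} {n : Nd} (h : v.1 = Sum.inl n) : hV v = hN n := by
  unfold hV; rw [h]

lemma hV_pt (e : CY.E) {t : ℕ} (ht : t ≤ CY.len e) : hV (pt e t) = hE e.1 t := by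
  have h2 := CY.two_le e
  rcases Nat.eq_zero_or_pos t with h0 | h0
  · subst h0
    rw [hV_inl (pt_zero e)]
    show hN (Ps e.1.i e.1.s e.1.l) = _
    rw [hN_Ps (by have := e.2.2.1; omega)]
    simp [hE]
  · rcases Nat.lt_or_ge t (CY.len e) with h1 | h1
    · unfold hV
      rw [pt_mid e h0 h1]
    · have ht' : t = CY.len e := le_antisymm ht h1
      rw [hV_inl (pt_len e h1)]
      show hN (Ps e.1.i e.1.s (e.1.l + 1)) = _
      rw [hN_Ps (by have := e.2.2.1; omega), hx_succ e.2.2.1, ht', len_eq]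
      unfold hE
      ring

lemma hV_diff (e : CY.E) {t : ℕ} (ht : t < CY.len e) :
    hV (pt e (t + 1)) - hV (pt e t) = 2 * thr e.1.l + 2 * t := by
  rw [hV_pt e (by omega), hV_pt e ht.le]
  unfold hE
  push_cast
  ring

lemma thr_nonneg (l : ℕ) : 0 ≤ thr l := by
  unfold thr
  split_ifs <;> positivity

lemma diff_le (e : CY.E) {t : ℕ} (ht : t < CY.len e) : 2 * thr e.1.l + 2 * (t : ℝ) ≤ 3574 := by
  rw [len_eq] at ht
  have hl := e.2.2.1
  unfold thr
  unfold ln at ht
  split_ifs with h0 h24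
  · rw [if_pos h0] at ht
    have : (t : ℝ) ≤ 399 := by exact_mod_cast (by omega : t ≤ 399)
    linarith
  · rw [if_neg h0] at ht
    have : (t : ℝ) ≤ 1 := by exact_mod_cast (by omega : t ≤ 1)
    linarith
  · rw [if_neg h0] at ht
    have h5 : (t : ℝ) ≤ 1 := by exact_mod_cast (by omega : t ≤ 1)
    have h6 : ((e.1.l : ℕ) : ℝ) ≤ 23 := by exact_mod_cast (by omega : e.1.l ≤ 23)
    linarith

lemma hV_adj {v w : Vx CY} (h : (gr CY).Adj v w) : hV w - hV v ≤ 3574 := by
  obtain ⟨e, t, ht, ⟨rfl, rfl⟩ | ⟨rfl, rfl⟩⟩ := h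
  · rw [hV_diff e ht]
    exact diff_le e ht
  · have := hV_diff e ht
    have h2 := thr_nonneg e.1.l
    have h3 : (0 : ℝ) ≤ t := by positivity
    linarith

/-- outgoing differences at a node -/
def GG (n : Nd) (e : Ed) : ℝ :=
  if Ps e.i e.s e.l = n then 2 * thr e.l else -(2 * thr e.l + 2 * (((ln e.l : ℕ) : ℝ) - 1))

lemma hV_ptd {v : Vx CY} {n : Nd} (h : v.1 = Sum.inl n) {e : CY.E} (he : e ∈ CY.inc n) :
    hV (ptd (Y := CY) n e 1) - hV v = GG n e.1 := by
  have h2 := CY.two_le e
  have hinc := (CY.mem_inc n e).mp he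
  unfold ptd GG
  by_cases hs : CY.src e = n
  · rw [if_pos hs, if_pos (show Ps e.1.i e.1.s e.1.l = n from hs)]
    have hv : v = pt e 0 := by
      apply Subtype.ext
      rw [h, pt_zero]
      exact congrArg Sum.inl hs.symm
    rw [hv]
    have := hV_diff e (t := 0) (by omega)
    rw [zero_add] at this
    rw [this]
    simp
  · rw [if_neg hs, if_neg (show ¬ Ps e.1.i e.1.s e.1.l = n from hs)]
    have hd : CY.dst e = n := hinc.resolve_left hs
    have hv : v = pt e (CY.len e - 1 + 1) := by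
      apply Subtype.ext
      rw [h, pt_len e (by omega)]
      exact congrArg Sum.inl hd.symm
    rw [hv]
    have := hV_diff e (t := CY.len e - 1) (by omega)
    have h3 : ((CY.len e - 1 : ℕ) : ℝ) = (CY.len e : ℝ) - 1 := by
      rw [Nat.cast_sub (by omega)]; simp
    rw [h3, len_eq] at this
    rw [len_eq]
    linarith

lemma lap (v : Vx CY) : 2 ≤ ∑ w ∈ (gr CY).neighborFinset v, (hV w - hV v) := by
  rw [neighborFinset_eq]
  rcases hv : v.1 with n | p
  · rw [nbr_node hv]
    have hinj : Set.InjOn (fun e => ptd (Y := CY) n e 1) (CY.inc n : Set CY.E) := by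
      intro g _ e _ hge
      simp only at hge
      have h3 : (ptd (Y := CY) n g 1).1 = (ptd (Y := CY) n e 1).1 := by rw [hge]
      rw [ptd_mid le_rfl (by have := CY.two_le g; omega),
        ptd_mid le_rfl (by have := CY.two_le e; omega)] at h3
      exact (Prod.mk.inj (Sum.inr.inj h3)).1
    rw [Finset.sum_image hinj]
    have h1 : ∑ e ∈ CY.inc n, (hV (ptd (Y := CY) n e 1) - hV v) =
        ∑ e ∈ (rawinc n).filter EdV, GG n e := by
      refine Eq.trans ?_ (sum_inc n (GG n))
      apply Finset.sum_congr rfl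
      intro e he
      exact hV_ptd hv he
    rw [h1]
    have hgood : Good CY v.1 := v.2
    rw [hv] at hgood
    obtain ⟨e, he⟩ := hgood
    have he' : Ps e.1.i e.1.s e.1.l = n ∨ Ps e.1.i e.1.s (e.1.l + 1) = n := he
    cases n with
    | hub i =>
      rw [sum_hub]
      have o1 : ∑ p ∈ (range (2 ^ (i + 1))) ×ˢ (univ : Finset Bool), GG (Nd.hub i) ⟨i, p.1, 0, p.2⟩ =
          2 ^ (i + 1) * (2 * 894) := by
        have : ∀ p ∈ (range (2 ^ (i + 1))) ×ˢ (univ : Finset Bool),
            GG (Nd.hub i) ⟨i, p.1, 0, p.2⟩ = 894 := by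
          intro p _
          unfold GG thr Ps
          simp
          norm_num
        rw [Finset.sum_congr rfl this, Finset.sum_const, Finset.card_product, nsmul_eq_mul]
        simp only [Finset.card_range, Finset.card_univ, Fintype.card_bool]
        push_cast
        ring
      rw [o1]
      cases i with
      | zero => norm_num
      | succ i =>
        rw [if_neg (by omega)]
        simp only [Nat.add_sub_cancel]
        have o2 : ∑ s ∈ range (2 ^ (i + 1)), GG (Nd.hub (i + 1)) ⟨i, s, 24, false⟩ =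
            2 ^ (i + 1) * (-3574) := by
          have : ∀ s ∈ range (2 ^ (i + 1)), GG (Nd.hub (i + 1)) ⟨i, s, 24, false⟩ = -3574 := by
            intro p _
            unfold GG thr Ps ln
            simp
            norm_num
          rw [Finset.sum_congr rfl this, Finset.sum_const, nsmul_eq_mul, Finset.card_range]
          push_cast
          ring
        rw [o2]
        have h2 : (1 : ℝ) ≤ 2 ^ (i + 1) := one_le_pow₀ (by norm_num)
        rw [pow_succ (2 : ℝ) (i + 1)]
        linarith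
    | nd i s x =>
      have hx1 : s < 2 ^ (i + 1) ∧ 1 ≤ x ∧ x ≤ 24 := by
        obtain ⟨⟨ei, es, el, eb⟩, v1, v2, v3⟩ := e
        simp only at v1 v2 he'
        rw [Ps_inj_nd, Ps_inj_nd] at he'
        rcases he' with ⟨q1, q2, rfl, rfl, rfl⟩ | ⟨q1, q2, rfl, rfl, q5⟩
        · exact ⟨v1, by omega, by omega⟩
        · exact ⟨v1, by omega, by omega⟩
      obtain ⟨w1, w2, w3⟩ := hx1
      rw [sum_nd w1 w2 w3]
      have p1 : ∀ c : Bool, GG (Nd.nd i s x) ⟨i, s, x, c⟩ = 2 * thr x := by
        intro c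
        unfold GG
        simp only
        rw [if_pos]
        rw [Ps_inj_nd]
        omega
      have p2 : ∀ c : Bool, GG (Nd.nd i s x) ⟨i, s, x - 1, c⟩ =
          -(2 * thr (x - 1) + 2 * (((ln (x - 1) : ℕ) : ℝ) - 1)) := by
        intro c
        unfold GG
        simp only
        rw [if_neg]
        rw [Ps_inj_nd]
        omega
      rw [p1, p2, p2]
      obtain ⟨y, rfl⟩ : ∃ y, x = y + 1 := ⟨x - 1, by omega⟩
      simp only [Nat.add_sub_cancel]
      by_cases h24 : y + 1 < 24
      · rw [if_pos h24, p1]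
        unfold thr ln
        rw [if_neg (show ¬ (y + 1 = 0) by omega), if_neg (show ¬ (y + 1 = 24) by omega)]
        rcases Nat.eq_zero_or_pos y with h0 | h0
        · subst h0
          norm_num
        · rw [if_neg (show ¬ (y = 0) by omega), if_neg (show ¬ (y = 24) by omega),
            if_neg (show ¬ (y = 0) by omega)]
          push_cast
          linarith
      · rw [if_neg h24]
        have : y = 23 := by omega
        subst this
        unfold thr ln
        norm_num
  · obtain ⟨e, t⟩ := p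
    have hgood : Good CY v.1 := v.2
    rw [hv] at hgood
    obtain ⟨h1, h2⟩ := hgood
    simp only at h1 h2
    rw [nbr_mid hv]
    have hne : pt e (t - 1) ≠ pt e (t + 1) := by
      intro hc
      have := pt_inj e (by omega) (by omega) hc
      omega
    rw [Finset.sum_pair hne]
    have hvt : v = pt e t := by
      apply Subtype.ext
      rw [hv, pt_mid e h1 h2]
    have d1 := hV_diff e h2
    have d2 := hV_diff e (t := t - 1) (by omega)
    rw [Nat.sub_add_cancel h1] at d2
    have h3 : ((t - 1 : ℕ) : ℝ) = (t : ℝ) - 1 := by rw [Nat.cast_sub h1]; simp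
    rw [h3] at d2
    rw [hvt]
    linarith

theorem nonamenable (S : Finset (Vx CY)) :
    (1 / 1787 : ℝ) * S.card ≤
      ((∑ v ∈ S, (((gr CY).neighborFinset v).filter (fun w => w ∉ S)).card : ℕ) : ℝ) := by
  have := iso (gr CY) hV lap (fun v w h => hV_adj h) S
  linarith

/-- node vertices -/
def ev (i s l : ℕ) (h1 : s < 2 ^ (i + 1)) (h2 : l ≤ 24) : CY.E := ⟨⟨i, s, l, false⟩, h1, h2, fun _ => rfl⟩

lemma reach_pt (e : CY.E) (t : ℕ) (ht : t ≤ CY.len e) : (gr CY).Reachable (pt e 0) (pt e t) := by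
  induction t with
  | zero => exact SimpleGraph.Reachable.refl _
  | succ t ih =>
    refine (ih (by omega)).trans (SimpleGraph.Adj.reachable ?_)
    exact ⟨e, t, by omega, Or.inl ⟨rfl, rfl⟩⟩

lemma reach_level (i s l : ℕ) (h1 : s < 2 ^ (i + 1)) (h2 : l ≤ 24) :
    (gr CY).Reachable (pt (ev i s 0 h1 (by omega)) 0) (pt (ev i s l h1 h2) 0) := by
  induction l with
  | zero => exact SimpleGraph.Reachable.refl _
  | succ l ih =>
    refine (ih (by omega)).trans ?_
    have h3 := reach_pt (ev i s l h1 (by omega)) _ le_rfl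
    have h4 : pt (ev i s l h1 (by omega)) (CY.len (ev i s l h1 (by omega))) =
        pt (ev i s (l + 1) h1 h2) 0 := by
      apply Subtype.ext
      rw [pt_len _ le_rfl, pt_zero]
      rfl
    rw [← h4]
    exact h3

lemma hub_eq (i s s' : ℕ) (h1 : s < 2 ^ (i + 1)) (h1' : s' < 2 ^ (i + 1)) :
    pt (ev i s 0 h1 (by omega)) 0 = pt (ev i s' 0 h1' (by omega)) 0 := by
  apply Subtype.ext
  rw [pt_zero, pt_zero]
  show Sum.inl (Ps i s 0) = Sum.inl (Ps i s' 0)
  simp [Ps]

lemma reach_hub (i : ℕ) : (gr CY).Reachable rt (pt (ev i 0 0 (by positivity) (by omega)) 0) := by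
  induction i with
  | zero =>
    have : rt = pt (ev 0 0 0 (by positivity) (by omega)) 0 := by
      apply Subtype.ext
      rw [pt_zero]
      show Sum.inl (Nd.hub 0) = Sum.inl (Ps 0 0 0)
      simp [Ps]
    rw [this]
  | succ i ih =>
    refine ih.trans ?_
    refine (reach_level i 0 24 (by positivity) le_rfl).trans ?_
    have h3 := reach_pt (ev i 0 24 (by positivity) le_rfl) _ le_rfl
    have h4 : pt (ev i 0 24 (by positivity) le_rfl) (CY.len (ev i 0 24 (by positivity) le_rfl)) =
        pt (ev (i + 1) 0 0 (by positivity) (by omega)) 0 := by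
      apply Subtype.ext
      rw [pt_len _ le_rfl, pt_zero]
      show Sum.inl (Ps i 0 25) = Sum.inl (Ps (i + 1) 0 0)
      simp [Ps]
    rw [← h4]
    exact h3

lemma exists_pt (v : Vx CY) : ∃ (e : CY.E) (t : ℕ), t ≤ CY.len e ∧ v = pt e t := by
  rcases hv : v.1 with n | p
  · have hgood : Good CY v.1 := v.2
    rw [hv] at hgood
    obtain ⟨e, he | he⟩ := hgood
    · refine ⟨e, 0, by omega, Subtype.ext ?_⟩
      rw [hv, pt_zero, he]
    · refine ⟨e, CY.len e, le_rfl, Subtype.ext ?_⟩
      rw [hv, pt_len e le_rfl, he]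
  · obtain ⟨e, t⟩ := p
    have hgood : Good CY v.1 := v.2
    rw [hv] at hgood
    obtain ⟨h1, h2⟩ := hgood
    simp only at h1 h2
    refine ⟨e, t, h2.le, Subtype.ext ?_⟩
    rw [hv, pt_mid e h1 h2]

theorem connected : (gr CY).Connected := by
  have h : ∀ v, (gr CY).Reachable rt v := by
    intro v
    obtain ⟨e, t, ht, rfl⟩ := exists_pt v
    obtain ⟨⟨i, s, l, b⟩, v1, v2, v3⟩ := e
    simp only at v1 v2
    refine SimpleGraph.Reachable.trans ?_ (reach_pt _ t ht)
    have h1 : pt (Y := CY) ⟨⟨i, s, l, b⟩, v1, v2, v3⟩ 0 = pt (ev i s l v1 v2) 0 := by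
      apply Subtype.ext
      exact (pt_zero (Y := CY) _).trans (pt_zero (Y := CY) (ev i s l v1 v2)).symm
    rw [h1]
    refine SimpleGraph.Reachable.trans ?_ (reach_level i s l v1 v2)
    rw [hub_eq i s 0 v1 (by positivity)]
    exact reach_hub i
  haveI : Nonempty (Vx CY) := ⟨rt⟩
  exact ⟨fun u v => (h u).symm.trans (h v)⟩

theorem infinite : Infinite (Vx CY) := by
  apply Infinite.of_injective (fun i : ℕ => pt (ev i 0 0 (by positivity) (by omega)) 0)
  intro i j hij
  simp only at hij
  have : (pt (ev i 0 0 (by positivity) (by omega)) 0).1 =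
      (pt (ev j 0 0 (by positivity) (by omega)) 0).1 := by rw [hij]
  rw [pt_zero, pt_zero] at this
  have h2 : Ps i 0 0 = Ps j 0 0 := Sum.inl.inj this
  simpa [Ps] using h2

theorem nbr_nonempty (v : Vx CY) : ((gr CY).neighborFinset v).Nonempty := by
  obtain ⟨e, t, ht, rfl⟩ := exists_pt v
  have h2 := CY.two_le e
  rcases Nat.lt_or_ge t (CY.len e) with h | h
  · exact ⟨pt e (t + 1), by
      rw [SimpleGraph.mem_neighborFinset]
      exact ⟨e, t, h, Or.inl ⟨rfl, rfl⟩⟩⟩
  · have : t = (t - 1) + 1 := by omega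
    exact ⟨pt e (t - 1), by
      rw [SimpleGraph.mem_neighborFinset]
      exact ⟨e, t - 1, by omega, Or.inr ⟨rfl, by rw [← this]⟩⟩⟩

end

end Pool.Agent.H575R3.Net
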