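import Mathlib
import Pool.Agent.H575R3.NetOk2

/-!
The potential.
-/

open Finset

namespace Pool.Agent.H575R3.ZZ

open Pool.Agent.H575R3.Net

noncomputable section

open Classical

def pos (x : ℕ) : ℝ := if x = 0 then 0 else if x = 25 then 225 else (x : ℝ) + 199

def RR (c : Cf) : ℝ := (if c.m ≤ 24 then 1 else 0) + (if c.ow then pos c.m - pos c.k else 0)

def ta (i : ℕ) : ℝ := (1 / 2) ^ i * (1 + (3 / 4) ^ i)
def sg (b i : ℕ) : ℝ := ta (min i b)
def eps : ℝ := (2 / 3) ^ 23 * 225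

def Fh (b i : ℕ) : ℝ := 225 * ∑ j ∈ range i, sg b j

/-- base coordinates of the walker -/
def bse (cf : ℕ → ℕ → Cf) : Wk → ℕ × ℕ × ℕ
  | Wk.hub i => (i, 0, 0)
  | Wk.rest i s x => (i, s, x)
  | Wk.out i s _ _ => (i, s, (cf i s).k)
  | Wk.inn i s _ _ => (i, s, (cf i s).m)

def RP (b N : ℕ) (cf : ℕ → ℕ → Cf) : ℝ :=
  ∑ i ∈ range N, sg b i * ∑ s ∈ range (2 ^ (i + 1)), RR (cf i s)

def wN (U : Finset Ed) (i : ℕ) : ℕ :=
  (((range (2 ^ (i + 1))) ×ˢ (univ : Finset Bool)).filter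
    (fun p : ℕ × Bool => (⟨i, p.1, 0, p.2⟩ : Ed) ∉ U)).card

def uN (U : Finset Ed) (i : ℕ) : ℕ :=
  ((range (2 ^ (i + 1))).filter (fun s => (⟨i, s, 24, false⟩ : Ed) ∉ U)).card

def qq (U : Finset Ed) : ℕ → ℝ
  | 0 => 1
  | i + 1 => 1 - (uN U i : ℝ) / 2 ^ (i + 1)

def HP (b N : ℕ) (U : Finset Ed) : ℝ := ∑ i ∈ range N, eps * sg b i * (wN U i : ℝ) * qq U i

def VP (N : ℕ) (U : Finset Ed) (v : ℕ → ℝ) : ℝ :=
  ∑ i ∈ range N, 50 * ta i * (if ¬ exh U i then 1 else if exh U (i + 1) then 0 else v i)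

def vvb (cf : ℕ → ℕ → Cf) (B : ℕ × ℕ × ℕ) (i : ℕ) : ℝ :=
  if i < B.1 then 0 else if B.1 < i then 1 else
    if B.2.2 = 0 then 1 else if (cf B.1 B.2.1).m = 25 then 1 else 1 - pos B.2.2 / 225

def PT (b : ℕ) (cf : ℕ → ℕ → Cf) : Wk → ℝ
  | Wk.out i s x j => if (cf i s).k = 0 ∧ (cf i s).m = 25 ∧ x = j then
      sg b i * ((2 / 3) ^ (24 - x) * 225) else 0
  | _ => 0

def AA (b : ℕ) (B : ℕ × ℕ × ℕ) : ℝ := Fh b B.1 + sg b B.1 * pos B.2.2

def SS (b N : ℕ) (a : St) : ℝ :=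
  AA b (bse a.cf a.w) + RP b N a.cf + HP b N a.U + VP N a.U (vvb a.cf (bse a.cf a.w)) + PT b a.cf a.w

lemma ta_pos (i : ℕ) : 0 < ta i := by unfold ta; positivity
lemma sg_pos (b i : ℕ) : 0 < sg b i := ta_pos _
lemma ta_succ (i : ℕ) : ta i = 2 * ta (i + 1) + (3 / 8) ^ i / 4 := by
  unfold ta
  have : ((3 : ℝ) / 8) ^ i = (1 / 2) ^ i * (3 / 4) ^ i := by rw [← mul_pow]; norm_num
  rw [this, pow_succ, pow_succ]
  ring
lemma ta_anti_succ (i : ℕ) : ta (i + 1) ≤ ta i := by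
  have h1 := ta_succ i
  have h2 := ta_pos (i + 1)
  have h3 : (0 : ℝ) < (3 / 8) ^ i := by positivity
  linarith
lemma ta_anti {i j : ℕ} (h : i ≤ j) : ta j ≤ ta i := antitone_nat_of_succ_le ta_anti_succ h
lemma ta_le_sg (b i : ℕ) : ta i ≤ sg b i := ta_anti (min_le_left _ _)
lemma ta_le_two (i : ℕ) : ta i ≤ 2 := by
  have := ta_anti (Nat.zero_le i)
  have h2 : ta 0 = 2 := by unfold ta; norm_num
  linarith
lemma ta_le_pow (i : ℕ) : ta i ≤ 2 * (1 / 2) ^ i := by
  unfold ta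
  have h1 : ((3 : ℝ) / 4) ^ i ≤ 1 := pow_le_one₀ (by norm_num) (by norm_num)
  have h2 : (0 : ℝ) < (1 / 2) ^ i := by positivity
  nlinarith
lemma pow_le_ta (i : ℕ) : (1 / 2) ^ i ≤ ta i := by
  unfold ta
  have h1 : (0 : ℝ) < ((3 : ℝ) / 4) ^ i := by positivity
  have h2 : (0 : ℝ) < (1 / 2) ^ i := by positivity
  nlinarith
lemma sg_le_two (b i : ℕ) : sg b i ≤ 2 := ta_le_two _
lemma sg_anti (b i : ℕ) : sg b (i + 1) ≤ sg b i := ta_anti (by omega)
lemma sg_anti' (b : ℕ) {i j : ℕ} (h : i ≤ j) : sg b j ≤ sg b i := ta_anti (by omega)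
lemma sg_eq_ta {b i : ℕ} (h : i ≤ b) : sg b i = ta i := by
  unfold sg
  rw [min_eq_left h]
lemma sg_half {b i : ℕ} (h : i + 1 ≤ b) : sg b i = 2 * sg b (i + 1) + (3 / 8) ^ i / 4 := by
  rw [sg_eq_ta h, sg_eq_ta (by omega)]
  exact ta_succ i

lemma eps_pos : 0 < eps := by unfold eps; positivity
lemma eps_le : eps ≤ 1 / 40 := by unfold eps; norm_num

lemma pos_zero : pos 0 = 0 := by simp [pos]
lemma pos_top : pos 25 = 225 := by simp [pos]
lemma pos_mid {x : ℕ} (h1 : 1 ≤ x) (h2 : x ≤ 24) : pos x = x + 199 := by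
  unfold pos
  rw [if_neg (by omega), if_neg (by omega)]
lemma pos_succ {x : ℕ} (h1 : 1 ≤ x) (h2 : x ≤ 23) : pos (x + 1) = pos x + 1 := by
  rw [pos_mid h1 (by omega), pos_mid (by omega) (by omega)]
  push_cast; ring
lemma pos_one : pos 1 = 200 := by rw [pos_mid le_rfl (by omega)]; norm_num
lemma pos_24 : pos 24 = 223 := by rw [pos_mid (by omega) le_rfl]; norm_num
lemma pos_nonneg (x : ℕ) : 0 ≤ pos x := by
  unfold pos
  split_ifs
  · exact le_rfl
  · norm_num
  · positivity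
lemma pos_le {x : ℕ} (h : x ≤ 25) : pos x ≤ 225 := by
  unfold pos
  split_ifs with h1 h2
  · norm_num
  · exact le_rfl
  · have : (x : ℝ) ≤ 24 := by exact_mod_cast (by omega : x ≤ 24)
    linarith
lemma pos_mono {x y : ℕ} (h : x ≤ y) (hy : y ≤ 25) : pos x ≤ pos y := by
  rcases Nat.eq_zero_or_pos x with h0 | h0
  · rw [h0, pos_zero]; exact pos_nonneg y
  · rcases Nat.lt_or_ge x 25 with h1 | h1
    · rcases Nat.lt_or_ge y 25 with h2 | h2
      · rw [pos_mid h0 (by omega), pos_mid (by omega) (by omega)]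
        have : (x : ℝ) ≤ y := by exact_mod_cast h
        linarith
      · have : y = 25 := by omega
        rw [this, pos_top]
        exact pos_le (by omega)
    · have h2 : x = 25 := by omega
      have h3 : y = 25 := by omega
      rw [h2, h3]

lemma RR_nonneg {c : Cf} (h : cfok c) : 0 ≤ RR c := by
  unfold RR
  apply add_nonneg
  · split_ifs <;> norm_num
  · split_ifs
    · have := pos_mono h.1 h.2.2.1
      linarith
    · exact le_rfl

lemma RP_upd {b N : ℕ} (cf : ℕ → ℕ → Cf) {i s : ℕ} (hi : i < N) (hs : s < 2 ^ (i + 1)) (c : Cf) :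
    RP b N (upd2 cf i s c) = RP b N cf + sg b i * (RR c - RR (cf i s)) := by
  unfold RP
  rw [← Finset.add_sum_erase _ _ (Finset.mem_range.mpr hi)]
  rw [← Finset.add_sum_erase (a := i) (range N) (fun i => sg b i * ∑ s ∈ range (2 ^ (i + 1)), RR (cf i s))
    (Finset.mem_range.mpr hi)]
  have h1 : ∑ x ∈ (range N).erase i, sg b x * ∑ s_1 ∈ range (2 ^ (x + 1)), RR (upd2 cf i s c x s_1) =
      ∑ x ∈ (range N).erase i, sg b x * ∑ s ∈ range (2 ^ (x + 1)), RR (cf x s) := by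
    apply Finset.sum_congr rfl
    intro x hx
    have hne := (Finset.mem_erase.mp hx).1
    congr 1
    apply Finset.sum_congr rfl
    intro s' _
    rw [upd2_ne _ _ (fun hh => hne hh.1)]
  have h2 : ∑ s_1 ∈ range (2 ^ (i + 1)), RR (upd2 cf i s c i s_1) =
      ∑ s ∈ range (2 ^ (i + 1)), RR (cf i s) + (RR c - RR (cf i s)) := by
    rw [← Finset.add_sum_erase _ _ (Finset.mem_range.mpr hs)]
    rw [← Finset.add_sum_erase (a := s) (range (2 ^ (i + 1))) (fun s => RR (cf i s))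
      (Finset.mem_range.mpr hs)]
    have h3 : ∑ x ∈ (range (2 ^ (i + 1))).erase s, RR (upd2 cf i s c i x) =
        ∑ x ∈ (range (2 ^ (i + 1))).erase s, RR (cf i x) := by
      apply Finset.sum_congr rfl
      intro s' hs'
      rw [upd2_ne _ _ (fun hh => (Finset.mem_erase.mp hs').1 hh.2)]
    rw [h3, upd2_same]
    ring
  rw [h1, h2]
  ring

lemma wN_le (U : Finset Ed) (i : ℕ) : (wN U i : ℝ) ≤ 2 * 2 ^ (i + 1) := by
  have : wN U i ≤ 2 ^ (i + 1) * 2 := by
    unfold wN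
    refine (Finset.card_filter_le _ _).trans ?_
    rw [Finset.card_product]
    simp
  have h2 : ((wN U i : ℕ) : ℝ) ≤ ((2 ^ (i + 1) * 2 : ℕ) : ℝ) := by exact_mod_cast this
  push_cast at h2
  linarith

lemma uN_le (U : Finset Ed) (i : ℕ) : (uN U i : ℝ) ≤ 2 ^ (i + 1) := by
  have : uN U i ≤ 2 ^ (i + 1) := by
    unfold uN
    refine (Finset.card_filter_le _ _).trans ?_
    simp
  exact_mod_cast this

lemma qq_nonneg (U : Finset Ed) (i : ℕ) : 0 ≤ qq U i := by
  cases i with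
  | zero => simp [qq]
  | succ i =>
    simp only [qq]
    have := uN_le U i
    rw [sub_nonneg, div_le_one (by positivity)]
    exact this

lemma qq_le (U : Finset Ed) (i : ℕ) : qq U i ≤ 1 := by
  cases i with
  | zero => simp [qq]
  | succ i =>
    simp only [qq]
    have : 0 ≤ (uN U i : ℝ) / 2 ^ (i + 1) := by positivity
    linarith

lemma HP_nonneg (b N : ℕ) (U : Finset Ed) : 0 ≤ HP b N U := by
  unfold HP
  apply Finset.sum_nonneg
  intro i _
  have := qq_nonneg U i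
  have := sg_pos b i
  have := eps_pos
  positivity

lemma wN_insert_ne {U : Finset Ed} {e : Ed} (i : ℕ) (h : ¬ (e.l = 0 ∧ e.i = i)) :
    wN (insert e U) i = wN U i := by
  unfold wN
  congr 1
  apply Finset.filter_congr
  intro p _
  rw [Finset.mem_insert]
  have : ¬ ((⟨i, p.1, 0, p.2⟩ : Ed) = e) := by
    intro hh
    apply h
    rw [← hh]
    exact ⟨rfl, rfl⟩
  simp [this]

lemma uN_insert_ne {U : Finset Ed} {e : Ed} (i : ℕ) (h : ¬ (e.l = 24 ∧ e.i = i)) :
    uN (insert e U) i = uN U i := by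
  unfold uN
  congr 1
  apply Finset.filter_congr
  intro s _
  rw [Finset.mem_insert]
  have : ¬ ((⟨i, s, 24, false⟩ : Ed) = e) := by
    intro hh
    apply h
    rw [← hh]
    exact ⟨rfl, rfl⟩
  simp [this]

lemma wN_insert {U : Finset Ed} {i s : ℕ} {b : Bool} (hs : s < 2 ^ (i + 1))
    (he : (⟨i, s, 0, b⟩ : Ed) ∉ U) : (wN (insert ⟨i, s, 0, b⟩ U) i : ℝ) = wN U i - 1 := by
  have hmem : (s, b) ∈ (((range (2 ^ (i + 1))) ×ˢ (univ : Finset Bool)).filter
      (fun p : ℕ × Bool => (⟨i, p.1, 0, p.2⟩ : Ed) ∉ U)) := by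
    rw [Finset.mem_filter, Finset.mem_product]
    exact ⟨⟨Finset.mem_range.mpr hs, Finset.mem_univ _⟩, he⟩
  have h1 : wN (insert ⟨i, s, 0, b⟩ U) i = wN U i - 1 := by
    unfold wN
    rw [← Finset.card_erase_of_mem hmem]
    congr 1
    ext p
    rw [Finset.mem_erase, Finset.mem_filter, Finset.mem_filter, Finset.mem_insert]
    simp only [Ed.mk.injEq, true_and]
    constructor
    · rintro ⟨h2, h3⟩
      push Not at h3
      refine ⟨?_, h2, h3.2⟩
      intro hp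
      rw [hp] at h3
      exact h3.1 rfl rfl
    · rintro ⟨h2, h3, h4⟩
      refine ⟨h3, ?_⟩
      rintro (h5 | h5)
      · exact h2 (Prod.ext h5.1 h5.2)
      · exact h4 h5
  have h2 : 1 ≤ wN U i := by
    unfold wN
    exact Finset.card_pos.mpr ⟨_, hmem⟩
  rw [h1, Nat.cast_sub h2]
  simp

lemma uN_insert {U : Finset Ed} {i s : ℕ} (hs : s < 2 ^ (i + 1))
    (he : (⟨i, s, 24, false⟩ : Ed) ∉ U) : (uN (insert ⟨i, s, 24, false⟩ U) i : ℝ) = uN U i - 1 := by
  have hmem : s ∈ ((range (2 ^ (i + 1))).filter (fun s => (⟨i, s, 24, false⟩ : Ed) ∉ U)) := by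
    rw [Finset.mem_filter]
    exact ⟨Finset.mem_range.mpr hs, he⟩
  have h1 : uN (insert ⟨i, s, 24, false⟩ U) i = uN U i - 1 := by
    unfold uN
    rw [← Finset.card_erase_of_mem hmem]
    congr 1
    ext p
    rw [Finset.mem_erase, Finset.mem_filter, Finset.mem_filter, Finset.mem_insert]
    simp only [Ed.mk.injEq, true_and, and_true]
    tauto
  have h2 : 1 ≤ uN U i := by
    unfold uN
    exact Finset.card_pos.mpr ⟨_, hmem⟩
  rw [h1, Nat.cast_sub h2]
  simp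

lemma qq_insert_ne {U : Finset Ed} {e : Ed} (h : e.l ≠ 24) (i : ℕ) :
    qq (insert e U) i = qq U i := by
  cases i with
  | zero => rfl
  | succ i =>
    simp only [qq]
    rw [uN_insert_ne i (fun hh => h hh.1)]

lemma HP_mid {b N : ℕ} {U : Finset Ed} {e : Ed} (h0 : e.l ≠ 0) (h24 : e.l ≠ 24) :
    HP b N (insert e U) = HP b N U := by
  unfold HP
  apply Finset.sum_congr rfl
  intro i _
  rw [wN_insert_ne i (fun hh => h0 hh.1), qq_insert_ne h24]

lemma HP_zero {b N : ℕ} {U : Finset Ed} {i s : ℕ} {c : Bool} (hi : i < N) (hs : s < 2 ^ (i + 1))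
    (he : (⟨i, s, 0, c⟩ : Ed) ∉ U) :
    HP b N (insert ⟨i, s, 0, c⟩ U) = HP b N U - eps * sg b i * qq U i := by
  unfold HP
  rw [← Finset.add_sum_erase _ _ (Finset.mem_range.mpr hi)]
  rw [← Finset.add_sum_erase (a := i) (range N) (fun i => eps * sg b i * (wN U i : ℝ) * qq U i)
    (Finset.mem_range.mpr hi)]
  have h1 : ∑ x ∈ (range N).erase i, eps * sg b x * (wN (insert ⟨i, s, 0, c⟩ U) x : ℝ) *
      qq (insert ⟨i, s, 0, c⟩ U) x = ∑ x ∈ (range N).erase i, eps * sg b x * (wN U x : ℝ) * qq U x := by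
    apply Finset.sum_congr rfl
    intro x hx
    have hne := (Finset.mem_erase.mp hx).1
    rw [wN_insert_ne x (fun hh => hne hh.2.symm), qq_insert_ne (by simp)]
  rw [h1, wN_insert hs he, qq_insert_ne (by simp)]
  ring

lemma HP_le {b N : ℕ} {U : Finset Ed} {i s l : ℕ} {c : Bool} (hi : i < N) (hs : s < 2 ^ (i + 1))
    (h24 : l ≠ 24) (he : (⟨i, s, l, c⟩ : Ed) ∉ U) :
    HP b N (insert ⟨i, s, l, c⟩ U) ≤ HP b N U := by
  by_cases h0 : l = 0
  · subst h0
    rw [HP_zero hi hs he]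
    have := qq_nonneg U i
    have := sg_pos b i
    have := eps_pos
    have : 0 ≤ eps * sg b i * qq U i := by positivity
    linarith
  · rw [HP_mid h0 h24]

lemma HP_top {b N : ℕ} {U : Finset Ed} {i s : ℕ} (hi : i + 1 < N) (hs : s < 2 ^ (i + 1))
    (he : (⟨i, s, 24, false⟩ : Ed) ∉ U) :
    HP b N (insert ⟨i, s, 24, false⟩ U) =
      HP b N U + eps * sg b (i + 1) * (wN U (i + 1) : ℝ) / 2 ^ (i + 1) := by
  unfold HP
  rw [← Finset.add_sum_erase _ _ (Finset.mem_range.mpr hi)]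
  rw [← Finset.add_sum_erase (a := i + 1) (range N)
    (fun i => eps * sg b i * (wN U i : ℝ) * qq U i) (Finset.mem_range.mpr hi)]
  have h1 : ∑ x ∈ (range N).erase (i + 1), eps * sg b x * (wN (insert ⟨i, s, 24, false⟩ U) x : ℝ) *
      qq (insert ⟨i, s, 24, false⟩ U) x =
      ∑ x ∈ (range N).erase (i + 1), eps * sg b x * (wN U x : ℝ) * qq U x := by
    apply Finset.sum_congr rfl
    intro x hx
    have hne := (Finset.mem_erase.mp hx).1
    rw [wN_insert_ne x (fun hh => by simp at hh)]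
    congr 1
    cases x with
    | zero => rfl
    | succ x =>
      simp only [qq]
      rw [uN_insert_ne x (fun hh => hne (by rw [← hh.2]))]
  rw [h1, wN_insert_ne (i + 1) (fun hh => by simp at hh)]
  simp only [qq]
  rw [uN_insert hs he]
  ring

lemma HP_top_le {b N : ℕ} {U : Finset Ed} {i s : ℕ} (hi : i + 1 < N) (hs : s < 2 ^ (i + 1))
    (he : (⟨i, s, 24, false⟩ : Ed) ∉ U) :
    HP b N (insert ⟨i, s, 24, false⟩ U) ≤ HP b N U + 4 * eps * sg b i := by
  rw [HP_top hi hs he]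
  have h1 := wN_le U (i + 1)
  have h2 := sg_anti b i
  have h3 := sg_pos b (i + 1)
  have h4 := eps_pos
  have h5 : (wN U (i + 1) : ℝ) / 2 ^ (i + 1) ≤ 4 := by
    rw [div_le_iff₀ (by positivity)]
    rw [pow_succ] at h1
    linarith
  have h6 : eps * sg b (i + 1) * (wN U (i + 1) : ℝ) / 2 ^ (i + 1) =
      eps * sg b (i + 1) * ((wN U (i + 1) : ℝ) / 2 ^ (i + 1)) := by ring
  rw [h6]
  have h7 : eps * sg b (i + 1) * ((wN U (i + 1) : ℝ) / 2 ^ (i + 1)) ≤ eps * sg b i * 4 := by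
    apply mul_le_mul _ h5 (by positivity) (by have := sg_pos b i; positivity)
    exact mul_le_mul_of_nonneg_left h2 h4.le
  linarith

lemma VP_ins {N : ℕ} {U : Finset Ed} (e : Ed) {v : ℕ → ℝ} (h0 : ∀ i, 0 ≤ v i) (h1 : ∀ i, v i ≤ 1) :
    VP N (insert e U) v ≤ VP N U v := by
  unfold VP
  apply Finset.sum_le_sum
  intro i _
  have ht := ta_pos i
  apply mul_le_mul_of_nonneg_left _ (by positivity)
  by_cases c1 : exh U i
  · have c1' := exh_mono e c1
    rw [if_neg (not_not.mpr c1'), if_neg (not_not.mpr c1)]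
    by_cases c2 : exh U (i + 1)
    · rw [if_pos c2, if_pos (exh_mono e c2)]
    · rw [if_neg c2]
      split_ifs
      · exact h0 i
      · exact le_rfl
  · rw [if_pos c1]
    split_ifs
    · norm_num
    · exact h1 i
    · exact le_rfl

/-- block activity -/
def act (U : Finset Ed) (i : ℕ) : ℝ := if exh U i ∧ ¬ exh U (i + 1) then 1 else 0

lemma act_nonneg (U : Finset Ed) (i : ℕ) : 0 ≤ act U i := by unfold act; split_ifs <;> norm_num
lemma act_le (U : Finset Ed) (i : ℕ) : act U i ≤ 1 := by unfold act; split_ifs <;> norm_num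

lemma VP_diff {N : ℕ} {U : Finset Ed} {v v' : ℕ → ℝ} {i : ℕ} (hi : i < N)
    (h : ∀ j, j ≠ i → v' j = v j) :
    VP N U v' = VP N U v + 50 * ta i * act U i * (v' i - v i) := by
  unfold VP
  rw [← Finset.add_sum_erase _ _ (Finset.mem_range.mpr hi)]
  rw [← Finset.add_sum_erase (a := i) (range N)
    (fun i => 50 * ta i * (if ¬ exh U i then 1 else if exh U (i + 1) then 0 else v i))
    (Finset.mem_range.mpr hi)]
  have h1 : ∑ x ∈ (range N).erase i, 50 * ta x *
      (if ¬ exh U x then 1 else if exh U (x + 1) then 0 else v' x) =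
      ∑ x ∈ (range N).erase i, 50 * ta x *
      (if ¬ exh U x then 1 else if exh U (x + 1) then 0 else v x) := by
    apply Finset.sum_congr rfl
    intro x hx
    rw [h x (Finset.mem_erase.mp hx).1]
  rw [h1]
  unfold act
  by_cases c1 : exh U i
  · by_cases c2 : exh U (i + 1)
    · simp [c1, c2]
    · simp [c1, c2]; ring
  · simp [c1]

lemma vvb_nonneg {cf : ℕ → ℕ → Cf} {B : ℕ × ℕ × ℕ} (hB : B.2.2 ≤ 25) (i : ℕ) :
    0 ≤ vvb cf B i := by
  unfold vvb
  split_ifs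
  · exact le_rfl
  · norm_num
  · norm_num
  · norm_num
  · have := pos_le hB
    rw [sub_nonneg, div_le_one (by norm_num)]
    exact this

lemma vvb_le {cf : ℕ → ℕ → Cf} {B : ℕ × ℕ × ℕ} (i : ℕ) : vvb cf B i ≤ 1 := by
  unfold vvb
  split_ifs
  · norm_num
  · exact le_rfl
  · exact le_rfl
  · exact le_rfl
  · have := pos_nonneg B.2.2
    have : 0 ≤ pos B.2.2 / 225 := by positivity
    linarith

lemma Fh_succ (b i : ℕ) : Fh b (i + 1) = Fh b i + 225 * sg b i := by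
  unfold Fh
  rw [Finset.sum_range_succ]
  ring

end

end Pool.Agent.H575R3.ZZ
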