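import Mathlib
import Pool.Agent.H575R3.ZPot

/-!
Increments of the potential at greedy steps.
-/

open Finset

namespace Pool.Agent.H575R3.ZZ

open Pool.Agent.H575R3.Net

noncomputable section

open Classical

lemma vvb_ne {cf : ℕ → ℕ → Cf} {i s x j : ℕ} (h : j ≠ i) :
    vvb cf (i, s, x) j = if j < i then 0 else 1 := by
  unfold vvb
  simp only
  split_ifs <;> first | rfl | omega

lemma vvb_self {cf : ℕ → ℕ → Cf} {i s x : ℕ} :
    vvb cf (i, s, x) i = if x = 0 then 1 else if (cf i s).m = 25 then 1 else 1 - pos x / 225 := by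
  unfold vvb
  simp

lemma vvb_same {cf cf' : ℕ → ℕ → Cf} {i s s' x x' j : ℕ} (h : j ≠ i) :
    vvb cf' (i, s', x') j = vvb cf (i, s, x) j := by
  rw [vvb_ne h, vvb_ne h]

lemma vvb_up {cf cf' : ℕ → ℕ → Cf} {i s x j : ℕ} (h : j ≠ i) :
    vvb cf' (i + 1, 0, 0) j = vvb cf (i, s, x) j := by
  rw [vvb_ne h]
  by_cases h1 : j = i + 1
  · subst h1
    rw [vvb_self, if_pos rfl, if_neg (by omega)]
  · rw [vvb_ne h1]
    split_ifs <;> first | rfl | omega

lemma vvb_up_self {cf : ℕ → ℕ → Cf} {i : ℕ} : vvb cf (i + 1, 0, 0) i = 0 := by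
  rw [vvb_ne (by omega), if_pos (by omega)]

lemma VPb {N : ℕ} {U : Finset Ed} {v v' : ℕ → ℝ} {i : ℕ} (e : Ed) (hi : i < N)
    (h0 : ∀ i, 0 ≤ v' i) (h1 : ∀ i, v' i ≤ 1) (h : ∀ j, j ≠ i → v' j = v j) :
    VP N (insert e U) v' ≤ VP N U v + 50 * ta i * act U i * (v' i - v i) := by
  rw [← VP_diff hi h]
  exact VP_ins e h0 h1

lemma act_zero {U : Finset Ed} {i s : ℕ} {c : Bool} (hv : EdV ⟨i, s, 0, c⟩)
    (he : (⟨i, s, 0, c⟩ : Ed) ∉ U) : act U i = 0 := by
  unfold act
  rw [if_neg]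
  rintro ⟨h1, _⟩
  exact he (h1 _ (mem_hub0 hv))

lemma PT_hub (b : ℕ) (cf : ℕ → ℕ → Cf) (i : ℕ) : PT b cf (Wk.hub i) = 0 := rfl
lemma PT_rest (b : ℕ) (cf : ℕ → ℕ → Cf) (i s x : ℕ) : PT b cf (Wk.rest i s x) = 0 := rfl
lemma PT_inn (b : ℕ) (cf : ℕ → ℕ → Cf) (i s x j : ℕ) : PT b cf (Wk.inn i s x j) = 0 := rfl
lemma PT_hubOr (b : ℕ) (cf : ℕ → ℕ → Cf) (i s x : ℕ) : PT b cf (hubOr i s x) = 0 := by
  unfold hubOr; split_ifs <;> rfl

lemma PT_nonneg (b : ℕ) (cf : ℕ → ℕ → Cf) (w : Wk) : 0 ≤ PT b cf w := by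
  cases w with
  | out i s x j =>
    unfold PT
    simp only
    have := sg_pos b i
    split_ifs
    · positivity
    · exact le_rfl
  | hub i => exact le_rfl
  | rest i s x => exact le_rfl
  | inn i s j x => exact le_rfl

/-- base of `hubOr` -/
lemma AA_hubOr (b : ℕ) (cf : ℕ → ℕ → Cf) (i s x : ℕ) :
    AA b (bse cf (hubOr i s x)) = Fh b i + sg b i * pos x := by
  unfold hubOr
  split_ifs with h
  · subst h
    simp [AA, bse, pos_zero]
  · simp [AA, bse]

lemma vv_hubOr {cf cf' : ℕ → ℕ → Cf} {i s x s' x' j : ℕ} (h : j ≠ i) :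
    vvb cf' (bse cf' (hubOr i s x)) j = vvb cf (i, s', x') j := by
  unfold hubOr
  split_ifs
  · exact vvb_same h
  · exact vvb_same h

lemma vv_hubOr_self {cf : ℕ → ℕ → Cf} {i s x : ℕ} :
    vvb cf (bse cf (hubOr i s x)) i =
      if x = 0 then 1 else if (cf i s).m = 25 then 1 else 1 - pos x / 225 := by
  unfold hubOr
  split_ifs with h1 h2
  · show vvb cf (i, 0, 0) i = 1
    rw [vvb_self, if_pos rfl]
  · show vvb cf (i, s, x) i = 1
    rw [vvb_self, if_neg h1, if_pos h2]
  · show vvb cf (i, s, x) i = _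
    rw [vvb_self, if_neg h1, if_neg h2]

lemma vv_hubOr_nonneg {cf : ℕ → ℕ → Cf} {i s x : ℕ} (hx : x ≤ 25) (j : ℕ) :
    0 ≤ vvb cf (bse cf (hubOr i s x)) j := by
  apply vvb_nonneg
  unfold hubOr
  split_ifs
  · simp [bse]
  · simpa [bse] using hx

variable {b N : ℕ}

theorem inc_hub_out {cf : ℕ → ℕ → Cf} {U : Finset Ed} {i s : ℕ} {c : Bool}
    (h : okS ⟨cf, Wk.hub i, U⟩) (hv : EdV ⟨i, s, 0, c⟩) (he : (⟨i, s, 0, c⟩ : Ed) ∉ U)
    (hN : i + 1 < N) :
    SS b N (nxtS ⟨cf, Wk.hub i, U⟩ ⟨i, s, 0, c⟩) - SS b N ⟨cf, Wk.hub i, U⟩ ≤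
      eps * sg b i * (1 - qq U i) := by
  have hlt := cnt_lt h hv he
  rw [h.n _ _ _ hv.1 hv.2.1] at hlt
  simp only [profW] at hlt
  have hcf : cfok (cf i s) := h.c i s
  have hk : (cf i s).k = 0 ∧ 1 ≤ (cf i s).m := by
    unfold sp cap at hlt
    constructor
    · by_contra hc; rw [if_pos (Or.inl (by omega))] at hlt; omega
    · by_contra hc; rw [if_pos (Or.inr (by omega))] at hlt; omega
  have hact := act_zero hv he
  have hsg := sg_pos b i
  have hep := eps_pos
  unfold nxtS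
  rw [if_neg he]
  have hs : s < 2 ^ (i + 1) := hv.1
  by_cases how : (cf i s).ow = true
  · have hmv : gMove ⟨cf, Wk.hub i, U⟩ ⟨i, s, 0, c⟩ =
        (upd2 cf i s ⟨1, (cf i s).m, true⟩, Wk.rest i s 1) := by
      simp [gMove, how]
    rw [hmv]
    simp only [SS, PT_hub, PT_rest, bse, AA]
    rw [RP_upd cf (by omega) hs, HP_zero (by omega) hs he]
    have hV := VPb (N := N) (U := U) (v := vvb cf (i, 0, 0))
      (v' := vvb (upd2 cf i s ⟨1, (cf i s).m, true⟩) (i, s, 1)) (i := i) ⟨i, s, 0, c⟩ (by omega)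
      (fun j => vvb_nonneg (by simp) j) (fun j => vvb_le j) (fun j hj => vvb_same hj)
    rw [hact] at hV
    have hRR : RR ⟨1, (cf i s).m, true⟩ - RR (cf i s) = -200 := by
      unfold RR
      simp only [how, hk.1, pos_one, pos_zero]
      simp
    rw [hRR, pos_one, pos_zero]
    nlinarith [mul_pos hep hsg]
  · have hmv : gMove ⟨cf, Wk.hub i, U⟩ ⟨i, s, 0, c⟩ = (cf, Wk.out i s 1 1) := by
      simp [gMove, how]
    rw [hmv]
    simp only [SS, PT_hub, bse, AA]
    rw [HP_zero (by omega) hs he, hk.1]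
    have hV := VPb (N := N) (U := U) (v := vvb cf (i, 0, 0))
      (v' := vvb cf (i, s, 0)) (i := i) ⟨i, s, 0, c⟩ (by omega)
      (fun j => vvb_nonneg (by simp) j) (fun j => vvb_le j) (fun j hj => vvb_same hj)
    rw [hact] at hV
    have hPT : PT b cf (Wk.out i s 1 1) ≤ eps * sg b i := by
      unfold PT
      simp only
      split_ifs
      · unfold eps
        have : (24 - 1 : ℕ) = 23 := rfl
        rw [this]
        linarith
      · positivity
    nlinarith [mul_pos hep hsg]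

theorem inc_hub_in {cf : ℕ → ℕ → Cf} {U : Finset Ed} {i s : ℕ}
    (h : okS ⟨cf, Wk.hub (i + 1), U⟩) (hv : EdV ⟨i, s, 24, false⟩)
    (he : (⟨i, s, 24, false⟩ : Ed) ∉ U) (hN : i + 1 < N) :
    SS b N (nxtS ⟨cf, Wk.hub (i + 1), U⟩ ⟨i, s, 24, false⟩) - SS b N ⟨cf, Wk.hub (i + 1), U⟩ ≤
      -(5 / 9) * sg b i + eps * sg b (i + 1) * (wN U (i + 1) : ℝ) / 2 ^ (i + 1) := by
  have hlt := cnt_lt h hv he
  rw [h.n _ _ _ hv.1 hv.2.1] at hlt
  simp only [profW] at hlt
  have hcf : cfok (cf i s) := h.c i s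
  have hk : (cf i s).m = 25 ∧ (cf i s).ow = false := by
    unfold sp cap at hlt
    have h5 : ¬ (24 < (cf i s).k ∨ (cf i s).m ≤ 24) := by
      intro hc; rw [if_pos hc] at hlt; omega
    have h6 : (cf i s).m = 25 := by have := hcf.2.2.1; omega
    refine ⟨h6, ?_⟩
    by_contra hc
    have := hcf.2.2.2 (by simpa using hc)
    omega
  have hsg := sg_pos b i
  unfold nxtS
  rw [if_neg he]
  have hs : s < 2 ^ (i + 1) := hv.1
  have hmv : gMove ⟨cf, Wk.hub (i + 1), U⟩ ⟨i, s, 24, false⟩ =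
      (upd2 cf i s ⟨(cf i s).k, 24, false⟩, Wk.rest i s 24) := by
    simp [gMove]
  rw [hmv]
  simp only [SS, PT_hub, PT_rest, bse, AA]
  rw [RP_upd cf (by omega) hs, HP_top hN hs he]
  have hV := VPb (N := N) (U := U) (v := vvb cf (i + 1, 0, 0))
    (v' := vvb (upd2 cf i s ⟨(cf i s).k, 24, false⟩) (i, s, 24)) (i := i) ⟨i, s, 24, false⟩ (by omega)
    (fun j => vvb_nonneg (by simp) j) (fun j => vvb_le j) (fun j hj => (vvb_up hj).symm)
  have hv1 : vvb (upd2 cf i s ⟨(cf i s).k, 24, false⟩) (i, s, 24) i = 2 / 225 := by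
    rw [vvb_self, upd2_same, if_neg (by omega), if_neg (by simp), pos_24]
    norm_num
  rw [hv1, vvb_up_self] at hV
  have hRR : RR ⟨(cf i s).k, 24, false⟩ - RR (cf i s) = 1 := by
    unfold RR
    simp [hk.1, hk.2]
  rw [hRR, pos_24, pos_zero, Fh_succ]
  have hta := ta_le_sg b i
  have hta0 := ta_pos i
  have ha := act_le U i
  have ha0 := act_nonneg U i
  have h5 : 50 * ta i * act U i * (2 / 225 - 0) ≤ 4 / 9 * sg b i := by
    have : ta i * act U i ≤ sg b i * 1 := mul_le_mul hta ha ha0 hsg.le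
    nlinarith
  linarith

theorem inc_rest {cf : ℕ → ℕ → Cf} {U : Finset Ed} {i s x : ℕ} {e : Ed}
    (h : okS ⟨cf, Wk.rest i s x, U⟩) (hv : EdV e) (he : e ∉ U)
    (hinc : e ∈ rawinc (Nd.nd i s x)) (hN : i + 1 < N) (hb : ∀ j, exh U j → j ≤ b) :
    SS b N (nxtS ⟨cf, Wk.rest i s x, U⟩ e) - SS b N ⟨cf, Wk.rest i s x, U⟩ ≤ 0 := by
  have hlt := cnt_lt h hv he
  rw [h.n _ _ _ hv.1 hv.2.1] at hlt
  simp only [profW] at hlt
  have hw := h.w
  simp only [wok] at hw
  obtain ⟨i0, s0, l0, c0⟩ := e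
  obtain ⟨hi, hss, hx1, hx2, hl⟩ := nd_mem hv hinc
  simp only at hi hss hl hlt
  subst hi; subst hss
  have hcf : cfok (cf i0 s0) := h.c i0 s0
  obtain ⟨w1, w2, w3, w4, w5⟩ := hw
  have hz : ¬ (l0 < (cf i0 s0).k ∨ (cf i0 s0).m ≤ l0) := by
    intro hc
    unfold sp at hlt
    rw [if_pos hc] at hlt; omega
  have hsg := sg_pos b i0
  have hta := ta_le_sg b i0
  have hta0 := ta_pos i0
  have ha := act_le U i0
  have ha0 := act_nonneg U i0
  have hep := eps_pos
  have hep2 := eps_le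
  unfold nxtS
  rw [if_neg he]
  rcases hl with hl | hl
  · subst hl
    have hxk : l0 = (cf i0 s0).k := by omega
    by_cases how : (cf i0 s0).ow = true
    · have hmv : gMove ⟨cf, Wk.rest i0 s0 l0, U⟩ ⟨i0, s0, l0, c0⟩ =
          (upd2 cf i0 s0 ⟨l0 + 1, (cf i0 s0).m, true⟩, Wk.rest i0 s0 (l0 + 1)) := by
        simp [gMove, how]
      have hm24 := hcf.2.2.2 how
      rw [hmv]
      simp only [SS, PT_rest, bse, AA]
      have hHP := HP_mid (b := b) (N := N) (U := U) (e := ⟨i0, s0, l0, c0⟩)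
        (by simp only; omega) (by simp only; omega)
      rw [RP_upd cf (by omega) w1, hHP]
      have hV := VPb (N := N) (U := U) (v := vvb cf (i0, s0, l0))
        (v' := vvb (upd2 cf i0 s0 ⟨l0 + 1, (cf i0 s0).m, true⟩) (i0, s0, l0 + 1)) (i := i0)
        ⟨i0, s0, l0, c0⟩ (by omega)
        (fun j => vvb_nonneg (by simp only; omega) j) (fun j => vvb_le j) (fun j hj => vvb_same hj)
      have hp := pos_succ (x := l0) w2 (by omega)
      rw [vvb_self, vvb_self, upd2_same, if_neg (by omega), if_neg (by simp only; omega),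
        if_neg (by omega), if_neg (by omega), hp] at hV
      have hRR : RR ⟨l0 + 1, (cf i0 s0).m, true⟩ - RR (cf i0 s0) = -1 := by
        unfold RR
        simp only [how, ← hxk, hp]
        simp
      rw [hRR, hp]
      have h5 : 50 * ta i0 * act U i0 * (1 - (pos l0 + 1) / 225 - (1 - pos l0 / 225)) ≤ 0 := by
        have : 1 - (pos l0 + 1) / 225 - (1 - pos l0 / 225) = -(1 / 225) := by ring
        rw [this]
        have : 0 ≤ 50 * ta i0 * act U i0 := by positivity
        nlinarith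
      linarith
    · have how' : (cf i0 s0).ow = false := by simpa using how
      by_cases hx24 : l0 = 24
      · have hmv : gMove ⟨cf, Wk.rest i0 s0 l0, U⟩ ⟨i0, s0, l0, c0⟩ =
            (upd2 cf i0 s0 ⟨24, 24, false⟩, Wk.hub (i0 + 1)) := by
          simp [gMove, how, hx24]
        have hm25 : (cf i0 s0).m = 25 := by have := hcf.2.2.1; omega
        have hc0 : c0 = false := hv.2.2 hx24
        rw [hmv]
        simp only [SS, PT_rest, PT_hub, bse, AA]
        subst hx24
        subst hc0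
        have hHP := HP_top_le (b := b) hN w1 he
        rw [RP_upd cf (by omega) w1]
        have hV := VPb (N := N) (U := U) (v := vvb cf (i0, s0, 24))
          (v' := vvb (upd2 cf i0 s0 ⟨24, 24, false⟩) (i0 + 1, 0, 0)) (i := i0)
          ⟨i0, s0, 24, false⟩ (by omega)
          (fun j => vvb_nonneg (by simp) j) (fun j => vvb_le j) (fun j hj => vvb_up hj)
        rw [vvb_up_self, vvb_self, if_neg (by omega), if_pos hm25] at hV
        have hex := w5 hm25
        have hact : act U i0 = 1 := by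
          unfold act
          rw [if_pos]
          exact ⟨hex, fun hc => he (hc _ (mem_hub24 hv))⟩
        have hst := sg_eq_ta (hb i0 hex)
        rw [hact, ← hst] at hV
        have hRR : RR ⟨24, 24, false⟩ - RR (cf i0 s0) = 1 := by
          unfold RR
          simp [hm25, how']
        rw [hRR, pos_24, pos_zero, Fh_succ]
        have h7 : eps * sg b i0 ≤ 1 / 40 * sg b i0 := mul_le_mul_of_nonneg_right hep2 hsg.le
        nlinarith
      · have hmv : gMove ⟨cf, Wk.rest i0 s0 l0, U⟩ ⟨i0, s0, l0, c0⟩ =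
            (cf, Wk.out i0 s0 (l0 + 1) (l0 + 1)) := by
          simp [gMove, how, hx24]
        rw [hmv]
        simp only [SS, PT_rest, bse, AA]
        have hHP := HP_mid (b := b) (N := N) (U := U) (e := ⟨i0, s0, l0, c0⟩)
          (by simp only; omega) (by simp only; omega)
        rw [hHP, ← hxk]
        have hV := VP_ins (N := N) (U := U) ⟨i0, s0, l0, c0⟩ (v := vvb cf (i0, s0, l0))
          (fun j => vvb_nonneg (by simp only; omega) j) (fun j => vvb_le j)
        have hPT : PT b cf (Wk.out i0 s0 (l0 + 1) (l0 + 1)) = 0 := by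
          unfold PT
          simp only
          rw [if_neg]
          omega
        rw [hPT]
        linarith
  · subst hl
    have hxm : l0 + 1 = (cf i0 s0).m := by omega
    have hne : l0 ≠ l0 + 1 := by omega
    have hHP := HP_le (b := b) (N := N) (by omega : i0 < N) w1 (by omega : l0 ≠ 24) he
    have hpm := pos_mono (x := l0) (y := l0 + 1) (by omega) (by omega)
    by_cases how : (cf i0 s0).ow = true
    · have hmv : gMove ⟨cf, Wk.rest i0 s0 (l0 + 1), U⟩ ⟨i0, s0, l0, c0⟩ =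
          (upd2 cf i0 s0 ⟨(cf i0 s0).k, l0, true⟩, hubOr i0 s0 l0) := by
        simp [gMove, how]
      have hm24 := hcf.2.2.2 how
      rw [hmv]
      simp only [SS, PT_rest, PT_hubOr, AA_hubOr]
      rw [RP_upd cf (by omega) w1]
      have hV := VPb (N := N) (U := U) (v := vvb cf (i0, s0, l0 + 1))
        (v' := vvb (upd2 cf i0 s0 ⟨(cf i0 s0).k, l0, true⟩)
          (bse (upd2 cf i0 s0 ⟨(cf i0 s0).k, l0, true⟩) (hubOr i0 s0 l0))) (i := i0)
        ⟨i0, s0, l0, c0⟩ (by omega)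
        (fun j => vv_hubOr_nonneg (by omega) j) (fun j => vvb_le j) (fun j hj => vv_hubOr hj)
      rw [vv_hubOr_self, vvb_self, if_neg (by omega : ¬ l0 + 1 = 0),
        if_neg (by omega : ¬ (cf i0 s0).m = 25), upd2_same] at hV
      have hv2 : (if l0 = 0 then (1 : ℝ) else if (⟨(cf i0 s0).k, l0, true⟩ : Cf).m = 25 then 1
          else 1 - pos l0 / 225) = 1 - pos l0 / 225 := by
        split_ifs with g1 g2
        · rw [g1, pos_zero]; norm_num
        · simp only at g2; omega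
        · rfl
      rw [hv2] at hV
      have hRR : RR ⟨(cf i0 s0).k, l0, true⟩ - RR (cf i0 s0) = pos l0 - pos (l0 + 1) := by
        unfold RR
        simp only [how, ← hxm]
        rw [if_pos (by omega : l0 ≤ 24), if_pos (by omega : l0 + 1 ≤ 24)]
        simp
      rw [hRR]
      show _ - (Fh b i0 + sg b i0 * pos (l0 + 1) + RP b N cf + HP b N U +
        VP N U (vvb cf (i0, s0, l0 + 1)) + 0) ≤ 0
      have h5 : 50 * ta i0 * act U i0 * (1 - pos l0 / 225 - (1 - pos (l0 + 1) / 225)) ≤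
          (2 / 9) * (sg b i0 * (pos (l0 + 1) - pos l0)) := by
        have e1 : 50 * ta i0 * act U i0 * (1 - pos l0 / 225 - (1 - pos (l0 + 1) / 225)) =
            (2 / 9) * ((ta i0 * act U i0) * (pos (l0 + 1) - pos l0)) := by ring
        rw [e1]
        have e2 : ta i0 * act U i0 ≤ sg b i0 * 1 := mul_le_mul hta ha ha0 hsg.le
        rw [mul_one] at e2
        have e3 := mul_le_mul_of_nonneg_right e2 (sub_nonneg.mpr hpm)
        linarith
      have h6 : 0 ≤ sg b i0 * (pos (l0 + 1) - pos l0) := mul_nonneg hsg.le (sub_nonneg.mpr hpm)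
      nlinarith
    · have how' : (cf i0 s0).ow = false := by simpa using how
      by_cases hx1' : l0 = 0
      · have hmv : gMove ⟨cf, Wk.rest i0 s0 (l0 + 1), U⟩ ⟨i0, s0, l0, c0⟩ =
            (upd2 cf i0 s0 ⟨0, 1, true⟩, Wk.hub i0) := by
          simp [gMove, how, hx1']
        rw [hmv]
        subst hx1'
        simp only [SS, PT_rest, PT_hub, bse, AA]
        rw [RP_upd cf (by omega) w1]
        have hact := act_zero hv he
        have hV := VPb (N := N) (U := U) (v := vvb cf (i0, s0, 0 + 1))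
          (v' := vvb (upd2 cf i0 s0 ⟨0, 1, true⟩) (i0, 0, 0)) (i := i0)
          ⟨i0, s0, 0, c0⟩ (by omega)
          (fun j => vvb_nonneg (by simp) j) (fun j => vvb_le j) (fun j hj => vvb_same hj)
        rw [hact] at hV
        have hRR : RR ⟨0, 1, true⟩ - RR (cf i0 s0) = 200 := by
          unfold RR
          simp only [how', ← hxm, pos_one, pos_zero]
          norm_num
        rw [hRR, pos_zero]
        have : pos (0 + 1) = 200 := pos_one
        rw [this]
        linarith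
      · have hmv : gMove ⟨cf, Wk.rest i0 s0 (l0 + 1), U⟩ ⟨i0, s0, l0, c0⟩ =
            (cf, Wk.inn i0 s0 l0 l0) := by
          simp [gMove, how, hx1']
        rw [hmv]
        simp only [SS, PT_rest, PT_inn, bse, AA]
        rw [← hxm]
        have hV := VP_ins (N := N) (U := U) ⟨i0, s0, l0, c0⟩ (v := vvb cf (i0, s0, l0 + 1))
          (fun j => vvb_nonneg (by simp only; omega) j) (fun j => vvb_le j)
        linarith

end

end Pool.Agent.H575R3.ZZ
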