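import Mathlib
import Pool.Agent.H575R3.ZBound

/-!
The chain of hubs with additional direct connections between hubs.
-/

open Finset

namespace Pool.Agent.H575R3.ZZ

open Pool.Agent.H575R3.Net

noncomputable section

open Classical

/-- the additional connections -/
structure Up where
  up : ℕ → Finset ℕ
  lt : ∀ i, ∀ j ∈ up i, i < j
  z : up 0 = ∅
  E : ∀ i, 22500 * ∑ j ∈ up (i + 1), ((j : ℝ) - ((i + 1 : ℕ) : ℝ)) ≤ (3 / 2) ^ i

variable (u : Up)

def Xv (x : ℕ × ℕ) : Prop := x.2 ∈ u.up x.1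

def xinc : Nd → Finset (ℕ × ℕ)
  | Nd.hub i => (u.up i).image (fun j => (i, j)) ∪
      ((range i).filter (fun k => i ∈ u.up k)).image (fun k => (k, i))
  | Nd.nd _ _ _ => ∅

lemma mem_xinc (n : Nd) (x : ℕ × ℕ) (hx : Xv u x) :
    x ∈ xinc u n ↔ Nd.hub x.1 = n ∨ Nd.hub x.2 = n := by
  obtain ⟨p, q⟩ := x
  have hx' : q ∈ u.up p := hx
  have hlt := u.lt p q hx'
  cases n with
  | hub i =>
    simp only [xinc, Finset.mem_union, Finset.mem_image, Finset.mem_filter, Finset.mem_range,
      Prod.mk.injEq, Nd.hub.injEq]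
    constructor
    · rintro (⟨j, _, h1, _⟩ | ⟨k, _, _, h1⟩)
      · exact Or.inl h1.symm
      · exact Or.inr h1.symm
    · rintro (h | h)
      · subst h
        exact Or.inl ⟨q, hx', rfl, rfl⟩
      · subst h
        exact Or.inr ⟨p, ⟨hlt, hx'⟩, rfl, rfl⟩
  | nd i s x =>
    simp [xinc]

def CZ : Sys where
  N := Nd
  E := {e : Ed // EdV e} ⊕ {x : ℕ × ℕ // Xv u x}
  decN := inferInstance
  decE := inferInstance
  src e := match e with
    | Sum.inl e => Ps e.1.i e.1.s e.1.l
    | Sum.inr x => Nd.hub x.1.1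
  dst e := match e with
    | Sum.inl e => Ps e.1.i e.1.s (e.1.l + 1)
    | Sum.inr x => Nd.hub x.1.2
  len e := match e with
    | Sum.inl e => if e.1.l = 0 then 400 else 2
    | Sum.inr _ => 2
  two_le e := by
    rcases e with e | x
    · simp only; split_ifs <;> omega
    · exact le_rfl
  ne e := by
    rcases e with e | x
    · exact CY.ne e
    · simp only [ne_eq, Nd.hub.injEq]
      have := u.lt x.1.1 x.1.2 x.2
      omega
  inc n := ((rawinc n).subtype EdV).disjSum ((xinc u n).subtype (Xv u))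
  mem_inc n e := by
    rcases e with e | x
    · rw [Finset.inl_mem_disjSum, Finset.mem_subtype]
      exact mem_rawinc n e.1 e.2
    · rw [Finset.inr_mem_disjSum, Finset.mem_subtype]
      exact mem_xinc u n x.1 x.2

abbrev AZ := St × Finset (ℕ × ℕ)

def usedZ (a : AZ) (e : (CZ u).E) : Prop :=
  match e with
  | Sum.inl e => e.1 ∈ a.1.U
  | Sum.inr x => x.1 ∈ a.2

def hop (n : Nd) (x : ℕ × ℕ) : ℕ := if Nd.hub x.1 = n then x.2 else x.1

def nxtX (a : AZ) (x : ℕ × ℕ) : AZ :=
  (⟨a.1.cf, Wk.hub (hop (nodeW a.1.w) x), a.1.U⟩, insert x a.2)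

def nxtZ (a : AZ) (e : (CZ u).E) : AZ :=
  match e with
  | Sum.inl e => (nxtS a.1 e.1, a.2)
  | Sum.inr x => nxtX a x.1

lemma okS_hub {cf : ℕ → ℕ → Cf} {k : ℕ} {U : Finset Ed} (h : okS ⟨cf, Wk.hub k, U⟩) (j : ℕ) :
    okS ⟨cf, Wk.hub j, U⟩ := ⟨h.c, h.v, h.n, trivial⟩

lemma hub_of_node {w : Wk} {k : ℕ} (h : nodeW w = Nd.hub k) : w = Wk.hub k := by
  cases w with
  | hub i => simp only [nodeW, Nd.hub.injEq] at h; rw [h]
  | rest i s x => simp [nodeW] at h
  | out i s x j => simp [nodeW] at h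
  | inn i s j x => simp [nodeW] at h

lemma ok_nxtX {a : AZ} (h : okS a.1) {x : ℕ × ℕ} (hv : Xv u x) (hx : x ∈ xinc u (nodeW a.1.w)) :
    okS (nxtX a x).1 := by
  obtain ⟨⟨cf, w, U⟩, UX⟩ := a
  rw [mem_xinc u _ _ hv] at hx
  rcases hx with hx | hx
  · have := hub_of_node hx.symm
    simp only at this
    subst this
    exact okS_hub h _
  · have := hub_of_node hx.symm
    simp only at this
    subst this
    exact okS_hub h _

lemma node_nxtX (a : AZ) (x : {x // Xv u x}) :
    nodeW (nxtX a x.1).1.w = other (Y := CZ u) (Sum.inr x) (nodeW a.1.w) := by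
  show Nd.hub (hop (nodeW a.1.w) x.1) = _
  unfold other hop
  by_cases hh : Nd.hub x.1.1 = nodeW a.1.w
  · rw [if_pos hh]
    exact (if_pos (show (CZ u).src (Sum.inr x) = nodeW a.1.w from hh)).symm
  · rw [if_neg hh]
    exact (if_neg (show ¬ (CZ u).src (Sum.inr x) = nodeW a.1.w from hh)).symm

def CMZ : Mach (CZ u) where
  A := AZ
  node a := nodeW a.1.w
  used a e := usedZ u a e
  nxt a e := nxtZ u a e
  ok a := okS a.1
  ini := (iniS, ∅)
  ok_ini := iniS_ok
  used_ini e := by
    rcases e with e | x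
    · simp [usedZ, iniS]
    · simp [usedZ]
  gre a e h hinc hu := by
    rcases e with e | x
    · have hinc' : e ∈ CY.inc (nodeW a.1.w) := Finset.inl_mem_disjSum.mp hinc
      obtain ⟨g1, g2, g3⟩ := CM.gre a.1 e h hinc' hu
      refine ⟨g1, g2, ?_⟩
      intro f
      rcases f with f | y
      · constructor
        · intro hh
          rcases (g3 f).mp hh with hh | hh
          · exact Or.inl hh
          · exact Or.inr (congrArg Sum.inl hh)
        · rintro (hh | hh)
          · exact (g3 f).mpr (Or.inl hh)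
          · exact (g3 f).mpr (Or.inr (Sum.inl.inj hh))
      · show y.1 ∈ a.2 ↔ _
        constructor
        · intro hy; exact Or.inl hy
        · rintro (hy | hy)
          · exact hy
          · cases hy
    · have hinc' : x.1 ∈ xinc u (nodeW a.1.w) := Finset.mem_subtype.mp (Finset.inr_mem_disjSum.mp hinc)
      refine ⟨ok_nxtX u h x.2 hinc', node_nxtX u a x, ?_⟩
      · intro f
        rcases f with f | y
        · show f.1 ∈ a.1.U ↔ _
          constructor
          · intro hy; exact Or.inl hy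
          · rintro (hy | hy)
            · exact hy
            · cases hy
        · show y.1 ∈ insert x.1 a.2 ↔ y.1 ∈ a.2 ∨ _
          rw [Finset.mem_insert]
          constructor
          · rintro (hy | hy)
            · exact Or.inr (congrArg Sum.inr (Subtype.ext hy))
            · exact Or.inl hy
          · rintro (hy | hy)
            · exact Or.inr hy
            · exact Or.inl (congrArg Subtype.val (Sum.inr.inj hy))
  srw a e h hall hinc := by
    have hall' : ∀ f ∈ CY.inc (nodeW a.1.w), CM.used a.1 f := fun f hf =>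
      hall (Sum.inl f) (Finset.inl_mem_disjSum.mpr hf)
    rcases e with e | x
    · have hinc' : e ∈ CY.inc (nodeW a.1.w) := Finset.inl_mem_disjSum.mp hinc
      obtain ⟨g1, g2, g3⟩ := CM.srw a.1 e h hall' hinc'
      refine ⟨g1, g2, ?_⟩
      intro f
      rcases f with f | y
      · exact g3 f
      · exact Iff.rfl
    · have hinc' : x.1 ∈ xinc u (nodeW a.1.w) := Finset.mem_subtype.mp (Finset.inr_mem_disjSum.mp hinc)
      have hu : x.1 ∈ a.2 := hall (Sum.inr x) hinc
      refine ⟨ok_nxtX u h x.2 hinc', node_nxtX u a x, ?_⟩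
      · intro f
        rcases f with f | y
        · exact Iff.rfl
        · show y.1 ∈ insert x.1 a.2 ↔ y.1 ∈ a.2
          rw [Finset.insert_eq_of_mem hu]

/-! the potential -/

variable {u}

lemma Fh_mono_diff (b : ℕ) {i j : ℕ} (h : i ≤ j) :
    0 ≤ Fh b j - Fh b i ∧ Fh b j - Fh b i ≤ 225 * ((j : ℝ) - i) * sg b i := by
  induction j, h using Nat.le_induction with
  | base => simp
  | succ j hj ih =>
    have h1 := Fh_succ b j
    have h2 := sg_pos b j
    have h3 := sg_anti' b hj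
    push_cast
    constructor
    · linarith [ih.1]
    · have : 225 * ((j : ℝ) + 1 - i) * sg b i = 225 * ((j : ℝ) - i) * sg b i + 225 * sg b i := by ring
      rw [this]
      linarith [ih.2]

variable (u)

def XW (b : ℕ) (UX : Finset (ℕ × ℕ)) (i : ℕ) : ℝ :=
  ∑ j ∈ u.up i, (if (i, j) ∉ UX then Fh b j - Fh b i else 0)

def XP (b N : ℕ) (U : Finset Ed) (UX : Finset (ℕ × ℕ)) : ℝ :=
  ∑ i ∈ range N, qq U i * XW u b UX i

def SZ (b N : ℕ) (a : AZ) : ℝ := SS b N a.1 + XP u b N a.1.U a.2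

lemma XW_nonneg (b : ℕ) (UX : Finset (ℕ × ℕ)) (i : ℕ) : 0 ≤ XW u b UX i := by
  unfold XW
  apply Finset.sum_nonneg
  intro j hj
  split_ifs <;> first | exact le_rfl | exact (Fh_mono_diff b (u.lt i j hj).le).1

lemma up_sum_le (b i : ℕ) : ∑ j ∈ u.up (i + 1), (Fh b j - Fh b (i + 1)) ≤
    (3 / 2) ^ i / 100 * sg b (i + 1) := by
  have h1 : ∑ j ∈ u.up (i + 1), (Fh b j - Fh b (i + 1)) ≤
      ∑ j ∈ u.up (i + 1), 225 * ((j : ℝ) - ((i + 1 : ℕ) : ℝ)) * sg b (i + 1) :=
    Finset.sum_le_sum (fun j hj => (Fh_mono_diff b (u.lt _ j hj).le).2)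
  have h2 : ∑ j ∈ u.up (i + 1), 225 * ((j : ℝ) - ((i + 1 : ℕ) : ℝ)) * sg b (i + 1) =
      (22500 * ∑ j ∈ u.up (i + 1), ((j : ℝ) - ((i + 1 : ℕ) : ℝ))) * (sg b (i + 1) / 100) := by
    rw [Finset.mul_sum, Finset.sum_mul]
    apply Finset.sum_congr rfl
    intro j _
    ring
  rw [h2] at h1
  refine h1.trans ?_
  have h3 := sg_pos b (i + 1)
  have h4 := mul_le_mul_of_nonneg_right (u.E i) (by positivity : (0 : ℝ) ≤ sg b (i + 1) / 100)
  linarith

lemma XW_le (b : ℕ) (UX : Finset (ℕ × ℕ)) (i : ℕ) :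
    XW u b UX (i + 1) ≤ (3 / 2) ^ i / 100 * sg b (i + 1) := by
  refine le_trans ?_ (up_sum_le u b i)
  unfold XW
  apply Finset.sum_le_sum
  intro j hj
  split_ifs <;> first | exact le_rfl | exact (Fh_mono_diff b (u.lt _ j hj).le).1

lemma XW_zero (b : ℕ) (UX : Finset (ℕ × ℕ)) : XW u b UX 0 = 0 := by
  unfold XW
  rw [u.z]
  simp

lemma XP_nonneg (b N : ℕ) (U : Finset Ed) (UX : Finset (ℕ × ℕ)) : 0 ≤ XP u b N U UX := by
  unfold XP
  exact Finset.sum_nonneg (fun i _ => mul_nonneg (qq_nonneg U i) (XW_nonneg u b UX i))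

lemma XP_insert {b N : ℕ} {U : Finset Ed} {UX : Finset (ℕ × ℕ)} {e : Ed} (hv : EdV e) (he : e ∉ U) :
    XP u b N (insert e U) UX ≤ XP u b N U UX + TT b e := by
  by_cases h24 : e.l = 24
  · obtain ⟨i, s, l, c⟩ := e
    simp only at h24
    subst h24
    have hc : c = false := hv.2.2 rfl
    subst hc
    have hTT : TT b ⟨i, s, 24, false⟩ = 1 / 100 * sg b i := by simp [TT]
    rw [hTT]
    have hbd : 1 / 2 ^ (i + 1) * XW u b UX (i + 1) ≤ 1 / 100 * sg b i := by
      have h1 := XW_le u b UX i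
      have h2 := sg_pos b (i + 1)
      have h3 := sg_anti b i
      have h4 : ((3 : ℝ) / 4) ^ i ≤ 1 := pow_le_one₀ (by norm_num) (by norm_num)
      have h5 : 1 / (2 : ℝ) ^ (i + 1) * ((3 / 2) ^ i / 100 * sg b (i + 1)) =
          (3 / 4) ^ i / 200 * sg b (i + 1) := by
        have : ((3 : ℝ) / 2) ^ i = 2 ^ i * (3 / 4) ^ i := by rw [← mul_pow]; norm_num
        rw [this, pow_succ]
        field_simp
        ring
      calc 1 / 2 ^ (i + 1) * XW u b UX (i + 1) ≤
          1 / (2 : ℝ) ^ (i + 1) * ((3 / 2) ^ i / 100 * sg b (i + 1)) :=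
            mul_le_mul_of_nonneg_left h1 (by positivity)
        _ = (3 / 4) ^ i / 200 * sg b (i + 1) := h5
        _ ≤ 1 / 200 * sg b (i + 1) := by
            apply mul_le_mul_of_nonneg_right _ h2.le
            linarith
        _ ≤ 1 / 100 * sg b i := by linarith
    have hterm : ∀ k ∈ range N, qq (insert ⟨i, s, 24, false⟩ U) k * XW u b UX k ≤
        qq U k * XW u b UX k + (if k = i + 1 then 1 / 2 ^ (i + 1) * XW u b UX (i + 1) else 0) := by
      intro k _
      by_cases hk : k = i + 1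
      · subst hk
        rw [if_pos rfl]
        simp only [qq]
        rw [uN_insert hv.1 he]
        apply le_of_eq
        ring
      · rw [if_neg hk, add_zero]
        apply le_of_eq
        congr 1
        cases k with
        | zero => rfl
        | succ k =>
          simp only [qq]
          rw [uN_insert_ne k (fun hh => hk (by rw [← hh.2]))]
    unfold XP
    refine (Finset.sum_le_sum hterm).trans ?_
    rw [Finset.sum_add_distrib]
    apply add_le_add le_rfl
    rw [Finset.sum_ite_eq']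
    have h0 := XW_nonneg u b UX (i + 1)
    have h1 := sg_pos b i
    split_ifs
    · exact hbd
    · positivity
  · have hTT : TT b e = 0 := by unfold TT; rw [if_neg h24]
    rw [hTT, add_zero]
    apply le_of_eq
    unfold XP
    apply Finset.sum_congr rfl
    intro k _
    rw [qq_insert_ne h24]

lemma XW_insert_le (b : ℕ) (UX : Finset (ℕ × ℕ)) (x : ℕ × ℕ) (i : ℕ) :
    XW u b (insert x UX) i ≤ XW u b UX i := by
  unfold XW
  apply Finset.sum_le_sum
  intro j hj
  have h1 := (Fh_mono_diff b (u.lt i j hj).le).1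
  by_cases h2 : (i, j) ∈ UX
  · rw [if_neg (not_not.mpr (Finset.mem_insert_of_mem h2)), if_neg (not_not.mpr h2)]
  · rw [if_pos h2]
    split_ifs <;> first | exact le_rfl | exact h1

lemma XW_insert_up (b : ℕ) (UX : Finset (ℕ × ℕ)) {i j : ℕ} (hj : j ∈ u.up i) (hx : (i, j) ∉ UX) :
    XW u b (insert (i, j) UX) i = XW u b UX i - (Fh b j - Fh b i) := by
  unfold XW
  rw [← Finset.add_sum_erase _ _ hj]
  rw [← Finset.add_sum_erase (a := j) (u.up i) (fun j => if (i, j) ∉ UX then Fh b j - Fh b i else 0) hj]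
  have h1 : ∑ x ∈ (u.up i).erase j, (if (i, x) ∉ insert (i, j) UX then Fh b x - Fh b i else 0) =
      ∑ x ∈ (u.up i).erase j, (if (i, x) ∉ UX then Fh b x - Fh b i else 0) := by
    apply Finset.sum_congr rfl
    intro k hk
    have hne := (Finset.mem_erase.mp hk).1
    have : (i, k) ∉ insert (i, j) UX ↔ (i, k) ∉ UX := by
      rw [Finset.mem_insert]
      simp only [Prod.mk.injEq, true_and]
      tauto
    simp only [this]
  rw [h1, if_neg (by simp), if_pos hx]
  ring

lemma XP_insX_le (b N : ℕ) (U : Finset Ed) (UX : Finset (ℕ × ℕ)) (x : ℕ × ℕ) :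
    XP u b N U (insert x UX) ≤ XP u b N U UX := by
  unfold XP
  exact Finset.sum_le_sum (fun i _ => mul_le_mul_of_nonneg_left (XW_insert_le u b UX x i)
    (qq_nonneg U i))

lemma XP_insX_up {b N : ℕ} {U : Finset Ed} {UX : Finset (ℕ × ℕ)} {i j : ℕ} (hi : i < N)
    (hj : j ∈ u.up i) (hx : (i, j) ∉ UX) :
    XP u b N U (insert (i, j) UX) ≤ XP u b N U UX - qq U i * (Fh b j - Fh b i) := by
  unfold XP
  rw [← Finset.add_sum_erase _ _ (Finset.mem_range.mpr hi)]
  rw [← Finset.add_sum_erase (a := i) (range N) (fun i => qq U i * XW u b UX i)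
    (Finset.mem_range.mpr hi)]
  have h1 : ∑ x ∈ (range N).erase i, qq U x * XW u b (insert (i, j) UX) x ≤
      ∑ x ∈ (range N).erase i, qq U x * XW u b UX x :=
    Finset.sum_le_sum (fun k _ => mul_le_mul_of_nonneg_left (XW_insert_le u b UX _ k)
      (qq_nonneg U k))
  rw [XW_insert_up u b UX hj hx]
  have : qq U i * (XW u b UX i - (Fh b j - Fh b i)) =
      qq U i * XW u b UX i - qq U i * (Fh b j - Fh b i) := by ring
  rw [this]
  linarith

/-- moving the walker between hubs -/
lemma hub_step (b N : ℕ) (cf : ℕ → ℕ → Cf) (U : Finset Ed) (m : ℕ) :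
    SS b N ⟨cf, Wk.hub m, U⟩ ≤ SS b N ⟨cf, Wk.hub (m + 1), U⟩ ∧
    SS b N ⟨cf, Wk.hub (m + 1), U⟩ ≤ SS b N ⟨cf, Wk.hub m, U⟩ + 225 * sg b m := by
  have hsg := sg_pos b m
  have hta := ta_le_sg b m
  have hta0 := ta_pos m
  have ha := act_le U m
  have ha0 := act_nonneg U m
  simp only [SS, PT_hub, bse, AA, pos_zero, mul_zero, add_zero]
  rw [Fh_succ]
  by_cases hm : m < N
  · have hV := VP_diff (N := N) (U := U) (v := vvb cf (m, 0, 0))
      (v' := vvb cf (m + 1, 0, 0)) (i := m) hm (fun j hj => vvb_up hj)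
    rw [vvb_up_self, vvb_self, if_pos rfl] at hV
    rw [hV]
    have h1 : ta m * act U m ≤ sg b m * 1 := mul_le_mul hta ha ha0 hsg.le
    have h2 : 0 ≤ ta m * act U m := by positivity
    constructor
    · nlinarith
    · nlinarith
  · have hV : VP N U (vvb cf (m + 1, 0, 0)) = VP N U (vvb cf (m, 0, 0)) := by
      unfold VP
      apply Finset.sum_congr rfl
      intro r hr
      rw [Finset.mem_range] at hr
      rw [show vvb cf (m + 1, 0, 0) r = vvb cf (m, 0, 0) r from vvb_up (by omega)]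
    rw [hV]
    constructor <;> linarith

lemma hub_down (b N : ℕ) (cf : ℕ → ℕ → Cf) (U : Finset Ed) {k i : ℕ} (h : k ≤ i) :
    SS b N ⟨cf, Wk.hub k, U⟩ ≤ SS b N ⟨cf, Wk.hub i, U⟩ := by
  induction i, h using Nat.le_induction with
  | base => exact le_rfl
  | succ i _ ih => exact ih.trans (hub_step b N cf U i).1

lemma hub_up (b N : ℕ) (cf : ℕ → ℕ → Cf) (U : Finset Ed) {i j : ℕ} (h : i ≤ j) :
    SS b N ⟨cf, Wk.hub j, U⟩ ≤ SS b N ⟨cf, Wk.hub i, U⟩ + (Fh b j - Fh b i) := by
  induction j, h using Nat.le_induction with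
  | base => simp
  | succ j _ ih =>
    have h1 := (hub_step b N cf U j).2
    have h2 := Fh_succ b j
    linarith

end

end Pool.Agent.H575R3.ZZ
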