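import Mathlib
import Pool.Agent.H575R3.ZMach

/-!
The supermartingale along the greedy random walk and the null events.
-/

open Finset MeasureTheory
open scoped ENNReal

namespace Pool.Agent.H575R3.ZZ

open Pool.Agent.H575R3.GRW Pool.Agent.H575R3.Net

noncomputable section

open Classical

variable (u : Up)

lemma sub_empty : ((∅ : Finset (ℕ × ℕ)).subtype (Xv u)) = ∅ := by
  ext x
  simp [Finset.mem_subtype]

lemma XW_small (b : ℕ) (UX : Finset (ℕ × ℕ)) (i : ℕ) :
    1 / 2 ^ (i + 1) * XW u b UX (i + 1) ≤ 1 / 100 * sg b i := by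
  have h1 := XW_le u b UX i
  have h2 := sg_pos b (i + 1)
  have h3 := sg_anti b i
  have h4 : ((3 : ℝ) / 4) ^ i ≤ 1 := pow_le_one₀ (by norm_num) (by norm_num)
  have h5 : 1 / (2 : ℝ) ^ (i + 1) * ((3 / 2) ^ i / 100 * sg b (i + 1)) =
      (3 / 4) ^ i / 200 * sg b (i + 1) := by
    have : ((3 : ℝ) / 2) ^ i = 2 ^ i * (3 / 4) ^ i := by rw [← mul_pow]; norm_num
    rw [this, pow_succ]
    field_simp
    ring
  calc 1 / 2 ^ (i + 1) * XW u b UX (i + 1) ≤
      1 / (2 : ℝ) ^ (i + 1) * ((3 / 2) ^ i / 100 * sg b (i + 1)) :=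
        mul_le_mul_of_nonneg_left h1 (by positivity)
    _ = (3 / 4) ^ i / 200 * sg b (i + 1) := h5
    _ ≤ 1 / 200 * sg b (i + 1) := by
        apply mul_le_mul_of_nonneg_right _ h2.le
        linarith
    _ ≤ 1 / 100 * sg b i := by linarith

/-- sums over the additional connections at a hub -/
lemma sum_up_le {i : ℕ} (g : ℕ × ℕ → ℝ) (bd : ℕ → ℝ) (hbd : ∀ j ∈ u.up i, 0 ≤ bd j)
    (h1 : ∀ j ∈ u.up i, g (i, j) ≤ bd j)
    (h2 : ∀ k, k < i → i ∈ u.up k → g (k, i) ≤ 0) :
    ∑ x ∈ (xinc u (Nd.hub i)).filter (Xv u), g x ≤ ∑ j ∈ u.up i, bd j := by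
  classical
  have e1 : (xinc u (Nd.hub i)).filter (Xv u) = xinc u (Nd.hub i) := by
    apply Finset.filter_true_of_mem
    intro x hx
    simp only [xinc, Finset.mem_union, Finset.mem_image, Finset.mem_filter, Finset.mem_range] at hx
    rcases hx with ⟨j, hj, rfl⟩ | ⟨k, ⟨_, hk⟩, rfl⟩
    · exact hj
    · exact hk
  rw [e1]
  simp only [xinc]
  rw [Finset.sum_union, Finset.sum_image, Finset.sum_image]
  · have a1 : ∑ j ∈ u.up i, g (i, j) ≤ ∑ j ∈ u.up i, bd j := Finset.sum_le_sum h1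
    have a2 : ∑ k ∈ (range i).filter (fun k => i ∈ u.up k), g (k, i) ≤ 0 := by
      apply Finset.sum_nonpos
      intro k hk
      rw [Finset.mem_filter, Finset.mem_range] at hk
      exact h2 k hk.1 hk.2
    linarith
  · intro a _ b _ hab
    exact (Prod.mk.inj hab).1
  · intro a _ b _ hab
    exact (Prod.mk.inj hab).2
  · rw [Finset.disjoint_left]
    intro x hx1 hx2
    simp only [Finset.mem_image, Finset.mem_filter, Finset.mem_range] at hx1 hx2
    obtain ⟨j, hj, rfl⟩ := hx1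
    obtain ⟨k, ⟨hk, _⟩, hk2⟩ := hx2
    have := (Prod.mk.inj hk2).1
    omega

lemma hop_up (i j : ℕ) : hop (Nd.hub i) (i, j) = j := by simp [hop]
lemma hop_down {k i : ℕ} (h : k < i) : hop (Nd.hub i) (k, i) = k := by
  unfold hop
  rw [if_neg]
  simp only [Nd.hub.injEq]
  omega

theorem locg {b N : ℕ} {a : AZ} (hok : okS a.1) (hN : blk a.1.w + 1 < N)
    (hb : ∀ j, exh a.1.U j → j ≤ b) (hroot : nodeW a.1.w ≠ Nd.hub 0) :
    ∑ e ∈ (CZ u).inc (nodeW a.1.w),
      (if ¬ usedZ u a e then SZ u b N (nxtZ u a e) - SZ u b N a else 0) ≤ 0 := by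
  obtain ⟨a, UX⟩ := a
  simp only at hok hN hb hroot
  show ∑ e ∈ ((rawinc (nodeW a.w)).subtype EdV).disjSum ((xinc u (nodeW a.w)).subtype (Xv u)), _ ≤ _
  rw [Finset.sum_disjSum]
  have p1 : ∑ e ∈ (rawinc (nodeW a.w)).subtype EdV,
      (if ¬ usedZ u (a, UX) (Sum.inl e) then
        SZ u b N (nxtZ u (a, UX) (Sum.inl e)) - SZ u b N (a, UX) else 0) ≤ - slk b a := by
    refine le_trans ?_ (loc_g (N := N) hok hN hb)
    rw [← sum_inc]
    apply Finset.sum_le_sum
    intro e _
    by_cases hu : e.1 ∈ a.U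
    · refine le_of_eq ((if_neg (show ¬ ¬ usedZ u (a, UX) (Sum.inl e) from not_not.mpr hu)).trans
        (if_neg (not_not.mpr hu)).symm)
    · rw [if_pos (show ¬ usedZ u (a, UX) (Sum.inl e) from hu), if_pos (show e.1 ∉ a.U from hu)]
      show SS b N (nxtS a e.1) + XP u b N (nxtS a e.1).U UX - (SS b N a + XP u b N a.U UX) ≤ _
      have hU : (nxtS a e.1).U = insert e.1 a.U := by unfold nxtS; rw [if_neg hu]
      rw [hU]
      have := XP_insert u (b := b) (N := N) (UX := UX) e.2 hu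
      linarith
  have p2 : ∑ x ∈ (xinc u (nodeW a.w)).subtype (Xv u),
      (if ¬ usedZ u (a, UX) (Sum.inr x) then
        SZ u b N (nxtZ u (a, UX) (Sum.inr x)) - SZ u b N (a, UX) else 0) ≤ slk b a := by
    obtain ⟨cf, w, U⟩ := a
    cases w with
    | rest i s x =>
      show ∑ x ∈ (∅ : Finset (ℕ × ℕ)).subtype (Xv u), _ ≤ (0 : ℝ)
      rw [sub_empty, Finset.sum_empty]
    | out i s x j =>
      show ∑ x ∈ (∅ : Finset (ℕ × ℕ)).subtype (Xv u), _ ≤ (0 : ℝ)
      rw [sub_empty, Finset.sum_empty]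
    | inn i s j x =>
      show ∑ x ∈ (∅ : Finset (ℕ × ℕ)).subtype (Xv u), _ ≤ (0 : ℝ)
      rw [sub_empty, Finset.sum_empty]
    | hub i =>
      cases i with
      | zero => exact absurd rfl hroot
      | succ i =>
        have hs := Finset.sum_subtype_eq_sum_filter (s := xinc u (Nd.hub (i + 1))) (p := Xv u)
          (fun x : ℕ × ℕ => if x ∉ UX then
            SZ u b N (nxtX (⟨cf, Wk.hub (i + 1), U⟩, UX) x) - SZ u b N (⟨cf, Wk.hub (i + 1), U⟩, UX)
            else 0)
        refine le_trans (le_of_eq (Eq.trans ?_ hs)) ?_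
        · apply Finset.sum_congr rfl
          intro x _
          by_cases hx : x.1 ∈ UX
          · exact (if_neg (show ¬ ¬ usedZ u (⟨cf, Wk.hub (i + 1), U⟩, UX) (Sum.inr x) from
              not_not.mpr hx)).trans (if_neg (not_not.mpr hx)).symm
          · exact (if_pos (show ¬ usedZ u (⟨cf, Wk.hub (i + 1), U⟩, UX) (Sum.inr x) from hx)).trans
              (if_pos (show x.1 ∉ UX from hx)).symm
        · simp only [blk] at hN
          have hq : 1 - qq U (i + 1) = (uN U i : ℝ) / 2 ^ (i + 1) := by simp only [qq]; ring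
          have hq0 : 0 ≤ 1 - qq U (i + 1) := by rw [hq]; positivity
          refine (sum_up_le u _ (fun j => if (i + 1, j) ∉ UX then
            (1 - qq U (i + 1)) * (Fh b j - Fh b (i + 1)) else 0) ?_ ?_ ?_).trans ?_
          · intro j hj
            have := (Fh_mono_diff b (u.lt _ j hj).le).1
            split_ifs <;> positivity
          · intro j hj
            by_cases hx : (i + 1, j) ∈ UX
            · rw [if_neg (not_not.mpr hx), if_neg (not_not.mpr hx)]
            · rw [if_pos hx, if_pos hx]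
              show SS b N ⟨cf, Wk.hub (hop (Nd.hub (i + 1)) (i + 1, j)), U⟩ +
                XP u b N U (insert (i + 1, j) UX) - (SS b N ⟨cf, Wk.hub (i + 1), U⟩ +
                XP u b N U UX) ≤ _
              rw [hop_up]
              have h1 := hub_up b N cf U (u.lt _ j hj).le
              have h2 := XP_insX_up u (b := b) (U := U) (by omega : i + 1 < N) hj hx
              have h3 : (1 - qq U (i + 1)) * (Fh b j - Fh b (i + 1)) = (Fh b j - Fh b (i + 1)) -
                qq U (i + 1) * (Fh b j - Fh b (i + 1)) := by ring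
              rw [h3]
              linarith
          · intro k hk hik
            by_cases hx : (k, i + 1) ∈ UX
            · rw [if_neg (not_not.mpr hx)]
            · rw [if_pos hx]
              show SS b N ⟨cf, Wk.hub (hop (Nd.hub (i + 1)) (k, i + 1)), U⟩ +
                XP u b N U (insert (k, i + 1) UX) - (SS b N ⟨cf, Wk.hub (i + 1), U⟩ +
                XP u b N U UX) ≤ _
              rw [hop_down hk]
              have h1 := hub_down b N cf U hk.le
              have h2 := XP_insX_le u b N U UX (k, i + 1)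
              linarith
          · have h1 : ∑ j ∈ u.up (i + 1), (if (i + 1, j) ∉ UX then
                (1 - qq U (i + 1)) * (Fh b j - Fh b (i + 1)) else 0) =
                (1 - qq U (i + 1)) * XW u b UX (i + 1) := by
              unfold XW
              rw [Finset.mul_sum]
              apply Finset.sum_congr rfl
              intro j _
              rw [mul_ite, mul_zero]
            rw [h1, hq]
            have h2 := XW_small u b UX i
            have h3 : (0 : ℝ) ≤ uN U i := by positivity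
            show _ ≤ 1 / 100 * (uN U i : ℝ) * sg b i
            have h4 := mul_le_mul_of_nonneg_left h2 h3
            have h5 : (uN U i : ℝ) / 2 ^ (i + 1) * XW u b UX (i + 1) =
              (uN U i : ℝ) * (1 / 2 ^ (i + 1) * XW u b UX (i + 1)) := by ring
            rw [h5]
            linarith
  linarith

theorem locs {b N : ℕ} {a : AZ} (hok : okS a.1) (hN : blk a.1.w + 1 < N)
    (hb : ∀ j, exh a.1.U j → j ≤ b) (hall : ∀ e ∈ (CZ u).inc (nodeW a.1.w), usedZ u a e)
    (hroot : nodeW a.1.w ≠ Nd.hub 0) :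
    ∑ e ∈ (CZ u).inc (nodeW a.1.w),
      (1 / ((CZ u).len e : ℝ)) * (SZ u b N (nxtZ u a e) - SZ u b N a) ≤ 0 := by
  classical
  obtain ⟨a, UX⟩ := a
  simp only at hok hN hb hroot
  have hall1 : ∀ f ∈ rawinc (nodeW a.w), EdV f → f ∈ a.U := fun f hf hfv =>
    hall (Sum.inl ⟨f, hfv⟩) (Finset.inl_mem_disjSum.mpr (Finset.mem_subtype.mpr hf))
  have hall2 : ∀ x ∈ xinc u (nodeW a.w), Xv u x → x ∈ UX := fun x hx hxv =>
    hall (Sum.inr ⟨x, hxv⟩) (Finset.inr_mem_disjSum.mpr (Finset.mem_subtype.mpr hx))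
  show ∑ e ∈ ((rawinc (nodeW a.w)).subtype EdV).disjSum ((xinc u (nodeW a.w)).subtype (Xv u)), _ ≤ _
  rw [Finset.sum_disjSum]
  have p1 : ∑ e ∈ (rawinc (nodeW a.w)).subtype EdV, (1 / ((CZ u).len (Sum.inl e) : ℝ)) *
      (SZ u b N (nxtZ u (a, UX) (Sum.inl e)) - SZ u b N (a, UX)) ≤ - slk2 a := by
    refine le_trans (le_of_eq ?_) (loc_s (N := N) hok hN hb hall1 hroot)
    rw [← sum_inc]
    apply Finset.sum_congr rfl
    intro e he
    have hu : e.1 ∈ a.U := hall1 _ (Finset.mem_subtype.mp he) e.2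
    show cond e.1 * (SS b N (nxtS a e.1) + XP u b N (nxtS a e.1).U UX -
      (SS b N a + XP u b N a.U UX)) = _
    have hU : (nxtS a e.1).U = a.U := by unfold nxtS; rw [if_pos hu]
    rw [hU]
    ring
  have p2 : ∑ x ∈ (xinc u (nodeW a.w)).subtype (Xv u), (1 / ((CZ u).len (Sum.inr x) : ℝ)) *
      (SZ u b N (nxtZ u (a, UX) (Sum.inr x)) - SZ u b N (a, UX)) ≤ slk2 a := by
    obtain ⟨cf, w, U⟩ := a
    cases w with
    | rest i s x =>
      show ∑ x ∈ (∅ : Finset (ℕ × ℕ)).subtype (Xv u), _ ≤ (0 : ℝ)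
      rw [sub_empty, Finset.sum_empty]
    | out i s x j =>
      show ∑ x ∈ (∅ : Finset (ℕ × ℕ)).subtype (Xv u), _ ≤ (0 : ℝ)
      rw [sub_empty, Finset.sum_empty]
    | inn i s j x =>
      show ∑ x ∈ (∅ : Finset (ℕ × ℕ)).subtype (Xv u), _ ≤ (0 : ℝ)
      rw [sub_empty, Finset.sum_empty]
    | hub i =>
      cases i with
      | zero => exact absurd rfl hroot
      | succ i =>
        have hs := Finset.sum_subtype_eq_sum_filter (s := xinc u (Nd.hub (i + 1))) (p := Xv u)
          (fun x : ℕ × ℕ => (1 / ((2 : ℕ) : ℝ)) *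
            (SZ u b N (nxtX (⟨cf, Wk.hub (i + 1), U⟩, UX) x) - SZ u b N (⟨cf, Wk.hub (i + 1), U⟩, UX)))
        refine le_trans (le_of_eq hs) ?_
        have hmemx : ∀ x : ℕ × ℕ, Xv u x → (x.1 = i + 1 ∨ x.2 = i + 1) → x ∈ UX := by
          intro x hxv hx
          apply hall2 x _ hxv
          show x ∈ xinc u (Nd.hub (i + 1))
          rw [mem_xinc u _ _ hxv]
          rcases hx with hx | hx
          · exact Or.inl (by rw [hx])
          · exact Or.inr (by rw [hx])
        refine (sum_up_le u _ (fun j => 1 / 2 * (Fh b j - Fh b (i + 1))) ?_ ?_ ?_).trans ?_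
        · intro j hj
          have := (Fh_mono_diff b (u.lt _ j hj).le).1
          positivity
        · intro j hj
          have hx : (i + 1, j) ∈ UX := hmemx (i + 1, j) hj (Or.inl rfl)
          show (1 / ((2 : ℕ) : ℝ)) * (SS b N ⟨cf, Wk.hub (hop (Nd.hub (i + 1)) (i + 1, j)), U⟩ +
            XP u b N U (insert (i + 1, j) UX) - (SS b N ⟨cf, Wk.hub (i + 1), U⟩ +
            XP u b N U UX)) ≤ _
          rw [hop_up, Finset.insert_eq_of_mem hx]
          have h1 := hub_up b N cf U (u.lt _ j hj).le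
          push_cast
          linarith
        · intro k hk hik
          have hx : (k, i + 1) ∈ UX := hmemx (k, i + 1) hik (Or.inr rfl)
          show (1 / ((2 : ℕ) : ℝ)) * (SS b N ⟨cf, Wk.hub (hop (Nd.hub (i + 1)) (k, i + 1)), U⟩ +
            XP u b N U (insert (k, i + 1) UX) - (SS b N ⟨cf, Wk.hub (i + 1), U⟩ +
            XP u b N U UX)) ≤ _
          rw [hop_down hk, Finset.insert_eq_of_mem hx]
          have h1 := hub_down b N cf U hk.le
          push_cast
          linarith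
        · rw [← Finset.mul_sum]
          have h1 := up_sum_le u b i
          have hex : exh U (i + 1) := fun f hf => hall1 f hf (EdV_of_hub hf)
          have h2 : sg b (i + 1) ≤ (1 / 2) ^ i := by
            rw [sg_eq_ta (hb _ hex)]
            have := ta_le_pow (i + 1)
            rw [pow_succ] at this
            linarith
          have h3 : ((3 : ℝ) / 2) ^ i / 100 * sg b (i + 1) ≤ (3 / 2) ^ i / 100 * (1 / 2) ^ i :=
            mul_le_mul_of_nonneg_left h2 (by positivity)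
          have h4 : ((3 : ℝ) / 2) ^ i / 100 * (1 / 2) ^ i = (3 / 4) ^ i / 100 := by
            have : ((3 : ℝ) / 4) ^ i = (3 / 2) ^ i * (1 / 2) ^ i := by rw [← mul_pow]; norm_num
            rw [this]; ring
          have h5 : (0 : ℝ) < (3 / 4) ^ i := by positivity
          show _ ≤ 1 / 2 * ((3 : ℝ) / 4) ^ i
          linarith
  linarith

theorem SZ_nonneg {a : AZ} (h : okS a.1) (b N : ℕ) : 0 ≤ SZ u b N a :=
  add_nonneg (SS_nonneg h b N) (XP_nonneg u b N _ _)

theorem SZ_ge {a : AZ} (b N : ℕ) : SS b N a.1 ≤ SZ u b N a := by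
  have := XP_nonneg u b N a.1.U a.2
  unfold SZ
  linarith

theorem SZ_le {a : AZ} (h : okS a.1) : ∃ C : ℝ, ∀ b N, SZ u b N a ≤ C := by
  obtain ⟨C, hC⟩ := SS_le h
  obtain ⟨M, hM⟩ := exists_bd a.1.U
  refine ⟨C + ∑ i ∈ range (M + 1), 2 * ((3 : ℝ) / 2) ^ i, fun b N => ?_⟩
  unfold SZ
  apply add_le_add (hC b N)
  unfold XP
  have hXW : ∀ i, XW u b a.2 i ≤ 2 * (3 / 2) ^ i := by
    intro i
    cases i with
    | zero => rw [XW_zero]; norm_num
    | succ i =>
      have h1 := XW_le u b a.2 i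
      have h2 := sg_le_two b (i + 1)
      have h3 : (0 : ℝ) < (3 / 2) ^ i := by positivity
      have h4 : ((3 : ℝ) / 2) ^ i / 100 * sg b (i + 1) ≤ (3 / 2) ^ i / 100 * 2 :=
        mul_le_mul_of_nonneg_left h2 (by positivity)
      rw [pow_succ]
      linarith
  refine (sum_le_of_zero _ (M + 1) N ?_ ?_).trans ?_
  · intro i
    exact mul_nonneg (qq_nonneg _ i) (XW_nonneg u b _ i)
  · intro i hi
    obtain ⟨j, rfl⟩ : ∃ j, i = j + 1 := ⟨i - 1, by omega⟩
    have : qq a.1.U (j + 1) = 0 := by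
      simp only [qq]
      have h5 : uN a.1.U j = 2 ^ (j + 1) := by
        unfold uN
        rw [Finset.filter_true_of_mem, Finset.card_range]
        intro s _ hc
        have := hM _ hc
        simp only at this
        omega
      rw [h5]
      push_cast
      rw [div_self (by positivity)]
      ring
    rw [this, zero_mul]
  · apply Finset.sum_le_sum
    intro i _
    have q0 := qq_nonneg a.1.U i
    have q1 := qq_le a.1.U i
    have x0 := XW_nonneg u b a.2 i
    calc qq a.1.U i * XW u b a.2 i ≤ 1 * XW u b a.2 i := mul_le_mul_of_nonneg_right q1 x0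
      _ ≤ 2 * (3 / 2) ^ i := by rw [one_mul]; exact hXW i

instance : Countable Ed := by
  have : Function.Injective (fun e : Ed => (e.i, e.s, e.l, e.b)) := by
    rintro ⟨a, b, c, d⟩ ⟨a', b', c', d'⟩ h
    simp only [Prod.mk.injEq] at h
    obtain ⟨rfl, rfl, rfl, rfl⟩ := h
    rfl
  exact this.countable

instance : Countable Nd := by
  have : Function.Injective (fun n : Nd => match n with
      | Nd.hub i => (Sum.inl i : ℕ ⊕ (ℕ × ℕ × ℕ))
      | Nd.nd i s x => Sum.inr (i, s, x)) := by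
    intro a b h
    cases a <;> cases b
    · simp only [Sum.inl.injEq] at h; rw [h]
    · simp at h
    · simp at h
    · simp only [Sum.inr.injEq, Prod.mk.injEq] at h
      obtain ⟨rfl, rfl, rfl⟩ := h
      rfl
  exact this.countable

instance : Countable (CZ u).N := inferInstanceAs (Countable Nd)
instance : Countable (CZ u).E :=
  inferInstanceAs (Countable ({e : Ed // EdV e} ⊕ {x : ℕ × ℕ // Xv u x}))
instance : Countable (Vx (CZ u)) := inferInstance

/-- the vertex of hub `0` -/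
def rt : Vx (CZ u) :=
  ⟨Sum.inl (Nd.hub 0), ⟨Sum.inl ⟨⟨0, 0, 0, false⟩, ⟨by simp, by simp, by simp⟩⟩, Or.inl rfl⟩⟩

lemma inc_nonempty : ∀ n : (CZ u).N, (∃ v : Vx (CZ u), v.1 = Sum.inl n) → ((CZ u).inc n).Nonempty := by
  rintro n ⟨⟨v, hv⟩, h⟩
  simp only at h
  subst h
  obtain ⟨e, he⟩ := hv
  exact ⟨e, ((CZ u).mem_inc n e).mpr he⟩

/-- the potential along the walk -/
def PhiT (b N t : ℕ) (x : ℕ → Vx (CZ u)) : ℝ≥0∞ :=
  ENNReal.ofReal (Phi (CMZ u) (SZ u b N) (ms (CMZ u) x t))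

/-- the inequality is available at this time -/
def alv (b N t : ℕ) (x : ℕ → Vx (CZ u)) : Prop :=
  ∀ a : AZ, ms (CMZ u) x t = MS.nd a →
    nodeW a.1.w ≠ Nd.hub 0 ∧ blk a.1.w + 1 < N ∧ ∀ j, exh a.1.U j → j ≤ b

lemma PhiT_dep (b N t : ℕ) : DepLE t (PhiT u b N t) := by
  intro x y hxy
  unfold PhiT
  rw [ms_congr (CMZ u) hxy]

lemma alv_dep (b N t : ℕ) : DepLE t (alv u b N t) := by
  intro x y hxy
  unfold alv
  rw [ms_congr (CMZ u) hxy]

theorem step_le (b N t : ℕ) (x : ℕ → Vx (CZ u)) (hx : Valid (gr (CZ u)) x) (h0 : x 0 = rt u)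
    (hal : alv u b N t x) :
    ∑' y, stepProb (gr (CZ u)) x t y * PhiT u b N (t + 1) (Function.update x (t + 1) y) ≤
      PhiT u b N t x := by
  classical
  have hinv := inv_all (K := CMZ u) hx (by rw [h0]; rfl) t
  have h1 : ∀ y, PhiT u b N (t + 1) (Function.update x (t + 1) y) =
      ENNReal.ofReal (Phi (CMZ u) (SZ u b N) (upd (CMZ u) (ms (CMZ u) x t) y)) := by
    intro y
    unfold PhiT
    rw [ms_update]
  simp only [h1]
  apply phi_step (CMZ u) hinv (inc_nonempty u) (SZ u b N) (fun a ha => SZ_nonneg u ha b N)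
  · intro a hm _
    obtain ⟨a1, a2, a3⟩ := hal a hm
    have hok : okS a.1 := by have := hinv.okm; rw [hm] at this; exact this
    have h2 := locg u (N := N) hok a2 a3 a1
    rw [Finset.sum_filter]
    refine le_of_eq_of_le ?_ h2
    apply Finset.sum_congr rfl
    intro e _
    by_cases hu : usedZ u a e
    · exact (if_neg (show ¬ ¬ (CMZ u).used a e from not_not.mpr hu)).trans
        (if_neg (not_not.mpr hu)).symm
    · exact (if_pos (show ¬ (CMZ u).used a e from hu)).trans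
        (if_pos (show ¬ usedZ u a e from hu)).symm
  · intro a hm hall
    obtain ⟨a1, a2, a3⟩ := hal a hm
    have hok : okS a.1 := by have := hinv.okm; rw [hm] at this; exact this
    exact locs u (N := N) hok a2 a3 hall a1

lemma Phi_bdd {x : ℕ → Vx (CZ u)} {t : ℕ} (h : Inv (CMZ u) x t) :
    ∃ C : ℝ, ∀ b N, Phi (CMZ u) (SZ u b N) (ms (CMZ u) x t) ≤ C := by
  have hok := h.okm
  rcases hm : ms (CMZ u) x t with a | ⟨a, e, d⟩ | ⟨a, e, d⟩
  · rw [hm] at hok
    obtain ⟨C, hC⟩ := SZ_le u (a := a) hok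
    exact ⟨C, hC⟩
  · rw [hm] at hok
    obtain ⟨h1, h2, h3, h4, h5⟩ := hok
    obtain ⟨C, hC⟩ := SZ_le u ((CMZ u).gre a e h1 h2 h3).1
    exact ⟨C, hC⟩
  · rw [hm] at hok
    obtain ⟨h1, h2, h3, h4, h5⟩ := hok
    obtain ⟨C, hC⟩ := SZ_le u (a := a) h1
    obtain ⟨C', hC'⟩ := SZ_le u ((CMZ u).srw a e h1 h3 h2).1
    refine ⟨max C C', fun b N => ?_⟩
    simp only [Phi]
    have l0 : (0 : ℝ) < (CZ u).len e := by
      have := (CZ u).two_le e
      exact_mod_cast (by omega : 0 < (CZ u).len e)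
    have l1 : (d : ℝ) ≤ (CZ u).len e := by exact_mod_cast h5.le
    have q0 : 0 ≤ (d : ℝ) / (CZ u).len e := by positivity
    have q1 : (d : ℝ) / (CZ u).len e ≤ 1 := by rw [div_le_one l0]; exact l1
    have r1 := (hC b N).trans (le_max_left C C')
    have r2 := (hC' b N).trans (le_max_right C C')
    have r2' : SZ u b N ((CMZ u).nxt a e) ≤ max C C' := r2
    calc (1 - (d : ℝ) / (CZ u).len e) * SZ u b N a + (d : ℝ) / (CZ u).len e * SZ u b N ((CMZ u).nxt a e)
        ≤ (1 - (d : ℝ) / (CZ u).len e) * max C C' + (d : ℝ) / (CZ u).len e * max C C' := by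
          apply add_le_add
          · exact mul_le_mul_of_nonneg_left r1 (by linarith)
          · exact mul_le_mul_of_nonneg_left r2' q0
      _ = max C C' := by ring

variable {Ω : Type*} [MeasurableSpace Ω] {P : Measure Ω} {X : ℕ → Ω → Vx (CZ u)}

theorem null_event (h : IsGRW (gr (CZ u)) (rt u) P X) (y0 : ℕ → Vx (CZ u)) (T0 : ℕ) (bN : ℕ → ℕ) :
    P {ω | (∀ s ≤ T0, X s ω = y0 s) ∧ ∀ K : ℕ, ∃ s, T0 ≤ s ∧ ∃ M, ∀ N, M ≤ N →
      (∀ r, T0 ≤ r → r ≤ s → alv u (bN N) N r (fun i => X i ω)) ∧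
      (K : ℝ≥0∞) ≤ PhiT u (bN N) N s (fun i => X i ω)} = 0 := by
  have hprob : IsProbabilityMeasure P := ⟨h.prob⟩
  set E := {ω | (∀ s ≤ T0, X s ω = y0 s) ∧ ∀ K : ℕ, ∃ s, T0 ≤ s ∧ ∃ M, ∀ N, M ≤ N →
      (∀ r, T0 ≤ r → r ≤ s → alv u (bN N) N r (fun i => X i ω)) ∧
      (K : ℝ≥0∞) ≤ PhiT u (bN N) N s (fun i => X i ω)} with hE
  by_contra hne
  have hex : ∃ ω ∈ E, Valid (gr (CZ u)) (fun i => X i ω) ∧ X 0 ω = rt u := by
    by_contra hc
    push Not at hc
    apply hne
    have hz : P {ω | ¬ (Valid (gr (CZ u)) (fun i => X i ω) ∧ X 0 ω = rt u)} = 0 := by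
      have h2 := h.ae_valid.and h.ae_start
      exact ae_iff.mp h2
    refine measure_mono_null ?_ hz
    intro ω hω
    simp only [Set.mem_setOf_eq, not_and]
    exact hc ω hω
  obtain ⟨ω0, hω0, hv0, hs0⟩ := hex
  have hinv := inv_all (K := CMZ u) hv0 (by rw [hs0]; rfl) T0
  obtain ⟨C, hC⟩ := Phi_bdd u hinv
  have hC' : ∀ b N, PhiT u b N T0 y0 ≤ ENNReal.ofReal C := by
    intro b N
    unfold PhiT
    apply ENNReal.ofReal_le_ofReal
    rw [← ms_congr (CMZ u) hω0.1]
    exact hC b N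
  have hmax : ∀ K N : ℕ, T0 ≤ N → (K : ℝ≥0∞) * P {ω | (∀ s ≤ T0, X s ω = y0 s) ∧ ∃ s, T0 ≤ s ∧ s ≤ N ∧
      (∀ r, T0 ≤ r → r ≤ s → alv u (bN N) N r (fun i => X i ω)) ∧
      (K : ℝ≥0∞) ≤ PhiT u (bN N) N s (fun i => X i ω)} ≤ ENNReal.ofReal C := by
    intro K N hN
    refine (h.max_ineq y0 T0 N hN K (PhiT u (bN N) N) (alv u (bN N) N) (PhiT_dep _ _ _) (alv_dep _ _ _)
      ?_).trans (hC' _ _)
    intro t _ _ x hx hx0 hal
    exact step_le u _ _ t x hx hx0 hal
  have hK : ∀ K : ℕ, (K : ℝ≥0∞) * P E ≤ ENNReal.ofReal C := by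
    intro K
    set F : ℕ → Set Ω := fun n => ⋂ N, ⋂ (_ : max n T0 ≤ N), {ω | (∀ s ≤ T0, X s ω = y0 s) ∧
      ∃ s, T0 ≤ s ∧ s ≤ N ∧ (∀ r, T0 ≤ r → r ≤ s → alv u (bN N) N r (fun i => X i ω)) ∧
      (K : ℝ≥0∞) ≤ PhiT u (bN N) N s (fun i => X i ω)} with hF
    have hmono : Monotone F := by
      intro n m hnm
      simp only [hF]
      intro ω hω
      simp only [Set.mem_iInter] at hω ⊢
      intro N hN
      exact hω N (by omega)
    have hsub : E ⊆ ⋃ n, F n := by
      intro ω hω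
      obtain ⟨s, hs, M, hM⟩ := hω.2 K
      rw [Set.mem_iUnion]
      refine ⟨max M s, ?_⟩
      simp only [hF, Set.mem_iInter]
      intro N hN
      have := hM N (by omega)
      exact ⟨hω.1, s, hs, by omega, this.1, this.2⟩
    have h1 : P E ≤ ⨆ n, P (F n) := (measure_mono hsub).trans (hmono.measure_iUnion).le
    calc (K : ℝ≥0∞) * P E ≤ (K : ℝ≥0∞) * ⨆ n, P (F n) := by gcongr
      _ = ⨆ n, (K : ℝ≥0∞) * P (F n) := ENNReal.mul_iSup _ _
      _ ≤ ENNReal.ofReal C := by
        apply iSup_le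
        intro n
        refine le_trans ?_ (hmax K (max n T0) (by omega))
        gcongr
        simp only [hF]
        exact Set.iInter₂_subset (max n T0) le_rfl
  obtain ⟨K, hK2⟩ := ENNReal.exists_nat_mul_gt hne (ENNReal.ofReal_ne_top (r := C))
  exact absurd (hK K) (not_le.mpr hK2)

end

end Pool.Agent.H575R3.ZZ
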