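import Mathlib
import Pool.Agent.H575R3.ZRun

/-!
Almost surely the root is visited infinitely often.
-/

open Finset MeasureTheory
open scoped ENNReal

namespace Pool.Agent.H575R3.ZZ

open Pool.Agent.H575R3.GRW Pool.Agent.H575R3.Net

noncomputable section

open Classical

variable {u : Up}

/-- the underlying machine state -/
def cur (m : MS (CMZ u).A (CZ u).E) : AZ :=
  match m with
  | MS.nd a => a
  | MS.tr a _ _ => a
  | MS.sr a _ _ => a

lemma nxtS_mono (a : St) (e : Ed) : a.U ⊆ (nxtS a e).U := by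
  unfold nxtS
  split_ifs
  · exact Finset.Subset.refl _
  · exact Finset.subset_insert _ _

lemma nxtZ_mono (a : AZ) (e : (CZ u).E) : a.1.U ⊆ (nxtZ u a e).1.U := by
  rcases e with e | x
  · exact nxtS_mono a.1 e.1
  · exact Finset.Subset.refl _

lemma upd_cur (m : MS (CMZ u).A (CZ u).E) (v : Vx (CZ u)) :
    ((∃ a, upd (CMZ u) m v = MS.nd a) ∨ cur (upd (CMZ u) m v) = cur m) ∧
    (cur m).1.U ⊆ (cur (upd (CMZ u) m v)).1.U := by
  rcases m with a | ⟨a, e, d⟩ | ⟨a, e, d⟩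
  · rcases hv : v.1 with n | p
    · have : upd (CMZ u) (MS.nd a) v = MS.nd a := by unfold upd; simp only [hv]
      rw [this]
      exact ⟨Or.inr rfl, Finset.Subset.refl _⟩
    · by_cases hu : (CMZ u).used a p.1
      · have : upd (CMZ u) (MS.nd a) v = MS.sr a p.1 1 := by unfold upd; simp only [hv]; rw [if_pos hu]
        rw [this]
        exact ⟨Or.inr rfl, Finset.Subset.refl _⟩
      · have : upd (CMZ u) (MS.nd a) v = MS.tr a p.1 1 := by unfold upd; simp only [hv]; rw [if_neg hu]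
        rw [this]
        exact ⟨Or.inr rfl, Finset.Subset.refl _⟩
  · by_cases hd : d + 1 = (CZ u).len e
    · have : upd (CMZ u) (MS.tr a e d) v = MS.nd ((CMZ u).nxt a e) := by unfold upd; simp only; rw [if_pos hd]
      rw [this]
      exact ⟨Or.inl ⟨_, rfl⟩, nxtZ_mono a e⟩
    · have : upd (CMZ u) (MS.tr a e d) v = MS.tr a e (d + 1) := by unfold upd; simp only; rw [if_neg hd]
      rw [this]
      exact ⟨Or.inr rfl, Finset.Subset.refl _⟩
  · unfold upd
    simp only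
    split_ifs
    · exact ⟨Or.inl ⟨_, rfl⟩, nxtZ_mono a e⟩
    · exact ⟨Or.inr rfl, Finset.Subset.refl _⟩
    · exact ⟨Or.inr rfl, Finset.Subset.refl _⟩
    · exact ⟨Or.inr rfl, Finset.Subset.refl _⟩

variable (x : ℕ → Vx (CZ u))

lemma U_mono {s t : ℕ} (h : s ≤ t) : (cur (ms (CMZ u) x s)).1.U ⊆ (cur (ms (CMZ u) x t)).1.U := by
  induction t, h using Nat.le_induction with
  | base => exact Finset.Subset.refl _
  | succ t _ ih => exact ih.trans (upd_cur _ _).2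

lemma last_nd (t : ℕ) : ∃ r ≤ t, ms (CMZ u) x r = MS.nd (cur (ms (CMZ u) x t)) := by
  induction t with
  | zero => exact ⟨0, le_rfl, rfl⟩
  | succ t ih =>
    rcases (upd_cur (ms (CMZ u) x t) (x (t + 1))).1 with ⟨a, ha⟩ | h
    · refine ⟨t + 1, le_rfl, ?_⟩
      have : ms (CMZ u) x (t + 1) = MS.nd a := ha
      rw [this]
      rfl
    · obtain ⟨r, hr, h2⟩ := ih
      refine ⟨r, by omega, ?_⟩
      have : cur (ms (CMZ u) x (t + 1)) = cur (ms (CMZ u) x t) := h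
      rw [this]
      exact h2

lemma exh_lt {U : Finset Ed} {M j : ℕ} (hM : ∀ e ∈ U, e.i < M) (h : exh U j) : j < M := by
  have hmem : (⟨j, 0, 0, false⟩ : Ed) ∈ rawinc (Nd.hub j) :=
    mem_hub0 ⟨by simp, by simp, by simp⟩
  have := hM _ (h _ hmem)
  exact this

lemma exh_sub {U U' : Finset Ed} (h : U ⊆ U') {j : ℕ} (hj : exh U j) : exh U' j :=
  fun e he => h (hj e he)

lemma nex_mono {U U' : Finset Ed} (h : U ⊆ U') : nex U ≤ nex U' := by
  unfold nex
  apply Finset.card_le_card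
  intro i hi
  rw [Finset.mem_filter] at hi ⊢
  exact ⟨Finset.image_subset_image h hi.1, exh_sub h hi.2⟩

lemma nex_succ {U U' : Finset Ed} (h : U ⊆ U') {M j : ℕ} (hM : ∀ e ∈ U, e.i < M) (hj : M < j)
    (hex : exh U' j) : nex U + 1 ≤ nex U' := by
  obtain ⟨i, rfl⟩ : ∃ i, j = i + 1 := ⟨j - 1, by omega⟩
  unfold nex
  have h1 : insert i ((U.image Ed.i).filter (fun i => exh U (i + 1))) ⊆
      (U'.image Ed.i).filter (fun i => exh U' (i + 1)) := by
    intro k hk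
    rw [Finset.mem_insert] at hk
    rcases hk with rfl | hk
    · rw [Finset.mem_filter]
      refine ⟨?_, hex⟩
      rw [Finset.mem_image]
      refine ⟨⟨k, 0, 24, false⟩, ?_, rfl⟩
      apply hex
      exact mem_hub24 ⟨by simp, by simp, by simp⟩
    · rw [Finset.mem_filter] at hk ⊢
      exact ⟨Finset.image_subset_image h hk.1, exh_sub h hk.2⟩
  have h2 : i ∉ (U.image Ed.i).filter (fun i => exh U (i + 1)) := by
    intro hc
    rw [Finset.mem_filter] at hc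
    have := exh_lt hM hc.2
    omega
  rw [← Finset.card_insert_of_notMem h2]
  exact Finset.card_le_card h1

lemma bd_upto (f : ℕ → ℕ) (s : ℕ) : ∃ M, ∀ r ≤ s, f r ≤ M := by
  refine ⟨(range (s + 1)).sup f, fun r hr => ?_⟩
  exact Finset.le_sup (f := f) (Finset.mem_range.mpr (by omega))

variable {x}

lemma ok_cur (hinv : ∀ t, Inv (CMZ u) x t) (t : ℕ) : okS (cur (ms (CMZ u) x t)).1 := by
  have := (hinv t).okm
  rcases hm : ms (CMZ u) x t with a | ⟨a, e, d⟩ | ⟨a, e, d⟩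
  · rw [hm] at this; exact this
  · rw [hm] at this; exact this.1
  · rw [hm] at this; exact this.1

lemma alv_ev (hinv : ∀ t, Inv (CMZ u) x t) {T0 : ℕ} (hroot : ∀ t, T0 ≤ t → x t ≠ rt u) (s : ℕ) :
    ∃ M, ∀ N, M ≤ N → ∀ r, T0 ≤ r → r ≤ s → ∀ a : AZ, ms (CMZ u) x r = MS.nd a →
      nodeW a.1.w ≠ Nd.hub 0 ∧ blk a.1.w + 1 < N ∧ ∀ j, exh a.1.U j → j ≤ N := by
  obtain ⟨M1, hM1⟩ := bd_upto (fun r => blk (cur (ms (CMZ u) x r)).1.w) s
  obtain ⟨M2, hM2⟩ := exists_bd (cur (ms (CMZ u) x s)).1.U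
  refine ⟨M1 + M2 + 2, fun N hN r hr hrs a hm => ⟨?_, ?_, ?_⟩⟩
  · intro hc
    apply hroot r hr
    have hat := (hinv r).at'
    rw [hm] at hat
    have hat' : (x r).1 = Sum.inl (nodeW a.1.w) := hat
    apply Subtype.ext
    rw [hat', hc]
    rfl
  · have := hM1 r hrs
    simp only [hm, cur] at this
    omega
  · intro j hj
    have h1 := U_mono x hrs
    rw [hm] at h1
    have := exh_lt hM2 (exh_sub h1 hj)
    omega

lemma eventA (hinv : ∀ t, Inv (CMZ u) x t) {T0 : ℕ} (hroot : ∀ t, T0 ≤ t → x t ≠ rt u)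
    (hub : ∀ b, ∃ t j, b < j ∧ exh (cur (ms (CMZ u) x t)).1.U j) (K : ℕ) :
    ∃ s, T0 ≤ s ∧ ∃ M, ∀ N, M ≤ N → (∀ r, T0 ≤ r → r ≤ s → alv u N N r x) ∧
      (K : ℝ≥0∞) ≤ PhiT u N N s x := by
  have hnex : ∀ n, ∃ t, n ≤ nex (cur (ms (CMZ u) x t)).1.U := by
    intro n
    induction n with
    | zero => exact ⟨0, Nat.zero_le _⟩
    | succ n ih =>
      obtain ⟨t, ht⟩ := ih
      obtain ⟨M, hM⟩ := exists_bd (cur (ms (CMZ u) x t)).1.U
      obtain ⟨t', j, hj, hex⟩ := hub M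
      refine ⟨max t t', ?_⟩
      have h1 := nex_succ (U_mono x (le_max_left t t')) hM hj
        (exh_sub (U_mono x (le_max_right t t')) hex)
      omega
  obtain ⟨t, ht⟩ := hnex (K + nex (cur (ms (CMZ u) x T0)).1.U + 1)
  obtain ⟨r, hr, hr2⟩ := last_nd x t
  set a := cur (ms (CMZ u) x t) with ha
  have hra : cur (ms (CMZ u) x r) = a := by rw [hr2]; rfl
  have hrT : T0 ≤ r := by
    by_contra hc
    push Not at hc
    have := nex_mono (U_mono x hc.le)
    rw [hra] at this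
    omega
  have hok : okS a.1 := ok_cur hinv t
  obtain ⟨M1, hM1⟩ := SS_ge_nex hok
  obtain ⟨M2, hM2⟩ := alv_ev hinv hroot r
  refine ⟨r, hrT, max M1 M2, fun N hN => ⟨fun r' h1 h2 => hM2 N (by omega) r' h1 h2, ?_⟩⟩
  unfold PhiT
  rw [hr2]
  simp only [Phi]
  have h3 := hM1 N (by omega)
  rw [← ENNReal.ofReal_natCast]
  apply ENNReal.ofReal_le_ofReal
  have h4 : (K : ℝ) ≤ nex a.1.U := by exact_mod_cast (by omega : K ≤ nex a.1.U)
  have h5 : (0 : ℝ) ≤ nex a.1.U := by positivity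
  refine le_trans ?_ (SZ_ge u N N)
  refine le_trans ?_ h3
  linarith

lemma eventB (hinv : ∀ t, Inv (CMZ u) x t) {T0 : ℕ} (hroot : ∀ t, T0 ≤ t → x t ≠ rt u) {b : ℕ}
    (hub : ∀ t j, exh (cur (ms (CMZ u) x t)).1.U j → j ≤ b)
    (hblk : ∀ n, ∃ t, n ≤ blk (cur (ms (CMZ u) x t)).1.w) (K : ℕ) :
    ∃ s, T0 ≤ s ∧ ∃ M, ∀ N, M ≤ N → (∀ r, T0 ≤ r → r ≤ s → alv u b N r x) ∧
      (K : ℝ≥0∞) ≤ PhiT u b N s x := by
  obtain ⟨B0, hB0⟩ := bd_upto (fun r => blk (cur (ms (CMZ u) x r)).1.w) T0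
  obtain ⟨t, ht⟩ := hblk (B0 + K * 2 ^ b + 1)
  obtain ⟨r, hr, hr2⟩ := last_nd x t
  set a := cur (ms (CMZ u) x t) with ha
  have hra : cur (ms (CMZ u) x r) = a := by rw [hr2]; rfl
  have hrT : T0 ≤ r := by
    by_contra hc
    push Not at hc
    have := hB0 r hc.le
    simp only [hra] at this
    omega
  have hok : okS a.1 := ok_cur hinv t
  obtain ⟨M2, hM2⟩ := alv_ev hinv hroot r
  refine ⟨r, hrT, M2, fun N hN => ⟨?_, ?_⟩⟩
  · intro r' h1 h2 a' ha'
    obtain ⟨q1, q2, _⟩ := hM2 N hN r' h1 h2 a' ha'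
    refine ⟨q1, q2, fun j hj => hub r' j ?_⟩
    rw [ha']
    exact hj
  · unfold PhiT
    rw [hr2]
    simp only [Phi]
    have h3 := SS_ge_blk hok b N
    rw [← ENNReal.ofReal_natCast]
    apply ENNReal.ofReal_le_ofReal
    refine le_trans ?_ (SZ_ge u b N)
    refine le_trans ?_ h3
    have h4 : (K : ℝ) * 2 ^ b ≤ blk a.1.w := by
      have : K * 2 ^ b ≤ blk a.1.w := by omega
      exact_mod_cast this
    have h5 : (0 : ℝ) < (1 / 2) ^ b := by positivity
    have h6 : (2 : ℝ) ^ b * (1 / 2) ^ b = 1 := by rw [← mul_pow]; norm_num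
    have h7 : (0 : ℝ) ≤ K := by positivity
    calc (K : ℝ) = (K * 2 ^ b) * (1 / 2) ^ b := by rw [mul_assoc, h6, mul_one]
      _ ≤ blk a.1.w * (1 / 2) ^ b := mul_le_mul_of_nonneg_right h4 h5.le
      _ ≤ 225 * (1 / 2) ^ b * blk a.1.w := by
        have : (0 : ℝ) ≤ (1 / 2) ^ b * blk a.1.w := by positivity
        nlinarith

lemma e_le_blk {w : Wk} {e : Ed} (h : Ps e.i e.s e.l = nodeW w ∨ Ps e.i e.s (e.l + 1) = nodeW w) :
    e.i ≤ blk w := by
  cases w with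
  | hub j =>
    simp only [nodeW, blk, Ps_hub] at h ⊢
    omega
  | rest i s x =>
    simp only [nodeW, blk, Ps_inj_nd] at h ⊢
    omega
  | out i s x j =>
    simp only [nodeW, blk, Ps_inj_nd] at h ⊢
    omega
  | inn i s j x =>
    simp only [nodeW, blk, Ps_inj_nd] at h ⊢
    omega

/-- the block of an edge -/
def ei (e : (CZ u).E) : ℕ :=
  match e with
  | Sum.inl e => e.1.i
  | Sum.inr x => x.1.1

lemma ei_le_blk {w : Wk} {e : (CZ u).E} (h : (CZ u).src e = nodeW w ∨ (CZ u).dst e = nodeW w) :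
    ei e ≤ blk w := by
  rcases e with e | x
  · exact e_le_blk h
  · have hlt := u.lt x.1.1 x.1.2 x.2
    have h' : Nd.hub x.1.1 = nodeW w ∨ Nd.hub x.1.2 = nodeW w := h
    rcases h' with h' | h'
    · have := hub_of_node h'.symm
      subst this
      exact le_rfl
    · have := hub_of_node h'.symm
      subst this
      exact hlt.le

/-- a finite set of vertices -/
def WW (u : Up) (M : ℕ) : Set (Vx (CZ u)) :=
  {v | ∃ e : (CZ u).E, ∃ t ≤ 400, ei e ≤ M ∧ v = pt e t}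

lemma len_le (e : (CZ u).E) : (CZ u).len e ≤ 400 := by
  rcases e with e | x
  · show (if e.1.l = 0 then 400 else 2) ≤ 400
    split_ifs <;> omega
  · show 2 ≤ 400
    omega

lemma fin1 (M : ℕ) : ({e : {e : Ed // EdV e} | e.1.i ≤ M}).Finite := by
  have h2 : ((fun e : {e : Ed // EdV e} => e.1) '' {e : {e : Ed // EdV e} | e.1.i ≤ M}).Finite := by
    apply Set.Finite.subset (((range (M + 1) ×ˢ range (2 ^ (M + 1)) ×ˢ range 25 ×ˢ
      (univ : Finset Bool)).image (fun p => (⟨p.1, p.2.1, p.2.2.1, p.2.2.2⟩ : Ed))).finite_toSet)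
    rintro f ⟨e, he, rfl⟩
    obtain ⟨⟨i, s, l, c⟩, v1, v2, v3⟩ := e
    have he' : i ≤ M := he
    simp only at v1 v2 ⊢
    rw [Finset.mem_coe, Finset.mem_image]
    refine ⟨(i, s, l, c), ?_, rfl⟩
    simp only [Finset.mem_product, Finset.mem_range, Finset.mem_univ, and_true]
    refine ⟨by omega, ?_, by omega⟩
    exact lt_of_lt_of_le v1 (Nat.pow_le_pow_right (by norm_num) (by omega))
  exact Set.Finite.of_finite_image h2 (Subtype.val_injective.injOn)

lemma fin2 (M : ℕ) : ({x : {x : ℕ × ℕ // Xv u x} | x.1.1 ≤ M}).Finite := by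
  have h2 : ((fun x : {x : ℕ × ℕ // Xv u x} => x.1) '' {x : {x : ℕ × ℕ // Xv u x} | x.1.1 ≤ M}).Finite := by
    apply Set.Finite.subset (((range (M + 1)).biUnion (fun i => (u.up i).image
      (fun j => (i, j)))).finite_toSet)
    rintro f ⟨⟨⟨p, q⟩, hx⟩, hxM, rfl⟩
    have h1 : p ≤ M := hxM
    have h3 : q ∈ u.up p := hx
    rw [Finset.mem_coe, Finset.mem_biUnion]
    exact ⟨p, Finset.mem_range.mpr (by omega), Finset.mem_image.mpr ⟨q, h3, rfl⟩⟩
  exact Set.Finite.of_finite_image h2 (Subtype.val_injective.injOn)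

lemma WW_finite (M : ℕ) : (WW u M).Finite := by
  have h1 : ({e : (CZ u).E | ei e ≤ M}).Finite := by
    apply Set.Finite.subset (((fin1 M).image Sum.inl).union ((fin2 (u := u) M).image Sum.inr))
    intro e he
    rcases e with e | x
    · exact Or.inl ⟨e, he, rfl⟩
    · exact Or.inr ⟨x, he, rfl⟩
  have h3 : WW u M ⊆ (fun p : (CZ u).E × ℕ => pt p.1 p.2) ''
      ({e : (CZ u).E | ei e ≤ M} ×ˢ Set.Iic 400) := by
    rintro v ⟨e, t, ht, he, rfl⟩
    exact ⟨(e, t), ⟨he, ht⟩, rfl⟩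
  exact ((h1.prod (Set.finite_Iic 400)).image _).subset h3

lemma mem_WW {x : ℕ → Vx (CZ u)} (hinv : ∀ t, Inv (CMZ u) x t) {M : ℕ}
    (hblk : ∀ t, blk (cur (ms (CMZ u) x t)).1.w ≤ M) (t : ℕ) : x t ∈ WW u M := by
  have hat := (hinv t).at'
  have hok := (hinv t).okm
  have hb := hblk t
  have hptd : ∀ (n : (CZ u).N) (e : (CZ u).E) (d : ℕ), d < (CZ u).len e → ei e ≤ M →
      ptd n e d ∈ WW u M := by
    intro n e d hd he
    have hl := len_le e
    unfold ptd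
    split_ifs
    · exact ⟨e, d, by omega, he, rfl⟩
    · exact ⟨e, (CZ u).len e - d, by omega, he, rfl⟩
  rcases hm : ms (CMZ u) x t with a | ⟨a, e, d⟩ | ⟨a, e, d⟩
  · rw [hm] at hat hb
    have hat' : (x t).1 = Sum.inl (nodeW a.1.w) := hat
    have hgood : Good (CZ u) (x t).1 := (x t).2
    rw [hat'] at hgood
    obtain ⟨e, he⟩ := hgood
    have hei : ei e ≤ blk a.1.w := ei_le_blk he
    have hb' : blk a.1.w ≤ M := hb
    rcases he with he | he
    · refine ⟨e, 0, by omega, by omega, ?_⟩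
      apply Subtype.ext
      rw [hat', pt_zero]
      exact congrArg Sum.inl he.symm
    · refine ⟨e, (CZ u).len e, len_le e, by omega, ?_⟩
      apply Subtype.ext
      rw [hat', pt_len e le_rfl]
      exact congrArg Sum.inl he.symm
  · rw [hm] at hat hok hb
    obtain ⟨h1, h2, h3, h4, h5⟩ := hok
    have hat' : x t = ptd ((CMZ u).node a) e d := hat
    rw [hat']
    apply hptd _ _ _ h5
    have hei : ei e ≤ blk a.1.w := ei_le_blk (((CZ u).mem_inc _ _).mp h2)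
    exact hei.trans hb
  · rw [hm] at hat hok hb
    obtain ⟨h1, h2, h3, h4, h5⟩ := hok
    have hat' : x t = ptd ((CMZ u).node a) e d := hat
    rw [hat']
    apply hptd _ _ _ h5
    have hei : ei e ≤ blk a.1.w := ei_le_blk (((CZ u).mem_inc _ _).mp h2)
    exact hei.trans hb

lemma exists_io {W : Set (Vx (CZ u))} (hW : W.Finite) (h : ∀ t, x t ∈ W) :
    ∃ v, ∀ n, ∃ t, n ≤ t ∧ x t = v := by
  by_contra hc
  push Not at hc
  choose n hn using hc
  obtain ⟨B, hB⟩ : ∃ B, ∀ v ∈ W, n v ≤ B := by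
    refine ⟨hW.toFinset.sup n, fun v hv => ?_⟩
    exact Finset.le_sup (f := n) (hW.mem_toFinset.mpr hv)
  exact hn (x B) B (hB _ (h B)) rfl

variable {Ω : Type*} [MeasurableSpace Ω] {P : Measure Ω} {X : ℕ → Ω → Vx (CZ u)}

theorem recurrent (hconn : (gr (CZ u)).Connected) (h : IsGRW (gr (CZ u)) (rt u) P X) :
    ∀ᵐ ω ∂P, ∀ n, ∃ t, n ≤ t ∧ X t ω = rt u := by
  have h1 : ∀ᵐ ω ∂P, ∀ p : {p : Vx (CZ u) × Vx (CZ u) // (gr (CZ u)).Adj p.1 p.2},
      (∀ n, ∃ t, n ≤ t ∧ X t ω = p.1.1) → (∀ n, ∃ t, n ≤ t ∧ X t ω = p.1.2) :=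
    ae_all_iff.mpr (fun p => h.io_neighbor p.2)
  have h2 : ∀ᵐ ω ∂P, ∀ (T0 : ℕ) (z : Fin (T0 + 1) → Vx (CZ u)),
      ¬ ((∀ s ≤ T0, X s ω = ext T0 z s) ∧ ∀ K : ℕ, ∃ s, T0 ≤ s ∧ ∃ M, ∀ N, M ≤ N →
        (∀ r, T0 ≤ r → r ≤ s → alv u N N r (fun i => X i ω)) ∧
        (K : ℝ≥0∞) ≤ PhiT u N N s (fun i => X i ω)) := by
    rw [ae_all_iff]
    intro T0
    rw [ae_all_iff]
    intro z
    have := null_event u h (ext T0 z) T0 (fun N => N)
    rw [ae_iff]
    simp only [not_not]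
    exact this
  have h3 : ∀ᵐ ω ∂P, ∀ (b : ℕ) (T0 : ℕ) (z : Fin (T0 + 1) → Vx (CZ u)),
      ¬ ((∀ s ≤ T0, X s ω = ext T0 z s) ∧ ∀ K : ℕ, ∃ s, T0 ≤ s ∧ ∃ M, ∀ N, M ≤ N →
        (∀ r, T0 ≤ r → r ≤ s → alv u b N r (fun i => X i ω)) ∧
        (K : ℝ≥0∞) ≤ PhiT u b N s (fun i => X i ω)) := by
    rw [ae_all_iff]
    intro b
    rw [ae_all_iff]
    intro T0
    rw [ae_all_iff]
    intro z
    have := null_event u h (ext T0 z) T0 (fun _ => b)
    rw [ae_iff]
    simp only [not_not]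
    exact this
  filter_upwards [h1, h2, h3, h.ae_valid, h.ae_start] with ω q1 q2 q3 hv hs
  have hinv : ∀ t, Inv (CMZ u) (fun i => X i ω) t := inv_all (K := (CMZ u)) hv (by
    show (X 0 ω).1 = _
    rw [hs]; rfl)
  by_contra hc
  push Not at hc
  obtain ⟨T0, hT0⟩ := hc
  have hroot : ∀ t, T0 ≤ t → (fun i => X i ω) t ≠ rt u := fun t ht => hT0 t ht
  by_cases hA : ∀ b, ∃ t j, b < j ∧ exh (cur (ms (CMZ u) (fun i => X i ω) t)).1.U j
  · apply q2 T0 (fun i : Fin (T0 + 1) => X i ω)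
    refine ⟨fun s hs => (ext_restrict T0 (fun i => X i ω) s hs).symm, ?_⟩
    exact eventA hinv hroot hA
  · push Not at hA
    obtain ⟨b, hb⟩ := hA
    have hb' : ∀ t j, exh (cur (ms (CMZ u) (fun i => X i ω) t)).1.U j → j ≤ b := by
      intro t j hj
      by_contra hc
      exact hb t j (by omega) hj
    by_cases hB : ∀ n, ∃ t, n ≤ blk (cur (ms (CMZ u) (fun i => X i ω) t)).1.w
    · apply q3 b T0 (fun i : Fin (T0 + 1) => X i ω)
      refine ⟨fun s hs => (ext_restrict T0 (fun i => X i ω) s hs).symm, ?_⟩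
      exact eventB hinv hroot hb' hB
    · push Not at hB
      obtain ⟨M, hM⟩ := hB
      obtain ⟨v, hv⟩ := exists_io (WW_finite M) (mem_WW hinv (fun t => (hM t).le))
      have hio : ∀ w, (∀ n, ∃ t, n ≤ t ∧ X t ω = w) := by
        intro w
        obtain ⟨p⟩ := hconn.preconnected v w
        induction p with
        | nil => exact hv
        | cons hadj p ih => exact ih (q1 ⟨(_, _), hadj⟩ hv)
      obtain ⟨t, ht, ht2⟩ := hio (rt u) T0
      exact hT0 t ht ht2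

end

end Pool.Agent.H575R3.ZZ
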