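import Mathlib
import Pool.Agent.H575R3.ZEvents

/-!
The graph is connected and roughly isometric to the cubic lattice.
-/

open Finset

namespace Pool.Agent.H575R3.ZZ

open Pool.Agent.H575R3.Net

/-- the graph distance of the cubic lattice -/
def l1 (x y : ℤ × ℤ × ℤ) : ℕ :=
  (x.1 - y.1).natAbs + (x.2.1 - y.2.1).natAbs + (x.2.2 - y.2.2).natAbs

lemma l1_comm (x y : ℤ × ℤ × ℤ) : l1 x y = l1 y x := by unfold l1; omega
lemma l1_self (x : ℤ × ℤ × ℤ) : l1 x x = 0 := by unfold l1; omega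
lemma l1_tri (x y z : ℤ × ℤ × ℤ) : l1 x z ≤ l1 x y + l1 y z := by unfold l1; omega
lemma l1_zero {x y : ℤ × ℤ × ℤ} (h : l1 x y = 0) : x = y := by
  unfold l1 at h
  refine Prod.ext ?_ (Prod.ext ?_ ?_) <;> omega

lemma l1_step {x y : ℤ × ℤ × ℤ} {n : ℕ} (h : l1 x y = n + 1) : ∃ z, l1 x z = 1 ∧ l1 z y = n := by
  obtain ⟨a, b, c⟩ := x
  obtain ⟨a', b', c'⟩ := y
  unfold l1 at *
  simp only at h ⊢
  rcases lt_trichotomy a a' with h1 | h1 | h1
  · exact ⟨(a + 1, b, c), by simp only; omega, by simp only; omega⟩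
  · rcases lt_trichotomy b b' with h2 | h2 | h2
    · exact ⟨(a, b + 1, c), by simp only; omega, by simp only; omega⟩
    · rcases lt_trichotomy c c' with h3 | h3 | h3
      · exact ⟨(a, b, c + 1), by simp only; omega, by simp only; omega⟩
      · omega
      · exact ⟨(a, b, c - 1), by simp only; omega, by simp only; omega⟩
    · exact ⟨(a, b - 1, c), by simp only; omega, by simp only; omega⟩
  · exact ⟨(a - 1, b, c), by simp only; omega, by simp only; omega⟩

noncomputable section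

variable (u : Up)

def ez (i s l : ℕ) (h1 : s < 2 ^ (i + 1)) (h2 : l ≤ 24) : (CZ u).E :=
  Sum.inl ⟨⟨i, s, l, false⟩, h1, h2, fun _ => rfl⟩

/-- the vertex of hub `i` -/
def hv (i : ℕ) : Vx (CZ u) := pt (ez u i 0 0 (by positivity) (by omega)) 0

lemma hv_val (i : ℕ) : (hv u i).1 = Sum.inl (Nd.hub i) := by
  unfold hv
  rw [pt_zero]
  show Sum.inl (Ps i 0 0) = _
  simp [Ps]

lemma eq_hv {v : Vx (CZ u)} {i : ℕ} (h : v.1 = Sum.inl (Nd.hub i)) : v = hv u i :=
  Subtype.ext (h.trans (hv_val u i).symm)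

lemma rt_eq : rt u = hv u 0 := eq_hv u rfl

variable {u}

lemma reach_pt (e : (CZ u).E) (t : ℕ) (ht : t ≤ (CZ u).len e) :
    (gr (CZ u)).Reachable (pt e 0) (pt e t) := by
  induction t with
  | zero => exact SimpleGraph.Reachable.refl _
  | succ t ih =>
    refine (ih (by omega)).trans (SimpleGraph.Adj.reachable ?_)
    exact ⟨e, t, by omega, Or.inl ⟨rfl, rfl⟩⟩

lemma pt_congr {e e' : (CZ u).E} (h : (CZ u).src e = (CZ u).src e') : pt e 0 = pt e' 0 := by
  apply Subtype.ext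
  rw [pt_zero, pt_zero, h]

lemma pt_congr' {e e' : (CZ u).E} (h : (CZ u).dst e = (CZ u).src e') :
    pt e ((CZ u).len e) = pt e' 0 := by
  apply Subtype.ext
  rw [pt_zero, pt_len e le_rfl, h]

lemma reach_level (i s l : ℕ) (h1 : s < 2 ^ (i + 1)) (h2 : l ≤ 24) :
    (gr (CZ u)).Reachable (hv u i) (pt (ez u i s l h1 h2) 0) := by
  induction l with
  | zero =>
    have : hv u i = pt (ez u i s 0 h1 h2) 0 := pt_congr rfl
    rw [this]
  | succ l ih =>
    refine (ih (by omega)).trans ?_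
    have h3 := reach_pt (ez u i s l h1 (by omega)) _ le_rfl
    have h4 : pt (ez u i s l h1 (by omega)) ((CZ u).len (ez u i s l h1 (by omega))) =
        pt (ez u i s (l + 1) h1 h2) 0 := pt_congr' rfl
    rw [← h4]
    exact h3

lemma reach_hub (i : ℕ) : (gr (CZ u)).Reachable (rt u) (hv u i) := by
  induction i with
  | zero => rw [rt_eq]
  | succ i ih =>
    refine ih.trans ?_
    refine (reach_level i 0 24 (by positivity) le_rfl).trans ?_
    have h3 := reach_pt (ez u i 0 24 (by positivity) le_rfl) _ le_rfl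
    have h4 : pt (ez u i 0 24 (by positivity) le_rfl) ((CZ u).len (ez u i 0 24 (by positivity) le_rfl)) =
        hv u (i + 1) := by
      apply eq_hv
      rw [pt_len _ le_rfl]
      show Sum.inl (Ps i 0 25) = _
      simp [Ps]
    rw [← h4]
    exact h3

lemma exists_pt (v : Vx (CZ u)) : ∃ (e : (CZ u).E) (t : ℕ), t ≤ (CZ u).len e ∧ v = pt e t := by
  rcases hv : v.1 with n | p
  · have hgood : Good (CZ u) v.1 := v.2
    rw [hv] at hgood
    obtain ⟨e, he | he⟩ := hgood
    · refine ⟨e, 0, by omega, Subtype.ext ?_⟩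
      rw [hv, pt_zero, he]
    · refine ⟨e, (CZ u).len e, le_rfl, Subtype.ext ?_⟩
      rw [hv, pt_len e le_rfl, he]
  · obtain ⟨e, t⟩ := p
    have hgood : Good (CZ u) v.1 := v.2
    rw [hv] at hgood
    obtain ⟨h1, h2⟩ := hgood
    simp only at h1 h2
    refine ⟨e, t, h2.le, Subtype.ext ?_⟩
    rw [hv, pt_mid e h1 h2]

/-- the hub below an edge -/
def be (e : (CZ u).E) : ℕ := ei e

lemma reach_src (e : (CZ u).E) : (gr (CZ u)).Reachable (rt u) (pt e 0) := by
  rcases e with e | x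
  · obtain ⟨⟨i, s, l, b⟩, v1, v2, v3⟩ := e
    simp only at v1 v2
    have h1 : pt (Y := CZ u) (Sum.inl ⟨⟨i, s, l, b⟩, v1, v2, v3⟩) 0 = pt (ez u i s l v1 v2) 0 :=
      pt_congr rfl
    rw [h1]
    exact (reach_hub i).trans (reach_level i s l v1 v2)
  · have h1 : pt (Y := CZ u) (Sum.inr x) 0 = hv u x.1.1 := by
      exact eq_hv u (pt_zero (Y := CZ u) _)
    rw [h1]
    exact reach_hub _

theorem connected : (gr (CZ u)).Connected := by
  have h : ∀ v, (gr (CZ u)).Reachable (rt u) v := by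
    intro v
    obtain ⟨e, t, ht, rfl⟩ := exists_pt v
    exact (reach_src e).trans (reach_pt _ t ht)
  haveI : Nonempty (Vx (CZ u)) := ⟨rt u⟩
  exact ⟨fun a b => (h a).symm.trans (h b)⟩

theorem nbr_nonempty (v : Vx (CZ u)) : ((gr (CZ u)).neighborFinset v).Nonempty := by
  obtain ⟨e, t, ht, rfl⟩ := exists_pt v
  have h2 := (CZ u).two_le e
  rcases Nat.lt_or_ge t ((CZ u).len e) with h | h
  · exact ⟨pt e (t + 1), by
      rw [SimpleGraph.mem_neighborFinset]
      exact ⟨e, t, h, Or.inl ⟨rfl, rfl⟩⟩⟩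
  · have : t = (t - 1) + 1 := by omega
    exact ⟨pt e (t - 1), by
      rw [SimpleGraph.mem_neighborFinset]
      exact ⟨e, t - 1, by omega, Or.inr ⟨rfl, by rw [← this]⟩⟩⟩

/-! distances -/

lemma dist_pt (e : (CZ u).E) (t : ℕ) (ht : t ≤ (CZ u).len e) :
    (gr (CZ u)).dist (pt e 0) (pt e t) ≤ t := by
  induction t with
  | zero => simp
  | succ t ih =>
    have h1 := connected.dist_triangle (u := pt e 0) (v := pt e t) (w := pt e (t + 1)) (G := gr (CZ u))
    have h2 : (gr (CZ u)).dist (pt e t) (pt e (t + 1)) = 1 :=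
      SimpleGraph.dist_eq_one_iff_adj.mpr ⟨e, t, by omega, Or.inl ⟨rfl, rfl⟩⟩
    have := ih (by omega)
    omega

lemma dist_level (i s l : ℕ) (h1 : s < 2 ^ (i + 1)) (h2 : l ≤ 24) :
    (gr (CZ u)).dist (hv u i) (pt (ez u i s l h1 h2) 0) ≤ 400 * l := by
  induction l with
  | zero =>
    have : hv u i = pt (ez u i s 0 h1 h2) 0 := pt_congr rfl
    rw [this]
    simp
  | succ l ih =>
    have h3 := dist_pt (ez u i s l h1 (by omega)) _ le_rfl
    have h4 : pt (ez u i s l h1 (by omega)) ((CZ u).len (ez u i s l h1 (by omega))) =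
        pt (ez u i s (l + 1) h1 h2) 0 := pt_congr' rfl
    have h5 := len_le (ez u i s l h1 (by omega))
    rw [h4] at h3
    have h6 := connected.dist_triangle (u := hv u i) (v := pt (ez u i s l h1 (by omega)) 0)
      (w := pt (ez u i s (l + 1) h1 h2) 0) (G := gr (CZ u))
    have := ih (by omega)
    omega

lemma dist_src (e : (CZ u).E) : (gr (CZ u)).dist (hv u (ei e)) (pt e 0) ≤ 9600 := by
  rcases e with e | x
  · obtain ⟨⟨i, s, l, b⟩, v1, v2, v3⟩ := e
    simp only at v1 v2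
    have h1 : pt (Y := CZ u) (Sum.inl ⟨⟨i, s, l, b⟩, v1, v2, v3⟩) 0 = pt (ez u i s l v1 v2) 0 :=
      pt_congr rfl
    rw [h1]
    have := dist_level (u := u) i s l v1 v2
    show (gr (CZ u)).dist (hv u i) _ ≤ _
    omega
  · have h1 : pt (Y := CZ u) (Sum.inr x) 0 = hv u x.1.1 := by
      exact eq_hv u (pt_zero (Y := CZ u) _)
    rw [h1]
    show (gr (CZ u)).dist (hv u x.1.1) _ ≤ _
    simp

lemma dist_edge (e : (CZ u).E) (t : ℕ) (ht : t ≤ (CZ u).len e) :
    (gr (CZ u)).dist (hv u (ei e)) (pt e t) ≤ 10000 := by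
  have h1 := dist_src e
  have h2 := dist_pt e t ht
  have h3 := len_le e
  have h4 := connected.dist_triangle (u := hv u (ei e)) (v := pt e 0) (w := pt e t) (G := gr (CZ u))
  omega

lemma dist_succ (i : ℕ) : (gr (CZ u)).dist (hv u i) (hv u (i + 1)) ≤ 10000 := by
  have h := dist_edge (ez u i 0 24 (by positivity) le_rfl) _ le_rfl
  have h4 : pt (ez u i 0 24 (by positivity) le_rfl) ((CZ u).len (ez u i 0 24 (by positivity) le_rfl)) =
      hv u (i + 1) := by
    apply eq_hv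
    rw [pt_len _ le_rfl]
    show Sum.inl (Ps i 0 25) = _
    simp [Ps]
  rw [h4] at h
  exact h

lemma dist_up {i j : ℕ} (h : j ∈ u.up i) : (gr (CZ u)).dist (hv u i) (hv u j) ≤ 2 := by
  have h2 := dist_pt (u := u) (Sum.inr ⟨(i, j), h⟩) 2 le_rfl
  have e1 : pt (Y := CZ u) (Sum.inr ⟨(i, j), h⟩) 0 = hv u i := by
    exact eq_hv u (pt_zero (Y := CZ u) _)
  have e2 : pt (Y := CZ u) (Sum.inr ⟨(i, j), h⟩) 2 = hv u j := by
    apply eq_hv
    exact pt_len _ le_rfl
  rw [e1, e2] at h2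
  exact h2

/-- the data that tie the hubs to the lattice -/
structure Lat (u : Up) (i0 : ℕ) (Pt : ℕ → ℤ × ℤ × ℤ) : Prop where
  s1 : ∀ i, l1 (Pt i) (Pt (i + 1)) ≤ 3
  s2 : ∀ i, i0 ≤ i → ∀ j, i < j → l1 (Pt i) (Pt j) ≤ 1 → j ∈ u.up i
  s3 : ∀ i, ∀ j ∈ u.up i, l1 (Pt i) (Pt j) ≤ 1
  s4 : ∀ z, ∃ k, i0 ≤ k ∧ Pt k = z
  s5 : ∀ i, i ≤ i0 → Pt i = Pt i0

variable {i0 : ℕ} {Pt : ℕ → ℤ × ℤ × ℤ}

lemma dist_near (L : Lat u i0 Pt) {i j : ℕ} (hi : i0 ≤ i) (hj : i0 ≤ j) (h : l1 (Pt i) (Pt j) ≤ 1) :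
    (gr (CZ u)).dist (hv u i) (hv u j) ≤ 2 := by
  rcases lt_trichotomy i j with h1 | h1 | h1
  · exact dist_up (L.s2 i hi j h1 h)
  · subst h1; simp
  · rw [SimpleGraph.dist_comm]
    rw [l1_comm] at h
    exact dist_up (L.s2 j hj i h1 h)

lemma dist_far (L : Lat u i0 Pt) (n : ℕ) : ∀ i j : ℕ, i0 ≤ i → i0 ≤ j → l1 (Pt i) (Pt j) = n →
    (gr (CZ u)).dist (hv u i) (hv u j) ≤ 2 * (n + 1) := by
  induction n with
  | zero =>
    intro i j hi hj h
    exact (dist_near L hi hj (by omega)).trans (by omega)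
  | succ n ih =>
    intro i j hi hj h
    obtain ⟨z, h1, h2⟩ := l1_step h
    obtain ⟨k, hk, rfl⟩ := L.s4 z
    have h3 := dist_near L hi hk (by omega)
    have h4 := ih k j hk hj h2
    have h5 := connected.dist_triangle (u := hv u i) (v := hv u k) (w := hv u j) (G := gr (CZ u))
    omega

lemma dist_low (i0 : ℕ) : ∀ k, (gr (CZ u)).dist (hv u i0) (hv u (i0 + k)) ≤ 10000 * k := by
  intro k
  induction k with
  | zero => simp
  | succ k ih =>
    have h1 := dist_succ (u := u) (i0 + k)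
    have h5 := connected.dist_triangle (u := hv u i0) (v := hv u (i0 + k)) (w := hv u (i0 + k + 1))
      (G := gr (CZ u))
    have : i0 + (k + 1) = i0 + k + 1 := by omega
    rw [this]
    omega

lemma dist_hub (L : Lat u i0 Pt) (i j : ℕ) :
    (gr (CZ u)).dist (hv u i) (hv u j) ≤ 2 * l1 (Pt i) (Pt j) + 2 + 20000 * i0 := by
  have key : ∀ i, ∃ i', i0 ≤ i' ∧ Pt i' = Pt i ∧ (gr (CZ u)).dist (hv u i) (hv u i') ≤ 10000 * i0 := by
    intro i
    rcases le_total i0 i with h | h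
    · exact ⟨i, h, rfl, by simp⟩
    · refine ⟨i0, le_rfl, (L.s5 i h).symm, ?_⟩
      have := dist_low (u := u) i (i0 - i)
      rw [Nat.add_sub_cancel' h] at this
      refine this.trans ?_
      exact Nat.mul_le_mul_left _ (Nat.sub_le _ _)
  obtain ⟨i', hi', ei', di⟩ := key i
  obtain ⟨j', hj', ej', dj⟩ := key j
  have h1 := dist_far L _ i' j' hi' hj' rfl
  rw [ei', ej'] at h1
  have h2 := connected.dist_triangle (u := hv u i) (v := hv u i') (w := hv u j) (G := gr (CZ u))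
  have h3 := connected.dist_triangle (u := hv u i') (v := hv u j') (w := hv u j) (G := gr (CZ u))
  rw [SimpleGraph.dist_comm] at dj
  omega

/-- the base hub of a vertex -/
def bi (v : Vx (CZ u)) : ℕ :=
  match v.1 with
  | Sum.inl (Nd.hub i) => i
  | Sum.inl (Nd.nd i _ _) => i
  | Sum.inr p => ei p.1

lemma bi_hub {v : Vx (CZ u)} {i : ℕ} (h : v.1 = Sum.inl (Nd.hub i)) : bi v = i := by
  unfold bi; rw [h]

lemma bi_nd {v : Vx (CZ u)} {i s x : ℕ} (h : v.1 = Sum.inl (Nd.nd i s x)) : bi v = i := by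
  unfold bi; rw [h]

lemma bi_mid {v : Vx (CZ u)} {p : (CZ u).E × ℕ} (h : v.1 = Sum.inr p) : bi v = ei p.1 := by
  unfold bi; rw [h]

lemma bi_Ps {v : Vx (CZ u)} {i s x : ℕ} (h : v.1 = Sum.inl (Ps i s x)) :
    bi v = if x = 25 then i + 1 else i := by
  unfold Ps at h
  by_cases h1 : x = 0
  · rw [if_pos h1] at h
    rw [bi_hub h, if_neg (by omega)]
  · rw [if_neg h1] at h
    by_cases h2 : x = 25
    · rw [if_pos h2] at h
      rw [bi_hub h, if_pos h2]
    · rw [if_neg h2] at h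
      rw [bi_nd h, if_neg h2]

/-- the far end of an edge in the lattice -/
def fe (Pt : ℕ → ℤ × ℤ × ℤ) (e : (CZ u).E) : ℤ × ℤ × ℤ :=
  match e with
  | Sum.inl e => Pt (e.1.i + 1)
  | Sum.inr x => Pt x.1.2

/-- base hubs of the points of an edge -/
lemma bi_pt (Pt : ℕ → ℤ × ℤ × ℤ) (e : (CZ u).E) {t : ℕ} (ht : t ≤ (CZ u).len e) :
    Pt (bi (pt e t)) = Pt (ei e) ∨ Pt (bi (pt e t)) = fe Pt e := by
  have h2 := (CZ u).two_le e
  rcases Nat.eq_zero_or_pos t with h0 | h0
  · subst h0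
    left
    rcases e with e | x
    · have h : (pt (Y := CZ u) (Sum.inl e) 0).1 = Sum.inl (Ps e.1.i e.1.s e.1.l) := pt_zero _
      rw [bi_Ps h, if_neg (by have := e.2.2.1; omega)]
      rfl
    · have h : (pt (Y := CZ u) (Sum.inr x) 0).1 = Sum.inl (Nd.hub x.1.1) := pt_zero _
      rw [bi_hub h]
      rfl
  · rcases Nat.lt_or_ge t ((CZ u).len e) with h1 | h1
    · left
      rw [bi_mid (pt_mid e h0 h1)]
    · rcases e with e | x
      · have h : (pt (Y := CZ u) (Sum.inl e) t).1 = Sum.inl (Ps e.1.i e.1.s (e.1.l + 1)) :=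
          pt_len _ h1
        by_cases h25 : e.1.l + 1 = 25
        · right
          rw [bi_Ps h, if_pos h25]
          rfl
        · left
          rw [bi_Ps h, if_neg h25]
          rfl
      · have h : (pt (Y := CZ u) (Sum.inr x) t).1 = Sum.inl (Nd.hub x.1.2) := pt_len _ h1
        right
        rw [bi_hub h]
        rfl

lemma lip_edge (L : Lat u i0 Pt) (e : (CZ u).E) {t t' : ℕ} (ht : t ≤ (CZ u).len e)
    (ht' : t' ≤ (CZ u).len e) : l1 (Pt (bi (pt e t))) (Pt (bi (pt e t'))) ≤ 3 := by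
  have hb : l1 (Pt (ei e)) (fe Pt e) ≤ 3 := by
    rcases e with e | x
    · exact L.s1 e.1.i
    · exact (L.s3 x.1.1 x.1.2 x.2).trans (by omega)
  rcases bi_pt Pt e ht with hc | hc <;> rcases bi_pt Pt e ht' with hc' | hc' <;> rw [hc, hc']
  · rw [l1_self]; omega
  · exact hb
  · rw [l1_comm]; exact hb
  · rw [l1_self]; omega

lemma lip_adj (L : Lat u i0 Pt) {v w : Vx (CZ u)} (h : (gr (CZ u)).Adj v w) :
    l1 (Pt (bi v)) (Pt (bi w)) ≤ 3 := by
  obtain ⟨e, t, ht, ⟨rfl, rfl⟩ | ⟨rfl, rfl⟩⟩ := h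
  · exact lip_edge L e (by omega) (by omega)
  · exact lip_edge L e (by omega) (by omega)

lemma lip_walk (L : Lat u i0 Pt) {v w : Vx (CZ u)} (p : (gr (CZ u)).Walk v w) :
    l1 (Pt (bi v)) (Pt (bi w)) ≤ 3 * p.length := by
  induction p with
  | nil => rw [l1_self]; omega
  | @cons a b c h p ih =>
    have h1 := lip_adj L h
    have h2 := l1_tri (Pt (bi a)) (Pt (bi b)) (Pt (bi c))
    rw [SimpleGraph.Walk.length_cons]
    omega

lemma lip (L : Lat u i0 Pt) (v w : Vx (CZ u)) :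
    l1 (Pt (bi v)) (Pt (bi w)) ≤ 3 * (gr (CZ u)).dist v w := by
  obtain ⟨p, hp⟩ := (connected.preconnected v w).exists_walk_length_eq_dist
  rw [← hp]
  exact lip_walk L p

lemma dist_base (v : Vx (CZ u)) : (gr (CZ u)).dist v (hv u (bi v)) ≤ 20000 := by
  obtain ⟨e, t, ht, rfl⟩ := exists_pt v
  have h1 := dist_edge e t ht
  rw [SimpleGraph.dist_comm]
  by_cases hb : bi (pt e t) = ei e
  · rw [hb]; omega
  · -- the end of an edge, where the point is a hub
    have h2 := (CZ u).two_le e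
    have h3 : (pt e t).1 = Sum.inl (Nd.hub (bi (pt e t))) := by
      rcases Nat.eq_zero_or_pos t with h0 | h0
      · subst h0
        rcases e with e | x
        · exfalso
          apply hb
          have h : (pt (Y := CZ u) (Sum.inl e) 0).1 = Sum.inl (Ps e.1.i e.1.s e.1.l) := pt_zero _
          rw [bi_Ps h, if_neg (by have := e.2.2.1; omega)]
          rfl
        · exfalso
          apply hb
          have h : (pt (Y := CZ u) (Sum.inr x) 0).1 = Sum.inl (Nd.hub x.1.1) := pt_zero _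
          rw [bi_hub h]
          rfl
      · rcases Nat.lt_or_ge t ((CZ u).len e) with h1 | h1
        · exfalso
          apply hb
          rw [bi_mid (pt_mid e h0 h1)]
        · rcases e with e | x
          · have h : (pt (Y := CZ u) (Sum.inl e) t).1 = Sum.inl (Ps e.1.i e.1.s (e.1.l + 1)) :=
              pt_len _ h1
            by_cases h25 : e.1.l + 1 = 25
            · rw [bi_Ps h, if_pos h25, h]
              unfold Ps
              rw [if_neg (by omega), if_pos h25]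
            · exfalso
              apply hb
              rw [bi_Ps h, if_neg h25]
              rfl
          · have h : (pt (Y := CZ u) (Sum.inr x) t).1 = Sum.inl (Nd.hub x.1.2) := pt_len _ h1
            rw [bi_hub h, h]
    have h4 : pt e t = hv u (bi (pt e t)) := eq_hv u h3
    rw [← h4]
    simp

theorem upper (L : Lat u i0 Pt) (v w : Vx (CZ u)) :
    (gr (CZ u)).dist v w ≤ 2 * l1 (Pt (bi v)) (Pt (bi w)) + (40002 + 20000 * i0) := by
  have h1 := dist_base v
  have h2 := dist_base w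
  have h3 := dist_hub L (bi v) (bi w)
  have h4 := connected.dist_triangle (u := v) (v := hv u (bi v)) (w := w) (G := gr (CZ u))
  have h5 := connected.dist_triangle (u := hv u (bi v)) (v := hv u (bi w)) (w := w) (G := gr (CZ u))
  rw [SimpleGraph.dist_comm] at h2
  omega

end

end Pool.Agent.H575R3.ZZ
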