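import Mathlib
import Pool.Agent.H575R3.ZRough

/-!
A walk through all points of the cubic lattice, shell by shell.
-/

open Finset

namespace Pool.Agent.H575R3.ZZ

/-- the shell of radius `n` -/
def sh (n : ℕ) (x : ℤ × ℤ × ℤ) : Prop :=
  x.1.natAbs ≤ n ∧ x.2.1.natAbs ≤ n ∧ x.2.2.natAbs ≤ n ∧
    (x.1.natAbs = n ∨ x.2.1.natAbs = n ∨ x.2.2.natAbs = n)

instance (n : ℕ) (x : ℤ × ℤ × ℤ) : Decidable (sh n x) := by unfold sh; infer_instance

/-- one step towards the corner -/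
def FF (n : ℕ) (x : ℤ × ℤ × ℤ) : ℤ × ℤ × ℤ :=
  if x.1.natAbs = n then
    (if x.2.1 < n then (x.1, x.2.1 + 1, x.2.2) else if x.2.2 < n then (x.1, x.2.1, x.2.2 + 1)
      else if x.1 < n then (x.1 + 1, x.2.1, x.2.2) else x)
  else (if x.1 < n then (x.1 + 1, x.2.1, x.2.2) else x)

lemma FF_sh {n : ℕ} {x : ℤ × ℤ × ℤ} (h : sh n x) : sh n (FF n x) := by
  obtain ⟨a, b, c⟩ := x
  unfold sh at h
  unfold FF sh
  simp only at h ⊢
  split_ifs <;> simp only <;> omega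

lemma FF_l1 (n : ℕ) (x : ℤ × ℤ × ℤ) : l1 x (FF n x) ≤ 1 := by
  obtain ⟨a, b, c⟩ := x
  unfold FF l1
  simp only
  split_ifs <;> simp only <;> omega

def mu (n : ℕ) (x : ℤ × ℤ × ℤ) : ℕ := ((n : ℤ) - x.1).toNat + ((n : ℤ) - x.2.1).toNat +
  ((n : ℤ) - x.2.2).toNat

lemma FF_mu {n : ℕ} {x : ℤ × ℤ × ℤ} (h : sh n x) : mu n (FF n x) = mu n x - 1 := by
  obtain ⟨a, b, c⟩ := x
  unfold sh at h
  unfold FF mu
  simp only at h ⊢
  split_ifs <;> simp only <;> omega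

lemma it_sh {n : ℕ} {x : ℤ × ℤ × ℤ} (h : sh n x) (k : ℕ) : sh n ((FF n)^[k] x) := by
  induction k with
  | zero => exact h
  | succ k ih => rw [Function.iterate_succ_apply']; exact FF_sh ih

lemma it_mu {n : ℕ} {x : ℤ × ℤ × ℤ} (h : sh n x) (k : ℕ) : mu n ((FF n)^[k] x) = mu n x - k := by
  induction k with
  | zero => rfl
  | succ k ih => rw [Function.iterate_succ_apply', FF_mu (it_sh h k), ih]; omega

lemma it_corner {n : ℕ} {x : ℤ × ℤ × ℤ} (h : sh n x) {k : ℕ} (hk : 6 * n ≤ k) :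
    (FF n)^[k] x = ((n : ℤ), (n : ℤ), (n : ℤ)) := by
  have h1 := it_mu h k
  have h2 := it_sh h k
  have h3 : mu n x ≤ 6 * n := by
    unfold sh at h
    unfold mu
    omega
  have h4 : mu n ((FF n)^[k] x) = 0 := by omega
  generalize (FF n)^[k] x = y at h2 h4
  obtain ⟨a, b, c⟩ := y
  unfold sh at h2
  unfold mu at h4
  simp only at h2 h4
  refine Prod.ext ?_ (Prod.ext ?_ ?_) <;> simp only <;> omega

def qw (n : ℕ) (x : ℤ × ℤ × ℤ) (k : ℕ) : ℤ × ℤ × ℤ := (FF n)^[(6 * n - k) + (k - 6 * n)] x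

lemma qw_step (n : ℕ) (x : ℤ × ℤ × ℤ) (k : ℕ) : l1 (qw n x k) (qw n x (k + 1)) ≤ 1 := by
  unfold qw
  rcases Nat.lt_or_ge k (6 * n) with h | h
  · have : (6 * n - k) + (k - 6 * n) = ((6 * n - (k + 1)) + ((k + 1) - 6 * n)) + 1 := by omega
    rw [this, Function.iterate_succ_apply', l1_comm]
    exact FF_l1 _ _
  · have : (6 * n - (k + 1)) + ((k + 1) - 6 * n) = ((6 * n - k) + (k - 6 * n)) + 1 := by omega
    rw [this, Function.iterate_succ_apply']
    exact FF_l1 _ _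

/-- the bound for the points in the box -/
def MM (n : ℕ) : ℕ := ((2 * n + 1) ^ 2 + 1) ^ 2

def pn (n m : ℕ) : ℤ × ℤ × ℤ :=
  if sh n (((Nat.unpair m).1 : ℤ) - n, ((Nat.unpair (Nat.unpair m).2).1 : ℤ) - n,
    ((Nat.unpair (Nat.unpair m).2).2 : ℤ) - n) then
    (((Nat.unpair m).1 : ℤ) - n, ((Nat.unpair (Nat.unpair m).2).1 : ℤ) - n,
      ((Nat.unpair (Nat.unpair m).2).2 : ℤ) - n)
  else ((n : ℤ), (n : ℤ), (n : ℤ))

lemma corner_sh (n : ℕ) : sh n ((n : ℤ), (n : ℤ), (n : ℤ)) := by unfold sh; simp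

lemma pn_sh (n m : ℕ) : sh n (pn n m) := by
  unfold pn
  split_ifs with h
  · exact h
  · exact corner_sh n

lemma pn_surj {n : ℕ} {x : ℤ × ℤ × ℤ} (h : sh n x) : ∃ m, m ≤ MM n ∧ pn n m = x := by
  obtain ⟨a, b, c⟩ := x
  have h' := h
  unfold sh at h'
  simp only at h'
  obtain ⟨a', ha⟩ : ∃ a' : ℕ, (a' : ℤ) = a + n := ⟨(a + n).toNat, by omega⟩
  obtain ⟨b', hb⟩ : ∃ b' : ℕ, (b' : ℤ) = b + n := ⟨(b + n).toNat, by omega⟩
  obtain ⟨c', hc⟩ : ∃ c' : ℕ, (c' : ℤ) = c + n := ⟨(c + n).toNat, by omega⟩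
  refine ⟨Nat.pair a' (Nat.pair b' c'), ?_, ?_⟩
  · have h1 : Nat.pair b' c' < (2 * n + 1) ^ 2 := by
      refine (Nat.pair_lt_max_add_one_sq b' c').trans_le ?_
      apply Nat.pow_le_pow_left
      omega
    have h2 : Nat.pair a' (Nat.pair b' c') < ((2 * n + 1) ^ 2 + 1) ^ 2 := by
      refine (Nat.pair_lt_max_add_one_sq _ _).trans_le ?_
      apply Nat.pow_le_pow_left
      have h3 : 2 * n + 1 ≤ (2 * n + 1) ^ 2 := Nat.le_self_pow (by norm_num) _
      omega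
    exact h2.le
  · unfold pn
    simp only [Nat.unpair_pair]
    have e1 : ((a' : ℤ) - n, (b' : ℤ) - n, (c' : ℤ) - n) = (a, b, c) := by
      rw [ha, hb, hc]; simp
    rw [e1, if_pos h]

def nx (s : ℕ × ℕ × ℕ) : ℕ × ℕ × ℕ :=
  if s.2.2 < 12 * s.1 then (s.1, s.2.1, s.2.2 + 1) else if s.2.1 < MM s.1 then (s.1, s.2.1 + 1, 0)
    else (s.1 + 1, 0, 0)

def stt : ℕ → ℕ × ℕ × ℕ
  | 0 => (0, 0, 0)
  | i + 1 => nx (stt i)

def Qp (i : ℕ) : ℤ × ℤ × ℤ := qw (stt i).1 (pn (stt i).1 (stt i).2.1) (stt i).2.2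

lemma Qp_step (i : ℕ) : l1 (Qp i) (Qp (i + 1)) ≤ 3 := by
  unfold Qp
  simp only [stt]
  generalize stt i = s
  obtain ⟨n, m, k⟩ := s
  unfold nx
  simp only
  split_ifs with h1 h2
  · exact (qw_step _ _ _).trans (by omega)
  · have e1 : qw n (pn n m) k = ((n : ℤ), (n : ℤ), (n : ℤ)) := by
      unfold qw
      exact it_corner (pn_sh n m) (by omega)
    have e2 : qw n (pn n (m + 1)) 0 = ((n : ℤ), (n : ℤ), (n : ℤ)) := by
      unfold qw
      exact it_corner (pn_sh n (m + 1)) (by omega)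
    simp only [e1, e2, l1_self]
    omega
  · have e1 : qw n (pn n m) k = ((n : ℤ), (n : ℤ), (n : ℤ)) := by
      unfold qw
      exact it_corner (pn_sh n m) (by omega)
    have e2 : qw (n + 1) (pn (n + 1) 0) 0 = (((n + 1 : ℕ) : ℤ), ((n + 1 : ℕ) : ℤ), ((n + 1 : ℕ) : ℤ)) := by
      unfold qw
      exact it_corner (pn_sh (n + 1) 0) (by omega)
    simp only [e1, e2]
    unfold l1
    simp only
    omega

lemma Qp_sh (i : ℕ) : sh (stt i).1 (Qp i) := by
  unfold Qp qw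
  exact it_sh (pn_sh _ _) _

lemma reach_k {i n m : ℕ} (h : stt i = (n, m, 0)) : ∀ k, k ≤ 12 * n → stt (i + k) = (n, m, k) := by
  intro k
  induction k with
  | zero => intro _; exact h
  | succ k ih =>
    intro hk
    have h1 := ih (by omega)
    have : stt (i + (k + 1)) = nx (stt (i + k)) := rfl
    rw [this, h1]
    unfold nx
    simp only
    rw [if_pos (by omega)]

lemma reach_m {i n : ℕ} (h : stt i = (n, 0, 0)) : ∀ m, m ≤ MM n → ∃ j, stt j = (n, m, 0) := by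
  intro m
  induction m with
  | zero => intro _; exact ⟨i, h⟩
  | succ m ih =>
    intro hm
    obtain ⟨j, hj⟩ := ih (by omega)
    have h1 := reach_k hj (12 * n) le_rfl
    refine ⟨j + 12 * n + 1, ?_⟩
    have : stt (j + 12 * n + 1) = nx (stt (j + 12 * n)) := rfl
    rw [this, h1]
    unfold nx
    simp only
    rw [if_neg (by omega), if_pos (by omega)]

lemma reach_n (n : ℕ) : ∃ i, stt i = (n, 0, 0) := by
  induction n with
  | zero => exact ⟨0, rfl⟩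
  | succ n ih =>
    obtain ⟨i, hi⟩ := ih
    obtain ⟨j, hj⟩ := reach_m hi (MM n) le_rfl
    have h1 := reach_k hj (12 * n) le_rfl
    refine ⟨j + 12 * n + 1, ?_⟩
    have : stt (j + 12 * n + 1) = nx (stt (j + 12 * n)) := rfl
    rw [this, h1]
    unfold nx
    simp only
    rw [if_neg (by omega), if_neg (by omega)]

lemma Qp_surj (z : ℤ × ℤ × ℤ) : ∃ i, Qp i = z := by
  obtain ⟨n, hn⟩ : ∃ n, sh n z := by
    refine ⟨max z.1.natAbs (max z.2.1.natAbs z.2.2.natAbs), ?_⟩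
    unfold sh
    omega
  obtain ⟨m, hm, hm2⟩ := pn_surj hn
  obtain ⟨i, hi⟩ := reach_n n
  obtain ⟨j, hj⟩ := reach_m hi m hm
  have h1 := reach_k hj (6 * n) (by omega)
  refine ⟨j + 6 * n, ?_⟩
  unfold Qp
  rw [h1]
  simp only [hm2]
  unfold qw
  simp

def RN (n : ℕ) : ℕ := (12 * n + 1) * (MM n + 1)

lemma MM_mono {a b : ℕ} (h : a ≤ b) : MM a ≤ MM b := by
  unfold MM
  apply Nat.pow_le_pow_left
  have := Nat.pow_le_pow_left (show 2 * a + 1 ≤ 2 * b + 1 by omega) 2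
  omega

lemma RN_mono {a b : ℕ} (h : a ≤ b) : RN a ≤ RN b := by
  unfold RN
  exact Nat.mul_le_mul (by omega) (by have := MM_mono h; omega)

lemma stt_inv (i : ℕ) : (stt i).1 ≤ i ∧ (stt i).2.2 ≤ 12 * (stt i).1 ∧ (stt i).2.1 ≤ MM (stt i).1 ∧
    i ≤ (stt i).1 * RN (stt i).1 + (stt i).2.1 * (12 * (stt i).1 + 1) + (stt i).2.2 := by
  induction i with
  | zero => simp [stt]
  | succ i ih =>
    simp only [stt]
    generalize stt i = s at ih
    obtain ⟨n, m, k⟩ := s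
    simp only at ih
    obtain ⟨h1, h2, h3, h4⟩ := ih
    unfold nx
    simp only
    split_ifs with g1 g2
    · simp only
      refine ⟨by omega, by omega, by omega, by omega⟩
    · simp only
      refine ⟨by omega, by omega, by omega, ?_⟩
      have : (m + 1) * (12 * n + 1) = m * (12 * n + 1) + (12 * n + 1) := by ring
      omega
    · simp only
      refine ⟨by omega, by omega, by omega, ?_⟩
      have hm : m = MM n := by omega
      have hk : k = 12 * n := by omega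
      subst hm
      subst hk
      have e1 : n * RN n + MM n * (12 * n + 1) + 12 * n + 1 = (n + 1) * RN n := by
        unfold RN; ring
      have e2 : (n + 1) * RN n ≤ (n + 1) * RN (n + 1) := Nat.mul_le_mul_left _ (RN_mono (by omega))
      omega

lemma stt_lt (i : ℕ) : i < ((stt i).1 + 1) * RN (stt i).1 := by
  obtain ⟨h1, h2, h3, h4⟩ := stt_inv i
  generalize stt i = s at h1 h2 h3 h4
  obtain ⟨n, m, k⟩ := s
  simp only at h1 h2 h3 h4 ⊢
  have e1 : n * RN n + MM n * (12 * n + 1) + 12 * n + 1 = (n + 1) * RN n := by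
    unfold RN; ring
  have e2 : m * (12 * n + 1) ≤ MM n * (12 * n + 1) := Nat.mul_le_mul_right _ h3
  omega

def DD (i : ℕ) : ℕ := (i + 2) * RN (i + 1)

lemma sh_near {a b : ℕ} {x y : ℤ × ℤ × ℤ} (h1 : sh a x) (h2 : sh b y) (h : l1 x y ≤ 1) :
    b ≤ a + 1 := by
  unfold sh at h1 h2
  unfold l1 at h
  omega

lemma Qp_near {i j : ℕ} (h : l1 (Qp i) (Qp j) ≤ 1) : j < DD i := by
  have h3 := sh_near (Qp_sh i) (Qp_sh j) h
  have h4 := (stt_inv i).1
  have h5 := stt_lt j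
  clear h
  generalize (stt j).1 = b at h3 h5
  generalize (stt i).1 = a at h3 h4
  have h6 : (b + 1) * RN b ≤ (i + 2) * RN (i + 1) :=
    Nat.mul_le_mul (by omega) (RN_mono (by omega))
  unfold DD
  exact h5.trans_le h6

lemma MM_le (n : ℕ) : MM n + 1 ≤ 17 * (n + 1) ^ 4 := by
  unfold MM
  have h0 : 4 * (n + 1) ^ 2 = (2 * n + 1) ^ 2 + (4 * n + 3) := by ring
  have h1 : (2 * n + 1) ^ 2 + 1 ≤ 4 * (n + 1) ^ 2 := by omega
  have h2 := Nat.pow_le_pow_left h1 2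
  have h3 : (4 * (n + 1) ^ 2) ^ 2 = 16 * (n + 1) ^ 4 := by ring
  have h4 : 1 ≤ (n + 1) ^ 4 := Nat.one_le_pow _ _ (by omega)
  omega

lemma RN_le (n : ℕ) : RN n ≤ 204 * (n + 1) ^ 5 := by
  unfold RN
  calc (12 * n + 1) * (MM n + 1) ≤ (12 * (n + 1)) * (17 * (n + 1) ^ 4) :=
        Nat.mul_le_mul (by omega) (MM_le n)
    _ = 204 * (n + 1) ^ 5 := by ring

lemma DD_le (i : ℕ) : (i + 1) + DD (i + 1) + 1 ≤ 205 * (i + 3) ^ 6 := by
  unfold DD
  have h1 := RN_le (i + 1 + 1)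
  have h2 : (i + 1 + 2) * RN (i + 1 + 1) ≤ (i + 3) * (204 * (i + 1 + 1 + 1) ^ 5) :=
    Nat.mul_le_mul (by omega) h1
  have h3 : (i + 3) * (204 * (i + 1 + 1 + 1) ^ 5) = 204 * (i + 3) ^ 6 := by ring
  have h4 : i + 3 ≤ (i + 3) ^ 6 := Nat.le_self_pow (by norm_num) _
  omega

lemma exists_i0 : ∃ i0 : ℕ, 1 ≤ i0 ∧ ∀ i : ℕ, i0 ≤ i + 1 →
    (22500 : ℝ) * ((205 * ((i : ℝ) + 3) ^ 6) * (205 * ((i : ℝ) + 3) ^ 6)) ≤ (3 / 2) ^ i := by
  have h := tendsto_pow_const_mul_const_pow_of_abs_lt_one 12 (r := (2 / 3 : ℝ))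
    (by rw [abs_of_pos (by norm_num)]; norm_num)
  have hε : (0 : ℝ) < (2 / 3) ^ 3 / (22500 * 42025) := by positivity
  have h2 := (h.eventually (gt_mem_nhds hε)).exists_forall_of_atTop
  obtain ⟨n0, hn0⟩ := h2
  refine ⟨n0 + 1, by omega, fun i hi => ?_⟩
  have h3 := hn0 (i + 3) (by omega)
  have h4 : (0 : ℝ) < (3 / 2) ^ (i + 3) := by positivity
  have h5 : ((i + 3 : ℕ) : ℝ) ^ 12 * (2 / 3) ^ (i + 3) * (3 / 2) ^ (i + 3) = ((i : ℝ) + 3) ^ 12 := by
    rw [mul_assoc, ← mul_pow]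
    norm_num
  have h6 := mul_le_mul_of_nonneg_right h3.le h4.le
  rw [h5] at h6
  have h7 : ((2 : ℝ) / 3) ^ 3 / (22500 * 42025) * (3 / 2) ^ (i + 3) =
      (3 / 2) ^ i / (22500 * 42025) := by
    rw [pow_add]
    ring
  rw [h7] at h6
  have h8 : (22500 : ℝ) * ((205 * ((i : ℝ) + 3) ^ 6) * (205 * ((i : ℝ) + 3) ^ 6)) =
      (22500 * 42025) * ((i : ℝ) + 3) ^ 12 := by ring
  rw [h8]
  rw [le_div_iff₀ (by norm_num)] at h6
  linarith

/-- the position of hub `i` in the lattice -/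
def PP (i0 i : ℕ) : ℤ × ℤ × ℤ := Qp (i - i0)

def upf (i0 i : ℕ) : Finset ℕ :=
  if i < i0 then ∅ else (range (i + DD i + 1)).filter (fun j => i < j ∧ l1 (PP i0 i) (PP i0 j) ≤ 1)

noncomputable def uu : (i0 : ℕ) → (h1 : 1 ≤ i0) → (h2 : ∀ i : ℕ, i0 ≤ i + 1 →
    (22500 : ℝ) * ((205 * ((i : ℝ) + 3) ^ 6) * (205 * ((i : ℝ) + 3) ^ 6)) ≤ (3 / 2) ^ i) → Up :=
  fun i0 h1 h2 =>
  { up := upf i0
    lt := by
      intro i j hj
      unfold upf at hj
      split_ifs at hj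
      · simp at hj
      · exact (Finset.mem_filter.mp hj).2.1
    z := by
      unfold upf
      rw [if_pos (by omega)]
    E := by
      intro i
      unfold upf
      split_ifs with hi
      · simp
        positivity
      · refine le_trans ?_ (h2 i (by omega))
        apply mul_le_mul_of_nonneg_left _ (by norm_num)
        have hB := DD_le i
        have hB' : (((i + 1) + DD (i + 1) + 1 : ℕ) : ℝ) ≤ 205 * ((i : ℝ) + 3) ^ 6 := by
          have : (((i + 1) + DD (i + 1) + 1 : ℕ) : ℝ) ≤ ((205 * (i + 3) ^ 6 : ℕ) : ℝ) := by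
            exact_mod_cast hB
          push_cast at this ⊢
          exact this
        have h3 : ∑ j ∈ (range ((i + 1) + DD (i + 1) + 1)).filter
            (fun j => i + 1 < j ∧ l1 (PP i0 (i + 1)) (PP i0 j) ≤ 1), ((j : ℝ) - ((i + 1 : ℕ) : ℝ)) ≤
            ∑ j ∈ (range ((i + 1) + DD (i + 1) + 1)).filter
            (fun j => i + 1 < j ∧ l1 (PP i0 (i + 1)) (PP i0 j) ≤ 1), (205 * ((i : ℝ) + 3) ^ 6) := by
          apply Finset.sum_le_sum
          intro j hj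
          have hj2 := Finset.mem_range.mp (Finset.mem_filter.mp hj).1
          have hj3 : (j : ℝ) ≤ (((i + 1) + DD (i + 1) + 1 : ℕ) : ℝ) := by exact_mod_cast hj2.le
          have hj4 : (0 : ℝ) ≤ ((i + 1 : ℕ) : ℝ) := by positivity
          linarith
        refine h3.trans ?_
        rw [Finset.sum_const, nsmul_eq_mul]
        apply mul_le_mul_of_nonneg_right _ (by positivity)
        refine le_trans ?_ hB'
        have := Finset.card_filter_le (range ((i + 1) + DD (i + 1) + 1))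
          (fun j => i + 1 < j ∧ l1 (PP i0 (i + 1)) (PP i0 j) ≤ 1)
        rw [Finset.card_range] at this
        exact_mod_cast this }

theorem lat (i0 : ℕ) (h1 : 1 ≤ i0) (h2 : ∀ i : ℕ, i0 ≤ i + 1 →
    (22500 : ℝ) * ((205 * ((i : ℝ) + 3) ^ 6) * (205 * ((i : ℝ) + 3) ^ 6)) ≤ (3 / 2) ^ i) :
    Lat (uu i0 h1 h2) i0 (PP i0) := by
  refine ⟨?_, ?_, ?_, ?_, ?_⟩
  · intro i
    unfold PP
    rcases Nat.lt_or_ge i i0 with h | h
    · have e1 : i - i0 = 0 := by omega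
      have e2 : i + 1 - i0 = 0 := by omega
      rw [e1, e2, l1_self]
      omega
    · have e2 : i + 1 - i0 = (i - i0) + 1 := by omega
      rw [e2]
      exact Qp_step _
  · intro i hi j hij hl
    show j ∈ upf i0 i
    unfold upf
    rw [if_neg (by omega), Finset.mem_filter, Finset.mem_range]
    refine ⟨?_, hij, hl⟩
    unfold PP at hl
    have h3 := Qp_near hl
    have h4 : DD (i - i0) ≤ DD i := by
      unfold DD
      exact Nat.mul_le_mul (by omega) (RN_mono (by omega))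
    omega
  · intro i j hj
    have hj' : j ∈ upf i0 i := hj
    unfold upf at hj'
    split_ifs at hj'
    · simp at hj'
    · exact (Finset.mem_filter.mp hj').2.2
  · intro z
    obtain ⟨k, hk⟩ := Qp_surj z
    refine ⟨i0 + k, by omega, ?_⟩
    unfold PP
    rw [Nat.add_sub_cancel_left]
    exact hk
  · intro i hi
    unfold PP
    have e1 : i - i0 = 0 := by omega
    have e2 : i0 - i0 = 0 := by omega
    rw [e1, e2]

theorem exists_lat : ∃ (u : Up) (i0 : ℕ) (Pt : ℕ → ℤ × ℤ × ℤ), Lat u i0 Pt := by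
  obtain ⟨i0, h1, h2⟩ := exists_i0
  exact ⟨_, _, _, lat i0 h1 h2⟩

end Pool.Agent.H575R3.ZZ
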